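import Mathlib
import Pool.Agent.Lib.MP_2194ec_nt.GAL.Defs4

set_option autoImplicit false

/-!
# The dynamical Lehmer bound for Galois points of rational maps of the projective line:
definitions and statements of the rows

Points of the projective line over `N` are vectors `Fin 2 → N`; forms in two pairs of variables
are elements of `MvPolynomial (Fin 2 ⊕ Fin 2) K`.
-/

namespace Pool.DynLehmer.GS
open MvPolynomial NumberField Filter Topology Pool.DynLehmer Pool.DynLehmer.SB Pool.DynLehmer.SP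
  Pool.DynLehmer.GAL
open scoped Classical

/-! ## Points -/

/-- `P` and `Q` are proportional -/
def Prl {N : Type} [Field N] {ι : Type} (P Q : ι → N) : Prop := ∃ c : N, c ≠ 0 ∧ P = c • Q

/-- the affine coordinate of a point of the projective line, `none` for the point at infinity -/
noncomputable def pr {N : Type} [Field N] (P : Fin 2 → N) : Option N :=
  if P 1 = 0 then none else some (P 0 / P 1)

/-- the degree of a point of the projective line over `K` (the quotient is `0` if `P 1 = 0`) -/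
noncomputable def dg (K : Type) [Field K] {N : Type} [Field N] [Algebra K N] (P : Fin 2 → N) : ℕ :=
  Module.finrank K (IntermediateField.adjoin K {P 0 / P 1})

/-- `P` is wandering -/
def WandP {K : Type} [Field K] (F : Fin 2 → MvPolynomial (Fin 2) K) {N : Type} [Field N]
    [Algebra K N] (P : Fin 2 → N) : Prop :=
  ¬ ∃ m n : ℕ, m ≠ n ∧ ∃ c : N, c ≠ 0 ∧ (gAct F N)^[n] P = c • (gAct F N)^[m] P

/-- the Segre embedding -/
def seg {N : Type} [Field N] (P P' : Fin 2 → N) : Fin 2 × Fin 2 → N := fun i => P i.1 * P' i.2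

/-! ## Forms -/

/-- `F` is a morphism of the projective line of degree `q` -/
structure Mor {K : Type} [Field K] (q : ℕ) (F : Fin 2 → MvPolynomial (Fin 2) K) : Prop where
  hom : ∀ i, (F i).IsHomogeneous q
  ne : ∀ (N : Type) [Field N] [Algebra K N] (P : Fin 2 → N), P ≠ 0 → gAct F N P ≠ 0

/-- Purely inseparable good reduction at `v`. -/
structure HypR {K : Type} [Field K] [NumberField K] (p s : ℕ) (v : FinitePlace K)
    (F : Fin 2 → MvPolynomial (Fin 2) K) : Prop where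
  prime : p.Prime
  pos : 1 ≤ s
  above : v (p : K) < 1
  hom : ∀ i, (F i).IsHomogeneous (p ^ s)
  int : ∀ i t, v (coeff t (F i)) ≤ 1
  red : ∀ i t, (∀ j, t ≠ Finsupp.single j (p ^ s)) → v (coeff t (F i)) < 1
  det : v (Matrix.det (Matrix.of fun i j => coeff (Finsupp.single j (p ^ s)) (F i))) = 1

/-- the Jacobian determinant; its zeros are the critical points -/
noncomputable def Jac {K : Type} [Field K] (F : Fin 2 → MvPolynomial (Fin 2) K) :
    MvPolynomial (Fin 2) K :=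
  pderiv 0 (F 0) * pderiv 1 (F 1) - pderiv 1 (F 0) * pderiv 0 (F 1)

/-- the forms of the `n`-th iterate -/
noncomputable def itF {K : Type} [Field K] (F : Fin 2 → MvPolynomial (Fin 2) K) (n : ℕ) :
    Fin 2 → MvPolynomial (Fin 2) K := fun i => (bind₁ F)^[n] (X i)

/-- a wandering critical point -/
def CritW {K : Type} [Field K] (F : Fin 2 → MvPolynomial (Fin 2) K) : Prop :=
  ∃ U : Fin 2 → AlgebraicClosure K, U ≠ 0 ∧ aeval U (Jac F) = 0 ∧ WandP F U

/-- a periodic critical point -/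
def CritP {K : Type} [Field K] (F : Fin 2 → MvPolynomial (Fin 2) K) : Prop :=
  ∃ U : Fin 2 → AlgebraicClosure K, U ≠ 0 ∧ aeval U (Jac F) = 0 ∧
    ∃ k : ℕ, 0 < k ∧ Prl ((gAct F (AlgebraicClosure K))^[k] U) U

/-- forms in two pairs of variables of bidegree `(d₁, d₂)` -/
def BiHom {K : Type} [Field K] (d₁ d₂ : ℕ) (G : MvPolynomial (Fin 2 ⊕ Fin 2) K) : Prop :=
  ∀ t ∈ G.support, t (Sum.inl 0) + t (Sum.inl 1) = d₁ ∧ t (Sum.inr 0) + t (Sum.inr 1) = d₂

/-- the value `G(P, P')` -/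
noncomputable def ev {K : Type} [Field K] {N : Type} [Field N] [Algebra K N] (P P' : Fin 2 → N)
    (G : MvPolynomial (Fin 2 ⊕ Fin 2) K) : N := aeval (Sum.elim P P') G

/-- the map `F × F` -/
noncomputable def dbl {K : Type} [Field K] (F : Fin 2 → MvPolynomial (Fin 2) K) :
    Fin 2 ⊕ Fin 2 → MvPolynomial (Fin 2 ⊕ Fin 2) K :=
  Sum.elim (fun i => rename Sum.inl (F i)) (fun i => rename Sum.inr (F i))

/-- `G` is an irreducible form of bidegree at most `(e, e)`, depends on both pairs of variables,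
and divides `G(F^k(X), F^k(Y))` for some `k ≥ 1` -/
structure PerForm {K : Type} [Field K] (F : Fin 2 → MvPolynomial (Fin 2) K) (e : ℕ)
    (G : MvPolynomial (Fin 2 ⊕ Fin 2) K) : Prop where
  irr : Irreducible G
  hom : ∃ d₁ d₂ : ℕ, 1 ≤ d₁ ∧ d₁ ≤ e ∧ 1 ≤ d₂ ∧ d₂ ≤ e ∧ BiHom d₁ d₂ G
  per : ∃ k : ℕ, 0 < k ∧ G ∣ (bind₁ (dbl F))^[k] G

/-- the number of periodic forms of bounded degree is polynomially bounded -/
def CountR {K : Type} [Field K] (F : Fin 2 → MvPolynomial (Fin 2) K) : Prop :=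
  ∃ C n : ℕ, ∀ e : ℕ, ∃ S : Finset (MvPolynomial (Fin 2 ⊕ Fin 2) K), S.card ≤ C * e ^ n ∧
    ∀ G, PerForm F e G → ∃ G' ∈ S, Associated G G'

/-- `Fz` is the extension of `F × F` to the projective space of dimension 3 -/
def ExtS {K : Type} [Field K] (F : Fin 2 → MvPolynomial (Fin 2) K)
    (Fz : Fin 2 × Fin 2 → MvPolynomial (Fin 2 × Fin 2) K) : Prop :=
  ∀ (N : Type) [Field N] [Algebra K N] (P P' : Fin 2 → N),
    gAct Fz N (seg P P') = seg (gAct F N P) (gAct F N P')

/-! ## General rows -/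

/-- Row ROOT: a form of degree `d` in two variables has at most `d` zeros. -/
def RootStatement : Prop :=
  ∀ (K N : Type) [Field K] [Field N] [Algebra K N] (d : ℕ) (R : MvPolynomial (Fin 2) K), R ≠ 0 →
    R.IsHomogeneous d → ∃ Z : Finset (Option N), Z.card ≤ d ∧
      ∀ P : Fin 2 → N, P ≠ 0 → aeval P R = 0 → pr P ∈ Z

/-- Row BEZ: the resultant of two forms with respect to the second pair of variables. -/
def BezStatement : Prop :=
  ∀ (K : Type) [Field K] (d₁ d₂ e₁ e₂ : ℕ) (G H : MvPolynomial (Fin 2 ⊕ Fin 2) K),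
    BiHom d₁ d₂ G → BiHom e₁ e₂ H → Irreducible G → 1 ≤ d₂ → ¬ G ∣ H →
    ∃ R : MvPolynomial (Fin 2) K, R ≠ 0 ∧ R.IsHomogeneous (d₁ * e₂ + d₂ * e₁) ∧
      ∀ (N : Type) [Field N] [Algebra K N] (P P' : Fin 2 → N), P' ≠ 0 →
        ev P P' G = 0 → ev P P' H = 0 → aeval P R = 0

/-- Row FIB: the fibres of the first projection. -/
def FibStatement : Prop :=
  ∀ (K : Type) [Field K] (d₁ d₂ : ℕ) (G : MvPolynomial (Fin 2 ⊕ Fin 2) K), BiHom d₁ d₂ G →
    Irreducible G → 1 ≤ d₁ → 1 ≤ d₂ →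
    ∀ (N : Type) [Field N] [Algebra K N] (P : Fin 2 → N), P ≠ 0 →
      (∃ Z : Finset (Option N), Z.card ≤ d₂ ∧ ∀ P' : Fin 2 → N, P' ≠ 0 → ev P P' G = 0 →
        pr P' ∈ Z) ∧ (IsAlgClosed N → ∃ P' : Fin 2 → N, P' ≠ 0 ∧ ev P P' G = 0)

/-- Row PRE: the number of preimages. -/
def PreStatement : Prop :=
  ∀ (K N : Type) [Field K] [Field N] [Algebra K N] (q : ℕ) (F : Fin 2 → MvPolynomial (Fin 2) K),
    1 ≤ q → Mor q F → ∀ (U : Fin 2 → N), U ≠ 0 → ∀ m : ℕ, ∃ Z : Finset (Option N), Z.card ≤ q ^ m ∧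
      ∀ P : Fin 2 → N, P ≠ 0 → Prl ((gAct F N)^[m] P) U → pr P ∈ Z

/-- Row JAC: the Jacobian determinant of a morphism and of its iterates. -/
def JacStatement : Prop :=
  ∀ (K : Type) [Field K] [CharZero K] (q : ℕ) (F : Fin 2 → MvPolynomial (Fin 2) K), 1 ≤ q →
    Mor q F → Jac F ≠ 0 ∧ (Jac F).IsHomogeneous (2 * (q - 1)) ∧
      ∀ (N : Type) [Field N] [Algebra K N] (P : Fin 2 → N) (n : ℕ), P ≠ 0 →
        (aeval P (Jac (itF F n)) = 0 ↔ ∃ i < n, aeval ((gAct F N)^[i] P) (Jac F) = 0)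

/-! ## Wandering critical points -/

/-- Row LEV: the backward orbit of a wandering point is large. -/
def LevStatement : Prop :=
  ∀ (K : Type) [Field K] [NumberField K] (q : ℕ) (F : Fin 2 → MvPolynomial (Fin 2) K), 2 ≤ q →
    Mor q F → ∀ U : Fin 2 → AlgebraicClosure K, U ≠ 0 → WandP F U →
    ∃ C : ℕ, ∀ B : ℕ, ∃ (m : ℕ) (Z : Finset (Option (AlgebraicClosure K))), B < Z.card ∧
      q ^ m ≤ C * (B + 1) ∧ ∀ z ∈ Z, ∃ P : Fin 2 → AlgebraicClosure K, P ≠ 0 ∧ pr P = z ∧
        Prl ((gAct F (AlgebraicClosure K))^[m] P) U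

/-- Row CHN: the chain rule. -/
def ChnStatement : Prop :=
  ∀ (K : Type) [Field K] [CharZero K] (q : ℕ) (F : Fin 2 → MvPolynomial (Fin 2) K), 1 ≤ q →
    Mor q F → ∀ (d₁ d₂ : ℕ) (G W : MvPolynomial (Fin 2 ⊕ Fin 2) K) (n : ℕ), BiHom d₁ d₂ G →
    (bind₁ (dbl F))^[n] G = G * W →
    ∀ (N : Type) [Field N] [Algebra K N] (P P' : Fin 2 → N), P ≠ 0 → P' ≠ 0 →
      ev P P' G = 0 → (∃ i, ev P P' (pderiv (Sum.inl i) G) ≠ 0) →
      aeval P (Jac (itF F n)) = 0 →
      (∃ i, ev ((gAct F N)^[n] P) ((gAct F N)^[n] P') (pderiv (Sum.inr i) G) ≠ 0) →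
      aeval P' (Jac (itF F n)) = 0

/-- Row DEG: degrees of points. -/
def DegStatement : Prop :=
  ∀ (K : Type) [Field K] [NumberField K],
    (∀ (d₁ d₂ : ℕ) (G : MvPolynomial (Fin 2 ⊕ Fin 2) K), BiHom d₁ d₂ G → Irreducible G →
      1 ≤ d₁ → 1 ≤ d₂ → ∀ P P' : Fin 2 → AlgebraicClosure K, P ≠ 0 → P' ≠ 0 →
      ev P P' G = 0 → dg K P' ≤ d₂ * dg K P) ∧
    (∀ (q : ℕ) (F : Fin 2 → MvPolynomial (Fin 2) K), 1 ≤ q → Mor q F →
      ∀ (P U : Fin 2 → AlgebraicClosure K) (m : ℕ), P ≠ 0 → U ≠ 0 →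
      Prl ((gAct F (AlgebraicClosure K))^[m] P) U → dg K P ≤ q ^ m * dg K U)

/-- Row HTS: points of the backward orbit of a wandering point have large degree. -/
def HtsStatement : Prop :=
  ∀ (K : Type) [Field K] [NumberField K] (p s : ℕ) (v : FinitePlace K)
    (F : Fin 2 → MvPolynomial (Fin 2) K), HypR p s v F →
    ∀ U : Fin 2 → AlgebraicClosure K, U ≠ 0 → WandP F U →
    ∃ C : ℕ, ∀ (i : ℕ) (P : Fin 2 → AlgebraicClosure K), P ≠ 0 →
      Prl ((gAct F (AlgebraicClosure K))^[i] P) U → (p ^ s) ^ i ≤ C * dg K P ^ 2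

/-- Row MOR. -/
def MorStatement : Prop :=
  ∀ (K : Type) [Field K] [NumberField K] (p s : ℕ) (v : FinitePlace K)
    (F : Fin 2 → MvPolynomial (Fin 2) K), HypR p s v F → Mor (p ^ s) F

/-- Row CNTW: the number of periodic forms, case of a wandering critical point. -/
def CntwStatement : Prop :=
  RootStatement → BezStatement → FibStatement → PreStatement → JacStatement → LevStatement →
  ChnStatement → DegStatement → HtsStatement → MorStatement →
  ∀ (K : Type) [Field K] [NumberField K] (p s : ℕ) (v : FinitePlace K)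
    (F : Fin 2 → MvPolynomial (Fin 2) K), HypR p s v F → CritW F → CountR F

/-! ## Periodic critical points -/

/-- Row PER: the number of periodic forms, case of a periodic critical point. -/
def PerStatement : Prop :=
  ∀ (K : Type) [Field K] [NumberField K] (q : ℕ) (F : Fin 2 → MvPolynomial (Fin 2) K), 2 ≤ q →
    Mor q F → CritP F → CountR F

/-! ## The space of dimension 3 -/

/-- Row SEG: the extension of `F × F`. -/
def SegStatement : Prop :=
  ∀ (K : Type) [Field K] [NumberField K] (p s : ℕ) (v : FinitePlace K)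
    (F : Fin 2 → MvPolynomial (Fin 2) K), HypR p s v F →
    ∃ Fz : Fin 2 × Fin 2 → MvPolynomial (Fin 2 × Fin 2) K,
      (∀ i, (Fz i).IsHomogeneous (p ^ s)) ∧
      (∀ i t, v (coeff t (Fz i)) ≤ 1) ∧
      (∀ i t, (∀ j, t ≠ Finsupp.single j (p ^ s)) → v (coeff t (Fz i)) < 1) ∧
      v (Matrix.det (Matrix.of fun i j => coeff (Finsupp.single j (p ^ s)) (Fz i))) = 1 ∧
      ExtS F Fz

/-- Row SEG, heights. -/
def SegHStatement : Prop :=
  ∀ (N : Type) [Field N] [NumberField N] (P P' : Fin 2 → N),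
    Height.logHeight (seg P P') ≤ Height.logHeight P + Height.logHeight P'

/-- Row SP3: a form that does not vanish on a curve has finitely many zeros on it. -/
def Sp3Statement : Prop :=
  ∀ (K : Type) [Field K] (ι : Type) [Fintype ι] (c : ℕ) (Q : Ideal (MvPolynomial ι K)),
    Q.IsPrime → (∀ G ∈ Q, ∀ d, homogeneousComponent d G ∈ Q) →
    (∀ T, Module.finrank K (homogeneousSubmodule ι K T) ≤
      Module.finrank K ↥(homogeneousSubmodule ι K T ⊓ Q.restrictScalars K) + c * (T + 1)) →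
    ∀ (d : ℕ) (G : MvPolynomial ι K), G.IsHomogeneous d →
    ∀ (N : Type) [Field N] [Algebra K N] (R : ℕ → ι → N), (∀ i, R i ≠ 0) →
      (∀ i j, i ≠ j → ¬ Prl (R i) (R j)) → (∀ i, ∀ H ∈ Q, aeval (R i) H = 0) →
      (∀ i, aeval (R i) G = 0) → G ∈ Q

/-- Row BIF: from a periodic curve to a periodic form. -/
def BifStatement : Prop :=
  RootStatement → BezStatement → Sp3Statement →
  ∀ (K : Type) [Field K] (q : ℕ) (F : Fin 2 → MvPolynomial (Fin 2) K), 1 ≤ q → Mor q F →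
    ∀ Fz : Fin 2 × Fin 2 → MvPolynomial (Fin 2 × Fin 2) K, (∀ i, (Fz i).IsHomogeneous q) →
    ExtS F Fz →
    ∀ (N : Type) [Field N] [Algebra K N] (P P' : Fin 2 → N) (c : ℕ), P ≠ 0 → P' ≠ 0 →
      WandP F P → WandP F P' → OnPer Fz (seg P P') c →
      ∃ G : MvPolynomial (Fin 2 ⊕ Fin 2) K, PerForm F c G ∧ ev P P' G = 0

/-! ## The theorem -/

/-- The theorem: `f = (F₀ : F₁)` has purely inseparable good reduction at `v` and a critical point
which is not strictly preperiodic. If `N` contains a nonempty set `S` of conjugates `b` of the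
wandering point `a` over `K` with `[K(a, b) : K(a)] ≤ t`, then the canonical height of `a` is at
least `c / (t D (t D / |S|) ^ ε)`, where `D = [K(a) : K]`. -/
def GstStatement : Prop :=
  ∀ (K : Type) [Field K] [NumberField K] (p s : ℕ) (v : FinitePlace K)
    (F : Fin 2 → MvPolynomial (Fin 2) K), HypR p s v F →
    (∃ U : Fin 2 → AlgebraicClosure K, U ≠ 0 ∧ aeval U (Jac F) = 0 ∧ ∀ m k : ℕ, 0 < k →
      Prl ((gAct F (AlgebraicClosure K))^[m + k] U) ((gAct F (AlgebraicClosure K))^[m] U) →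
      ∃ k' : ℕ, 0 < k' ∧ Prl ((gAct F (AlgebraicClosure K))^[k'] U) U) →
    ∀ ε : ℝ, 0 < ε →
    ∃ c : ℝ, 0 < c ∧ ∀ (N : Type) [Field N] [NumberField N] [Algebra K N] (a : N),
      WandP F ![a, 1] → ∀ (t : ℕ) (S : Finset N), S.Nonempty →
      (∀ b ∈ S, Polynomial.aeval b (minpoly K a) = 0 ∧
        Module.finrank K (IntermediateField.adjoin K {a, b}) ≤
          t * Module.finrank K (IntermediateField.adjoin K {a})) →
      ∃ h : ℝ, Tendsto (fun n : ℕ => Height.logHeight ((gAct F N)^[n] ![a, 1]) /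
        (Module.finrank ℚ N : ℝ) / ((p ^ s : ℕ) : ℝ) ^ n) atTop (𝓝 h) ∧
        c / ((t : ℝ) * (Module.finrank K (IntermediateField.adjoin K {a}) : ℝ) *
          ((t : ℝ) * (Module.finrank K (IntermediateField.adjoin K {a}) : ℝ) /
            (S.card : ℝ)) ^ ε) ≤ h

/-- Row ESTAR: the end of the proof. -/
def EstarStatement : Prop :=
  AStatement → MorStatement → SegStatement → SegHStatement → RootStatement → FibStatement →
  (∀ (K : Type) [Field K] (q : ℕ) (F : Fin 2 → MvPolynomial (Fin 2) K), 1 ≤ q → Mor q F →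
    ∀ Fz : Fin 2 × Fin 2 → MvPolynomial (Fin 2 × Fin 2) K, (∀ i, (Fz i).IsHomogeneous q) →
    ExtS F Fz →
    ∀ (N : Type) [Field N] [Algebra K N] (P P' : Fin 2 → N) (c : ℕ), P ≠ 0 → P' ≠ 0 →
      WandP F P → WandP F P' → OnPer Fz (seg P P') c →
      ∃ G : MvPolynomial (Fin 2 ⊕ Fin 2) K, PerForm F c G ∧ ev P P' G = 0) →
  (∀ (K : Type) [Field K] [NumberField K] (p s : ℕ) (v : FinitePlace K)
    (F : Fin 2 → MvPolynomial (Fin 2) K), HypR p s v F →
    (∃ U : Fin 2 → AlgebraicClosure K, U ≠ 0 ∧ aeval U (Jac F) = 0 ∧ ∀ m k : ℕ, 0 < k →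
      Prl ((gAct F (AlgebraicClosure K))^[m + k] U) ((gAct F (AlgebraicClosure K))^[m] U) →
      ∃ k' : ℕ, 0 < k' ∧ Prl ((gAct F (AlgebraicClosure K))^[k'] U) U) → CountR F) →
  GstStatement

end Pool.DynLehmer.GS
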