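import Mathlib
import Pool.Agent.Lib.MP_2194ec_nt.GAL.R.Defs
import Pool.Agent.Lib.MP_2194ec_nt.GAL.BDefs

set_option autoImplicit false

/-!
# Periodic critical points: statements of the rows

`H = HahnSeries ℚ Ω`, `φ = phi Ω μ` multiplies the exponents by `μ + 1`. If `U` is a critical
point fixed by `g`, there is a point `b = U + y V` of the projective line over `H` with
`g(b) = φ(b)`, where `y` has order 1. If `G` is periodic, some zero `Y` of `G(b, ·)` satisfies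
`g^l(Y) = φ^l(Y)`; its constant term is a point of the cycle of a periodic critical point, and `Y`
is determined by the leading term of the rest.
-/

namespace Pool.DynLehmer.GS
open MvPolynomial NumberField Filter Topology Pool.DynLehmer Pool.DynLehmer.SB Pool.DynLehmer.SP
  Pool.DynLehmer.GAL
open scoped Classical

/-- the point `U + y V` -/
noncomputable def lpt {Ω N : Type} [Field Ω] [Field N] [Algebra Ω N] (U V : Fin 2 → Ω) (y : N) :
    Fin 2 → N := fun i => algebraMap Ω N (U i) + y * algebraMap Ω N (V i)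

/-- `U, V` is a basis -/
def Ind {Ω : Type} [Field Ω] (U V : Fin 2 → Ω) : Prop := U 0 * V 1 - U 1 * V 0 ≠ 0

/-- `Y` satisfies `F^l(Y) = φ^l(Y)`, as points of the projective line -/
def Fxd {K Ω : Type} [Field K] [Field Ω] [Algebra K Ω] (F : Fin 2 → MvPolynomial (Fin 2) K)
    (μ l : ℕ) (Y : Fin 2 → HahnSeries ℚ Ω) : Prop :=
  Prl ((gAct F (HahnSeries ℚ Ω))^[l] Y) (fun i => (phi Ω μ ^ l) (Y i))

/-- Row LOC: the map near a fixed point. -/
def LocStatement : Prop :=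
  ∀ (K Ω : Type) [Field K] [Field Ω] [CharZero Ω] [Algebra K Ω] (q : ℕ)
    (F : Fin 2 → MvPolynomial (Fin 2) K), 1 ≤ q → Mor q F → ∀ U V : Fin 2 → Ω, Ind U V →
    Prl (gAct F Ω U) U →
    ∃ P Q : Polynomial Ω, P.coeff 0 = 0 ∧ P ≠ 0 ∧ Q.coeff 0 ≠ 0 ∧
      (P.coeff 1 = 0 ↔ aeval U (Jac F) = 0) ∧
      ∀ (N : Type) [Field N] [Algebra Ω N] [Algebra K N] [IsScalarTower K Ω N] (y : N),
        gAct F N (lpt U V y) = fun i => Polynomial.aeval y Q * algebraMap Ω N (U i) +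
          Polynomial.aeval y P * algebraMap Ω N (V i)

/-- Row HSA: leading terms and rigidity. -/
def HsaStatement : Prop :=
  ∀ (Ω : Type) [Field Ω] [CharZero Ω] (P Q : Polynomial Ω) (μ : ℕ), P.coeff 0 = 0 → P ≠ 0 →
    Q.coeff 0 ≠ 0 → 1 ≤ μ →
    (∀ y : HahnSeries ℚ Ω, y ≠ 0 → 0 < y.order →
      Polynomial.aeval y P = Polynomial.aeval y Q * phi Ω μ y →
      P.natTrailingDegree = μ + 1 ∧ P.trailingCoeff * y.leadingCoeff ^ μ = Q.coeff 0) ∧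
    (∀ y z : HahnSeries ℚ Ω, y ≠ 0 → z ≠ 0 → 0 < y.order → z.order = y.order →
      z.leadingCoeff = y.leadingCoeff →
      Polynomial.aeval y P = Polynomial.aeval y Q * phi Ω μ y →
      Polynomial.aeval z P = Polynomial.aeval z Q * phi Ω μ z → y = z)

/-- Row BOT2: the Böttcher coordinate. -/
def Bot2Statement : Prop :=
  ∀ (Ω : Type) [Field Ω] [IsAlgClosed Ω] [CharZero Ω] (P Q : Polynomial Ω), P.coeff 0 = 0 →
    P.coeff 1 = 0 → P ≠ 0 → Q.coeff 0 ≠ 0 →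
    ∃ (μ : ℕ) (c : LaurentSeries Ω), 1 ≤ μ ∧ (emb Ω c).order = 1 ∧
      Polynomial.aeval (emb Ω c) P = Polynomial.aeval (emb Ω c) Q * phi Ω μ (emb Ω c)

/-- Row EDG2: the leading term of a root. -/
def Edg2Statement : Prop :=
  ∀ (K F : Type) [Field K] [Field F] [Algebra K F] (G : Polynomial (Polynomial K)) (e : ℕ)
    (b y : HahnSeries ℚ F) (β : K),
    G ≠ 0 → G.natDegree ≤ e → (∀ i, (G.coeff i).natDegree ≤ e) →
    b.order = 1 → b.leadingCoeff = algebraMap K F β → y ≠ 0 → ev2 b y G = 0 →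
    (∃ p : Polynomial K, p ≠ 0 ∧ p.natDegree ≤ e ∧ Polynomial.aeval y.leadingCoeff p = 0) ∧
    ∃ (i j : ℕ) (a : ℤ), i < j ∧ j ≤ e ∧ |a| ≤ e ∧ ((j : ℚ) - i) * y.order = a

/-- Row DHG: a form of bidegree `(d₁, d₂)` in local coordinates. -/
def DhgStatement : Prop :=
  ∀ (K K' : Type) [Field K] [Field K'] [Algebra K K'] (d₁ d₂ : ℕ)
    (G : MvPolynomial (Fin 2 ⊕ Fin 2) K), BiHom d₁ d₂ G → G ≠ 0 →
    ∀ U V U' V' : Fin 2 → K', Ind U V → Ind U' V' →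
    ∃ G' : Polynomial (Polynomial K'), G' ≠ 0 ∧ G'.natDegree ≤ d₂ ∧
      (∀ i, (G'.coeff i).natDegree ≤ d₁) ∧
      ∀ (N : Type) [Field N] [Algebra K N] [Algebra K' N] [IsScalarTower K K' N] (x w : N),
        ev2 x w G' = ev (lpt U V x) (lpt U' V' w) G

/-- Row FIX2: a fixed zero. -/
def Fix2Statement : Prop :=
  SplStatement →
  ∀ (K Ω : Type) [Field K] [Field Ω] [Algebra K Ω] [IsAlgClosed Ω] [CharZero Ω] (q : ℕ)
    (F : Fin 2 → MvPolynomial (Fin 2) K), 1 ≤ q → Mor q F → ∀ (d₁ d₂ : ℕ)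
    (G : MvPolynomial (Fin 2 ⊕ Fin 2) K), BiHom d₁ d₂ G → 1 ≤ d₂ →
    ∀ (μ : ℕ) (b₀ : Fin 2 → LaurentSeries Ω), (fun i => emb Ω (b₀ i)) ≠ 0 →
    (∃ Y : Fin 2 → HahnSeries ℚ Ω, ev (fun i => emb Ω (b₀ i)) Y G ≠ 0) →
    Prl (gAct F (HahnSeries ℚ Ω) (fun i => emb Ω (b₀ i))) (fun i => phi Ω μ (emb Ω (b₀ i))) →
    ∀ k, 0 < k → G ∣ (bind₁ (dbl F))^[k] G →
    ∃ (Y : Fin 2 → HahnSeries ℚ Ω) (l : ℕ), Y ≠ 0 ∧ 0 < l ∧
      ev (fun i => emb Ω (b₀ i)) Y G = 0 ∧ Fxd F μ l Y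

/-- Row CLS: the constant term of a fixed point. -/
def ClsStatement : Prop :=
  LocStatement → HsaStatement → JacStatement →
  ∀ (K Ω : Type) [Field K] [CharZero K] [Field Ω] [CharZero Ω] [Algebra K Ω] (q : ℕ)
    (F : Fin 2 → MvPolynomial (Fin 2) K), 1 ≤ q → Mor q F → ∀ (μ l : ℕ), 1 ≤ μ → 0 < l →
    ∀ Y : Fin 2 → HahnSeries ℚ Ω, Y ≠ 0 →
    (∀ U : Fin 2 → Ω, U ≠ 0 → ¬ Prl Y (fun i => algebraMap Ω (HahnSeries ℚ Ω) (U i))) →
    Fxd F μ l Y →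
    ∃ U : Fin 2 → Ω, U ≠ 0 ∧ Prl ((gAct F Ω)^[l] U) U ∧
      (∃ i < l, aeval ((gAct F Ω)^[i] U) (Jac F) = 0) ∧
      ∀ U' V' : Fin 2 → Ω, Prl U' U → Ind U' V' →
        ∃ y : HahnSeries ℚ Ω, y ≠ 0 ∧ 0 < y.order ∧ Prl Y (lpt U' V' y)

/-- Row FINP: the cycles of the periodic critical points. -/
def FinpStatement : Prop :=
  RootStatement → JacStatement →
  ∀ (K Ω : Type) [Field K] [CharZero K] [Field Ω] [Algebra K Ω] (q : ℕ)
    (F : Fin 2 → MvPolynomial (Fin 2) K), 1 ≤ q → Mor q F →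
    ∃ Z : Finset (Option Ω), ∀ U : Fin 2 → Ω, U ≠ 0 →
      (∃ l, 0 < l ∧ Prl ((gAct F Ω)^[l] U) U ∧
        ∃ i < l, aeval ((gAct F Ω)^[i] U) (Jac F) = 0) → pr U ∈ Z

/-- Row ZETA: the leading coefficients of two fixed points differ by a root of unity, and the
fixed point is determined by its leading term. -/
def ZetaStatement : Prop :=
  LocStatement → HsaStatement →
  ∀ (K Ω : Type) [Field K] [Field Ω] [CharZero Ω] [Algebra K Ω] (q : ℕ)
    (F : Fin 2 → MvPolynomial (Fin 2) K), 1 ≤ q → Mor q F → ∀ U V : Fin 2 → Ω, Ind U V →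
    ∀ (μ μ' l l' : ℕ) (y y' : HahnSeries ℚ Ω), 1 ≤ μ → 1 ≤ μ' → 0 < l → 0 < l' → y ≠ 0 → y' ≠ 0 →
      0 < y.order → 0 < y'.order → Fxd F μ l (lpt U V y) →
      (Fxd (itF F l') μ' 1 (lpt U V y') →
        ∃ M, 0 < M ∧ (y.leadingCoeff / y'.leadingCoeff) ^ M = 1) ∧
      (Fxd F μ l' (lpt U V y') → y'.order = y.order → y'.leadingCoeff = y.leadingCoeff → y = y')

/-- Row UNQ: the form is determined by a zero. -/
def UnqStatement : Prop :=
  BezStatement → FibStatement →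
  ∀ (K Ω : Type) [Field K] [Field Ω] [CharZero Ω] [Algebra K Ω] (U V : Fin 2 → Ω), Ind U V →
    ∀ y : HahnSeries ℚ Ω, y ≠ 0 → 0 < y.order →
    (∀ (d₁ d₂ d₁' d₂' : ℕ) (G G' : MvPolynomial (Fin 2 ⊕ Fin 2) K), BiHom d₁ d₂ G →
      BiHom d₁' d₂' G' → Irreducible G → Irreducible G' → 1 ≤ d₂ → 1 ≤ d₂' →
      ∀ Y : Fin 2 → HahnSeries ℚ Ω, Y ≠ 0 → ev (lpt U V y) Y G = 0 → ev (lpt U V y) Y G' = 0 →
      Associated G G') ∧
    (∀ (d₁ d₂ : ℕ) (G : MvPolynomial (Fin 2 ⊕ Fin 2) K), BiHom d₁ d₂ G → Irreducible G →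
      1 ≤ d₁ → 1 ≤ d₂ →
      (∀ Y : Fin 2 → HahnSeries ℚ Ω, Y ≠ 0 → ev (lpt U V y) Y G = 0 → ∀ W : Fin 2 → Ω, W ≠ 0 →
        ¬ Prl Y (fun i => algebraMap Ω (HahnSeries ℚ Ω) (W i))) ∧
      ∃ Y : Fin 2 → HahnSeries ℚ Ω, ev (lpt U V y) Y G ≠ 0)

/-- Row CNTP: the assembly. -/
def CntpStatement : Prop :=
  RootStatement → JacStatement → LocStatement → HsaStatement → Bot2Statement → Edg2Statement →
  DhgStatement → Fix2Statement → ClsStatement → FinpStatement → ZetaStatement → UnqStatement →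
  BezStatement → FibStatement → SplStatement → RouStatement → PerStatement

end Pool.DynLehmer.GS
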