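import Mathlib
import Pool.Agent.Lib.MP_2194ec_nt.GAL.R.PDefs

set_option autoImplicit false

/-!
# Strictly preperiodic critical points: statements of the rows

The periodic forms are counted for all maps which are not Lattès maps. If all critical points are
strictly preperiodic, there are points `U₁`, `U₂` and `n` with `F^n(U₁) = F^n(U₂)` whose preimages
have different local degrees. Germs of a periodic curve at preimages of `U₁`, `U₂` are compared.
-/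

namespace Pool.DynLehmer.GS
open MvPolynomial NumberField Filter Topology Pool.DynLehmer Pool.DynLehmer.SB Pool.DynLehmer.SP
  Pool.DynLehmer.GAL
open scoped Classical

/-! ## Definitions -/

/-- the local degree of `F` at the point `U` -/
noncomputable def ld {K Ω : Type} [Field K] [Field Ω] [Algebra K Ω]
    (F : Fin 2 → MvPolynomial (Fin 2) K) (U : Fin 2 → Ω) : ℕ :=
  multiplicity (C (U 1) * X 0 - C (U 0) * X 1 : MvPolynomial (Fin 2) Ω)
    (C (gAct F Ω U 1) * map (algebraMap K Ω) (F 0) -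
      C (gAct F Ω U 0) * map (algebraMap K Ω) (F 1))

/-- `U` is not periodic -/
def NPer {K : Type} [Field K] (F : Fin 2 → MvPolynomial (Fin 2) K) {N : Type} [Field N]
    [Algebra K N] (U : Fin 2 → N) : Prop := ∀ k : ℕ, 0 < k → ¬ Prl ((gAct F N)^[k] U) U

/-- `F` is a Lattès map: there is a function `ν ≥ 1` on the projective line over the algebraic
closure, equal to `1` outside a finite set, with `ν(F(x)) = e(x) ν(x)`, where `e(x)` is the local
degree of `F` at `x`. -/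
def Lat {K : Type} [Field K] (F : Fin 2 → MvPolynomial (Fin 2) K) : Prop :=
  ∃ ν : Option (AlgebraicClosure K) → ℕ, (∀ z, 1 ≤ ν z) ∧ {z | ν z ≠ 1}.Finite ∧
    ∀ U : Fin 2 → AlgebraicClosure K, U ≠ 0 →
      ν (pr (gAct F (AlgebraicClosure K) U)) = ld F U * ν (pr U)

/-- all critical points are strictly preperiodic -/
def Pcf {K : Type} [Field K] (F : Fin 2 → MvPolynomial (Fin 2) K) : Prop :=
  ∀ U : Fin 2 → AlgebraicClosure K, U ≠ 0 → aeval U (Jac F) = 0 → NPer F U ∧ ¬ WandP F U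

/-- a field of germs: a subfield of the field of Hahn series -/
structure Grm (Ω N : Type) [Field Ω] [Field N] [Algebra Ω N] where
  /-- the embedding -/
  ι : N →+* HahnSeries ℚ Ω
  hC : ∀ c : Ω, ι (algebraMap Ω N c) = HahnSeries.C c
  /-- the uniformizer -/
  τ : N
  hτ : ι τ = HahnSeries.single 1 1

/-- `y` is zero or has positive order -/
def Grm.sm {Ω N : Type} [Field Ω] [Field N] [Algebra Ω N] (g : Grm Ω N) (y : N) : Prop :=
  y = 0 ∨ 0 < (g.ι y).order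

/-- `X` is not a zero of a nonzero form over `K` -/
def Trn (K : Type) [Field K] {N : Type} [Field N] [Algebra K N] (P : Fin 2 → N) : Prop :=
  ∀ (d : ℕ) (R : MvPolynomial (Fin 2) K), R ≠ 0 → R.IsHomogeneous d → aeval P R ≠ 0

/-! ## Rows -/

/-- Row ALG: an algebraically closed field of germs. -/
def AlgStatement : Prop :=
  ∀ (Ω : Type) [Field Ω] [IsAlgClosed Ω] [CharZero Ω],
    ∃ (N : Type) (_ : Field N) (_ : Algebra Ω N), IsAlgClosed N ∧ Nonempty (Grm Ω N)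

/-- Row LDG: the map near a point. -/
def LdgStatement : Prop :=
  ∀ (K Ω : Type) [Field K] [Field Ω] [CharZero Ω] [Algebra K Ω] (q : ℕ)
    (F : Fin 2 → MvPolynomial (Fin 2) K), 1 ≤ q → Mor q F → ∀ U V W : Fin 2 → Ω, Ind U V →
    Ind (gAct F Ω U) W →
    1 ≤ ld F U ∧ ld F U ≤ q ∧ (ld F U = 1 ↔ aeval U (Jac F) ≠ 0) ∧
    ∃ P Q : Polynomial Ω, P ≠ 0 ∧ P.natTrailingDegree = ld F U ∧ Q.coeff 0 = 1 ∧
      ∀ (N : Type) [Field N] [Algebra Ω N] [Algebra K N] [IsScalarTower K Ω N] (y : N),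
        gAct F N (lpt U V y) = fun i =>
          Polynomial.aeval y Q * algebraMap Ω N (gAct F Ω U i) +
            Polynomial.aeval y P * algebraMap Ω N (W i)

/-- Row LDM: the local degree of the iterates. -/
def LdmStatement : Prop :=
  LdgStatement →
  ∀ (K Ω : Type) [Field K] [Field Ω] [CharZero Ω] [Algebra K Ω] (q : ℕ)
    (F : Fin 2 → MvPolynomial (Fin 2) K), 1 ≤ q → Mor q F →
    (∀ U U' : Fin 2 → Ω, U ≠ 0 → Prl U U' → ld F U = ld F U') ∧
    (∀ (U : Fin 2 → Ω) (m n : ℕ), U ≠ 0 →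
      ld (itF F (m + n)) U = ld (itF F m) U * ld (itF F n) ((gAct F Ω)^[m] U)) ∧
    (∀ U : Fin 2 → Ω, U ≠ 0 → ld (itF F 0) U = 1 ∧ ld (itF F 1) U = ld F U)

/-- Row LDH: orders of germs. -/
def LdhStatement : Prop :=
  LdgStatement →
  ∀ (K Ω N : Type) [Field K] [Field Ω] [Field N] [CharZero Ω] [Algebra K Ω] [Algebra Ω N]
    [Algebra K N] [IsScalarTower K Ω N] (g : Grm Ω N) (q : ℕ)
    (F : Fin 2 → MvPolynomial (Fin 2) K), 1 ≤ q → Mor q F → ∀ U V W : Fin 2 → Ω, Ind U V →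
    Ind (gAct F Ω U) W → ∀ y : N, y ≠ 0 → 0 < (g.ι y).order →
    ∃ z : N, z ≠ 0 ∧ (g.ι z).order = (ld F U : ℚ) * (g.ι y).order ∧
      Prl (gAct F N (lpt U V y)) (lpt (gAct F Ω U) W z)

/-- Row SOL: preimages of germs. -/
def SolStatement : Prop :=
  LdgStatement →
  ∀ (K Ω N : Type) [Field K] [Field Ω] [Field N] [IsAlgClosed N] [CharZero Ω] [Algebra K Ω]
    [Algebra Ω N] [Algebra K N] [IsScalarTower K Ω N] (g : Grm Ω N) (q : ℕ)
    (F : Fin 2 → MvPolynomial (Fin 2) K), 1 ≤ q → Mor q F → ∀ U V W : Fin 2 → Ω, Ind U V →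
    Ind (gAct F Ω U) W → ∀ z : N, z ≠ 0 → 0 < (g.ι z).order →
    ∃ y : N, y ≠ 0 ∧ 0 < (g.ι y).order ∧ (g.ι z).order = (ld F U : ℚ) * (g.ι y).order ∧
      Prl (gAct F N (lpt U V y)) (lpt (gAct F Ω U) W z)

/-- Row RED: the constant term of a germ. -/
def RedStatement : Prop :=
  ∀ (Ω N : Type) [Field Ω] [Field N] [Algebra Ω N] (g : Grm Ω N),
    (∀ Y : Fin 2 → N, Y ≠ 0 → ∃ U : Fin 2 → Ω, U ≠ 0 ∧ ∀ V, Ind U V →
      ∃ y : N, g.sm y ∧ Prl Y (lpt U V y)) ∧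
    (∀ (U V U' V' : Fin 2 → Ω) (y y' : N), Ind U V → Ind U' V' → g.sm y → g.sm y' →
      Prl (lpt U V y) (lpt U' V' y') →
      Prl U U' ∧ (y ≠ 0 → y' ≠ 0 ∧ (g.ι y').order = (g.ι y).order))

/-- Row ETA: germs of a curve which is étale over both factors. -/
def EtaStatement : Prop :=
  ∀ (K Ω N : Type) [Field K] [Field Ω] [Field N] [Algebra K Ω] [Algebra Ω N]
    [Algebra K N] [IsScalarTower K Ω N] (g : Grm Ω N) (d₁ d₂ : ℕ)
    (G : MvPolynomial (Fin 2 ⊕ Fin 2) K), BiHom d₁ d₂ G →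
    ∀ (U V U' V' : Fin 2 → Ω) (s s' : N), Ind U V → Ind U' V' → g.sm s → g.sm s' →
      ev (lpt U V s) (lpt U' V' s') G = 0 →
      ev U U' G = 0 ∧
      ((∃ i, ev U U' (pderiv (Sum.inl i) G) ≠ 0) → (∃ i, ev U U' (pderiv (Sum.inr i) G) ≠ 0) →
        s ≠ 0 → s' ≠ 0 ∧ (g.ι s').order = (g.ι s).order)

/-- Row TRN: the fibres over an orbit of a transcendental point. -/
def TrnStatement : Prop :=
  FibStatement →
  ∀ (K N : Type) [Field K] [CharZero K] [Field N] [IsAlgClosed N] [Algebra K N] (q : ℕ)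
    (F : Fin 2 → MvPolynomial (Fin 2) K), 1 ≤ q → Mor q F → ∀ (d₁ d₂ : ℕ)
    (G : MvPolynomial (Fin 2 ⊕ Fin 2) K), BiHom d₁ d₂ G → Irreducible G → 1 ≤ d₁ → 1 ≤ d₂ →
    ∀ k, 0 < k → G ∣ (bind₁ (dbl F))^[k] G →
    ∃ M : ℕ, ∀ (P B : Fin 2 → N) (l : ℕ), P ≠ 0 → B ≠ 0 → Trn K P → Trn K B →
      Prl ((gAct F N)^[k * l] P) B → ∀ Y' : Fin 2 → N, Y' ≠ 0 → ev B Y' G = 0 →
      ∃ Y : Fin 2 → N, Y ≠ 0 ∧ ev P Y G = 0 ∧
        Prl ((gAct F N)^[k * (l + M)] Y) ((gAct F N)^[k * M] Y')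

/-- Row TNS: germs are transcendental. -/
def TnsStatement : Prop :=
  ∀ (K Ω N : Type) [Field K] [Field Ω] [CharZero Ω] [Field N] [Algebra K Ω] [Algebra Ω N]
    [Algebra K N] [IsScalarTower K Ω N] (g : Grm Ω N) (U V : Fin 2 → Ω) (y : N), Ind U V →
    y ≠ 0 → 0 < (g.ι y).order → Trn K (lpt U V y)

/-- Row GER: comparison of germs. -/
def GerStatement : Prop :=
  FibStatement → JacStatement → AlgStatement → LdgStatement → LdmStatement → LdhStatement →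
  SolStatement → RedStatement → EtaStatement → TrnStatement → TnsStatement →
  ∀ (K : Type) [Field K] [NumberField K] (q : ℕ) (F : Fin 2 → MvPolynomial (Fin 2) K), 1 ≤ q →
    Mor q F → ∀ (d₁ d₂ : ℕ) (G : MvPolynomial (Fin 2 ⊕ Fin 2) K), BiHom d₁ d₂ G →
    Irreducible G → 1 ≤ d₁ → 1 ≤ d₂ → ∀ k, 0 < k → G ∣ (bind₁ (dbl F))^[k] G →
    ∀ (x x' : Fin 2 → AlgebraicClosure K) (n : ℕ), x ≠ 0 → x' ≠ 0 →
      Prl ((gAct F (AlgebraicClosure K))^[n] x) ((gAct F (AlgebraicClosure K))^[n] x') →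
      ld (itF F n) x ≠ ld (itF F n) x' →
      (∀ y : Fin 2 → AlgebraicClosure K, y ≠ 0 → (ev x y G = 0 ∨ ev x' y G = 0) →
        (ev x y G = 0 → (∃ i, ev x y (pderiv (Sum.inl i) G) ≠ 0) ∧
          ∃ i, ev x y (pderiv (Sum.inr i) G) ≠ 0) ∧
        (ev x' y G = 0 → (∃ i, ev x' y (pderiv (Sum.inl i) G) ≠ 0) ∧
          ∃ i, ev x' y (pderiv (Sum.inr i) G) ≠ 0)) →
      ∃ y : Fin 2 → AlgebraicClosure K, y ≠ 0 ∧ ev x y G = 0 ∧
        ∃ (m j : ℕ) (κ : Fin 2 → AlgebraicClosure K), κ ≠ 0 ∧ aeval κ (Jac F) = 0 ∧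
          Prl ((gAct F (AlgebraicClosure K))^[m] y) ((gAct F (AlgebraicClosure K))^[j] κ)

/-- Row NLT: maps which are not Lattès maps. -/
def NltStatement : Prop :=
  RootStatement → PreStatement → JacStatement → LdgStatement → LdmStatement →
  ∀ (K : Type) [Field K] [NumberField K] (q : ℕ) (F : Fin 2 → MvPolynomial (Fin 2) K), 2 ≤ q →
    Mor q F → Pcf F → ¬ Lat F →
    ∃ (U U' : Fin 2 → AlgebraicClosure K) (n : ℕ), U ≠ 0 ∧ U' ≠ 0 ∧ NPer F U ∧ NPer F U' ∧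
      ∀ (j : ℕ) (x x' : Fin 2 → AlgebraicClosure K), x ≠ 0 → x' ≠ 0 →
        Prl ((gAct F (AlgebraicClosure K))^[j] x) U →
        Prl ((gAct F (AlgebraicClosure K))^[j] x') U' →
        Prl ((gAct F (AlgebraicClosure K))^[j + n] x)
          ((gAct F (AlgebraicClosure K))^[j + n] x') ∧
        ld (itF F (j + n)) x ≠ ld (itF F (j + n)) x'

/-- Row PCF: the postcritical set is finite. -/
def PcfStatement : Prop :=
  RootStatement → JacStatement →
  ∀ (K : Type) [Field K] [NumberField K] (q : ℕ) (F : Fin 2 → MvPolynomial (Fin 2) K), 1 ≤ q →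
    Mor q F → Pcf F →
    ∃ Z : Finset (Option (AlgebraicClosure K)), ∀ κ : Fin 2 → AlgebraicClosure K, κ ≠ 0 →
      aeval κ (Jac F) = 0 → ∀ j : ℕ, pr ((gAct F (AlgebraicClosure K))^[j] κ) ∈ Z

/-- Row LEVN: the backward orbit of a point which is not periodic. -/
def LevnStatement : Prop :=
  RootStatement → JacStatement →
  ∀ (K : Type) [Field K] [NumberField K] (q : ℕ) (F : Fin 2 → MvPolynomial (Fin 2) K), 2 ≤ q →
    Mor q F → ∀ U : Fin 2 → AlgebraicClosure K, U ≠ 0 → NPer F U →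
    ∃ M : ℕ, ∀ m : ℕ, M ≤ m → ∃ Z : Finset (Option (AlgebraicClosure K)),
      q ^ (m - M) ≤ Z.card ∧ ∀ z ∈ Z, ∃ P : Fin 2 → AlgebraicClosure K, P ≠ 0 ∧ pr P = z ∧
        Prl ((gAct F (AlgebraicClosure K))^[m] P) U

/-- Row RAM: ramification of the backward orbit of a point which is not periodic. -/
def RamStatement : Prop :=
  ∀ (K : Type) [Field K] [NumberField K] (p s : ℕ) (v : FinitePlace K)
    (F : Fin 2 → MvPolynomial (Fin 2) K), HypR p s v F →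
    ∀ U : Fin 2 → AlgebraicClosure K, U ≠ 0 → NPer F U →
    ∃ C : ℕ, ∀ (i : ℕ) (P : Fin 2 → AlgebraicClosure K), P ≠ 0 →
      Prl ((gAct F (AlgebraicClosure K))^[i] P) U → (p ^ s) ^ i ≤ C * dg K P

/-- Row DGR: the degree of a zero of a form. -/
def DgrStatement : Prop :=
  ∀ (K : Type) [Field K] [NumberField K] (d : ℕ) (R : MvPolynomial (Fin 2) K), R ≠ 0 →
    R.IsHomogeneous d → ∀ P : Fin 2 → AlgebraicClosure K, P ≠ 0 → aeval P R = 0 → dg K P ≤ d

/-- Row GEN: the points over which a curve is not étale. -/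
def GenStatement : Prop :=
  BezStatement →
  ∀ (K : Type) [Field K] [CharZero K] (d₁ d₂ : ℕ) (G : MvPolynomial (Fin 2 ⊕ Fin 2) K),
    BiHom d₁ d₂ G → Irreducible G → 1 ≤ d₁ → 1 ≤ d₂ →
    ∃ (d : ℕ) (R : MvPolynomial (Fin 2) K), R ≠ 0 ∧ R.IsHomogeneous d ∧ d ≤ 4 * (d₁ * d₂) ∧
      ∀ (N : Type) [Field N] [Algebra K N] (P P' : Fin 2 → N), P ≠ 0 → P' ≠ 0 →
        ev P P' G = 0 → aeval P R ≠ 0 →
        (∃ i, ev P P' (pderiv (Sum.inl i) G) ≠ 0) ∧ ∃ i, ev P P' (pderiv (Sum.inr i) G) ≠ 0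

/-- Row CNTS: the number of periodic forms, case of strictly preperiodic critical points. -/
def CntsStatement : Prop :=
  RootStatement → BezStatement → FibStatement → PreStatement → DegStatement → MorStatement →
  GenStatement → DgrStatement → RamStatement → LevnStatement → PcfStatement →
  (∀ (K : Type) [Field K] [NumberField K] (q : ℕ) (F : Fin 2 → MvPolynomial (Fin 2) K), 2 ≤ q →
    Mor q F → Pcf F → ¬ Lat F →
    ∃ (U U' : Fin 2 → AlgebraicClosure K) (n : ℕ), U ≠ 0 ∧ U' ≠ 0 ∧ NPer F U ∧ NPer F U' ∧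
      ∀ (j : ℕ) (x x' : Fin 2 → AlgebraicClosure K), x ≠ 0 → x' ≠ 0 →
        Prl ((gAct F (AlgebraicClosure K))^[j] x) U →
        Prl ((gAct F (AlgebraicClosure K))^[j] x') U' →
        Prl ((gAct F (AlgebraicClosure K))^[j + n] x)
          ((gAct F (AlgebraicClosure K))^[j + n] x') ∧
        ld (itF F (j + n)) x ≠ ld (itF F (j + n)) x') →
  (∀ (K : Type) [Field K] [NumberField K] (q : ℕ) (F : Fin 2 → MvPolynomial (Fin 2) K), 1 ≤ q →
    Mor q F → ∀ (d₁ d₂ : ℕ) (G : MvPolynomial (Fin 2 ⊕ Fin 2) K), BiHom d₁ d₂ G →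
    Irreducible G → 1 ≤ d₁ → 1 ≤ d₂ → ∀ k, 0 < k → G ∣ (bind₁ (dbl F))^[k] G →
    ∀ (x x' : Fin 2 → AlgebraicClosure K) (n : ℕ), x ≠ 0 → x' ≠ 0 →
      Prl ((gAct F (AlgebraicClosure K))^[n] x) ((gAct F (AlgebraicClosure K))^[n] x') →
      ld (itF F n) x ≠ ld (itF F n) x' →
      (∀ y : Fin 2 → AlgebraicClosure K, y ≠ 0 → (ev x y G = 0 ∨ ev x' y G = 0) →
        (ev x y G = 0 → (∃ i, ev x y (pderiv (Sum.inl i) G) ≠ 0) ∧
          ∃ i, ev x y (pderiv (Sum.inr i) G) ≠ 0) ∧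
        (ev x' y G = 0 → (∃ i, ev x' y (pderiv (Sum.inl i) G) ≠ 0) ∧
          ∃ i, ev x' y (pderiv (Sum.inr i) G) ≠ 0)) →
      ∃ y : Fin 2 → AlgebraicClosure K, y ≠ 0 ∧ ev x y G = 0 ∧
        ∃ (m j : ℕ) (κ : Fin 2 → AlgebraicClosure K), κ ≠ 0 ∧ aeval κ (Jac F) = 0 ∧
          Prl ((gAct F (AlgebraicClosure K))^[m] y) ((gAct F (AlgebraicClosure K))^[j] κ)) →
  ∀ (K : Type) [Field K] [NumberField K] (p s : ℕ) (v : FinitePlace K)
    (F : Fin 2 → MvPolynomial (Fin 2) K), HypR p s v F → Pcf F → ¬ Lat F → CountR F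

/-- The theorem for all maps which are not Lattès maps. -/
def GlaStatement : Prop :=
  ∀ (K : Type) [Field K] [NumberField K] (p s : ℕ) (v : FinitePlace K)
    (F : Fin 2 → MvPolynomial (Fin 2) K), HypR p s v F → ¬ Lat F →
    ∀ ε : ℝ, 0 < ε →
    ∃ c : ℝ, 0 < c ∧ ∀ (N : Type) [Field N] [NumberField N] [Algebra K N] (a : N),
      WandP F ![a, 1] → ∀ (t : ℕ) (S : Finset N), S.Nonempty →
      (∀ b ∈ S, Polynomial.aeval b (minpoly K a) = 0 ∧
        Module.finrank K (IntermediateField.adjoin K {a, b}) ≤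
          t * Module.finrank K (IntermediateField.adjoin K {a})) →
      ∃ h : ℝ, Tendsto (fun n : ℕ => Height.logHeight ((gAct F N)^[n] ![a, 1]) /
        (Module.finrank ℚ N : ℝ) / ((p ^ s : ℕ) : ℝ) ^ n) atTop (𝓝 h) ∧
        c / ((t : ℝ) * (Module.finrank K (IntermediateField.adjoin K {a}) : ℝ) *
          ((t : ℝ) * (Module.finrank K (IntermediateField.adjoin K {a}) : ℝ) /
            (S.card : ℝ)) ^ ε) ≤ h

end Pool.DynLehmer.GS
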