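import Mathlib
import Pool.Agent.Lib.MP_2194ec_nt.GAL.R.SDefs
import Pool.Agent.Lib.MP_2194ec_nt.GAL.H28.Spl

set_option autoImplicit false

/-!
# Row ALG: an algebraically closed field of germs

The relative algebraic closure of the field of Laurent series inside the field of Hahn series
with rational exponents.
-/

namespace Pool.DynLehmer.GS
open Polynomial Pool.DynLehmer.GAL

theorem alg_emb_single (F : Type) [Field F] (k : ℤ) (a : F) :
    emb F (HahnSeries.single k a) = HahnSeries.single (k : ℚ) a := by
  unfold emb
  rw [HahnSeries.embDomainRingHom_apply, HahnSeries.embDomain_single]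
  rfl

theorem alg_emb_C (F : Type) [Field F] (a : F) :
    emb F (HahnSeries.C a) = HahnSeries.C a := by
  have := alg_emb_single F 0 a
  rw [Int.cast_zero] at this
  exact this

theorem alg : AlgStatement := by
  intro Ω _ _ _
  let _ : Algebra (LaurentSeries Ω) (HahnSeries ℚ Ω) := (emb Ω).toAlgebra
  let N := algebraicClosure (LaurentSeries Ω) (HahnSeries ℚ Ω)
  let _ : Algebra Ω N := ((algebraMap (LaurentSeries Ω) N).comp HahnSeries.C).toAlgebra
  refine ⟨N, inferInstance, inferInstance, ?_, ⟨?_⟩⟩
  · have h : IsAlgClosure (LaurentSeries Ω) N :=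
      IsAlgClosure.of_splits fun p _ _ =>
        Splits.algebraicClosure (F := LaurentSeries Ω) (E := HahnSeries ℚ Ω) (H28.spl Ω p)
    exact h.isAlgClosed
  · refine ⟨N.val.toRingHom, fun c => ?_, algebraMap (LaurentSeries Ω) N (HahnSeries.single 1 1), ?_⟩
    · exact alg_emb_C Ω c
    · refine (alg_emb_single Ω 1 1).trans ?_
      rw [Int.cast_one]

end Pool.DynLehmer.GS
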