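import Mathlib
import Pool.Agent.Lib.MP_2194ec_nt.GAL.R.Defs

set_option autoImplicit false

/-!
# Row BAS: basic lemmas on points, iterates and forms
-/

namespace Pool.DynLehmer.GS
open MvPolynomial NumberField Filter Topology Pool.DynLehmer Pool.DynLehmer.SB Pool.DynLehmer.SP
  Pool.DynLehmer.GAL

namespace Bas

/-! ### (1) proportional vectors -/

section prl

variable {N : Type} [Field N]

theorem prl_refl {ι : Type} (P : ι → N) : Prl P P := ⟨1, one_ne_zero, (one_smul _ _).symm⟩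

theorem prl_symm {ι : Type} {P Q : ι → N} (h : Prl P Q) : Prl Q P := by
  obtain ⟨c, hc, rfl⟩ := h
  exact ⟨c⁻¹, inv_ne_zero hc, by rw [smul_smul, inv_mul_cancel₀ hc, one_smul]⟩

theorem prl_trans {ι : Type} {P Q R : ι → N} (h : Prl P Q) (h' : Prl Q R) : Prl P R := by
  obtain ⟨c, hc, rfl⟩ := h
  obtain ⟨d, hd, rfl⟩ := h'
  exact ⟨c * d, mul_ne_zero hc hd, by rw [smul_smul]⟩

theorem prl_smul {ι : Type} (P : ι → N) {c : N} (hc : c ≠ 0) : Prl (c • P) P := ⟨c, hc, rfl⟩

theorem prl_ne {ι : Type} {P Q : ι → N} (h : Prl P Q) (hQ : Q ≠ 0) : P ≠ 0 := by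
  obtain ⟨c, hc, rfl⟩ := h
  exact smul_ne_zero hc hQ

theorem prl_map {M ι : Type} [Field M] (φ : N →+* M) {P Q : ι → N} (h : Prl P Q) :
    Prl (fun i => φ (P i)) (fun i => φ (Q i)) := by
  obtain ⟨c, hc, rfl⟩ := h
  refine ⟨φ c, fun h0 => hc (φ.injective (by rw [h0, map_zero])), ?_⟩
  funext i
  simp

theorem ne_zero_iff {P : Fin 2 → N} : P ≠ 0 ↔ P 0 ≠ 0 ∨ P 1 ≠ 0 := by
  constructor
  · intro h
    by_contra hcon
    push Not at hcon
    exact h (by funext i; fin_cases i <;> simp [hcon.1, hcon.2])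
  · rintro (h | h) h0
    · exact h (by rw [h0]; rfl)
    · exact h (by rw [h0]; rfl)

theorem prl_of_pr {P Q : Fin 2 → N} (hP : P ≠ 0) (hQ : Q ≠ 0) (h : pr P = pr Q) : Prl P Q := by
  classical
  unfold pr at h
  by_cases h1 : P 1 = 0 <;> by_cases h2 : Q 1 = 0
  · have h3 : P 0 ≠ 0 := fun h3 => hP (by funext i; fin_cases i <;> simp [h1, h3])
    have h4 : Q 0 ≠ 0 := fun h4 => hQ (by funext i; fin_cases i <;> simp [h2, h4])
    refine ⟨P 0 / Q 0, div_ne_zero h3 h4, ?_⟩
    funext i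
    fin_cases i
    · show P 0 = P 0 / Q 0 * Q 0
      rw [div_mul_cancel₀ _ h4]
    · show P 1 = P 0 / Q 0 * Q 1
      rw [h1, h2, mul_zero]
  · rw [if_pos h1, if_neg h2] at h
    exact absurd h (by simp)
  · rw [if_neg h1, if_pos h2] at h
    exact absurd h (by simp)
  · rw [if_neg h1, if_neg h2, Option.some_inj] at h
    refine ⟨P 1 / Q 1, div_ne_zero h1 h2, ?_⟩
    funext i
    fin_cases i
    · show P 0 = P 1 / Q 1 * Q 0
      field_simp at h ⊢
      linear_combination h
    · show P 1 = P 1 / Q 1 * Q 1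
      rw [div_mul_cancel₀ _ h2]

theorem pr_of_prl {P Q : Fin 2 → N} (h : Prl P Q) : pr P = pr Q := by
  classical
  obtain ⟨c, hc, rfl⟩ := h
  unfold pr
  simp only [Pi.smul_apply, smul_eq_mul, mul_eq_zero, hc, false_or]
  split_ifs
  · rfl
  · rw [mul_div_mul_left _ _ hc]

theorem pr_eq_iff {P Q : Fin 2 → N} (hP : P ≠ 0) (hQ : Q ≠ 0) : pr P = pr Q ↔ Prl P Q :=
  ⟨prl_of_pr hP hQ, pr_of_prl⟩

theorem prl_iff_det {P Q : Fin 2 → N} (hP : P ≠ 0) (hQ : Q ≠ 0) :
    Prl P Q ↔ P 0 * Q 1 = P 1 * Q 0 := by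
  constructor
  · rintro ⟨c, hc, rfl⟩
    simp only [Pi.smul_apply, smul_eq_mul]
    ring
  · intro h
    by_cases h0 : Q 0 = 0
    · have h1 : Q 1 ≠ 0 := (ne_zero_iff.1 hQ).resolve_left (by simpa using h0)
      have h2 : P 0 = 0 := by
        rw [h0, mul_zero] at h
        exact (mul_eq_zero.1 h).resolve_right h1
      have h3 : P 1 ≠ 0 := (ne_zero_iff.1 hP).resolve_left (by simpa using h2)
      refine ⟨P 1 / Q 1, div_ne_zero h3 h1, ?_⟩
      funext i
      fin_cases i
      · show P 0 = P 1 / Q 1 * Q 0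
        rw [h0, h2, mul_zero]
      · show P 1 = P 1 / Q 1 * Q 1
        rw [div_mul_cancel₀ _ h1]
    · have h2 : P 0 ≠ 0 := by
        intro h2
        rw [h2, zero_mul] at h
        have h3 := (mul_eq_zero.1 h.symm).resolve_right h0
        exact hP (by funext i; fin_cases i <;> simp [h2, h3])
      refine ⟨P 0 / Q 0, div_ne_zero h2 h0, ?_⟩
      funext i
      fin_cases i
      · show P 0 = P 0 / Q 0 * Q 0
        rw [div_mul_cancel₀ _ h0]
      · show P 1 = P 0 / Q 0 * Q 1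
        rw [div_mul_eq_mul_div, h, mul_div_assoc, div_self h0, mul_one]

end prl

/-! ### The map and its iterates -/

section iter

variable {K : Type} [Field K] {N : Type} [Field N] [Algebra K N] {q : ℕ}
  {F : Fin 2 → MvPolynomial (Fin 2) K}

theorem gAct_smul' (hF : ∀ i, (F i).IsHomogeneous q) (c : N) (P : Fin 2 → N) :
    gAct F N (c • P) = c ^ q • gAct F N P := gAct_smul F hF c P

theorem prl_gAct (hF : ∀ i, (F i).IsHomogeneous q) {P Q : Fin 2 → N} (h : Prl P Q) :
    Prl (gAct F N P) (gAct F N Q) := by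
  obtain ⟨c, hc, rfl⟩ := h
  exact ⟨c ^ q, pow_ne_zero _ hc, gAct_smul F hF c Q⟩

theorem prl_iter (hF : ∀ i, (F i).IsHomogeneous q) {P Q : Fin 2 → N} (h : Prl P Q) (n : ℕ) :
    Prl ((gAct F N)^[n] P) ((gAct F N)^[n] Q) := by
  induction n with
  | zero => exact h
  | succ n ih =>
    rw [Function.iterate_succ_apply', Function.iterate_succ_apply']
    exact prl_gAct hF ih

theorem iter_smul (hF : ∀ i, (F i).IsHomogeneous q) (c : N) (P : Fin 2 → N) (n : ℕ) :
    (gAct F N)^[n] (c • P) = c ^ q ^ n • (gAct F N)^[n] P := by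
  induction n with
  | zero => simp
  | succ n ih =>
    rw [Function.iterate_succ_apply', ih, gAct_smul F hF, Function.iterate_succ_apply',
      ← pow_mul, pow_succ]

theorem iter_ne (hF : Mor q F) {P : Fin 2 → N} (h : P ≠ 0) (n : ℕ) : (gAct F N)^[n] P ≠ 0 := by
  induction n with
  | zero => exact h
  | succ n ih =>
    rw [Function.iterate_succ_apply']
    exact hF.ne N _ ih

/-! ### (2) the forms of the iterates -/

theorem itF_zero (i : Fin 2) : itF F 0 i = X i := rfl

theorem bind_iter (n : ℕ) (p : MvPolynomial (Fin 2) K) :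
    (bind₁ F)^[n] p = bind₁ (itF F n) p := by
  induction n generalizing p with
  | zero =>
    show p = bind₁ (fun i => X i) p
    exact (aeval_X_left_apply p).symm
  | succ n ih =>
    rw [Function.iterate_succ_apply, ih, bind₁_bind₁]
    congr 2
    funext i
    show bind₁ (itF F n) (F i) = (bind₁ F)^[n + 1] (X i)
    rw [Function.iterate_succ_apply, bind₁_X_right, ih]

theorem itF_succ (n : ℕ) (i : Fin 2) : itF F (n + 1) i = bind₁ (itF F n) (F i) := by
  show (bind₁ F)^[n + 1] (X i) = _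
  rw [Function.iterate_succ_apply, bind₁_X_right, bind_iter]

theorem itF_succ' (n : ℕ) (i : Fin 2) : itF F (n + 1) i = bind₁ F (itF F n i) := by
  show (bind₁ F)^[n + 1] (X i) = _
  rw [Function.iterate_succ_apply']
  rfl

theorem itF_one (i : Fin 2) : itF F 1 i = F i := by
  show bind₁ F (X i) = F i
  rw [bind₁_X_right]

theorem gAct_itF (n : ℕ) (P : Fin 2 → N) : gAct (itF F n) N P = (gAct F N)^[n] P := by
  induction n with
  | zero =>
    funext i
    show aeval P (X i : MvPolynomial (Fin 2) K) = P i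
    rw [aeval_X]
  | succ n ih =>
    rw [Function.iterate_succ_apply', ← ih]
    funext i
    show aeval P (itF F (n + 1) i) = aeval (gAct (itF F n) N P) (F i)
    rw [itF_succ, aeval_bind₁]
    rfl

theorem gAct_itF' (n : ℕ) : gAct (itF F n) N = (gAct F N)^[n] := funext fun P => gAct_itF n P

theorem itF_hom (hF : ∀ i, (F i).IsHomogeneous q) (n : ℕ) (i : Fin 2) :
    (itF F n i).IsHomogeneous (q ^ n) := by
  induction n generalizing i with
  | zero =>
    rw [pow_zero]
    exact isHomogeneous_X K i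
  | succ n ih =>
    rw [itF_succ, pow_succ]
    exact (hF i).eval₂ _ _ (fun r => isHomogeneous_C _ r) ih

theorem mor_itF (hF : Mor q F) (n : ℕ) : Mor (q ^ n) (itF F n) where
  hom := itF_hom hF.hom n
  ne N _ _ P hP := by
    rw [gAct_itF]
    exact iter_ne hF hP n

/-! ### (3) - (5) forms in two pairs of variables -/

theorem ev_bind (F : Fin 2 → MvPolynomial (Fin 2) K) (P P' : Fin 2 → N)
    (G : MvPolynomial (Fin 2 ⊕ Fin 2) K) :
    ev P P' (bind₁ (dbl F) G) = ev (gAct F N P) (gAct F N P') G := by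
  unfold ev
  rw [aeval_bind₁]
  congr 2
  funext i
  rcases i with i | i
  · show aeval (Sum.elim P P') (rename Sum.inl (F i)) = aeval P (F i)
    rw [aeval_rename, Sum.elim_comp_inl]
  · show aeval (Sum.elim P P') (rename Sum.inr (F i)) = aeval P' (F i)
    rw [aeval_rename, Sum.elim_comp_inr]

theorem ev_iter (P P' : Fin 2 → N) (G : MvPolynomial (Fin 2 ⊕ Fin 2) K) (n : ℕ) :
    ev P P' ((bind₁ (dbl F))^[n] G) = ev ((gAct F N)^[n] P) ((gAct F N)^[n] P') G := by
  induction n generalizing P P' with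
  | zero => rfl
  | succ n ih =>
    rw [Function.iterate_succ_apply', ev_bind, ih, ← Function.iterate_succ_apply,
      ← Function.iterate_succ_apply]

theorem dbl_iter (n : ℕ) (G : MvPolynomial (Fin 2 ⊕ Fin 2) K) :
    (bind₁ (dbl F))^[n] G = bind₁ (dbl (itF F n)) G := by
  induction n generalizing G with
  | zero =>
    have h : dbl (itF F 0) = X := by
      funext i
      rcases i with i | i
      · show rename Sum.inl (X i : MvPolynomial (Fin 2) K) = X (Sum.inl i)
        rw [rename_X]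
      · show rename Sum.inr (X i : MvPolynomial (Fin 2) K) = X (Sum.inr i)
        rw [rename_X]
    rw [h]
    exact (aeval_X_left_apply G).symm
  | succ n ih =>
    rw [Function.iterate_succ_apply, ih, bind₁_bind₁]
    congr 2
    funext i
    rcases i with i | i
    · show bind₁ (dbl (itF F n)) (rename Sum.inl (F i)) = rename Sum.inl (itF F (n + 1) i)
      rw [bind₁_rename, itF_succ, rename_bind₁]
      rfl
    · show bind₁ (dbl (itF F n)) (rename Sum.inr (F i)) = rename Sum.inr (itF F (n + 1) i)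
      rw [bind₁_rename, itF_succ, rename_bind₁]
      rfl

theorem bind_iter_dvd {G H : MvPolynomial (Fin 2 ⊕ Fin 2) K} (h : G ∣ H) (n : ℕ) :
    (bind₁ (dbl F))^[n] G ∣ (bind₁ (dbl F))^[n] H := by
  rw [dbl_iter, dbl_iter]
  exact map_dvd _ h

theorem dvd_iter_mul {G : MvPolynomial (Fin 2 ⊕ Fin 2) K} {k : ℕ}
    (h : G ∣ (bind₁ (dbl F))^[k] G) (n : ℕ) : G ∣ (bind₁ (dbl F))^[k * n] G := by
  induction n with
  | zero => exact dvd_rfl
  | succ n ih =>
    have h1 := bind_iter_dvd (F := F) h (k * n)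
    rw [← Function.iterate_add_apply] at h1
    rw [mul_add, mul_one]
    exact ih.trans h1

end iter

/-! ### (6) forms of a bidegree -/

section bihom

variable {K : Type} [Field K] {N : Type} [Field N] [Algebra K N]

theorem ev_sum (P P' : Fin 2 → N) (G : MvPolynomial (Fin 2 ⊕ Fin 2) K) :
    ev P P' G = ∑ t ∈ G.support, algebraMap K N (coeff t G) *
      ((P 0 ^ t (Sum.inl 0) * P 1 ^ t (Sum.inl 1)) *
        (P' 0 ^ t (Sum.inr 0) * P' 1 ^ t (Sum.inr 1))) := by
  unfold ev
  rw [aeval_def, eval₂_eq']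
  refine Finset.sum_congr rfl fun t _ => ?_
  rw [Fintype.prod_sum_type, Fin.prod_univ_two, Fin.prod_univ_two]
  rfl

theorem ev_smul {d₁ d₂ : ℕ} {G : MvPolynomial (Fin 2 ⊕ Fin 2) K} (hG : BiHom d₁ d₂ G)
    (a b : N) (P P' : Fin 2 → N) : ev (a • P) (b • P') G = a ^ d₁ * b ^ d₂ * ev P P' G := by
  rw [ev_sum, ev_sum, Finset.mul_sum]
  refine Finset.sum_congr rfl fun t ht => ?_
  obtain ⟨h1, h2⟩ := hG t ht
  simp only [Pi.smul_apply, smul_eq_mul, mul_pow]
  rw [← h1, ← h2, pow_add, pow_add]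
  ring

theorem ev_prl {d₁ d₂ : ℕ} {G : MvPolynomial (Fin 2 ⊕ Fin 2) K} (hG : BiHom d₁ d₂ G)
    {P P' Q Q' : Fin 2 → N} (h : Prl P Q) (h' : Prl P' Q') : ev P P' G = 0 ↔ ev Q Q' G = 0 := by
  obtain ⟨c, hc, rfl⟩ := h
  obtain ⟨d, hd, rfl⟩ := h'
  rw [ev_smul hG, mul_eq_zero]
  constructor
  · exact fun h => h.resolve_left (mul_ne_zero (pow_ne_zero _ hc) (pow_ne_zero _ hd))
  · exact Or.inr

theorem biHom_swap {d₁ d₂ : ℕ} {G : MvPolynomial (Fin 2 ⊕ Fin 2) K} (hG : BiHom d₁ d₂ G) :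
    BiHom d₂ d₁ (rename Sum.swap G) := by
  intro t ht
  have hs : Function.Injective (Sum.swap : Fin 2 ⊕ Fin 2 → Fin 2 ⊕ Fin 2) :=
    Sum.swap_leftInverse.injective
  rw [support_rename_of_injective hs, Finset.mem_image] at ht
  obtain ⟨u, hu, rfl⟩ := ht
  obtain ⟨h1, h2⟩ := hG u hu
  have h3 : ∀ i, (Finsupp.mapDomain Sum.swap u) i = u (Sum.swap i) := by
    intro i
    conv_lhs => rw [← Sum.swap_swap i]
    exact Finsupp.mapDomain_apply hs u (Sum.swap i)
  rw [h3, h3, h3, h3]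
  exact ⟨h2, h1⟩

theorem ev_swap (P P' : Fin 2 → N) (G : MvPolynomial (Fin 2 ⊕ Fin 2) K) :
    ev P P' (rename Sum.swap G) = ev P' P G := by
  unfold ev
  rw [aeval_rename]
  congr 2
  funext i
  rcases i with i | i <;> rfl

theorem irreducible_swap {G : MvPolynomial (Fin 2 ⊕ Fin 2) K} (hG : Irreducible G) :
    Irreducible (rename Sum.swap G) := by
  have h := (MulEquiv.irreducible_iff
    (renameEquiv K (Equiv.sumComm (Fin 2) (Fin 2))).toMulEquiv (x := G)).2 hG
  exact h

theorem dvd_swap {G H : MvPolynomial (Fin 2 ⊕ Fin 2) K} (h : G ∣ H) :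
    (rename Sum.swap G : MvPolynomial (Fin 2 ⊕ Fin 2) K) ∣ rename Sum.swap H :=
  map_dvd (rename (R := K) (Sum.swap : Fin 2 ⊕ Fin 2 → Fin 2 ⊕ Fin 2)) h

theorem bind_swap (F : Fin 2 → MvPolynomial (Fin 2) K) (G : MvPolynomial (Fin 2 ⊕ Fin 2) K) :
    bind₁ (dbl F) (rename Sum.swap G) = rename Sum.swap (bind₁ (dbl F) G) := by
  rw [bind₁_rename, rename_bind₁]
  congr 2
  funext i
  rcases i with i | i
  · show rename Sum.inr (F i) = rename Sum.swap (rename Sum.inl (F i))
    rw [rename_rename]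
    rfl
  · show rename Sum.inl (F i) = rename Sum.swap (rename Sum.inr (F i))
    rw [rename_rename]
    rfl

theorem iter_swap (F : Fin 2 → MvPolynomial (Fin 2) K) (n : ℕ)
    (G : MvPolynomial (Fin 2 ⊕ Fin 2) K) :
    (bind₁ (dbl F))^[n] (rename Sum.swap G) = rename Sum.swap ((bind₁ (dbl F))^[n] G) := by
  rw [dbl_iter, dbl_iter, bind_swap]

theorem perForm_swap {F : Fin 2 → MvPolynomial (Fin 2) K} {e : ℕ}
    {G : MvPolynomial (Fin 2 ⊕ Fin 2) K} (hG : PerForm F e G) :
    PerForm F e (rename Sum.swap G) := by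
  obtain ⟨d₁, d₂, h1, h2, h3, h4, h5⟩ := hG.hom
  obtain ⟨k, hk, h6⟩ := hG.per
  refine ⟨irreducible_swap hG.irr, ⟨d₂, d₁, h3, h4, h1, h2, biHom_swap h5⟩, k, hk, ?_⟩
  rw [iter_swap]
  exact dvd_swap h6

theorem wh_inl {d₁ d₂ : ℕ} {G : MvPolynomial (Fin 2 ⊕ Fin 2) K} (hG : BiHom d₁ d₂ G) :
    G.IsWeightedHomogeneous (Sum.elim (fun _ => 1) (fun _ => 0) : Fin 2 ⊕ Fin 2 → ℕ) d₁ := by
  intro t ht
  rw [Finsupp.weight_apply, Finsupp.sum_fintype _ _ (by simp), Fintype.sum_sum_type,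
    Fin.sum_univ_two, Fin.sum_univ_two]
  simpa using (hG t (mem_support_iff.2 ht)).1

theorem wh_inr {d₁ d₂ : ℕ} {G : MvPolynomial (Fin 2 ⊕ Fin 2) K} (hG : BiHom d₁ d₂ G) :
    G.IsWeightedHomogeneous (Sum.elim (fun _ => 0) (fun _ => 1) : Fin 2 ⊕ Fin 2 → ℕ) d₂ := by
  intro t ht
  rw [Finsupp.weight_apply, Finsupp.sum_fintype _ _ (by simp), Fintype.sum_sum_type,
    Fin.sum_univ_two, Fin.sum_univ_two]
  simpa using (hG t (mem_support_iff.2 ht)).2

/-- Euler's identity in the first pair of variables. -/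
theorem euler_inl {d₁ d₂ : ℕ} {G : MvPolynomial (Fin 2 ⊕ Fin 2) K} (hG : BiHom d₁ d₂ G)
    (P P' : Fin 2 → N) : P 0 * ev P P' (pderiv (Sum.inl 0) G) +
      P 1 * ev P P' (pderiv (Sum.inl 1) G) = d₁ * ev P P' G := by
  have h := congrArg (aeval (Sum.elim P P')) (wh_inl hG).sum_weight_X_mul_pderiv
  rw [Fintype.sum_sum_type, Fin.sum_univ_two, Fin.sum_univ_two] at h
  simpa [ev] using h

/-- Euler's identity in the second pair of variables. -/
theorem euler_inr {d₁ d₂ : ℕ} {G : MvPolynomial (Fin 2 ⊕ Fin 2) K} (hG : BiHom d₁ d₂ G)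
    (P P' : Fin 2 → N) : P' 0 * ev P P' (pderiv (Sum.inr 0) G) +
      P' 1 * ev P P' (pderiv (Sum.inr 1) G) = d₂ * ev P P' G := by
  have h := congrArg (aeval (Sum.elim P P')) (wh_inr hG).sum_weight_X_mul_pderiv
  rw [Fintype.sum_sum_type, Fin.sum_univ_two, Fin.sum_univ_two] at h
  simpa [ev] using h

end bihom

/-! ### (7) wandering points -/

section wand

variable {K : Type} [Field K] {N : Type} [Field N] [Algebra K N] {q : ℕ}
  {F : Fin 2 → MvPolynomial (Fin 2) K}

theorem wandP_iff (P : Fin 2 → N) : WandP F P ↔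
    ∀ m n : ℕ, Prl ((gAct F N)^[n] P) ((gAct F N)^[m] P) → m = n := by
  unfold WandP Prl
  push Not
  constructor
  · intro h m n ⟨c, hc, h1⟩
    by_contra hmn
    exact h m n hmn c hc h1
  · intro h m n hmn c hc h1
    exact hmn (h m n ⟨c, hc, h1⟩)

theorem wandP_iter {P : Fin 2 → N} (h : WandP F P) (k : ℕ) : WandP F ((gAct F N)^[k] P) := by
  rw [wandP_iff] at h ⊢
  intro m n h1
  rw [← Function.iterate_add_apply, ← Function.iterate_add_apply] at h1
  have := h _ _ h1
  omega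

theorem wandP_of_iter (hF : ∀ i, (F i).IsHomogeneous q) {P : Fin 2 → N} {k : ℕ}
    (h : WandP F ((gAct F N)^[k] P)) : WandP F P := by
  rw [wandP_iff] at h ⊢
  intro m n h1
  refine h m n ?_
  rw [← Function.iterate_add_apply, ← Function.iterate_add_apply, add_comm n k, add_comm m k,
    Function.iterate_add_apply, Function.iterate_add_apply]
  exact prl_iter hF h1 k

theorem wandP_prl (hF : ∀ i, (F i).IsHomogeneous q) {P Q : Fin 2 → N} (h : Prl P Q)
    (hQ : WandP F Q) : WandP F P := by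
  rw [wandP_iff] at hQ ⊢
  intro m n h1
  exact hQ m n (prl_trans (prl_symm (prl_iter hF h n)) (prl_trans h1 (prl_iter hF h m)))

theorem wandP_not_prl {P : Fin 2 → N} (h : WandP F P) {m n : ℕ} (hmn : m ≠ n) :
    ¬ Prl ((gAct F N)^[m] P) ((gAct F N)^[n] P) := fun h1 =>
  hmn ((wandP_iff P).1 h n m h1).symm

theorem wandP_map {M : Type} [Field M] [Algebra K M] (φ : N →ₐ[K] M) {P : Fin 2 → N} :
    WandP F (fun i => φ (P i)) ↔ WandP F P := by
  rw [wandP_iff, wandP_iff]
  have h0 : ∀ n, (gAct F M)^[n] (fun i => φ (P i)) = fun i => φ ((gAct F N)^[n] P i) :=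
    fun n => gAct_iter_map F φ n P
  constructor
  · intro h m n h1
    refine h m n ?_
    rw [h0, h0]
    exact prl_map φ.toRingHom h1
  · intro h m n h1
    rw [h0, h0] at h1
    obtain ⟨c, hc, h2⟩ := h1
    refine h m n ?_
    set R := (gAct F N)^[n] P
    set S := (gAct F N)^[m] P
    by_cases hS : S = 0
    · refine ⟨1, one_ne_zero, ?_⟩
      rw [hS, smul_zero]
      funext i
      have h3 := congrFun h2 i
      rw [Pi.smul_apply, hS, Pi.zero_apply, map_zero, smul_zero] at h3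
      exact φ.toRingHom.injective (by rw [Pi.zero_apply, map_zero]; exact h3)
    · have hR : R ≠ 0 := by
        intro hR
        apply hS
        funext i
        have h3 := congrFun h2 i
        rw [Pi.smul_apply, hR, Pi.zero_apply, map_zero, smul_eq_mul] at h3
        have h4 := (mul_eq_zero.1 h3.symm).resolve_left hc
        exact φ.toRingHom.injective (by rw [Pi.zero_apply, map_zero]; exact h4)
      rw [prl_iff_det hR hS]
      apply φ.toRingHom.injective
      show φ (R 0 * S 1) = φ (R 1 * S 0)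
      have e0 := congrFun h2 0
      have e1 := congrFun h2 1
      simp only [Pi.smul_apply, smul_eq_mul] at e0 e1
      rw [map_mul, map_mul, e0, e1]
      ring

end wand

end Bas

end Pool.DynLehmer.GS
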