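import Mathlib
import Pool.Agent.Lib.MP_2194ec_nt.GAL.R.Defs

set_option autoImplicit false

/-! # Row BEZ: the resultant of two forms with respect to the second pair of variables -/

namespace Pool.DynLehmer.GS
open MvPolynomial

namespace Bez

variable {K : Type} [Field K]

/-- The coefficients: forms in the first pair of variables. -/
abbrev A (K : Type) [Field K] := MvPolynomial (Fin 2) K

/-- Forms in the second pair of variables over the ring of forms in the first pair. -/
noncomputable def e : MvPolynomial (Fin 2 ⊕ Fin 2) K ≃ₐ[K] MvPolynomial (Fin 2) (A K) :=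
  (renameEquiv K (Equiv.sumComm (Fin 2) (Fin 2))).trans (sumAlgEquiv K (Fin 2) (Fin 2))

/-- Dehomogenization in the second pair of variables. -/
noncomputable def dh : MvPolynomial (Fin 2 ⊕ Fin 2) K →ₐ[K] Polynomial (A K) :=
  aeval (Sum.elim (fun i => Polynomial.C (X i)) ![Polynomial.X, 1])

theorem e_inl (i : Fin 2) : e (X (Sum.inl i) : MvPolynomial (Fin 2 ⊕ Fin 2) K) = C (X i) := by
  simp [e]

theorem e_inr (i : Fin 2) : e (X (Sum.inr i) : MvPolynomial (Fin 2 ⊕ Fin 2) K) = X i := by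
  simp [e]

theorem e_C (c : K) : e (C c : MvPolynomial (Fin 2 ⊕ Fin 2) K) = C (C c) := by
  simp [e]

theorem mono_eq (t : Fin 2 ⊕ Fin 2 →₀ ℕ) (c : K) :
    (monomial t c : MvPolynomial (Fin 2 ⊕ Fin 2) K) =
      C c * X (Sum.inl 0) ^ t (Sum.inl 0) * X (Sum.inl 1) ^ t (Sum.inl 1) *
        (X (Sum.inr 0) ^ t (Sum.inr 0) * X (Sum.inr 1) ^ t (Sum.inr 1)) := by
  rw [monomial_eq, Finsupp.prod_fintype _ _ (fun i => pow_zero _), Fintype.prod_sum_type,
    Fin.prod_univ_two, Fin.prod_univ_two]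
  ring

/-- Induction for forms in two pairs of variables. -/
theorem ind {d₁ d₂ : ℕ} {p : MvPolynomial (Fin 2 ⊕ Fin 2) K → Prop} (h0 : p 0)
    (ha : ∀ a b, p a → p b → p (a + b))
    (hm : ∀ (c : K) (a b i j : ℕ), a + b = d₁ → i + j = d₂ →
      p (C c * X (Sum.inl 0) ^ a * X (Sum.inl 1) ^ b * (X (Sum.inr 0) ^ i * X (Sum.inr 1) ^ j)))
    {G : MvPolynomial (Fin 2 ⊕ Fin 2) K} (hG : BiHom d₁ d₂ G) : p G := by
  rw [G.as_sum]
  refine Finset.sum_induction _ _ ha h0 fun t ht => ?_
  rw [mono_eq]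
  exact hm _ _ _ _ _ (hG t ht).1 (hG t ht).2

theorem dh_mono (c : K) (a b i j : ℕ) :
    dh (C c * X (Sum.inl 0) ^ a * X (Sum.inl 1) ^ b * (X (Sum.inr 0) ^ i * X (Sum.inr 1) ^ j)) =
      Polynomial.C (C c * X 0 ^ a * X 1 ^ b) * Polynomial.X ^ i := by
  simp only [dh, map_mul, map_pow, aeval_X, Sum.elim_inl, Sum.elim_inr, Matrix.cons_val_zero,
    Matrix.cons_val_one, one_pow, mul_one, algHom_C]
  rfl

theorem natDegree_dh {d₁ d₂ : ℕ} {G : MvPolynomial (Fin 2 ⊕ Fin 2) K} (hG : BiHom d₁ d₂ G) :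
    (dh G).natDegree ≤ d₂ := by
  refine ind (p := fun G => (dh G).natDegree ≤ d₂) ?_ ?_ ?_ hG
  · simp
  · intro a b h1 h2
    rw [map_add]
    exact Polynomial.natDegree_add_le_of_degree_le h1 h2
  · intro c a b i j h1 h2
    rw [dh_mono]
    exact (Polynomial.natDegree_C_mul_X_pow_le _ _).trans (by omega)

theorem hom_coeff {d₁ d₂ : ℕ} {G : MvPolynomial (Fin 2 ⊕ Fin 2) K} (hG : BiHom d₁ d₂ G) (n : ℕ) :
    ((dh G).coeff n).IsHomogeneous d₁ := by
  refine ind (p := fun G => ((dh G).coeff n).IsHomogeneous d₁) ?_ ?_ ?_ hG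
  · simpa using isHomogeneous_zero (Fin 2) K d₁
  · intro a b h1 h2
    rw [map_add, Polynomial.coeff_add]
    exact h1.add h2
  · intro c a b i j h1 h2
    rw [dh_mono, Polynomial.coeff_C_mul_X_pow]
    split_ifs
    · rw [← h1]
      have := ((isHomogeneous_C (Fin 2) c).mul ((isHomogeneous_X K (0 : Fin 2)).pow a)).mul
        ((isHomogeneous_X K (1 : Fin 2)).pow b)
      simpa using this
    · exact isHomogeneous_zero (Fin 2) K d₁

theorem homog_dh {d₁ d₂ : ℕ} {G : MvPolynomial (Fin 2 ⊕ Fin 2) K} (hG : BiHom d₁ d₂ G) :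
    (dh G).homogenize d₂ = e G := by
  refine ind (p := fun G => (dh G).homogenize d₂ = e G) ?_ ?_ ?_ hG
  · simp
  · intro a b h1 h2
    rw [map_add, map_add, Polynomial.homogenize_add, h1, h2]
  · intro c a b i j h1 h2
    rw [dh_mono, Polynomial.homogenize_C_mul, Polynomial.homogenize_X_pow (by omega)]
    simp only [map_mul, map_pow, e_inl, e_inr, e_C]
    rw [show d₂ - i = j by omega]

theorem ev_eq {d₁ d₂ : ℕ} {G : MvPolynomial (Fin 2 ⊕ Fin 2) K} (hG : BiHom d₁ d₂ G)
    {N : Type} [Field N] [Algebra K N] (P P' : Fin 2 → N) :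
    ev P P' G = ∑ l ∈ Finset.range (d₂ + 1), aeval P ((dh G).coeff l) * (P' 0 ^ l *
      P' 1 ^ (d₂ - l)) := by
  refine ind (p := fun G => ev P P' G = ∑ l ∈ Finset.range (d₂ + 1),
    aeval P ((dh G).coeff l) * (P' 0 ^ l * P' 1 ^ (d₂ - l))) ?_ ?_ ?_ hG
  · simp [ev]
  · intro a b h1 h2
    rw [ev, map_add, ← ev, ← ev, h1, h2, ← Finset.sum_add_distrib]
    refine Finset.sum_congr rfl fun l _ => ?_
    rw [map_add, Polynomial.coeff_add, map_add, add_mul]
  · intro c a b i j h1 h2
    rw [dh_mono, Finset.sum_eq_single i]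
    · rw [Polynomial.coeff_C_mul_X_pow, if_pos rfl, ev]
      simp only [map_mul, map_pow, aeval_X, Sum.elim_inl, Sum.elim_inr, algHom_C]
      rw [show d₂ - i = j by omega]
    · intro l _ hl
      rw [Polynomial.coeff_C_mul_X_pow, if_neg hl, map_zero, zero_mul]
    · intro hi
      exact absurd (Finset.mem_range.2 (by omega)) hi

/-- The values of the coefficients. -/
noncomputable def phi {N : Type} [Field N] [Algebra K N] (P : Fin 2 → N) : A K →+* N :=
  (aeval P : A K →ₐ[K] N).toRingHom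

theorem phi_apply {N : Type} [Field N] [Algebra K N] (P : Fin 2 → N) (a : A K) :
    phi P a = aeval P a := rfl

theorem ev_infty {d₁ d₂ : ℕ} {G : MvPolynomial (Fin 2 ⊕ Fin 2) K} (hG : BiHom d₁ d₂ G)
    {N : Type} [Field N] [Algebra K N] (P P' : Fin 2 → N) (h1 : P' 1 = 0) :
    ev P P' G = phi P ((dh G).coeff d₂) * P' 0 ^ d₂ := by
  rw [ev_eq hG, Finset.sum_range_succ, Finset.sum_eq_zero, zero_add, Nat.sub_self, pow_zero,
    mul_one, phi_apply]
  intro l hl
  rw [h1, zero_pow (by have := Finset.mem_range.1 hl; omega), mul_zero, mul_zero]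

theorem ev_fin {d₁ d₂ : ℕ} {G : MvPolynomial (Fin 2 ⊕ Fin 2) K} (hG : BiHom d₁ d₂ G)
    {N : Type} [Field N] [Algebra K N] (P P' : Fin 2 → N) (h1 : P' 1 ≠ 0) :
    ev P P' G = P' 1 ^ d₂ * ((dh G).map (phi P)).eval (P' 0 / P' 1) := by
  have h2 : ((dh G).map (phi P)).natDegree < d₂ + 1 :=
    Nat.lt_succ_of_le (Polynomial.natDegree_map_le.trans (natDegree_dh hG))
  rw [ev_eq hG, Polynomial.eval_eq_sum_range' h2, Finset.mul_sum]
  refine Finset.sum_congr rfl fun l hl => ?_
  have hl' : l ≤ d₂ := Nat.lt_succ_iff.1 (Finset.mem_range.1 hl)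
  rw [Polynomial.coeff_map, ← phi_apply, div_pow]
  obtain ⟨r, rfl⟩ := Nat.exists_eq_add_of_le hl'
  rw [Nat.add_sub_cancel_left, pow_add]
  field_simp

/-- The resultant vanishes at the common zeros. -/
theorem vanish {d₁ d₂ e₁ e₂ : ℕ} {G H : MvPolynomial (Fin 2 ⊕ Fin 2) K} (hG : BiHom d₁ d₂ G)
    (hH : BiHom e₁ e₂ H) (hd : 1 ≤ d₂) {N : Type} [Field N] [Algebra K N] (P P' : Fin 2 → N)
    (hP' : P' ≠ 0) (h1 : ev P P' G = 0) (h2 : ev P P' H = 0) :
    aeval P (Polynomial.resultant (dh G) (dh H) d₂ e₂) = 0 := by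
  rw [← phi_apply, ← Polynomial.resultant_map_map]
  have n1 : ((dh G).map (phi P)).natDegree ≤ d₂ :=
    Polynomial.natDegree_map_le.trans (natDegree_dh hG)
  have n2 : ((dh H).map (phi P)).natDegree ≤ e₂ :=
    Polynomial.natDegree_map_le.trans (natDegree_dh hH)
  by_cases h3 : P' 1 = 0
  · have h4 : P' 0 ≠ 0 := by
      intro h4
      refine hP' (funext fun i => ?_)
      fin_cases i
      · exact h4
      · exact h3
    rw [ev_infty hG P P' h3] at h1
    rw [ev_infty hH P P' h3] at h2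
    have h5 : ((dh G).map (phi P)).coeff d₂ = 0 := by
      rw [Polynomial.coeff_map]
      exact (mul_eq_zero.1 h1).resolve_right (pow_ne_zero _ h4)
    have h6 : ((dh H).map (phi P)).coeff e₂ = 0 := by
      rw [Polynomial.coeff_map]
      exact (mul_eq_zero.1 h2).resolve_right (pow_ne_zero _ h4)
    rcases Nat.eq_zero_or_pos e₂ with he | he
    · subst he
      rw [Polynomial.resultant_zero_right_deg, h6, zero_pow (by omega)]
    · refine Polynomial.resultant_eq_zero_of_lt_lt _ _ _ _ ?_ ?_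
      · refine lt_of_le_of_ne n1 fun h => ?_
        have := Polynomial.leadingCoeff_eq_zero.1 (by
          rw [Polynomial.leadingCoeff, h]; exact h5 : ((dh G).map (phi P)).leadingCoeff = 0)
        rw [this, Polynomial.natDegree_zero] at h
        omega
      · refine lt_of_le_of_ne n2 fun h => ?_
        have := Polynomial.leadingCoeff_eq_zero.1 (by
          rw [Polynomial.leadingCoeff, h]; exact h6 : ((dh H).map (phi P)).leadingCoeff = 0)
        rw [this, Polynomial.natDegree_zero] at h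
        omega
  · rw [ev_fin hG P P' h3] at h1
    rw [ev_fin hH P P' h3] at h2
    have h5 := (mul_eq_zero.1 h1).resolve_left (pow_ne_zero _ h3)
    have h6 := (mul_eq_zero.1 h2).resolve_left (pow_ne_zero _ h3)
    obtain ⟨p, q, -, -, h7⟩ := Polynomial.exists_mul_add_mul_eq_C_resultant
      ((dh G).map (phi P)) ((dh H).map (phi P)) n1 n2 (Or.inl (by omega))
    have h8 := congrArg (Polynomial.eval (P' 0 / P' 1)) h7
    rw [Polynomial.eval_add, Polynomial.eval_mul, Polynomial.eval_mul, h5, h6, zero_mul, zero_mul,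
      add_zero, Polynomial.eval_C] at h8
    exact h8.symm

/-- The resultant is a form. -/
theorem homog {d₁ d₂ e₁ e₂ : ℕ} {G H : MvPolynomial (Fin 2 ⊕ Fin 2) K} (hG : BiHom d₁ d₂ G)
    (hH : BiHom e₁ e₂ H) :
    (Polynomial.resultant (dh G) (dh H) d₂ e₂).IsHomogeneous (d₁ * e₂ + d₂ * e₁) := by
  rw [Polynomial.resultant, Matrix.det_apply]
  refine IsHomogeneous.sum _ _ _ fun σ _ => ?_
  have h1 : (∏ i, Polynomial.sylvester (dh G) (dh H) d₂ e₂ (σ i) i).IsHomogeneous
      (∑ i : Fin (d₂ + e₂), Fin.addCases (fun _ => e₁) (fun _ => d₁) i) := by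
    refine IsHomogeneous.prod _ _ _ fun i _ => ?_
    induction i using Fin.addCases with
    | left i =>
      rw [Polynomial.sylvester, Matrix.of_apply, Fin.addCases_left, Fin.addCases_left]
      split_ifs
      · exact hom_coeff hH _
      · exact isHomogeneous_zero _ _ _
    | right i =>
      rw [Polynomial.sylvester, Matrix.of_apply, Fin.addCases_right, Fin.addCases_right]
      split_ifs
      · exact hom_coeff hG _
      · exact isHomogeneous_zero _ _ _
  have h2 : (∑ i : Fin (d₂ + e₂), (Fin.addCases (fun _ => e₁) (fun _ => d₁) i : ℕ)) =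
      d₁ * e₂ + d₂ * e₁ := by
    rw [Fin.sum_univ_add]
    simp only [Fin.addCases_left, Fin.addCases_right, Finset.sum_const, Finset.card_univ,
      Fintype.card_fin, smul_eq_mul]
    ring
  rw [h2] at h1
  rcases Int.units_eq_one_or (Equiv.Perm.sign σ) with h | h
  · rw [h, one_smul]
    exact h1
  · rw [h, Units.neg_smul, one_smul]
    exact h1.neg

/-- A relation if the resultant is zero. -/
theorem relation {R : Type} [CommRing R] [IsDomain R] {f g : Polynomial R} {m n : ℕ}
    (hf : f.natDegree ≤ m) (hg : g.natDegree ≤ n) (h0 : Polynomial.resultant f g m n = 0) :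
    ∃ p q : Polynomial R, p.degree < m ∧ q.degree < n ∧ ¬ (p = 0 ∧ q = 0) ∧ f * q + g * p = 0 := by
  classical
  rw [Polynomial.resultant] at h0
  obtain ⟨v, hv, hMv⟩ := Matrix.exists_mulVec_eq_zero_iff.2 h0
  let b₁ := ((Polynomial.degreeLT.basis R m).prod (Polynomial.degreeLT.basis R n)).reindex
    finSumFinEquiv
  let b₂ := Polynomial.degreeLT.basis R (m + n)
  have hx : b₁.equivFun.symm v ≠ 0 := by
    intro h
    exact hv ((LinearEquiv.map_eq_zero_iff _).1 h)
  have h1 : Polynomial.sylvesterMap f g hf hg (b₁.equivFun.symm v) = 0 := by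
    have h2 := LinearMap.toMatrix_mulVec_repr b₁ b₂ (Polynomial.sylvesterMap f g hf hg)
      (b₁.equivFun.symm v)
    rw [Polynomial.toMatrix_sylvesterMap'] at h2
    have h3 : (b₁.repr (b₁.equivFun.symm v) : Fin (m + n) → R) = v :=
      b₁.equivFun.apply_symm_apply v
    rw [h3, hMv] at h2
    exact b₂.repr.injective (Finsupp.ext fun i => (congrFun h2 i).symm)
  generalize b₁.equivFun.symm v = x at hx h1
  obtain ⟨⟨p, hp⟩, ⟨q, hq⟩⟩ := x
  refine ⟨p, q, Polynomial.mem_degreeLT.1 hp, Polynomial.mem_degreeLT.1 hq, ?_, ?_⟩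
  · rintro ⟨rfl, rfl⟩
    exact hx rfl
  · exact congrArg Subtype.val h1

theorem nat_le {R : Type} [CommRing R] {p : Polynomial R} {m : ℕ}
    (h : p.degree < ((m + 1 : ℕ) : WithBot ℕ)) : p.natDegree ≤ m := by
  rcases eq_or_ne p 0 with rfl | h0
  · simp
  · exact Nat.lt_succ_iff.1 ((Polynomial.natDegree_lt_iff_degree_lt h0).2 h)

theorem nonvanish {d₁ d₂ e₁ e₂ : ℕ} {G H : MvPolynomial (Fin 2 ⊕ Fin 2) K} (hG : BiHom d₁ d₂ G)
    (hH : BiHom e₁ e₂ H) (hirr : Irreducible G) (hd : 1 ≤ d₂) (hdvd : ¬ G ∣ H) :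
    Polynomial.resultant (dh G) (dh H) d₂ e₂ ≠ 0 := by
  intro h0
  obtain ⟨p, q, hp, hq, hpq, hrel⟩ := relation (natDegree_dh hG) (natDegree_dh hH) h0
  have hG0 : dh G ≠ 0 := by
    intro h
    have h1 := homog_dh hG
    rw [h, Polynomial.homogenize_zero] at h1
    exact hirr.ne_zero ((map_eq_zero_iff e e.injective).1 h1.symm)
  have hH0 : dh H ≠ 0 := by
    intro h
    have h1 := homog_dh hH
    rw [h, Polynomial.homogenize_zero] at h1
    exact hdvd (((map_eq_zero_iff e e.injective).1 h1.symm) ▸ dvd_zero G)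
  obtain ⟨m, rfl⟩ : ∃ m, d₂ = m + 1 := ⟨d₂ - 1, by omega⟩
  rcases Nat.eq_zero_or_pos e₂ with he | he
  · subst he
    have hq0 : q = 0 := by
      by_contra hq0
      rw [Polynomial.degree_eq_natDegree hq0] at hq
      have := WithBot.coe_lt_coe.1 hq
      simp at this
    rw [hq0, mul_zero, zero_add] at hrel
    exact hpq ⟨(mul_eq_zero.1 hrel).resolve_left hH0, hq0⟩
  · obtain ⟨n, rfl⟩ : ∃ n, e₂ = n + 1 := ⟨e₂ - 1, by omega⟩
    have hpd : p.natDegree ≤ m := nat_le hp
    have hqd : q.natDegree ≤ n := nat_le hq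
    have h1 : e G * q.homogenize n + e H * p.homogenize m = 0 := by
      have h2 : (dh G * q).homogenize (m + 1 + n) + (dh H * p).homogenize (n + 1 + m) = 0 := by
        rw [show n + 1 + m = m + 1 + n by omega, ← Polynomial.homogenize_add, hrel,
          Polynomial.homogenize_zero]
      rw [Polynomial.homogenize_mul _ _ (natDegree_dh hG) hqd,
        Polynomial.homogenize_mul _ _ (natDegree_dh hH) hpd, homog_dh hG, homog_dh hH] at h2
      exact h2
    have hprime : Prime (e G) := by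
      have : Irreducible (e G) := (MulEquiv.irreducible_iff e.toMulEquiv).2 hirr
      exact this.prime
    have h3 : e G ∣ e H * p.homogenize m := by
      refine ⟨-(q.homogenize n), ?_⟩
      linear_combination h1
    rcases hprime.dvd_or_dvd h3 with h4 | h4
    · obtain ⟨c, hc⟩ := h4
      refine hdvd ⟨e.symm c, e.injective ?_⟩
      rw [map_mul, AlgEquiv.apply_symm_apply, hc]
    · have h5 : p.homogenize m = 0 := by
        by_contra h6
        obtain ⟨c, hc⟩ := h4
        have hc0 : c ≠ 0 := by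
          rintro rfl
          rw [mul_zero] at hc
          exact h6 hc
        have h7 : (e G).totalDegree = m + 1 := by
          rw [← homog_dh hG]
          refine (Polynomial.isHomogeneous_homogenize _).totalDegree ?_
          rw [homog_dh hG]
          exact hprime.ne_zero
        have h8 : (p.homogenize m).totalDegree = m :=
          (Polynomial.isHomogeneous_homogenize _).totalDegree h6
        rw [hc, totalDegree_mul_of_isDomain hprime.ne_zero hc0, h7] at h8
        omega
      have h9 : p = 0 := Polynomial.eq_zero_of_homogenize_eq_zero hpd h5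
      rw [h9, mul_zero, add_zero] at hrel
      exact hpq ⟨h9, (mul_eq_zero.1 hrel).resolve_left hG0⟩

end Bez

/-- Row BEZ. -/
theorem bez : BezStatement := by
  intro K _ d₁ d₂ e₁ e₂ G H hG hH hirr hd hdvd
  refine ⟨Polynomial.resultant (Bez.dh G) (Bez.dh H) d₂ e₂, Bez.nonvanish hG hH hirr hd hdvd,
    Bez.homog hG hH, ?_⟩
  intro N _ _ P P' hP' h1 h2
  exact Bez.vanish hG hH hd P P' hP' h1 h2

end Pool.DynLehmer.GS
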