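import Pool.Agent.Lib.MP_2194ec_nt.GAL.R.Bih
import Pool.Agent.Lib.MP_2194ec_nt.GAL.ADefs

set_option autoImplicit false
set_option linter.unusedSectionVars false

/-!
# Row BIF: from a periodic curve in the space of dimension 3 to a periodic form
-/

namespace Pool.DynLehmer.GS
open MvPolynomial Pool.DynLehmer
open scoped Classical

namespace Bif

/-! ### Points -/

section points

variable {K : Type} [Field K] {N : Type} [Field N] [Algebra K N]

theorem iter_ne {q : ℕ} {F : Fin 2 → MvPolynomial (Fin 2) K} (hF : Mor q F) {P : Fin 2 → N}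
    (hP : P ≠ 0) (n : ℕ) : (gAct F N)^[n] P ≠ 0 := by
  induction n with
  | zero => exact hP
  | succ n ih =>
    rw [Function.iterate_succ_apply']
    exact hF.ne N _ ih

theorem iter_seg {F : Fin 2 → MvPolynomial (Fin 2) K}
    {Fz : Fin 2 × Fin 2 → MvPolynomial (Fin 2 × Fin 2) K} (h : ExtS F Fz) (P P' : Fin 2 → N)
    (n : ℕ) : (gAct Fz N)^[n] (seg P P') = seg ((gAct F N)^[n] P) ((gAct F N)^[n] P') := by
  induction n with
  | zero => rfl
  | succ n ih =>
    rw [Function.iterate_succ_apply', ih, h N, Function.iterate_succ_apply',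
      Function.iterate_succ_apply']

theorem gAct_dbl (F : Fin 2 → MvPolynomial (Fin 2) K) (P P' : Fin 2 → N) :
    gAct (dbl F) N (Sum.elim P P') = Sum.elim (gAct F N P) (gAct F N P') := by
  funext i
  rcases i with i | i
  · show aeval (Sum.elim P P') (rename Sum.inl (F i)) = aeval P (F i)
    rw [aeval_rename]
    rfl
  · show aeval (Sum.elim P P') (rename Sum.inr (F i)) = aeval P' (F i)
    rw [aeval_rename]
    rfl

theorem iter_dbl (F : Fin 2 → MvPolynomial (Fin 2) K) (P P' : Fin 2 → N) (n : ℕ) :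
    (gAct (dbl F) N)^[n] (Sum.elim P P') =
      Sum.elim ((gAct F N)^[n] P) ((gAct F N)^[n] P') := by
  induction n with
  | zero => rfl
  | succ n ih =>
    rw [Function.iterate_succ_apply', ih, gAct_dbl, Function.iterate_succ_apply',
      Function.iterate_succ_apply']

theorem aeval_it {ι : Type} (F : ι → MvPolynomial ι K) (n : ℕ) (x : ι → N)
    (G : MvPolynomial ι K) :
    aeval x ((bind₁ F)^[n] G) = aeval ((gAct F N)^[n] x) G := by
  induction n generalizing x with
  | zero => rfl
  | succ n ih =>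
    rw [Function.iterate_succ_apply', Function.iterate_succ_apply]
    rw [← ih (gAct F N x), aeval_bind₁]
    rfl

theorem ev_it (F : Fin 2 → MvPolynomial (Fin 2) K) (P P' : Fin 2 → N) (n : ℕ)
    (G : MvPolynomial (Fin 2 ⊕ Fin 2) K) :
    ev P P' ((bind₁ (dbl F))^[n] G) = ev ((gAct F N)^[n] P) ((gAct F N)^[n] P') G := by
  rw [ev, aeval_it, iter_dbl]
  rfl

theorem prl_of_pr {P Q : Fin 2 → N} (hP : P ≠ 0) (hQ : Q ≠ 0) (h : pr P = pr Q) : Prl P Q := by
  unfold pr at h
  by_cases h1 : P 1 = 0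
  · by_cases h2 : Q 1 = 0
    · have hP0 : P 0 ≠ 0 := by
        intro h0
        apply hP
        funext i
        fin_cases i
        · exact h0
        · exact h1
      have hQ0 : Q 0 ≠ 0 := by
        intro h0
        apply hQ
        funext i
        fin_cases i
        · exact h0
        · exact h2
      refine ⟨P 0 / Q 0, div_ne_zero hP0 hQ0, ?_⟩
      funext i
      fin_cases i
      · show P 0 = P 0 / Q 0 * Q 0
        rw [div_mul_cancel₀ _ hQ0]
      · show P 1 = P 0 / Q 0 * Q 1
        rw [h1, h2, mul_zero]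
    · rw [if_pos h1, if_neg h2] at h
      exact absurd h.symm (Option.some_ne_none _)
  · by_cases h2 : Q 1 = 0
    · rw [if_neg h1, if_pos h2] at h
      exact absurd h (Option.some_ne_none _)
    · rw [if_neg h1, if_neg h2] at h
      have h3 : P 0 / P 1 = Q 0 / Q 1 := Option.some_injective _ h
      refine ⟨P 1 / Q 1, div_ne_zero h1 h2, ?_⟩
      funext i
      fin_cases i
      · show P 0 = P 1 / Q 1 * Q 0
        rw [div_eq_div_iff h1 h2] at h3
        field_simp
        linear_combination h3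
      · show P 1 = P 1 / Q 1 * Q 1
        rw [div_mul_cancel₀ _ h2]

theorem prl_of_seg {A A' B B' : Fin 2 → N} (hB : B ≠ 0) (hB' : B' ≠ 0)
    (h : Prl (seg A A') (seg B B')) : Prl A B := by
  obtain ⟨c, hc, h⟩ := h
  obtain ⟨i, hi⟩ := Function.ne_iff.1 hB
  obtain ⟨i', hi'⟩ := Function.ne_iff.1 hB'
  have h1 : ∀ l l', A l * A' l' = c * (B l * B' l') := fun l l' => congrFun h (l, l')
  have h2 : A' i' ≠ 0 := by
    intro h0
    have h3 := h1 i i'
    rw [h0, mul_zero] at h3
    exact mul_ne_zero hc (mul_ne_zero hi hi') h3.symm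
  refine ⟨c * B' i' / A' i', div_ne_zero (mul_ne_zero hc hi') h2, ?_⟩
  funext l
  show A l = c * B' i' / A' i' * B l
  field_simp
  rw [h1 l i']
  ring

theorem wand_inj {F : Fin 2 → MvPolynomial (Fin 2) K} {P : Fin 2 → N} (hw : WandP F P) {k : ℕ}
    (hk : 0 < k) {i j : ℕ} (h : Prl ((gAct F N)^[k * i] P) ((gAct F N)^[k * j] P)) : i = j := by
  by_contra hij
  obtain ⟨c, hc, h⟩ := h
  exact hw ⟨k * j, k * i, fun h' => hij (Nat.eq_of_mul_eq_mul_left hk h').symm, c, hc, h⟩

end points

/-! ### Forms -/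

section forms

variable {K : Type} [Field K]

theorem BiHom.prod {ι : Type*} {a b : ι → ℕ} (s : Finset ι)
    {G : ι → MvPolynomial (Fin 2 ⊕ Fin 2) K} (h : ∀ i ∈ s, BiHom (a i) (b i) (G i)) :
    BiHom (∑ i ∈ s, a i) (∑ i ∈ s, b i) (∏ i ∈ s, G i) := by
  induction s using Finset.induction_on with
  | empty =>
    rw [bihom_iff]
    exact ⟨isWeightedHomogeneous_one _ _, isWeightedHomogeneous_one _ _⟩
  | insert i s hi ih =>
    rw [Finset.sum_insert hi, Finset.sum_insert hi, Finset.prod_insert hi]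
    exact (h i (Finset.mem_insert_self i s)).mul
      (ih fun j hj => h j (Finset.mem_insert_of_mem hj))

theorem bihom_dbl {q : ℕ} {F : Fin 2 → MvPolynomial (Fin 2) K} (hF : ∀ i, (F i).IsHomogeneous q)
    (i : Fin 2 ⊕ Fin 2) : BiHom (q * w1 i) (q * w2 i) (dbl F i) := by
  have h1 : ∀ (i : Fin 2) (m : Fin 2 →₀ ℕ), coeff m (F i) ≠ 0 → m 0 + m 1 = q := by
    intro i m hm
    have h2 : m.degree = q := by
      rw [Finsupp.degree_eq_weight_one]
      exact hF i hm
    rw [Finsupp.degree_eq_sum, Fin.sum_univ_two] at h2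
    exact h2
  rcases i with i | i
  · intro t ht
    obtain ⟨m, rfl, hm⟩ := coeff_rename_ne_zero _ _ _ (mem_support_iff.1 ht)
    have h2 := h1 i m hm
    refine ⟨?_, ?_⟩
    · rw [Finsupp.mapDomain_apply Sum.inl_injective, Finsupp.mapDomain_apply Sum.inl_injective, h2]
      simp [w1]
    · rw [Finsupp.mapDomain_of_notMem_range _ _ (by simp), Finsupp.mapDomain_of_notMem_range _ _ (by simp)]
      simp [w2]
  · intro t ht
    obtain ⟨m, rfl, hm⟩ := coeff_rename_ne_zero _ _ _ (mem_support_iff.1 ht)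
    have h2 := h1 i m hm
    refine ⟨?_, ?_⟩
    · rw [Finsupp.mapDomain_of_notMem_range _ _ (by simp), Finsupp.mapDomain_of_notMem_range _ _ (by simp)]
      simp [w1]
    · rw [Finsupp.mapDomain_apply Sum.inr_injective, Finsupp.mapDomain_apply Sum.inr_injective, h2]
      simp [w2]

theorem bihom_bind {q : ℕ} {F : Fin 2 → MvPolynomial (Fin 2) K} (hF : ∀ i, (F i).IsHomogeneous q)
    {d₁ d₂ : ℕ} {G : MvPolynomial (Fin 2 ⊕ Fin 2) K} (hG : BiHom d₁ d₂ G) :
    BiHom (q * d₁) (q * d₂) (bind₁ (dbl F) G) := by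
  rw [G.as_sum, map_sum]
  refine BiHom.sum _ fun t ht => ?_
  rw [bind₁_monomial]
  refine BiHom.C_mul ?_ _
  have h1 := BiHom.prod (a := fun i => t i * (q * w1 i)) (b := fun i => t i * (q * w2 i))
    t.support (G := fun i => dbl F i ^ t i) (fun i _ => (bihom_dbl hF i).pow (t i))
  have h2 : ∑ i ∈ t.support, t i * (q * w1 i) = q * d₁ := by
    rw [← (hG t ht).1, ← weight_w1, Finsupp.weight_apply, Finsupp.sum, Finset.mul_sum]
    refine Finset.sum_congr rfl fun i _ => ?_
    rw [smul_eq_mul]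
    ring
  have h3 : ∑ i ∈ t.support, t i * (q * w2 i) = q * d₂ := by
    rw [← (hG t ht).2, ← weight_w2, Finsupp.weight_apply, Finsupp.sum, Finset.mul_sum]
    refine Finset.sum_congr rfl fun i _ => ?_
    rw [smul_eq_mul]
    ring
  rw [h2, h3] at h1
  exact h1

theorem bihom_it {q : ℕ} {F : Fin 2 → MvPolynomial (Fin 2) K} (hF : ∀ i, (F i).IsHomogeneous q)
    {d₁ d₂ : ℕ} {G : MvPolynomial (Fin 2 ⊕ Fin 2) K} (hG : BiHom d₁ d₂ G) (n : ℕ) :
    BiHom (q ^ n * d₁) (q ^ n * d₂) ((bind₁ (dbl F))^[n] G) := by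
  induction n with
  | zero => simpa using hG
  | succ n ih =>
    rw [Function.iterate_succ_apply']
    have h1 := bihom_bind hF ih
    rw [← mul_assoc, ← mul_assoc, ← pow_succ'] at h1
    exact h1

/-- a form of degree `c` in the ideal which does not vanish on the quadric -/
theorem exists_form (Q : Ideal (MvPolynomial (Fin 2 × Fin 2) K)) (c : ℕ)
    (hup : Module.finrank K (homogeneousSubmodule (Fin 2 × Fin 2) K c) ≤
      Module.finrank K ↥(homogeneousSubmodule (Fin 2 × Fin 2) K c ⊓ Q.restrictScalars K) +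
        c * (c + 1)) :
    ∃ u ∈ Q, u.IsHomogeneous c ∧ sg K u ≠ 0 := by
  by_contra hcon
  push Not at hcon
  set V := homogeneousSubmodule (Fin 2 × Fin 2) K c with hV
  have hfin : Module.Finite K V :=
    Module.Finite.iff_fg.2 (homogeneousSubmodule_fg (Fin 2 × Fin 2) K c)
  have h1 := LinearMap.finrank_range_add_finrank_ker ((sg K).toLinearMap.domRestrict V)
  rw [LinearMap.range_domRestrict] at h1
  have h2 : Module.finrank K (LinearMap.ker ((sg K).toLinearMap.domRestrict V)) =
      Module.finrank K ↥(V ⊓ LinearMap.ker (sg K).toLinearMap) := by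
    rw [LinearMap.ker_domRestrict]
    have e : ↥((LinearMap.ker (sg K).toLinearMap).comap V.subtype) ≃ₗ[K]
        ↥(V ⊓ LinearMap.ker (sg K).toLinearMap) := by
      refine LinearEquiv.trans (Submodule.equivMapOfInjective V.subtype
        (Submodule.subtype_injective V) _) (LinearEquiv.ofEq _ _ ?_)
      rw [Submodule.map_comap_subtype]
    exact e.finrank_eq
  have h3 : V ⊓ Q.restrictScalars K ≤ V ⊓ LinearMap.ker (sg K).toLinearMap := by
    rintro u ⟨hu, hu'⟩
    exact ⟨hu, hcon u hu' hu⟩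
  have hfin2 : Module.Finite K ↥(V ⊓ LinearMap.ker (sg K).toLinearMap) :=
    Submodule.finiteDimensional_inf_left _ _
  have h4 := Submodule.finrank_mono h3
  have h5 := le_finrank_sg (K := K) c
  rw [← hV] at h5
  have h6 : (c + 1) * (c + 1) = c * (c + 1) + (c + 1) := by ring
  omega

end forms

section main

variable {K : Type} [Field K] {N : Type} [Field N] [Algebra K N]

/-- a nonzero form in two variables does not vanish on infinitely many points -/
theorem no_form (hROOT : RootStatement) {A : ℕ → Fin 2 → N} (hA : ∀ j, A j ≠ 0)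
    (hinj : ∀ i j, Prl (A i) (A j) → i = j) {d : ℕ} {R : MvPolynomial (Fin 2) K} (hR : R ≠ 0)
    (hd : R.IsHomogeneous d) (h : ∀ j, aeval (A j) R = 0) : False := by
  obtain ⟨Z, _, hZ⟩ := hROOT K N d R hR hd
  have h1 : Function.Injective fun j => pr (A j) := fun i j hij =>
    hinj i j (prl_of_pr (hA i) (hA j) hij)
  refine Set.infinite_range_of_injective h1 (Z.finite_toSet.subset ?_)
  rintro _ ⟨j, rfl⟩
  exact hZ _ (hA j) (h j)

/-- a form which depends on one pair of variables only -/
theorem exists_rename {f : Fin 2 → Fin 2 ⊕ Fin 2} (hf : Function.Injective f) {d : ℕ}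
    {G : MvPolynomial (Fin 2 ⊕ Fin 2) K} (h1 : ∀ t ∈ G.support, t (f 0) + t (f 1) = d)
    (h2 : ∀ t ∈ G.support, ∀ x, x ∉ Set.range f → t x = 0) :
    ∃ g : MvPolynomial (Fin 2) K, g.IsHomogeneous d ∧ rename f g = G := by
  have hv : (↑G.vars : Set (Fin 2 ⊕ Fin 2)) ⊆ Set.range f := by
    intro x hx
    by_contra hc
    obtain ⟨t, ht, hxt⟩ := (mem_vars_iff_mem_support x).1 (Finset.mem_coe.1 hx)
    exact (Finsupp.mem_support_iff.1 hxt) (h2 t ht x hc)
  obtain ⟨g, hg⟩ := exists_rename_eq_of_vars_subset_range G f hf hv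
  refine ⟨g, ?_, hg⟩
  intro m hm
  have h3 : coeff (m.mapDomain f) G = coeff m g := by
    rw [← hg, coeff_rename_mapDomain f hf]
  have h4 := h1 (m.mapDomain f) (mem_support_iff.2 (by rw [h3]; exact hm))
  rw [Finsupp.mapDomain_apply hf, Finsupp.mapDomain_apply hf] at h4
  have h5 : m.degree = d := by
    rw [Finsupp.degree_eq_sum, Fin.sum_univ_two]
    exact h4
  rw [Finsupp.degree_eq_weight_one] at h5
  exact h5

end main

end Bif

open Bif

theorem bifRow : BifStatement := by
  intro hROOT hBEZ hSP3 K _ q F hq hF Fz hFz hExt N _ _ P P' c hP hP' hw hw' hper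
  obtain ⟨k, Q, hk, hQ, hcomp, hlo, hup, hzero, hstab⟩ := hper
  set A : ℕ → Fin 2 → N := fun j => (gAct F N)^[k * j] P with hA
  set A' : ℕ → Fin 2 → N := fun j => (gAct F N)^[k * j] P' with hA'
  have hAne : ∀ j, A j ≠ 0 := fun j => iter_ne hF hP _
  have hA'ne : ∀ j, A' j ≠ 0 := fun j => iter_ne hF hP' _
  have hAinj : ∀ i j, Prl (A i) (A j) → i = j := fun i j h => wand_inj hw hk h
  have hA'inj : ∀ i j, Prl (A' i) (A' j) → i = j := fun i j h => wand_inj hw' hk h
  have hsegne : ∀ j, seg (A j) (A' j) ≠ 0 := by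
    intro j h0
    obtain ⟨i, hi⟩ := Function.ne_iff.1 (hAne j)
    obtain ⟨i', hi'⟩ := Function.ne_iff.1 (hA'ne j)
    exact mul_ne_zero hi hi' (congrFun h0 (i, i'))
  -- the points of the orbit lie on the curve
  have hstab' : ∀ (j : ℕ) (H : MvPolynomial (Fin 2 × Fin 2) K), H ∈ Q →
      (bind₁ Fz)^[k * j] H ∈ Q := by
    intro j
    induction j with
    | zero => intro H hH; simpa using hH
    | succ j ih =>
      intro H hH
      rw [Nat.mul_succ, Function.iterate_add_apply]
      exact ih _ (hstab H hH)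
  have hQz : ∀ j, ∀ H ∈ Q, aeval (seg (A j) (A' j)) H = 0 := by
    intro j H hH
    have h1 := hzero _ (hstab' j H hH)
    rw [aeval_it, iter_seg hExt] at h1
    exact h1
  -- a form on the quadric
  obtain ⟨u, huQ, huc, hu0⟩ := exists_form Q c (hup c)
  have hH0 : ∀ j, ev (A j) (A' j) (sg K u) = 0 := fun j => by
    rw [ev_sg]
    exact hQz j u huQ
  obtain ⟨s, hs, hs'⟩ := UniqueFactorizationMonoid.exists_prime_factors (sg K u) hu0
  have hfac : ∀ j, ∃ g : {x // x ∈ s.toFinset}, ev (A j) (A' j) g.1 = 0 := by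
    intro j
    have h1 : ev (A j) (A' j) s.prod = 0 := by
      obtain ⟨w, hw⟩ := hs'.symm
      rw [← hw, ev, map_mul]
      have := hH0 j
      rw [ev] at this
      rw [this, zero_mul]
    rw [ev, map_multiset_prod, Multiset.prod_eq_zero_iff, Multiset.mem_map] at h1
    obtain ⟨g, hg, hg'⟩ := h1
    exact ⟨⟨g, Multiset.mem_toFinset.2 hg⟩, hg'⟩
  choose fg hfg using hfac
  obtain ⟨G, hGinf⟩ := Finite.exists_infinite_fiber fg
  obtain ⟨G, hGs⟩ := G
  rw [Multiset.mem_toFinset] at hGs
  have hGp : Prime G := hs G hGs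
  have hGd : G ∣ sg K u := (Multiset.dvd_prod hGs).trans hs'.dvd
  obtain ⟨d₁, d₂, hd₁, hd₂, hG⟩ := (bihom_sg huc).of_dvd hu0 hGd
  have hinf : (fg ⁻¹' {⟨G, Multiset.mem_toFinset.2 hGs⟩}).Infinite := Set.infinite_coe_iff.1 hGinf
  have hemb : ∃ ν : ℕ → ℕ, Function.Injective ν ∧ ∀ n, ev (A (ν n)) (A' (ν n)) G = 0 := by
    have h1 := hinf.natEmbedding
    refine ⟨fun n => (h1 n).1, fun a b hab => h1.injective (Subtype.ext hab), fun n => ?_⟩
    have h2 := (h1 n).2
    have h3 := hfg (h1 n).1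
    rw [Set.mem_preimage, Set.mem_singleton_iff] at h2
    rw [h2] at h3
    exact h3
  obtain ⟨ν, hν, hνG⟩ := hemb
  -- the form vanishes on the whole orbit
  have hall : ∀ j, ev (A j) (A' j) G = 0 := by
    intro j
    obtain ⟨i, hi⟩ := Function.ne_iff.1 (hAne j)
    obtain ⟨i', hi'⟩ := Function.ne_iff.1 (hA'ne j)
    set e := max d₁ d₂ with he
    have h1 : BiHom e e (G * (X (Sum.inl i) ^ (e - d₁) * X (Sum.inr i') ^ (e - d₂))) := by
      have h2 := hG.mul (((bihom_inl (K := K) i).pow (e - d₁)).mul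
        ((bihom_inr (K := K) i').pow (e - d₂)))
      have e1 : d₁ + ((e - d₁) * 1 + (e - d₂) * 0) = e := by
        have := le_max_left d₁ d₂
        omega
      have e2 : d₂ + ((e - d₁) * 0 + (e - d₂) * 1) = e := by
        have := le_max_right d₁ d₂
        omega
      rw [e1, e2] at h2
      exact h2
    obtain ⟨w, hwe, hwG⟩ := exists_lift h1
    have hwQ : w ∈ Q := by
      refine hSP3 K (Fin 2 × Fin 2) c Q hQ hcomp hup e w hwe N
        (fun n => seg (A (ν n)) (A' (ν n))) (fun n => hsegne _) ?_ (fun n => hQz _) ?_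
      · intro a b hab h
        exact hab (hν (hAinj _ _ (prl_of_seg (hAne _) (hA'ne _) h)))
      · intro n
        show aeval (seg (A (ν n)) (A' (ν n))) w = 0
        rw [← ev_sg, hwG, ev, map_mul]
        have h2 := hνG n
        rw [ev] at h2
        rw [h2, zero_mul]
    have h2 := hQz j w hwQ
    rw [← ev_sg, hwG, ev, map_mul, map_mul, map_pow, map_pow, aeval_X, aeval_X] at h2
    rcases mul_eq_zero.1 h2 with h3 | h3
    · exact h3
    · exact absurd h3 (mul_ne_zero (pow_ne_zero _ hi) (pow_ne_zero _ hi'))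
  -- the form depends on both pairs of variables
  have hd₂' : 1 ≤ d₂ := by
    by_contra h0
    have h0' : d₂ = 0 := by omega
    subst h0'
    obtain ⟨g, hg, rfl⟩ := exists_rename (K := K) (f := Sum.inl) Sum.inl_injective
      (fun t ht => (hG t ht).1) (fun t ht x hx => by
        have h1 := (hG t ht).2
        rcases x with x | x
        · exact absurd ⟨x, rfl⟩ hx
        · fin_cases x
          · show t (Sum.inr 0) = 0
            omega
          · show t (Sum.inr 1) = 0
            omega)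
    refine no_form hROOT hAne hAinj (R := g) ?_ hg fun j => ?_
    · rintro rfl
      exact hGp.ne_zero (map_zero _)
    · have h1 := hall j
      rw [ev, aeval_rename] at h1
      exact h1
  have hd₁' : 1 ≤ d₁ := by
    by_contra h0
    have h0' : d₁ = 0 := by omega
    subst h0'
    obtain ⟨g, hg, rfl⟩ := exists_rename (K := K) (f := Sum.inr) Sum.inr_injective
      (fun t ht => (hG t ht).2) (fun t ht x hx => by
        have h1 := (hG t ht).1
        rcases x with x | x
        · fin_cases x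
          · show t (Sum.inl 0) = 0
            omega
          · show t (Sum.inl 1) = 0
            omega
        · exact absurd ⟨x, rfl⟩ hx)
    refine no_form hROOT hA'ne hA'inj (R := g) ?_ hg fun j => ?_
    · rintro rfl
      exact hGp.ne_zero (map_zero _)
    · have h1 := hall j
      rw [ev, aeval_rename] at h1
      exact h1
  refine ⟨G, ⟨hGp.irreducible, ⟨d₁, d₂, hd₁', hd₁, hd₂', hd₂, hG⟩, k, hk, ?_⟩, hall 0⟩
  -- the form is periodic
  by_contra hdvd
  obtain ⟨R, hR, hRd, hRz⟩ := hBEZ K d₁ d₂ _ _ G _ hG (bihom_it hF.hom hG k) hGp.irreducible hd₂'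
    hdvd
  refine no_form hROOT hAne hAinj hR hRd fun j => hRz N (A j) (A' j) (hA'ne j) (hall j) ?_
  rw [ev_it]
  have h1 := hall (j + 1)
  have e1 : A (j + 1) = (gAct F N)^[k] (A j) := by
    show (gAct F N)^[k * (j + 1)] P = (gAct F N)^[k] ((gAct F N)^[k * j] P)
    rw [← Function.iterate_add_apply]
    congr 1
    ring
  have e2 : A' (j + 1) = (gAct F N)^[k] (A' j) := by
    show (gAct F N)^[k * (j + 1)] P' = (gAct F N)^[k] ((gAct F N)^[k * j] P')
    rw [← Function.iterate_add_apply]
    congr 1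
    ring
  rw [e1, e2] at h1
  exact h1

end Pool.DynLehmer.GS
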