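import Pool.Agent.Lib.MP_2194ec_nt.GAL.R.Defs

set_option autoImplicit false
set_option linter.unusedSectionVars false

/-!
# Bihomogeneous forms and the Segre map
-/

namespace Pool.DynLehmer.GS
open MvPolynomial Pool.DynLehmer
open scoped Classical

/-! ### Divisors of weighted homogeneous polynomials -/

section weights

variable {R : Type} [CommRing R] [IsDomain R] {σ : Type} (w : σ → ℕ)

/-- the substitution `X i ↦ t ^ w i X i` -/
noncomputable def wT : MvPolynomial σ R →ₐ[R] Polynomial (MvPolynomial σ R) :=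
  aeval fun i => Polynomial.C (X i) * Polynomial.X ^ w i

theorem wT_monomial (m : σ →₀ ℕ) (c : R) :
    wT w (monomial m c) = Polynomial.monomial (Finsupp.weight w m) (monomial m c) := by
  rw [wT, aeval_monomial]
  have h1 : (m.prod fun i k => (Polynomial.C (X i : MvPolynomial σ R) * Polynomial.X ^ w i) ^ k) =
      Polynomial.C (m.prod fun i k => (X i : MvPolynomial σ R) ^ k) *
        Polynomial.X ^ (Finsupp.weight w m) := by
    rw [Finsupp.prod, Finsupp.prod, Finsupp.weight_apply, Finsupp.sum,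
      ← Finset.prod_pow_eq_pow_sum, map_prod, ← Finset.prod_mul_distrib]
    refine Finset.prod_congr rfl fun i _ => ?_
    rw [mul_pow, map_pow, ← pow_mul, smul_eq_mul, mul_comm (w i)]
  rw [h1, ← Polynomial.C_mul_X_pow_eq_monomial, ← mul_assoc]
  congr 1
  rw [MvPolynomial.monomial_eq, Polynomial.C_mul]
  rfl

theorem coeff_wT (f : MvPolynomial σ R) (m : σ →₀ ℕ) (n : ℕ) :
    coeff m ((wT w f).coeff n) = if Finsupp.weight w m = n then coeff m f else 0 := by
  induction f using MvPolynomial.induction_on' with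
  | monomial m' c =>
    rw [wT_monomial, Polynomial.coeff_monomial]
    by_cases h : Finsupp.weight w m' = n
    · rw [if_pos h]
      by_cases h2 : m' = m
      · subst h2
        rw [if_pos h]
      · rw [coeff_monomial, if_neg h2, ite_self]
    · rw [if_neg h, coeff_zero]
      by_cases h2 : m' = m
      · subst h2
        rw [if_neg h]
      · rw [coeff_monomial, if_neg h2, ite_self]
  | add p q hp hq =>
    rw [map_add, Polynomial.coeff_add, coeff_add, hp, hq, coeff_add]
    split_ifs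
    · rfl
    · rw [add_zero]

theorem wT_of_hom {f : MvPolynomial σ R} {n : ℕ} (hf : IsWeightedHomogeneous w f n) :
    wT w f = Polynomial.monomial n f := by
  ext1 k
  refine MvPolynomial.ext _ _ fun m => ?_
  rw [coeff_wT, Polynomial.coeff_monomial]
  by_cases h : coeff m f = 0
  · split_ifs <;> simp [h]
  · have h1 : Finsupp.weight w m = n := hf h
    rw [h1]
    split_ifs
    · rfl
    · rw [coeff_zero]

theorem hom_of_wT {f g : MvPolynomial σ R} {n : ℕ} (h : wT w f = Polynomial.monomial n g) :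
    IsWeightedHomogeneous w f n := by
  intro m hm
  by_contra hc
  have h1 := coeff_wT w f m (Finsupp.weight w m)
  rw [if_pos rfl, h, Polynomial.coeff_monomial, if_neg (fun h' => hc h'.symm), coeff_zero] at h1
  exact hm h1.symm

/-- factors of weighted homogeneous polynomials are weighted homogeneous -/
theorem whom_of_mul {x y : MvPolynomial σ R} {n : ℕ} (h : IsWeightedHomogeneous w (x * y) n)
    (h0 : x * y ≠ 0) : ∃ i, i ≤ n ∧ IsWeightedHomogeneous w x i := by
  have hx0 : x ≠ 0 := left_ne_zero_of_mul h0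
  have hy0 : y ≠ 0 := right_ne_zero_of_mul h0
  have h1 := wT_of_hom w h
  rw [map_mul] at h1
  have hinj : ∀ f : MvPolynomial σ R, f ≠ 0 → wT w f ≠ 0 := by
    intro f hf h0
    refine hf (MvPolynomial.ext _ _ fun m => ?_)
    have h2 := coeff_wT w f m (Finsupp.weight w m)
    rw [if_pos rfl, h0, Polynomial.coeff_zero, coeff_zero] at h2
    rw [← h2, coeff_zero]
  set p := wT w x with hp
  set q := wT w y with hq
  have hp0 : p ≠ 0 := hinj x hx0
  have hq0 : q ≠ 0 := hinj y hy0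
  have e1 : p.natDegree + q.natDegree = n := by
    rw [← Polynomial.natDegree_mul hp0 hq0, h1, Polynomial.natDegree_monomial, if_neg h0]
  have e2 : p.natTrailingDegree + q.natTrailingDegree = n := by
    rw [← Polynomial.natTrailingDegree_mul hp0 hq0, h1, Polynomial.natTrailingDegree_monomial h0]
  have e3 : p.natTrailingDegree ≤ p.natDegree := Polynomial.natTrailingDegree_le_natDegree p
  have e4 : q.natTrailingDegree ≤ q.natDegree := Polynomial.natTrailingDegree_le_natDegree q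
  have key : ∀ r : Polynomial (MvPolynomial σ R), r.natTrailingDegree = r.natDegree →
      r = Polynomial.monomial r.natDegree (r.coeff r.natDegree) := by
    intro r hr
    ext1 k
    rw [Polynomial.coeff_monomial]
    by_cases hk : r.natDegree = k
    · rw [if_pos hk, hk]
    · rw [if_neg hk]
      rcases lt_or_gt_of_ne hk with h | h
      · exact Polynomial.coeff_eq_zero_of_natDegree_lt h
      · exact Polynomial.coeff_eq_zero_of_lt_natTrailingDegree (by omega)
  exact ⟨p.natDegree, by omega, hom_of_wT w (key p (by omega))⟩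

end weights

/-! ### Bihomogeneous forms -/

section bihom

variable {K : Type} [Field K]

/-- the two weights -/
def w1 : Fin 2 ⊕ Fin 2 → ℕ := Sum.elim (fun _ => 1) (fun _ => 0)

/-- the two weights -/
def w2 : Fin 2 ⊕ Fin 2 → ℕ := Sum.elim (fun _ => 0) (fun _ => 1)

theorem weight_w1 (t : Fin 2 ⊕ Fin 2 →₀ ℕ) :
    Finsupp.weight w1 t = t (Sum.inl 0) + t (Sum.inl 1) := by
  rw [Finsupp.weight_apply, Finsupp.sum_fintype _ _ (fun i => by simp)]
  simp [w1, Fin.sum_univ_two, Fintype.sum_sum_type]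

theorem weight_w2 (t : Fin 2 ⊕ Fin 2 →₀ ℕ) :
    Finsupp.weight w2 t = t (Sum.inr 0) + t (Sum.inr 1) := by
  rw [Finsupp.weight_apply, Finsupp.sum_fintype _ _ (fun i => by simp)]
  simp [w2, Fin.sum_univ_two, Fintype.sum_sum_type]

theorem bihom_iff {d₁ d₂ : ℕ} {G : MvPolynomial (Fin 2 ⊕ Fin 2) K} :
    BiHom d₁ d₂ G ↔ IsWeightedHomogeneous w1 G d₁ ∧ IsWeightedHomogeneous w2 G d₂ := by
  constructor
  · intro h
    refine ⟨fun t ht => ?_, fun t ht => ?_⟩
    · rw [weight_w1]
      exact (h t (mem_support_iff.2 ht)).1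
    · rw [weight_w2]
      exact (h t (mem_support_iff.2 ht)).2
  · rintro ⟨h1, h2⟩ t ht
    rw [← weight_w1, ← weight_w2]
    exact ⟨h1 (mem_support_iff.1 ht), h2 (mem_support_iff.1 ht)⟩

theorem BiHom.mul {a b c d : ℕ} {G H : MvPolynomial (Fin 2 ⊕ Fin 2) K} (hG : BiHom a b G)
    (hH : BiHom c d H) : BiHom (a + c) (b + d) (G * H) := by
  rw [bihom_iff] at *
  exact ⟨hG.1.mul hH.1, hG.2.mul hH.2⟩

theorem BiHom.pow {a b : ℕ} {G : MvPolynomial (Fin 2 ⊕ Fin 2) K} (hG : BiHom a b G) (n : ℕ) :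
    BiHom (n * a) (n * b) (G ^ n) := by
  rw [bihom_iff] at *
  exact ⟨by simpa using hG.1.pow n, by simpa using hG.2.pow n⟩

theorem BiHom.sum {ι : Type*} {a b : ℕ} (s : Finset ι) {G : ι → MvPolynomial (Fin 2 ⊕ Fin 2) K}
    (h : ∀ i ∈ s, BiHom a b (G i)) : BiHom a b (∑ i ∈ s, G i) := by
  induction s using Finset.induction_on with
  | empty => intro t ht; simp at ht
  | insert i s hi ih =>
    rw [Finset.sum_insert hi, bihom_iff]
    have h1 := bihom_iff.1 (h i (Finset.mem_insert_self i s))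
    have h2 := bihom_iff.1 (ih fun j hj => h j (Finset.mem_insert_of_mem hj))
    exact ⟨h1.1.add h2.1, h1.2.add h2.2⟩

theorem BiHom.C_mul {a b : ℕ} {G : MvPolynomial (Fin 2 ⊕ Fin 2) K} (hG : BiHom a b G) (c : K) :
    BiHom a b (C c * G) := by
  rw [bihom_iff] at *
  exact ⟨hG.1.C_mul c, hG.2.C_mul c⟩

theorem bihom_monomial {a b : ℕ} {t : Fin 2 ⊕ Fin 2 →₀ ℕ}
    (h1 : t (Sum.inl 0) + t (Sum.inl 1) = a) (h2 : t (Sum.inr 0) + t (Sum.inr 1) = b) (c : K) :
    BiHom a b (monomial t c) := by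
  intro t' ht'
  have h3 : t' = t := by
    by_contra h
    rw [mem_support_iff, coeff_monomial, if_neg (fun h' => h h'.symm)] at ht'
    exact ht' rfl
  rw [h3]
  exact ⟨h1, h2⟩

theorem bihom_inl (i : Fin 2) : BiHom 1 0 (X (Sum.inl i) : MvPolynomial (Fin 2 ⊕ Fin 2) K) := by
  rw [bihom_iff]
  exact ⟨isWeightedHomogeneous_X K w1 (Sum.inl i), isWeightedHomogeneous_X K w2 (Sum.inl i)⟩

theorem bihom_inr (i : Fin 2) : BiHom 0 1 (X (Sum.inr i) : MvPolynomial (Fin 2 ⊕ Fin 2) K) := by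
  rw [bihom_iff]
  exact ⟨isWeightedHomogeneous_X K w1 (Sum.inr i), isWeightedHomogeneous_X K w2 (Sum.inr i)⟩

theorem BiHom.of_dvd {a b : ℕ} {G H : MvPolynomial (Fin 2 ⊕ Fin 2) K} (hH : BiHom a b H)
    (hH0 : H ≠ 0) (h : G ∣ H) : ∃ c d, c ≤ a ∧ d ≤ b ∧ BiHom c d G := by
  obtain ⟨y, rfl⟩ := h
  rw [bihom_iff] at hH
  obtain ⟨c, hc, h1⟩ := whom_of_mul w1 hH.1 hH0
  obtain ⟨d, hd, h2⟩ := whom_of_mul w2 hH.2 hH0
  exact ⟨c, d, hc, hd, bihom_iff.2 ⟨h1, h2⟩⟩

/-! ### The Segre map -/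

/-- the Segre map on forms -/
noncomputable def sg (K : Type) [Field K] :
    MvPolynomial (Fin 2 × Fin 2) K →ₐ[K] MvPolynomial (Fin 2 ⊕ Fin 2) K :=
  aeval fun i => X (Sum.inl i.1) * X (Sum.inr i.2)

theorem ev_sg {N : Type} [Field N] [Algebra K N] (P P' : Fin 2 → N)
    (u : MvPolynomial (Fin 2 × Fin 2) K) : ev P P' (sg K u) = aeval (seg P P') u := by
  have h : (aeval (Sum.elim P P') : MvPolynomial (Fin 2 ⊕ Fin 2) K →ₐ[K] N).comp (sg K) =
      aeval (seg P P') := by
    refine algHom_ext fun i => ?_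
    rw [AlgHom.comp_apply, sg, aeval_X, aeval_X, map_mul, aeval_X, aeval_X]
    rfl
  exact congrArg (fun φ : MvPolynomial (Fin 2 × Fin 2) K →ₐ[K] N => φ u) h

/-- the exponents -/
noncomputable def sgm (m : Fin 2 × Fin 2 →₀ ℕ) : Fin 2 ⊕ Fin 2 →₀ ℕ :=
  ∑ i : Fin 2 × Fin 2, (Finsupp.single (Sum.inl i.1) (m i) + Finsupp.single (Sum.inr i.2) (m i))

theorem sg_monomial (m : Fin 2 × Fin 2 →₀ ℕ) (c : K) :
    sg K (monomial m c) = monomial (sgm m) c := by
  rw [sg, aeval_monomial, Finsupp.prod_fintype _ _ (fun i => pow_zero _)]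
  have h1 : ∀ i : Fin 2 × Fin 2, ((X (Sum.inl i.1) * X (Sum.inr i.2) :
      MvPolynomial (Fin 2 ⊕ Fin 2) K)) ^ m i = monomial (Finsupp.single (Sum.inl i.1) (m i) +
        Finsupp.single (Sum.inr i.2) (m i)) 1 := by
    intro i
    rw [mul_pow, X_pow_eq_monomial, X_pow_eq_monomial, monomial_mul, one_mul]
  rw [Finset.prod_congr rfl fun i _ => h1 i, ← monomial_sum_one, algebraMap_eq, C_mul_monomial,
    mul_one]
  rfl

theorem sgm_inl (m : Fin 2 × Fin 2 →₀ ℕ) (i : Fin 2) :
    sgm m (Sum.inl i) = m (i, 0) + m (i, 1) := by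
  rw [sgm, Finsupp.finsetSum_apply, Fintype.sum_prod_type]
  fin_cases i <;> simp [Finsupp.single_apply, Fin.sum_univ_two]

theorem sgm_inr (m : Fin 2 × Fin 2 →₀ ℕ) (i : Fin 2) :
    sgm m (Sum.inr i) = m (0, i) + m (1, i) := by
  rw [sgm, Finsupp.finsetSum_apply, Fintype.sum_prod_type]
  fin_cases i <;> simp [Finsupp.single_apply, Fin.sum_univ_two]

theorem degree_eq (m : Fin 2 × Fin 2 →₀ ℕ) :
    m.degree = m (0, 0) + m (0, 1) + (m (1, 0) + m (1, 1)) := by
  rw [Finsupp.degree_eq_sum, Fintype.sum_prod_type]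
  simp [Fin.sum_univ_two]

/-- a form of degree `e` has bidegree `(e, e)` -/
theorem bihom_sg {u : MvPolynomial (Fin 2 × Fin 2) K} {e : ℕ} (hu : u.IsHomogeneous e) :
    BiHom e e (sg K u) := by
  rw [u.as_sum, map_sum]
  refine BiHom.sum _ fun m hm => ?_
  rw [sg_monomial]
  have h1 : m.degree = e := by
    rw [Finsupp.degree_eq_weight_one]
    exact hu (mem_support_iff.1 hm)
  rw [degree_eq] at h1
  refine bihom_monomial ?_ ?_ _
  · rw [sgm_inl, sgm_inl]; omega
  · rw [sgm_inr, sgm_inr]; omega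

/-- lifting exponents -/
theorem exists_lift_monomial {t : Fin 2 ⊕ Fin 2 →₀ ℕ} {e : ℕ}
    (h1 : t (Sum.inl 0) + t (Sum.inl 1) = e) (h2 : t (Sum.inr 0) + t (Sum.inr 1) = e) :
    ∃ m : Fin 2 × Fin 2 →₀ ℕ, m.degree = e ∧ sgm m = t := by
  set a := min (t (Sum.inl 0)) (t (Sum.inr 0)) with ha
  let f : Fin 2 × Fin 2 → ℕ := fun i => if i = (0, 0) then a else
    if i = (0, 1) then t (Sum.inl 0) - a else
      if i = (1, 0) then t (Sum.inr 0) - a else e + a - (t (Sum.inl 0) + t (Sum.inr 0))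
  have e0 : f (0, 0) = a := rfl
  have e1 : f (0, 1) = t (Sum.inl 0) - a := rfl
  have e2 : f (1, 0) = t (Sum.inr 0) - a := rfl
  have e3 : f (1, 1) = e + a - (t (Sum.inl 0) + t (Sum.inr 0)) := rfl
  have h3 : a ≤ t (Sum.inl 0) := min_le_left _ _
  have h4 : a ≤ t (Sum.inr 0) := min_le_right _ _
  have h5 : a = t (Sum.inl 0) ∨ a = t (Sum.inr 0) := min_choice _ _
  refine ⟨Finsupp.equivFunOnFinite.symm f, ?_, ?_⟩
  · rw [degree_eq]
    show f (0, 0) + f (0, 1) + (f (1, 0) + f (1, 1)) = e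
    rw [e0, e1, e2, e3]
    omega
  · refine Finsupp.ext fun i => ?_
    rcases i with i | i
    · rw [sgm_inl]
      show f (i, 0) + f (i, 1) = _
      fin_cases i
      · show f (0, 0) + f (0, 1) = t (Sum.inl 0)
        rw [e0, e1]; omega
      · show f (1, 0) + f (1, 1) = t (Sum.inl 1)
        rw [e2, e3]; omega
    · rw [sgm_inr]
      show f (0, i) + f (1, i) = _
      fin_cases i
      · show f (0, 0) + f (1, 0) = t (Sum.inr 0)
        rw [e0, e2]; omega
      · show f (0, 1) + f (1, 1) = t (Sum.inr 1)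
        rw [e1, e3]; omega

/-- lifting forms of bidegree `(e, e)` -/
theorem exists_lift {G : MvPolynomial (Fin 2 ⊕ Fin 2) K} {e : ℕ} (hG : BiHom e e G) :
    ∃ u : MvPolynomial (Fin 2 × Fin 2) K, u.IsHomogeneous e ∧ sg K u = G := by
  have h1 : ∀ t : Fin 2 ⊕ Fin 2 →₀ ℕ, ∃ m : Fin 2 × Fin 2 →₀ ℕ, t ∈ G.support →
      m.degree = e ∧ sgm m = t := by
    intro t
    by_cases ht : t ∈ G.support
    · obtain ⟨m, hm⟩ := exists_lift_monomial (hG t ht).1 (hG t ht).2
      exact ⟨m, fun _ => hm⟩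
    · exact ⟨0, fun h => absurd h ht⟩
  choose m hm using h1
  refine ⟨∑ t ∈ G.support, monomial (m t) (coeff t G), ?_, ?_⟩
  · exact IsHomogeneous.sum _ _ _ fun t ht => isHomogeneous_monomial _ (hm t ht).1
  · rw [map_sum]
    conv_rhs => rw [G.as_sum]
    refine Finset.sum_congr rfl fun t ht => ?_
    rw [sg_monomial, (hm t ht).2]

/-- the rank of the Segre map -/
theorem le_finrank_sg (c : ℕ) : (c + 1) * (c + 1) ≤
    Module.finrank K ((homogeneousSubmodule (Fin 2 × Fin 2) K c).map (sg K).toLinearMap) := by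
  let t : Fin (c + 1) × Fin (c + 1) → (Fin 2 ⊕ Fin 2 →₀ ℕ) := fun p =>
    Finsupp.equivFunOnFinite.symm (Sum.elim ![(p.1 : ℕ), c - p.1] ![(p.2 : ℕ), c - p.2])
  have ht : Function.Injective t := by
    intro p q hpq
    have h1 : (p.1 : ℕ) = q.1 := DFunLike.congr_fun hpq (Sum.inl 0)
    have h2 : (p.2 : ℕ) = q.2 := DFunLike.congr_fun hpq (Sum.inr 0)
    exact Prod.ext (Fin.ext h1) (Fin.ext h2)
  have h1 : LinearIndependent K fun p => (monomial (t p) (1 : K)) := by
    have h2 := (basisMonomials (Fin 2 ⊕ Fin 2) K).linearIndependent.comp t ht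
    have h3 : (fun p => (monomial (t p) (1 : K))) =
        (basisMonomials (Fin 2 ⊕ Fin 2) K) ∘ t := by
      funext p
      rw [Function.comp_apply, coe_basisMonomials]
    rw [h3]
    exact h2
  have h2 := finrank_span_eq_card h1
  have h3 : Submodule.span K (Set.range fun p => (monomial (t p) (1 : K))) ≤
      (homogeneousSubmodule (Fin 2 × Fin 2) K c).map (sg K).toLinearMap := by
    rw [Submodule.span_le]
    rintro _ ⟨p, rfl⟩
    have hp1 := p.1.2
    have hp2 := p.2.2
    obtain ⟨u, hu, hu'⟩ := exists_lift (K := K) (e := c) (G := monomial (t p) 1)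
      (bihom_monomial (by show (p.1 : ℕ) + (c - p.1) = c; omega)
        (by show (p.2 : ℕ) + (c - p.2) = c; omega) 1)
    exact ⟨u, hu, hu'⟩
  have h4 : Module.Finite K (homogeneousSubmodule (Fin 2 × Fin 2) K c) :=
    Module.Finite.iff_fg.2 (homogeneousSubmodule_fg (Fin 2 × Fin 2) K c)
  have h5 := Submodule.finrank_mono h3
  rw [h2, Fintype.card_prod, Fintype.card_fin] at h5
  exact h5

end bihom

end Pool.DynLehmer.GS
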