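import Mathlib
import Pool.Agent.Lib.MP_2194ec_nt.GAL.R.Defs

set_option autoImplicit false

/-!
# Row CHN: the chain rule
-/

namespace Pool.DynLehmer.GS
open MvPolynomial NumberField Filter Topology Pool.DynLehmer Pool.DynLehmer.SB Pool.DynLehmer.SP
  Pool.DynLehmer.GAL
open scoped Classical

namespace Chn

/-- The chain rule for substitutions. -/
theorem pderiv_bind {K : Type} [Field K] {σ τ : Type} [Fintype σ] (f : σ → MvPolynomial τ K)
    (i : τ) (G : MvPolynomial σ K) :
    pderiv i (bind₁ f G) = ∑ j, bind₁ f (pderiv j G) * pderiv i (f j) := by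
  induction G using MvPolynomial.induction_on with
  | C a => simp
  | add p q hp hq => simp only [map_add, hp, hq, add_mul, Finset.sum_add_distrib]
  | mul_X p k hp =>
    have h1 : ∀ j, pderiv j (p * X k) = pderiv j p * X k + (if j = k then p else 0) := by
      intro j
      rw [pderiv_mul, pderiv_X]
      by_cases hjk : j = k
      · subst hjk
        simp
      · simp [hjk, Ne.symm hjk]
    simp only [map_mul, bind₁_X_right, pderiv_mul, hp, h1, map_add]
    simp only [add_mul, Finset.sum_add_distrib, Finset.sum_mul]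
    congr 1
    · refine Finset.sum_congr rfl fun j _ => by ring
    · rw [Finset.sum_eq_single k]
      · simp
      · intro j _ hj
        simp [hj]
      · intro h
        exact absurd (Finset.mem_univ k) h

theorem it_inl {K : Type} [Field K] (F : Fin 2 → MvPolynomial (Fin 2) K) (n : ℕ) :
    ∀ R : MvPolynomial (Fin 2) K, (bind₁ (dbl F))^[n] (rename Sum.inl R) =
      rename Sum.inl ((bind₁ F)^[n] R) := by
  induction n with
  | zero => intro R; rfl
  | succ n ih =>
    intro R
    rw [Function.iterate_succ_apply, Function.iterate_succ_apply, ← ih]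
    congr 1
    have : (bind₁ (dbl F)).comp (rename Sum.inl) =
        (rename Sum.inl : MvPolynomial (Fin 2) K →ₐ[K] MvPolynomial (Fin 2 ⊕ Fin 2) K).comp
          (bind₁ F) := by
      apply MvPolynomial.algHom_ext
      intro i
      simp [dbl]
    exact DFunLike.congr_fun this R

theorem it_inr {K : Type} [Field K] (F : Fin 2 → MvPolynomial (Fin 2) K) (n : ℕ) :
    ∀ R : MvPolynomial (Fin 2) K, (bind₁ (dbl F))^[n] (rename Sum.inr R) =
      rename Sum.inr ((bind₁ F)^[n] R) := by
  induction n with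
  | zero => intro R; rfl
  | succ n ih =>
    intro R
    rw [Function.iterate_succ_apply, Function.iterate_succ_apply, ← ih]
    congr 1
    have : (bind₁ (dbl F)).comp (rename Sum.inr) =
        (rename Sum.inr : MvPolynomial (Fin 2) K →ₐ[K] MvPolynomial (Fin 2 ⊕ Fin 2) K).comp
          (bind₁ F) := by
      apply MvPolynomial.algHom_ext
      intro i
      simp [dbl]
    exact DFunLike.congr_fun this R

/-- `bind₁` of an iterate. -/
theorem bind_dbl_it {K : Type} [Field K] (F : Fin 2 → MvPolynomial (Fin 2) K) (n : ℕ)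
    (G : MvPolynomial (Fin 2 ⊕ Fin 2) K) :
    (bind₁ (dbl F))^[n] G = bind₁ (dbl (itF F n)) G := by
  have key : ∀ i, (bind₁ (dbl F))^[n] (X i) = dbl (itF F n) i := by
    intro i
    rcases i with i | i
    · have := it_inl F n (X i)
      rw [rename_X] at this
      rw [this]; rfl
    · have := it_inr F n (X i)
      rw [rename_X] at this
      rw [this]; rfl
  have h2 : ∀ n : ℕ, ∃ φ : MvPolynomial (Fin 2 ⊕ Fin 2) K →ₐ[K] MvPolynomial (Fin 2 ⊕ Fin 2) K,
      ∀ G, (bind₁ (dbl F))^[n] G = φ G := by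
    intro n
    induction n with
    | zero => exact ⟨AlgHom.id K _, fun G => rfl⟩
    | succ n ih =>
      obtain ⟨φ, hφ⟩ := ih
      exact ⟨φ.comp (bind₁ (dbl F)), fun G => by
        rw [Function.iterate_succ_apply, hφ]; rfl⟩
  obtain ⟨φ, hφ⟩ := h2 n
  rw [hφ]
  have : φ = bind₁ (dbl (itF F n)) := by
    apply MvPolynomial.algHom_ext
    intro i
    rw [← hφ, key, bind₁_X_right]
  rw [this]

theorem ev_bind {K : Type} [Field K] {N : Type} [Field N] [Algebra K N]
    (Φ : Fin 2 → MvPolynomial (Fin 2) K) (P P' : Fin 2 → N) (G : MvPolynomial (Fin 2 ⊕ Fin 2) K) :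
    ev P P' (bind₁ (dbl Φ) G) = ev (gAct Φ N P) (gAct Φ N P') G := by
  unfold ev
  rw [aeval_bind₁]
  congr 2
  funext i
  rcases i with i | i
  · simp [dbl, gAct, aeval_rename, Function.comp_def]
  · simp [dbl, gAct, aeval_rename, Function.comp_def]

theorem itF_succ {K : Type} [Field K] (F : Fin 2 → MvPolynomial (Fin 2) K) (n : ℕ) (i : Fin 2) :
    itF F (n + 1) i = (bind₁ F) (itF F n i) := by
  unfold itF
  rw [Function.iterate_succ_apply']

theorem gAct_itF {K : Type} [Field K] (F : Fin 2 → MvPolynomial (Fin 2) K) {N : Type} [Field N]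
    [Algebra K N] (n : ℕ) (P : Fin 2 → N) : gAct (itF F n) N P = (gAct F N)^[n] P := by
  induction n generalizing P with
  | zero => funext i; simp [gAct, itF]
  | succ n ih =>
    rw [Function.iterate_succ_apply, ← ih]
    funext i
    change aeval P (itF F (n + 1) i) = aeval (gAct F N P) (itF F n i)
    rw [itF_succ, aeval_bind₁]
    rfl

theorem itF_hom {K : Type} [Field K] {q : ℕ} {F : Fin 2 → MvPolynomial (Fin 2) K}
    (hF : ∀ i, (F i).IsHomogeneous q) (n : ℕ) (i : Fin 2) :
    (itF F n i).IsHomogeneous (q ^ n) := by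
  induction n with
  | zero =>
    simp only [pow_zero]
    exact isHomogeneous_X K i
  | succ n ih =>
    rw [itF_succ, pow_succ, mul_comm]
    exact ih.aeval F hF

theorem iter_ne {K : Type} [Field K] {q : ℕ} {F : Fin 2 → MvPolynomial (Fin 2) K} (hF : Mor q F)
    {N : Type} [Field N] [Algebra K N] (n : ℕ) (P : Fin 2 → N) (hP : P ≠ 0) :
    (gAct F N)^[n] P ≠ 0 := by
  induction n with
  | zero => exact hP
  | succ n ih =>
    rw [Function.iterate_succ_apply']
    exact hF.ne N _ ih

/-- Euler's identity in the first pair of variables. -/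
theorem euler_inl {K : Type} [Field K] {d₁ d₂ : ℕ} {G : MvPolynomial (Fin 2 ⊕ Fin 2) K}
    (hG : BiHom d₁ d₂ G) {N : Type} [Field N] [Algebra K N] (P P' : Fin 2 → N) :
    P 0 * ev P P' (pderiv (Sum.inl 0) G) + P 1 * ev P P' (pderiv (Sum.inl 1) G) =
      (d₁ : N) * ev P P' G := by
  have h1 : IsWeightedHomogeneous (Sum.elim (fun _ => 1) (fun _ => 0) : Fin 2 ⊕ Fin 2 → ℕ) G d₁ := by
    intro t ht
    have := (hG t (mem_support_iff.mpr ht)).1
    rw [Finsupp.weight_apply, Finsupp.sum_fintype _ _ (by simp)]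
    simp [Fintype.sum_sum_type, Fin.sum_univ_two, this]
  have h2 := h1.sum_weight_X_mul_pderiv
  have h3 := congrArg (ev P P') h2
  simp only [Fintype.sum_sum_type, Fin.sum_univ_two, Sum.elim_inl, Sum.elim_inr, one_smul,
    zero_smul, add_zero] at h3
  unfold ev at h3 ⊢
  simp only [map_add, map_mul, aeval_X, Sum.elim_inl, nsmul_eq_mul, map_natCast] at h3
  exact h3

theorem euler_inr {K : Type} [Field K] {d₁ d₂ : ℕ} {G : MvPolynomial (Fin 2 ⊕ Fin 2) K}
    (hG : BiHom d₁ d₂ G) {N : Type} [Field N] [Algebra K N] (P P' : Fin 2 → N) :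
    P' 0 * ev P P' (pderiv (Sum.inr 0) G) + P' 1 * ev P P' (pderiv (Sum.inr 1) G) =
      (d₂ : N) * ev P P' G := by
  have h1 : IsWeightedHomogeneous (Sum.elim (fun _ => 0) (fun _ => 1) : Fin 2 ⊕ Fin 2 → ℕ) G d₂ := by
    intro t ht
    have := (hG t (mem_support_iff.mpr ht)).2
    rw [Finsupp.weight_apply, Finsupp.sum_fintype _ _ (by simp)]
    simp [Fintype.sum_sum_type, Fin.sum_univ_two, this]
  have h2 := h1.sum_weight_X_mul_pderiv
  have h3 := congrArg (ev P P') h2
  simp only [Fintype.sum_sum_type, Fin.sum_univ_two, Sum.elim_inl, Sum.elim_inr, one_smul,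
    zero_smul, zero_add, add_zero] at h3
  unfold ev at h3 ⊢
  simp only [map_add, map_mul, aeval_X, Sum.elim_inr, nsmul_eq_mul, map_natCast] at h3
  exact h3

/-- Euler's identity for a form in two variables. -/
theorem euler_two {K : Type} [Field K] {d : ℕ} {R : MvPolynomial (Fin 2) K}
    (hR : R.IsHomogeneous d) {N : Type} [Field N] [Algebra K N] (P : Fin 2 → N) :
    P 0 * aeval P (pderiv 0 R) + P 1 * aeval P (pderiv 1 R) = (d : N) * aeval P R := by
  have h2 := hR.sum_X_mul_pderiv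
  have h3 := congrArg (aeval P) h2
  simp only [Fin.sum_univ_two, map_add, map_mul, aeval_X, nsmul_eq_mul, map_natCast] at h3
  exact h3

/-- The partial derivatives of `G(Φ(X), Φ(Y))` in the first pair of variables. -/
theorem chain_inl {K : Type} [Field K] (Φ : Fin 2 → MvPolynomial (Fin 2) K)
    (G : MvPolynomial (Fin 2 ⊕ Fin 2) K) {N : Type} [Field N] [Algebra K N] (P P' : Fin 2 → N)
    (i : Fin 2) :
    ev P P' (pderiv (Sum.inl i) (bind₁ (dbl Φ) G)) =
      ev (gAct Φ N P) (gAct Φ N P') (pderiv (Sum.inl 0) G) * aeval P (pderiv i (Φ 0)) +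
      ev (gAct Φ N P) (gAct Φ N P') (pderiv (Sum.inl 1) G) * aeval P (pderiv i (Φ 1)) := by
  rw [pderiv_bind]
  simp only [Fintype.sum_sum_type, Fin.sum_univ_two]
  have hl : ∀ j, pderiv (Sum.inl i) (dbl Φ (Sum.inl j)) = rename Sum.inl (pderiv i (Φ j)) := by
    intro j
    exact pderiv_rename Sum.inl_injective i (Φ j)
  have hr : ∀ j, pderiv (Sum.inl i) (dbl Φ (Sum.inr j)) = 0 := by
    intro j
    change pderiv (Sum.inl i) (rename Sum.inr (Φ j)) = 0
    induction Φ j using MvPolynomial.induction_on with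
    | C a => simp
    | add p q hp hq => simp [hp, hq]
    | mul_X p k hp => simp [hp, pderiv_X]
  rw [hl, hl, hr, hr, mul_zero, mul_zero, add_zero, add_zero]
  have h4 : ∀ A B : MvPolynomial (Fin 2 ⊕ Fin 2) K, ev P P' (A + B) = ev P P' A + ev P P' B := by
    intro A B; exact map_add _ _ _
  have h5 : ∀ A B : MvPolynomial (Fin 2 ⊕ Fin 2) K, ev P P' (A * B) = ev P P' A * ev P P' B := by
    intro A B; exact map_mul _ _ _
  have h6 : ∀ R : MvPolynomial (Fin 2) K, ev P P' (rename Sum.inl R) = aeval P R := by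
    intro R
    unfold ev
    rw [aeval_rename]
    rfl
  rw [h4, h5, h5, h6, h6, ev_bind, ev_bind]

theorem chain_inr {K : Type} [Field K] (Φ : Fin 2 → MvPolynomial (Fin 2) K)
    (G : MvPolynomial (Fin 2 ⊕ Fin 2) K) {N : Type} [Field N] [Algebra K N] (P P' : Fin 2 → N)
    (i : Fin 2) :
    ev P P' (pderiv (Sum.inr i) (bind₁ (dbl Φ) G)) =
      ev (gAct Φ N P) (gAct Φ N P') (pderiv (Sum.inr 0) G) * aeval P' (pderiv i (Φ 0)) +
      ev (gAct Φ N P) (gAct Φ N P') (pderiv (Sum.inr 1) G) * aeval P' (pderiv i (Φ 1)) := by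
  rw [pderiv_bind]
  simp only [Fintype.sum_sum_type, Fin.sum_univ_two]
  have hr : ∀ j, pderiv (Sum.inr i) (dbl Φ (Sum.inr j)) = rename Sum.inr (pderiv i (Φ j)) := by
    intro j
    exact pderiv_rename Sum.inr_injective i (Φ j)
  have hl : ∀ j, pderiv (Sum.inr i) (dbl Φ (Sum.inl j)) = 0 := by
    intro j
    change pderiv (Sum.inr i) (rename Sum.inl (Φ j)) = 0
    induction Φ j using MvPolynomial.induction_on with
    | C a => simp
    | add p q hp hq => simp [hp, hq]
    | mul_X p k hp => simp [hp, pderiv_X]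
  rw [hr, hr, hl, hl, mul_zero, mul_zero, zero_add, zero_add]
  have h4 : ∀ A B : MvPolynomial (Fin 2 ⊕ Fin 2) K, ev P P' (A + B) = ev P P' A + ev P P' B := by
    intro A B; exact map_add _ _ _
  have h5 : ∀ A B : MvPolynomial (Fin 2 ⊕ Fin 2) K, ev P P' (A * B) = ev P P' A * ev P P' B := by
    intro A B; exact map_mul _ _ _
  have h6 : ∀ R : MvPolynomial (Fin 2) K, ev P P' (rename Sum.inr R) = aeval P' R := by
    intro R
    unfold ev
    rw [aeval_rename]
    rfl
  rw [h4, h5, h5, h6, h6, ev_bind, ev_bind]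

end Chn

open Chn in
theorem chn : ChnStatement := by
  intro K _ _ q F hq hF d₁ d₂ G W n hG hW N _ _ P P' hP hP' hev hi hJ hi'
  have : CharZero N := charZero_of_injective_algebraMap (algebraMap K N).injective
  rw [bind_dbl_it] at hW
  set Φ := itF F n with hΦ
  have hx : gAct Φ N P = (gAct F N)^[n] P := gAct_itF F n P
  have hy : gAct Φ N P' = (gAct F N)^[n] P' := gAct_itF F n P'
  have hxne : gAct Φ N P ≠ 0 := by rw [hx]; exact iter_ne hF n P hP
  have hc : ((q ^ n : ℕ) : N) ≠ 0 := by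
    have : (q ^ n : ℕ) ≠ 0 := pow_ne_zero _ (by omega)
    exact_mod_cast this
  rw [← hx, ← hy] at hi'
  -- value of `G` at the image
  have hG0 : ev (gAct Φ N P) (gAct Φ N P') G = 0 := by
    rw [← ev_bind, hW]
    unfold ev at hev ⊢
    rw [map_mul, hev, zero_mul]
  -- derivatives of the product
  have hprod : ∀ j : Fin 2 ⊕ Fin 2, ev P P' (pderiv j (bind₁ (dbl Φ) G)) =
      ev P P' (pderiv j G) * ev P P' W := by
    intro j
    rw [hW, pderiv_mul]
    unfold ev at hev ⊢
    rw [map_add, map_mul, map_mul, hev, zero_mul, add_zero]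
  have e1 := euler_inl hG (gAct Φ N P) (gAct Φ N P')
  rw [hG0, mul_zero] at e1
  have e2 := euler_inr hG (gAct Φ N P) (gAct Φ N P')
  rw [hG0, mul_zero] at e2
  have f0 := euler_two (itF_hom hF.hom n 0) P
  have f1 := euler_two (itF_hom hF.hom n 1) P
  rw [← hΦ] at f0 f1
  have g0 : aeval P (Φ 0) = gAct Φ N P 0 := rfl
  have g1 : aeval P (Φ 1) = gAct Φ N P 1 := rfl
  rw [g0] at f0
  rw [g1] at f1
  have hJ' : aeval P (pderiv 0 (Φ 0)) * aeval P (pderiv 1 (Φ 1)) -
      aeval P (pderiv 1 (Φ 0)) * aeval P (pderiv 0 (Φ 1)) = 0 := by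
    have := hJ
    unfold Jac at this
    rwa [map_sub, map_mul, map_mul] at this
  -- the rows of the derivative matrix are proportional to `Φ(P)`
  have r0 : aeval P (pderiv 0 (Φ 0)) * gAct Φ N P 1 = aeval P (pderiv 0 (Φ 1)) * gAct Φ N P 0 := by
    have : ((q ^ n : ℕ) : N) * (aeval P (pderiv 0 (Φ 0)) * gAct Φ N P 1 -
        aeval P (pderiv 0 (Φ 1)) * gAct Φ N P 0) = 0 := by
      linear_combination (-aeval P (pderiv 0 (Φ 0))) * f1 + (aeval P (pderiv 0 (Φ 1))) * f0 +
        P 1 * hJ'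
    rcases mul_eq_zero.mp this with h | h
    · exact absurd h hc
    · exact sub_eq_zero.mp h
  have r1 : aeval P (pderiv 1 (Φ 0)) * gAct Φ N P 1 = aeval P (pderiv 1 (Φ 1)) * gAct Φ N P 0 := by
    have : ((q ^ n : ℕ) : N) * (aeval P (pderiv 1 (Φ 0)) * gAct Φ N P 1 -
        aeval P (pderiv 1 (Φ 1)) * gAct Φ N P 0) = 0 := by
      linear_combination (-aeval P (pderiv 1 (Φ 0))) * f1 + (aeval P (pderiv 1 (Φ 1))) * f0 -
        P 0 * hJ'
    rcases mul_eq_zero.mp this with h | h
    · exact absurd h hc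
    · exact sub_eq_zero.mp h
  have hzero : ∀ i : Fin 2, ev P P' (pderiv (Sum.inl i) (bind₁ (dbl Φ) G)) = 0 := by
    intro i
    rw [chain_inl]
    have ri : aeval P (pderiv i (Φ 0)) * gAct Φ N P 1 = aeval P (pderiv i (Φ 1)) * gAct Φ N P 0 := by
      fin_cases i
      · exact r0
      · exact r1
    have hne : gAct Φ N P 0 ≠ 0 ∨ gAct Φ N P 1 ≠ 0 := by
      by_contra hcon
      push Not at hcon
      apply hxne
      funext j
      fin_cases j
      · exact hcon.1
      · exact hcon.2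
    rcases hne with h | h
    · have : gAct Φ N P 0 * (ev (gAct Φ N P) (gAct Φ N P') (pderiv (Sum.inl 0) G) *
          aeval P (pderiv i (Φ 0)) + ev (gAct Φ N P) (gAct Φ N P') (pderiv (Sum.inl 1) G) *
          aeval P (pderiv i (Φ 1))) = 0 := by
        linear_combination aeval P (pderiv i (Φ 0)) * e1 -
          ev (gAct Φ N P) (gAct Φ N P') (pderiv (Sum.inl 1) G) * ri
      exact (mul_eq_zero.mp this).resolve_left h
    · have : gAct Φ N P 1 * (ev (gAct Φ N P) (gAct Φ N P') (pderiv (Sum.inl 0) G) *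
          aeval P (pderiv i (Φ 0)) + ev (gAct Φ N P) (gAct Φ N P') (pderiv (Sum.inl 1) G) *
          aeval P (pderiv i (Φ 1))) = 0 := by
        linear_combination aeval P (pderiv i (Φ 1)) * e1 +
          ev (gAct Φ N P) (gAct Φ N P') (pderiv (Sum.inl 0) G) * ri
      exact (mul_eq_zero.mp this).resolve_left h
  have hW0 : ev P P' W = 0 := by
    obtain ⟨i, hi⟩ := hi
    have := hprod (Sum.inl i)
    rw [hzero i] at this
    exact (mul_eq_zero.mp this.symm).resolve_left hi
  have hz' : ∀ i : Fin 2, ev P P' (pderiv (Sum.inr i) (bind₁ (dbl Φ) G)) = 0 := by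
    intro i
    rw [hprod, hW0, mul_zero]
  have k0 := hz' 0
  have k1 := hz' 1
  rw [chain_inr] at k0 k1
  have : aeval P' (pderiv 0 (Φ 0)) * aeval P' (pderiv 1 (Φ 1)) -
      aeval P' (pderiv 1 (Φ 0)) * aeval P' (pderiv 0 (Φ 1)) = 0 := by
    obtain ⟨j, hj⟩ := hi'
    fin_cases j
    · have h : ev (gAct Φ N P) (gAct Φ N P') (pderiv (Sum.inr 0) G) *
          (aeval P' (pderiv 0 (Φ 0)) * aeval P' (pderiv 1 (Φ 1)) -
          aeval P' (pderiv 1 (Φ 0)) * aeval P' (pderiv 0 (Φ 1))) = 0 := by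
        linear_combination aeval P' (pderiv 1 (Φ 1)) * k0 - aeval P' (pderiv 0 (Φ 1)) * k1
      exact (mul_eq_zero.mp h).resolve_left hj
    · have h : ev (gAct Φ N P) (gAct Φ N P') (pderiv (Sum.inr 1) G) *
          (aeval P' (pderiv 0 (Φ 0)) * aeval P' (pderiv 1 (Φ 1)) -
          aeval P' (pderiv 1 (Φ 0)) * aeval P' (pderiv 0 (Φ 1))) = 0 := by
        linear_combination aeval P' (pderiv 0 (Φ 0)) * k1 - aeval P' (pderiv 1 (Φ 0)) * k0
      exact (mul_eq_zero.mp h).resolve_left hj
  unfold Jac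
  rw [map_sub, map_mul, map_mul]
  exact this

end Pool.DynLehmer.GS
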