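import Mathlib
import Pool.Agent.Lib.MP_2194ec_nt.GAL.R.Bas

set_option autoImplicit false

/-!
# Row CNTW: the number of periodic forms, case of a wandering critical point
-/

namespace Pool.DynLehmer.GS
open MvPolynomial NumberField Filter Topology Pool.DynLehmer Pool.DynLehmer.SB Pool.DynLehmer.SP
  Pool.DynLehmer.GAL

namespace Cntw

/-! ### Points -/

section points

variable {N : Type} [Field N]

/-- a vector with the given affine coordinate -/
noncomputable def vec : Option N → Fin 2 → N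
  | none => ![1, 0]
  | some x => ![x, 1]

theorem vec_ne (z : Option N) : vec z ≠ 0 := by
  intro h
  cases z with
  | none => simpa [vec] using congrFun h 0
  | some x => simpa [vec] using congrFun h 1

theorem pr_vec (z : Option N) : pr (vec z) = z := by
  cases z with
  | none => simp [pr, vec]
  | some x => simp [pr, vec]

theorem prl_vec {P : Fin 2 → N} (hP : P ≠ 0) : Prl P (vec (pr P)) :=
  Bas.prl_of_pr hP (vec_ne _) (pr_vec _).symm

end points

/-! ### Forms -/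

section forms

variable {K : Type} [Field K]

theorem aeval_prl {N : Type} [Field N] [Algebra K N] {d : ℕ} {R : MvPolynomial (Fin 2) K}
    (hR : R.IsHomogeneous d) {P Q : Fin 2 → N} (h : Prl P Q) (hQ : aeval Q R = 0) :
    aeval P R = 0 := by
  obtain ⟨c, -, rfl⟩ := h
  have h1 : aeval (c • Q) R = c ^ d * aeval Q R := by
    rw [aeval_def, eval₂_eq', aeval_def, eval₂_eq', Finset.mul_sum]
    refine Finset.sum_congr rfl fun t ht => ?_
    have hd : t 0 + t 1 = d := by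
      have := hR (mem_support_iff.1 ht)
      rw [Finsupp.weight_apply, Finsupp.sum_fintype _ _ (by simp), Fin.sum_univ_two] at this
      simpa using this
    simp only [Fin.prod_univ_two, Pi.smul_apply, smul_eq_mul, mul_pow]
    rw [← hd, pow_add]
    ring
  rw [h1, hQ, mul_zero]

theorem biHom_of_wh {d₁ d₂ : ℕ} {G : MvPolynomial (Fin 2 ⊕ Fin 2) K}
    (h₁ : G.IsWeightedHomogeneous (Sum.elim (fun _ => 1) (fun _ => 0) : Fin 2 ⊕ Fin 2 → ℕ) d₁)
    (h₂ : G.IsWeightedHomogeneous (Sum.elim (fun _ => 0) (fun _ => 1) : Fin 2 ⊕ Fin 2 → ℕ) d₂) :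
    BiHom d₁ d₂ G := by
  intro t ht
  have a := h₁ (mem_support_iff.1 ht)
  have b := h₂ (mem_support_iff.1 ht)
  rw [Finsupp.weight_apply, Finsupp.sum_fintype _ _ (by simp), Fintype.sum_sum_type,
    Fin.sum_univ_two, Fin.sum_univ_two] at a b
  exact ⟨by simpa using a, by simpa using b⟩

theorem biHom_inl {d₁ d₂ : ℕ} {G : MvPolynomial (Fin 2 ⊕ Fin 2) K} (hG : BiHom d₁ d₂ G)
    (h : 1 ≤ d₁) (i : Fin 2) : BiHom (d₁ - 1) d₂ (pderiv (Sum.inl i) G) :=
  biHom_of_wh ((Bas.wh_inl hG).pderiv (by simp; omega)) ((Bas.wh_inr hG).pderiv (by simp))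

theorem biHom_inr {d₁ d₂ : ℕ} {G : MvPolynomial (Fin 2 ⊕ Fin 2) K} (hG : BiHom d₁ d₂ G)
    (h : 1 ≤ d₂) (i : Fin 2) : BiHom d₁ (d₂ - 1) (pderiv (Sum.inr i) G) :=
  biHom_of_wh ((Bas.wh_inl hG).pderiv (by simp)) ((Bas.wh_inr hG).pderiv (by simp; omega))

theorem biHom_hom {d₁ d₂ : ℕ} {G : MvPolynomial (Fin 2 ⊕ Fin 2) K} (hG : BiHom d₁ d₂ G) :
    G.IsHomogeneous (d₁ + d₂) := by
  intro t ht
  have := hG t (mem_support_iff.2 ht)
  rw [Finsupp.weight_apply, Finsupp.sum_fintype _ _ (by simp), Fintype.sum_sum_type,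
    Fin.sum_univ_two, Fin.sum_univ_two]
  simp only [Pi.one_apply, smul_eq_mul, mul_one]
  omega

theorem not_dvd {d₁ d₂ e₁ e₂ : ℕ} {G H : MvPolynomial (Fin 2 ⊕ Fin 2) K} (hG : BiHom d₁ d₂ G)
    (hH : BiHom e₁ e₂ H) (hG0 : G ≠ 0) (hH0 : H ≠ 0) (h : e₁ + e₂ < d₁ + d₂) : ¬ G ∣ H := by
  rintro ⟨W, rfl⟩
  have hW : W ≠ 0 := right_ne_zero_of_mul hH0
  have h1 := totalDegree_mul_of_isDomain hG0 hW
  rw [(biHom_hom hH).totalDegree hH0, (biHom_hom hG).totalDegree hG0] at h1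
  omega

theorem exists_inl [CharZero K] {d₁ d₂ : ℕ} {G : MvPolynomial (Fin 2 ⊕ Fin 2) K}
    (hG : BiHom d₁ d₂ G) (hG0 : G ≠ 0) (h : 1 ≤ d₁) : ∃ i, pderiv (Sum.inl i) G ≠ 0 := by
  by_contra hcon
  push Not at hcon
  have h1 := (Bas.wh_inl hG).sum_weight_X_mul_pderiv
  rw [Fintype.sum_sum_type, Fin.sum_univ_two, Fin.sum_univ_two] at h1
  simp only [Sum.elim_inl, Sum.elim_inr, hcon, mul_zero, smul_zero, zero_smul, add_zero] at h1
  rw [eq_comm, smul_eq_zero] at h1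
  rcases h1 with h1 | h1
  · omega
  · exact hG0 h1

theorem exists_inr [CharZero K] {d₁ d₂ : ℕ} {G : MvPolynomial (Fin 2 ⊕ Fin 2) K}
    (hG : BiHom d₁ d₂ G) (hG0 : G ≠ 0) (h : 1 ≤ d₂) : ∃ i, pderiv (Sum.inr i) G ≠ 0 := by
  by_contra hcon
  push Not at hcon
  have h1 := (Bas.wh_inr hG).sum_weight_X_mul_pderiv
  rw [Fintype.sum_sum_type, Fin.sum_univ_two, Fin.sum_univ_two] at h1
  simp only [Sum.elim_inl, Sum.elim_inr, hcon, mul_zero, smul_zero, zero_smul, add_zero] at h1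
  rw [eq_comm, smul_eq_zero] at h1
  rcases h1 with h1 | h1
  · omega
  · exact hG0 h1

end forms

/-! ### Orbits -/

section orbits

variable {K : Type} [Field K] {q : ℕ} {F : Fin 2 → MvPolynomial (Fin 2) K} {N : Type} [Field N]
  [Algebra K N]

/-- the orbit of a wandering point is infinite -/
theorem not_fin (hM : Mor q F) {P : Fin 2 → N} (hP : P ≠ 0) (hw : WandP F P) (g : ℕ → ℕ)
    (hg : Function.Injective g) (Z : Finset (Option N)) :
    ¬ ∀ j, pr ((gAct F N)^[g j] P) ∈ Z := by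
  intro h
  obtain ⟨a, b, hab, heq⟩ := Finite.exists_ne_map_eq_of_infinite
    (fun j : ℕ => (⟨pr ((gAct F N)^[g j] P), h j⟩ : Z))
  have h1 : pr ((gAct F N)^[g a] P) = pr ((gAct F N)^[g b] P) := congrArg Subtype.val heq
  exact Bas.wandP_not_prl hw (fun hh => hab (hg hh))
    (Bas.prl_of_pr (Bas.iter_ne hM hP _) (Bas.iter_ne hM hP _) h1)

/-- a form does not vanish on the orbit of a wandering point -/
theorem exists_ne (hroot : RootStatement) (hM : Mor q F) {P : Fin 2 → N} (hP : P ≠ 0)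
    (hw : WandP F P) {k : ℕ} (hk : 0 < k) {d : ℕ} {R : MvPolynomial (Fin 2) K} (hR : R ≠ 0)
    (hRd : R.IsHomogeneous d) (j₀ : ℕ) :
    ∃ j, j₀ ≤ j ∧ aeval ((gAct F N)^[k * j] P) R ≠ 0 := by
  by_contra hcon
  push Not at hcon
  obtain ⟨Z, -, hZ⟩ := hroot K N d R hR hRd
  refine not_fin hM hP hw (fun j => k * (j₀ + j)) ?_ Z fun j =>
    hZ _ (Bas.iter_ne hM hP _) (hcon _ (by omega))
  intro a b hab
  have := Nat.eq_of_mul_eq_mul_left hk hab
  omega

/-- the orbit of a zero of a periodic form -/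
theorem ev_orbit {G : MvPolynomial (Fin 2 ⊕ Fin 2) K} {k : ℕ}
    (hk : G ∣ (bind₁ (dbl F))^[k] G) {P P' : Fin 2 → N} (h : ev P P' G = 0) (j : ℕ) :
    ev ((gAct F N)^[k * j] P) ((gAct F N)^[k * j] P') G = 0 := by
  obtain ⟨W, hW⟩ := Bas.dvd_iter_mul hk j
  rw [← Bas.ev_iter, hW]
  simp only [ev, map_mul] at h ⊢
  rw [h, zero_mul]

/-- a wandering pair lies on at most one periodic form -/
theorem uniq (hroot : RootStatement) (hbez : BezStatement) (hM : Mor q F) {e e' : ℕ}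
    {G G' : MvPolynomial (Fin 2 ⊕ Fin 2) K} (hG : PerForm F e G) (hG' : PerForm F e' G')
    {P P' : Fin 2 → N} (hP : P ≠ 0) (hP' : P' ≠ 0) (hw : WandP F P) (h : ev P P' G = 0)
    (h' : ev P P' G' = 0) : Associated G G' := by
  obtain ⟨d₁, d₂, -, -, hd₂, -, hB⟩ := hG.hom
  obtain ⟨e₁, e₂, -, -, -, -, hB'⟩ := hG'.hom
  obtain ⟨k, hk, hk1⟩ := hG.per
  obtain ⟨k', hk', hk1'⟩ := hG'.per
  by_cases hdvd : G ∣ G'
  · exact hG.irr.associated_of_dvd hG'.irr hdvd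
  exfalso
  obtain ⟨R, hR, hRd, hRz⟩ := hbez K d₁ d₂ e₁ e₂ G G' hB hB' hG.irr hd₂ hdvd
  obtain ⟨j, -, hj⟩ := exists_ne hroot hM hP hw (Nat.mul_pos hk hk') hR hRd 0
  refine hj (hRz N _ ((gAct F N)^[k * k' * j] P') (Bas.iter_ne hM hP' _) ?_ ?_)
  · rw [mul_assoc]
    exact ev_orbit hk1 h _
  · rw [mul_comm k k', mul_assoc]
    exact ev_orbit hk1' h' _

/-- on a periodic form, over a wandering point lie only wandering points -/
theorem wand_snd (hfib : FibStatement) (hM : Mor q F) {e : ℕ}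
    {G : MvPolynomial (Fin 2 ⊕ Fin 2) K} (hG : PerForm F e G)
    {P P' : Fin 2 → N} (hP : P ≠ 0) (hP' : P' ≠ 0) (hw : WandP F P) (h : ev P P' G = 0) :
    WandP F P' := by
  obtain ⟨d₁, d₂, hd₁, -, hd₂, -, hB⟩ := hG.hom
  obtain ⟨k, hk, hk1⟩ := hG.per
  rw [Bas.wandP_iff]
  by_contra hcon
  push Not at hcon
  obtain ⟨a, b, hab, hne⟩ := hcon
  -- an eventually periodic orbit
  have key : ∃ m t : ℕ, 0 < t ∧ ∀ i, m ≤ i → Prl ((gAct F N)^[i + t] P') ((gAct F N)^[i] P') := by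
    rcases lt_or_gt_of_ne hne with hlt | hlt
    · refine ⟨a, b - a, by omega, fun i hi => ?_⟩
      have h1 := Bas.prl_iter hM.hom hab (i - a)
      rw [← Function.iterate_add_apply, ← Function.iterate_add_apply,
        show i - a + b = i + (b - a) by omega, show i - a + a = i by omega] at h1
      exact h1
    · refine ⟨b, a - b, by omega, fun i hi => ?_⟩
      have h1 := Bas.prl_iter hM.hom (Bas.prl_symm hab) (i - b)
      rw [← Function.iterate_add_apply, ← Function.iterate_add_apply,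
        show i - b + a = i + (a - b) by omega, show i - b + b = i by omega] at h1
      exact h1
  obtain ⟨m, t, ht, hmt⟩ := key
  have hper : ∀ j, Prl ((gAct F N)^[k * (m + t * j)] P') ((gAct F N)^[k * m] P') := by
    have h2 : ∀ j, Prl ((gAct F N)^[k * m + t * j] P') ((gAct F N)^[k * m] P') := by
      intro j
      induction j with
      | zero => exact Bas.prl_refl _
      | succ j ih =>
        refine Bas.prl_trans ?_ ih
        have := hmt (k * m + t * j) (le_trans (Nat.le_mul_of_pos_left m hk) (Nat.le_add_right _ _))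
        rw [show k * m + t * (j + 1) = k * m + t * j + t by ring]
        exact this
    intro j
    have := h2 (k * j)
    rwa [show k * m + t * (k * j) = k * (m + t * j) by ring] at this
  have hB' : BiHom d₂ d₁ (rename Sum.swap G : MvPolynomial (Fin 2 ⊕ Fin 2) K) :=
    Bas.biHom_swap hB
  obtain ⟨⟨Z, -, hZ⟩, -⟩ := hfib K d₂ d₁ _ hB' (Bas.irreducible_swap hG.irr) hd₂ hd₁ N
    ((gAct F N)^[k * m] P') (Bas.iter_ne hM hP' _)
  refine not_fin hM hP hw (fun j => k * (m + t * j)) ?_ Z fun j => ?_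
  · intro a b hab
    have h3 := Nat.eq_of_mul_eq_mul_left hk hab
    exact Nat.eq_of_mul_eq_mul_left ht (by omega)
  · refine hZ _ (Bas.iter_ne hM hP _) ?_
    rw [Bas.ev_swap]
    exact (Bas.ev_prl hB (Bas.prl_refl _) (hper j)).1 (ev_orbit hk1 h _)

end orbits

/-! ### The good pair -/

theorem good_pair (hroot : RootStatement) (hbez : BezStatement) (hfib : FibStatement)
    (hjac : JacStatement) (hchn : ChnStatement)
    {K : Type} [Field K] [CharZero K] {q : ℕ} {F : Fin 2 → MvPolynomial (Fin 2) K} (hq : 1 ≤ q)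
    (hM : Mor q F) {A : Type} [Field A] [Algebra K A] [IsAlgClosed A] {e : ℕ}
    {G : MvPolynomial (Fin 2 ⊕ Fin 2) K} (hG : PerForm F e G) {U : Fin 2 → A}
    (hUc : aeval U (Jac F) = 0) (hUw : WandP F U) {m : ℕ} {Z : Finset (Option A)}
    (hZ : 2 * e ^ 2 < Z.card)
    (hZm : ∀ z ∈ Z, ∃ P : Fin 2 → A, P ≠ 0 ∧ pr P = z ∧ Prl ((gAct F A)^[m] P) U) :
    ∃ P P' : Fin 2 → A, P ≠ 0 ∧ P' ≠ 0 ∧ ev P P' G = 0 ∧ Prl ((gAct F A)^[m] P) U ∧
      WandP F P ∧ WandP F P' ∧ ∃ i, aeval ((gAct F A)^[i] P') (Jac F) = 0 := by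
  obtain ⟨d₁, d₂, hd₁, hd₁e, hd₂, hd₂e, hB⟩ := hG.hom
  obtain ⟨k, hk, hk1⟩ := hG.per
  obtain ⟨hJ0, hJd, hJit⟩ := hjac K q F hq hM
  have hG0 : G ≠ 0 := hG.irr.ne_zero
  -- the point `P`
  obtain ⟨i, hi⟩ := exists_inl hB hG0 hd₁
  obtain ⟨R, hR, hRd, hRz⟩ := hbez K d₁ d₂ (d₁ - 1) d₂ G _ hB (biHom_inl hB hd₁ i) hG.irr hd₂
    (not_dvd hB (biHom_inl hB hd₁ i) hG0 hi (by omega))
  obtain ⟨ZR, hZRc, hZR⟩ := hroot K A _ R hR hRd
  have hcard : ZR.card < Z.card := by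
    refine lt_of_le_of_lt (le_trans hZRc ?_) hZ
    have h1 : d₁ * d₂ ≤ e * e := Nat.mul_le_mul hd₁e hd₂e
    have h2 : d₂ * (d₁ - 1) ≤ e * e := Nat.mul_le_mul hd₂e (by omega)
    nlinarith
  obtain ⟨z, hz, hzR⟩ := Finset.exists_mem_notMem_of_card_lt_card hcard
  obtain ⟨P, hP, hPz, hPU⟩ := hZm z hz
  obtain ⟨-, hex⟩ := hfib K d₁ d₂ G hB hG.irr hd₁ hd₂ A P hP
  obtain ⟨P', hP', hev⟩ := hex inferInstance
  have hPw : WandP F P := Bas.wandP_of_iter hM.hom (Bas.wandP_prl hM.hom hPU hUw)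
  have hPw' : WandP F P' := wand_snd hfib hM hG hP hP' hPw hev
  have hne : ev P P' (pderiv (Sum.inl i) G) ≠ 0 := by
    intro h0
    exact hzR (hPz ▸ hZR P hP (hRz A P P' hP' hev h0))
  refine ⟨P, P', hP, hP', hev, hPU, hPw, hPw', ?_⟩
  -- the chain rule
  obtain ⟨i', hi'⟩ := exists_inr hB hG0 hd₂
  obtain ⟨R', hR', hRd', hRz'⟩ := hbez K d₁ d₂ d₁ (d₂ - 1) G _ hB (biHom_inr hB hd₂ i') hG.irr hd₂
    (not_dvd hB (biHom_inr hB hd₂ i') hG0 hi' (by omega))
  obtain ⟨j, hj, hjne⟩ := exists_ne hroot hM hP hPw hk hR' hRd' (m + 1)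
  obtain ⟨W, hW⟩ := Bas.dvd_iter_mul hk1 j
  have hmn : m < k * j := lt_of_lt_of_le (by omega) (Nat.le_mul_of_pos_left j hk)
  have hjP : aeval P (Jac (itF F (k * j))) = 0 :=
    (hJit A P (k * j) hP).2 ⟨m, hmn, aeval_prl hJd hPU hUc⟩
  have hne' : ev ((gAct F A)^[k * j] P) ((gAct F A)^[k * j] P') (pderiv (Sum.inr i') G) ≠ 0 := by
    intro h0
    exact hjne (hRz' A _ _ (Bas.iter_ne hM hP' _) (ev_orbit hk1 hev j) h0)
  have := hchn K q F hq hM d₁ d₂ G W (k * j) hB hW A P P' hP hP' hev ⟨i, hne⟩ hjP ⟨i', hne'⟩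
  obtain ⟨i, -, hi⟩ := (hJit A P' (k * j) hP').1 this
  exact ⟨i, hi⟩

/-! ### The count -/

/-- the points in the backward orbits of the points `z ∈ ZJ` up to the level with `q ^ i ≤ M` -/
theorem back (hpre : PreStatement) {K : Type} [Field K] {q : ℕ}
    {F : Fin 2 → MvPolynomial (Fin 2) K} (hq : 2 ≤ q) (hM : Mor q F) {A : Type} [Field A]
    [Algebra K A] (ZJ : Finset (Option A)) (M : ℕ) :
    ∃ Y : Finset (Option A), Y.card ≤ ZJ.card * ((M + 1) * M) ∧ ∀ z ∈ ZJ, ∀ i : ℕ, q ^ i ≤ M →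
      ∀ P : Fin 2 → A, P ≠ 0 → Prl ((gAct F A)^[i] P) (vec z) → pr P ∈ Y := by
  classical
  choose f hf hf' using fun (z : Option A) (i : ℕ) =>
    hpre K A q F (by omega) hM (vec z) (vec_ne z) i
  refine ⟨ZJ.biUnion fun z => (Finset.range (M + 1)).biUnion fun i =>
    if q ^ i ≤ M then f z i else ∅, ?_, ?_⟩
  · refine Finset.card_biUnion_le_card_mul _ _ _ fun z _ => ?_
    refine le_trans (Finset.card_biUnion_le_card_mul _ _ M fun i _ => ?_) ?_
    · split_ifs with h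
      · exact (hf z i).trans h
      · simp
    · rw [Finset.card_range]
  · intro z hz i hi P hP hPz
    have hiM : i < M + 1 := by
      have : i < q ^ i := Nat.lt_pow_self (by omega)
      omega
    refine Finset.mem_biUnion.2 ⟨z, hz, Finset.mem_biUnion.2 ⟨i, Finset.mem_range.2 hiM, ?_⟩⟩
    rw [if_pos hi]
    exact hf' z i P hP hPz

theorem arith {CL D CH c e qm M x y : ℕ} (he : 1 ≤ e) (hqm : qm ≤ CL * (2 * e ^ 2 + 1))
    (hM : M = CH * (e * (qm * D)) ^ 2) (hx : x ≤ qm) (hy : y ≤ c * ((M + 1) * M)) :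
    x * y ≤ (3 * CL * (c * ((CH * (3 * CL * D) ^ 2 + 1) * (CH * (3 * CL * D) ^ 2)))) *
      e ^ 14 := by
  have h1 : qm ≤ 3 * CL * e ^ 2 := by
    refine hqm.trans ?_
    have : 1 ≤ e ^ 2 := Nat.one_le_pow _ _ he
    nlinarith [Nat.zero_le CL]
  have h2 : M ≤ CH * (3 * CL * D) ^ 2 * e ^ 6 := by
    have h3 : e * (qm * D) ≤ (3 * CL * D) * e ^ 3 := by
      calc e * (qm * D) ≤ e * (3 * CL * e ^ 2 * D) :=
            Nat.mul_le_mul_left _ (Nat.mul_le_mul_right _ h1)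
        _ = (3 * CL * D) * e ^ 3 := by ring
    calc M = CH * (e * (qm * D)) ^ 2 := hM
      _ ≤ CH * ((3 * CL * D) * e ^ 3) ^ 2 :=
          Nat.mul_le_mul_left _ (Nat.pow_le_pow_left h3 2)
      _ = CH * (3 * CL * D) ^ 2 * e ^ 6 := by ring
  have h4 : M + 1 ≤ (CH * (3 * CL * D) ^ 2 + 1) * e ^ 6 := by
    have : 1 ≤ e ^ 6 := Nat.one_le_pow _ _ he
    rw [add_mul]
    omega
  calc x * y ≤ (3 * CL * e ^ 2) * (c * (((CH * (3 * CL * D) ^ 2 + 1) * e ^ 6) *
        (CH * (3 * CL * D) ^ 2 * e ^ 6))) :=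
        Nat.mul_le_mul (hx.trans h1)
          (hy.trans (Nat.mul_le_mul_left _ (Nat.mul_le_mul h4 h2)))
    _ = _ := by ring

end Cntw

open Cntw in
/-- Row CNTW: the number of periodic forms, case of a wandering critical point. -/
theorem cntw : CntwStatement := by
  classical
  intro hroot hbez hfib hpre hjac hlev hchn hdeg hhts hmor K _ _ p s v F hF hcrit
  obtain ⟨U, hU, hUc, hUw⟩ := hcrit
  have hM : Mor (p ^ s) F := hmor K p s v F hF
  have hq : 2 ≤ p ^ s := by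
    calc 2 ≤ p := hF.prime.two_le
      _ = p ^ 1 := (pow_one p).symm
      _ ≤ p ^ s := Nat.pow_le_pow_right hF.prime.pos hF.pos
  obtain ⟨hJ0, hJd, -⟩ := hjac K (p ^ s) F (by omega) hM
  obtain ⟨ZJ, -, hZJ⟩ := hroot K (AlgebraicClosure K) _ (Jac F) hJ0 hJd
  obtain ⟨CL, hCL⟩ := hlev K (p ^ s) F hq hM U hU hUw
  obtain ⟨hdeg1, hdeg2⟩ := hdeg K
  -- the constant for the wandering critical points
  have hH : ∀ z : Option (AlgebraicClosure K), ∃ C : ℕ, WandP F (vec z) →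
      ∀ (i : ℕ) (P : Fin 2 → AlgebraicClosure K), P ≠ 0 →
      Prl ((gAct F (AlgebraicClosure K))^[i] P) (vec z) → (p ^ s) ^ i ≤ C * dg K P ^ 2 := by
    intro z
    by_cases hz : WandP F (vec z)
    · obtain ⟨C, hC⟩ := hhts K p s v F hF (vec z) (vec_ne z) hz
      exact ⟨C, fun _ => hC⟩
    · exact ⟨0, fun h => absurd h hz⟩
  choose CHz hCHz using hH
  obtain ⟨CH, hCH⟩ : ∃ CH : ℕ, ∀ z ∈ ZJ, CHz z ≤ CH :=
    ⟨∑ z ∈ ZJ, CHz z, fun z hz => Finset.single_le_sum (fun _ _ => Nat.zero_le _) hz⟩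
  refine ⟨3 * CL * (ZJ.card * ((CH * (3 * CL * dg K U) ^ 2 + 1) *
    (CH * (3 * CL * dg K U) ^ 2))), 14, fun e => ?_⟩
  rcases Nat.eq_zero_or_pos e with he | he
  · subst he
    refine ⟨∅, by simp, fun G hG => ?_⟩
    obtain ⟨d₁, d₂, h1, h2, -⟩ := hG.hom
    omega
  obtain ⟨m, Z, hZc, hmq, hZ⟩ := hCL (2 * e ^ 2)
  obtain ⟨X, hXc, hX⟩ := hpre K (AlgebraicClosure K) (p ^ s) F (by omega) hM U hU m
  obtain ⟨Y, hYc, hY⟩ := back hpre hq hM ZJ (CH * (e * ((p ^ s) ^ m * dg K U)) ^ 2)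
  -- the choice of a form for a pair of points
  let good : Option (AlgebraicClosure K) × Option (AlgebraicClosure K) →
      MvPolynomial (Fin 2 ⊕ Fin 2) K → Prop := fun w G => PerForm F e G ∧
    WandP F (vec w.1) ∧ ev (vec w.1) (vec w.2) G = 0
  let g : Option (AlgebraicClosure K) × Option (AlgebraicClosure K) →
      MvPolynomial (Fin 2 ⊕ Fin 2) K := fun w => if h : ∃ G, good w G then h.choose else 0
  refine ⟨(X ×ˢ Y).image g, ?_, fun G hG => ?_⟩
  · refine Finset.card_image_le.trans ?_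
    rw [Finset.card_product]
    exact arith he hmq rfl hXc hYc
  · obtain ⟨P, P', hP, hP', hev, hPU, hPw, hPw', i, hi⟩ :=
      good_pair hroot hbez hfib hjac hchn (by omega) hM hG hUc hUw hZc hZ
    obtain ⟨d₁, d₂, hd₁, -, hd₂, hd₂e, hB⟩ := hG.hom
    have hPX : pr P ∈ X := hX P hP hPU
    have hzJ : pr ((gAct F (AlgebraicClosure K))^[i] P') ∈ ZJ :=
      hZJ _ (Bas.iter_ne hM hP' i) hi
    have hprl : Prl ((gAct F (AlgebraicClosure K))^[i] P')
        (vec (pr ((gAct F (AlgebraicClosure K))^[i] P'))) := prl_vec (Bas.iter_ne hM hP' i)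
    have hzw : WandP F (vec (pr ((gAct F (AlgebraicClosure K))^[i] P'))) :=
      Bas.wandP_prl hM.hom (Bas.prl_symm hprl) (Bas.wandP_iter hPw' i)
    have hdP : dg K P ≤ (p ^ s) ^ m * dg K U := hdeg2 (p ^ s) F (by omega) hM P U m hP hU hPU
    have hdP' : dg K P' ≤ e * ((p ^ s) ^ m * dg K U) :=
      (hdeg1 d₁ d₂ G hB hG.irr hd₁ hd₂ P P' hP hP' hev).trans (Nat.mul_le_mul hd₂e hdP)
    have hlevel : (p ^ s) ^ i ≤ CH * (e * ((p ^ s) ^ m * dg K U)) ^ 2 :=
      (hCHz _ hzw i P' hP' hprl).trans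
        (Nat.mul_le_mul (hCH _ hzJ) (Nat.pow_le_pow_left hdP' 2))
    have hPY : pr P' ∈ Y := hY _ hzJ i hlevel P' hP' hprl
    have hwx : WandP F (vec (pr P)) := Bas.wandP_prl hM.hom (Bas.prl_symm (prl_vec hP)) hPw
    have hgood : ∃ G, good (pr P, pr P') G :=
      ⟨G, hG, hwx, (Bas.ev_prl hB (prl_vec hP) (prl_vec hP')).1 hev⟩
    refine ⟨g (pr P, pr P'), Finset.mem_image.2 ⟨(pr P, pr P'),
      Finset.mem_product.2 ⟨hPX, hPY⟩, rfl⟩, ?_⟩
    have hgs : good (pr P, pr P') (g (pr P, pr P')) := by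
      have : g (pr P, pr P') = hgood.choose := dif_pos hgood
      rw [this]
      exact hgood.choose_spec
    exact uniq hroot hbez hM hG hgs.1 (vec_ne _) (vec_ne _) hwx
      ((Bas.ev_prl hB (prl_vec hP) (prl_vec hP')).1 hev) hgs.2.2

end Pool.DynLehmer.GS
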