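import Pool.Agent.Lib.MP_2194ec_nt.GAL.R.Defs

set_option autoImplicit false

/-!
# Row DEG: degrees of points
-/

namespace Pool.DynLehmer.GS

open MvPolynomial NumberField Pool.DynLehmer
open scoped Classical

namespace DEG

section field

variable {K : Type} [Field K] {N : Type} [Field N] [Algebra K N] [Algebra.IsAlgebraic K N]

theorem dg_pos [CharZero K] (P : Fin 2 → N) : 1 ≤ dg K P := by
  unfold dg
  have hx : IsIntegral K (P 0 / P 1) := Algebra.IsIntegral.isIntegral _
  have := IntermediateField.adjoin.finiteDimensional hx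
  exact Module.finrank_pos

/-- A root of a nonzero polynomial of degree at most `d` over `K(x)` has degree at most
`d [K(x) : K]`. -/
theorem finrank_root (x b : N) (d : ℕ)
    (h : Polynomial (IntermediateField.adjoin K ({x} : Set N))) (h0 : h ≠ 0)
    (hd : h.natDegree ≤ d) (hb : Polynomial.aeval b h = 0) :
    Module.finrank K (IntermediateField.adjoin K ({b} : Set N)) ≤
      d * Module.finrank K (IntermediateField.adjoin K ({x} : Set N)) := by
  set L := IntermediateField.adjoin K ({x} : Set N) with hL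
  have hx : IsIntegral K x := Algebra.IsIntegral.isIntegral _
  have : FiniteDimensional K L := IntermediateField.adjoin.finiteDimensional hx
  have hbL : IsIntegral L b := by
    have : IsIntegral K b := Algebra.IsIntegral.isIntegral _
    exact this.tower_top
  have : FiniteDimensional L (IntermediateField.adjoin L ({b} : Set N)) :=
    IntermediateField.adjoin.finiteDimensional hbL
  have h1 : Module.finrank L (IntermediateField.adjoin L ({b} : Set N)) ≤ d := by
    rw [IntermediateField.adjoin.finrank hbL]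
    refine le_trans ?_ hd
    exact Polynomial.natDegree_le_natDegree (minpoly.degree_le_of_ne_zero L b h0 hb)
  have : FiniteDimensional K (IntermediateField.adjoin L ({b} : Set N)) :=
    Module.Finite.trans L _
  have : FiniteDimensional K
      ((IntermediateField.adjoin L ({b} : Set N)).restrictScalars K) :=
    inferInstanceAs (FiniteDimensional K (IntermediateField.adjoin L ({b} : Set N)))
  have h2 : IntermediateField.adjoin K ({b} : Set N) ≤
      (IntermediateField.adjoin L ({b} : Set N)).restrictScalars K := by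
    rw [IntermediateField.adjoin_le_iff, Set.singleton_subset_iff]
    exact IntermediateField.subset_adjoin L ({b} : Set N) rfl
  have h3 := IntermediateField.finrank_le_of_le_right h2
  have h4 : Module.finrank K ((IntermediateField.adjoin L ({b} : Set N)).restrictScalars K) =
      Module.finrank K (IntermediateField.adjoin L ({b} : Set N)) := rfl
  have h5 := Module.finrank_mul_finrank K L (IntermediateField.adjoin L ({b} : Set N))
  calc Module.finrank K (IntermediateField.adjoin K ({b} : Set N))
      ≤ Module.finrank K (IntermediateField.adjoin L ({b} : Set N)) := h3.trans h4.le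
    _ = Module.finrank K L * Module.finrank L (IntermediateField.adjoin L ({b} : Set N)) :=
        h5.symm
    _ ≤ Module.finrank K L * d := Nat.mul_le_mul_left _ h1
    _ = d * Module.finrank K L := mul_comm _ _

end field

/-- Every nonzero vector is proportional to a vector with coordinates in `K(P 0 / P 1)`. -/
theorem norm_vec {K : Type} [Field K] {N : Type} [Field N] [Algebra K N] (P : Fin 2 → N)
    (hP : P ≠ 0) :
    ∃ (c : N) (Q : Fin 2 → IntermediateField.adjoin K ({P 0 / P 1} : Set N)), c ≠ 0 ∧ Q ≠ 0 ∧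
      P = c • fun i => algebraMap _ N (Q i) := by
  by_cases h1 : P 1 = 0
  · refine ⟨P 0, ![1, 0], ?_, ?_, ?_⟩
    · intro h0
      apply hP
      funext i
      fin_cases i
      · exact h0
      · exact h1
    · intro h
      have := congrFun h 0
      simp at this
    · funext i
      fin_cases i
      · simp
      · simp [h1]
  · refine ⟨P 1, ![⟨P 0 / P 1, IntermediateField.subset_adjoin K _ rfl⟩, 1], h1, ?_, ?_⟩
    · intro h
      have := congrFun h 1
      simp at this
    · funext i
      fin_cases i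
      · have : algebraMap (IntermediateField.adjoin K ({P 0 / P 1} : Set N)) N
            ⟨P 0 / P 1, IntermediateField.subset_adjoin K _ rfl⟩ = P 0 / P 1 := rfl
        simp only [Fin.zero_eta, Pi.smul_apply, smul_eq_mul, Matrix.cons_val_zero]
        rw [this, mul_div_cancel₀ _ h1]
      · simp

theorem dg_one {K : Type} [Field K] {N : Type} [Field N] [Algebra K N] (P : Fin 2 → N)
    (h1 : P 1 = 0) : dg K P = 1 := by
  unfold dg
  rw [h1, div_zero, IntermediateField.adjoin_zero, IntermediateField.finrank_bot]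

/-! ### First part -/

theorem ev_smul {K : Type} [Field K] {N : Type} [Field N] [Algebra K N] {d₁ d₂ : ℕ}
    {G : MvPolynomial (Fin 2 ⊕ Fin 2) K} (hG : BiHom d₁ d₂ G) (c c' : N) (P P' : Fin 2 → N) :
    ev (c • P) (c' • P') G = c ^ d₁ * c' ^ d₂ * ev P P' G := by
  unfold ev
  rw [aeval_def, aeval_def, eval₂_eq', eval₂_eq', Finset.mul_sum]
  refine Finset.sum_congr rfl fun t ht => ?_
  obtain ⟨h1, h2⟩ := hG t ht
  rw [Fintype.prod_sum_type, Fintype.prod_sum_type, Fin.prod_univ_two, Fin.prod_univ_two,
    Fin.prod_univ_two, Fin.prod_univ_two]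
  simp only [Sum.elim_inl, Sum.elim_inr, Pi.smul_apply, smul_eq_mul, mul_pow]
  rw [← h1, ← h2, pow_add, pow_add]
  ring

/-- The polynomial `G(Q, (T, 1))`. -/
noncomputable def pol {K : Type} [Field K] {L : Type} [Field L] [Algebra K L] (Q : Fin 2 → L)
    (G : MvPolynomial (Fin 2 ⊕ Fin 2) K) : Polynomial L :=
  aeval (Sum.elim (fun i => Polynomial.C (Q i)) ![Polynomial.X, 1]) G

theorem natDegree_pol {K : Type} [Field K] {L : Type} [Field L] [Algebra K L] (Q : Fin 2 → L)
    {d₁ d₂ : ℕ} {G : MvPolynomial (Fin 2 ⊕ Fin 2) K} (hG : BiHom d₁ d₂ G) :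
    (pol Q G).natDegree ≤ d₂ := by
  unfold pol
  rw [aeval_def, eval₂_eq']
  refine Polynomial.natDegree_sum_le_of_forall_le _ _ fun t ht => ?_
  obtain ⟨-, h2⟩ := hG t ht
  rw [Fintype.prod_sum_type, Fin.prod_univ_two, Fin.prod_univ_two]
  simp only [Sum.elim_inl, Sum.elim_inr, Matrix.cons_val_zero, Matrix.cons_val_one, one_pow,
    mul_one, ← Polynomial.C_pow, ← Polynomial.C_mul]
  rw [IsScalarTower.algebraMap_apply K L (Polynomial L), Polynomial.algebraMap_eq, ← mul_assoc,
    ← Polynomial.C_mul]
  refine (Polynomial.natDegree_C_mul_X_pow_le _ _).trans ?_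
  omega

theorem aeval_pol {K : Type} [Field K] {N : Type} [Field N] [Algebra K N] {L : Type} [Field L]
    [Algebra K L] [Algebra L N] [IsScalarTower K L N] (Q : Fin 2 → L) (T : N)
    (G : MvPolynomial (Fin 2 ⊕ Fin 2) K) :
    Polynomial.aeval T (pol Q G) = ev (fun i => algebraMap L N (Q i)) ![T, 1] G := by
  unfold pol ev
  have h := comp_aeval_apply ((Polynomial.aeval T : Polynomial L →ₐ[L] N).restrictScalars K)
    (f := Sum.elim (fun i => Polynomial.C (Q i)) ![Polynomial.X, 1]) G
  rw [AlgHom.restrictScalars_apply] at h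
  rw [h]
  congr 2
  funext i
  rcases i with i | i
  · simp
  · fin_cases i
    · simp
    · simp

/-! ### Second part -/

/-- The polynomial `H(T, 1)`. -/
noncomputable def pol1 {K : Type} [Field K] (L : Type) [Field L] [Algebra K L]
    (H : MvPolynomial (Fin 2) K) : Polynomial L := aeval ![Polynomial.X, 1] H

theorem natDegree_pol1 {K : Type} [Field K] (L : Type) [Field L] [Algebra K L] {d : ℕ}
    {H : MvPolynomial (Fin 2) K} (hH : H.IsHomogeneous d) : (pol1 L H).natDegree ≤ d := by
  unfold pol1
  rw [aeval_def, eval₂_eq']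
  refine Polynomial.natDegree_sum_le_of_forall_le _ _ fun t ht => ?_
  have h1 : t.degree = d := by
    have h := hH (mem_support_iff.1 ht)
    rw [Finsupp.degree_eq_weight_one]
    exact h
  have h2 : t 0 ≤ d := h1 ▸ Finsupp.le_degree 0 t
  rw [Fin.prod_univ_two]
  simp only [Matrix.cons_val_zero, Matrix.cons_val_one, one_pow, mul_one]
  rw [IsScalarTower.algebraMap_apply K L (Polynomial L), Polynomial.algebraMap_eq]
  refine (Polynomial.natDegree_C_mul_X_pow_le _ _).trans ?_
  omega

theorem aeval_pol1 {K : Type} [Field K] {N : Type} [Field N] [Algebra K N] (L : Type) [Field L]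
    [Algebra K L] [Algebra L N] [IsScalarTower K L N] (T : N) (H : MvPolynomial (Fin 2) K) :
    Polynomial.aeval T (pol1 L H) = aeval ![T, 1] H := by
  unfold pol1
  have h := comp_aeval_apply ((Polynomial.aeval T : Polynomial L →ₐ[L] N).restrictScalars K)
    (f := ![Polynomial.X, 1]) H
  rw [AlgHom.restrictScalars_apply] at h
  rw [h]
  congr 2
  funext i
  fin_cases i
  · simp
  · simp

theorem infinite_bar (K : Type) [Field K] : Infinite (AlgebraicClosure K) :=
  IsAlgClosed.instInfinite

/-- A finite set of points does not contain all the points `(T : 1)`. -/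
theorem exists_not_mem {N : Type} [Field N] [Infinite N] (Z : Finset (Option N)) :
    ∃ T : N, pr ![T, 1] ∉ Z := by
  by_contra hcon
  push Not at hcon
  have h1 : ∀ T : N, some T ∈ Z := by
    intro T
    have h := hcon T
    have h2 : pr ![T, (1 : N)] = some T := by
      simp [pr]
    rwa [h2] at h
  have h2 : (Set.univ : Set N).Finite := by
    refine (Z.finite_toSet.preimage (Option.some_injective N).injOn).subset ?_
    intro T _
    exact h1 T
  exact Set.infinite_univ h2

theorem part_one (fib : FibStatement) (K : Type) [Field K] [NumberField K] (d₁ d₂ : ℕ)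
    (G : MvPolynomial (Fin 2 ⊕ Fin 2) K) (hG : BiHom d₁ d₂ G) (irr : Irreducible G)
    (hd₁ : 1 ≤ d₁) (hd₂ : 1 ≤ d₂) (P P' : Fin 2 → AlgebraicClosure K) (hP : P ≠ 0)
    (h : ev P P' G = 0) : dg K P' ≤ d₂ * dg K P := by
  have := infinite_bar K
  have hpos := dg_pos (K := K) P
  by_cases h1 : P' 1 = 0
  · rw [dg_one P' h1]
    exact Nat.mul_pos hd₂ hpos
  obtain ⟨c, Q, hc, hQ, hPQ⟩ := norm_vec (K := K) P hP
  obtain ⟨Z, -, hZ⟩ := (fib K d₁ d₂ G hG irr hd₁ hd₂ (AlgebraicClosure K) P hP).1
  refine finrank_root (K := K) (P 0 / P 1) (P' 0 / P' 1) d₂ (pol Q G) ?_ (natDegree_pol Q hG) ?_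
  · intro h0
    obtain ⟨T, hT⟩ := exists_not_mem Z
    refine hT (hZ _ ?_ ?_)
    · intro h2
      have := congrFun h2 1
      simp at this
    · have h2 := aeval_pol (N := AlgebraicClosure K) Q T G
      rw [h0, map_zero] at h2
      have h3 := ev_smul hG c 1 (fun i => algebraMap _ (AlgebraicClosure K) (Q i)) ![T, 1]
      rw [← hPQ, one_smul, ← h2, mul_zero] at h3
      exact h3
  · rw [aeval_pol]
    have h2 : P' = P' 1 • ![P' 0 / P' 1, 1] := by
      funext i
      fin_cases i
      · simp only [Fin.zero_eta, Pi.smul_apply, smul_eq_mul, Matrix.cons_val_zero]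
        rw [mul_div_cancel₀ _ h1]
      · simp
    have h3 := ev_smul hG c (P' 1) (fun i => algebraMap _ (AlgebraicClosure K) (Q i))
      ![P' 0 / P' 1, 1]
    rw [← hPQ, ← h2, h] at h3
    rcases mul_eq_zero.1 h3.symm with h4 | h4
    · exact absurd h4 (mul_ne_zero (pow_ne_zero _ hc) (pow_ne_zero _ h1))
    · exact h4

theorem step_aux (pre : PreStatement) (K : Type) [Field K] [NumberField K] (q : ℕ)
    (F : Fin 2 → MvPolynomial (Fin 2) K) (hq : 1 ≤ q) (hF : Mor q F)
    (P V : Fin 2 → AlgebraicClosure K) (hV : V = gAct F (AlgebraicClosure K) P) (hV0 : V ≠ 0)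
    (h1 : P 1 ≠ 0) (L : IntermediateField K (AlgebraicClosure K)) (c : AlgebraicClosure K)
    (Q : Fin 2 → L) (hc : c ≠ 0) (hQ : Q ≠ 0)
    (hVQ : V = c • fun i => algebraMap L (AlgebraicClosure K) (Q i)) :
    ∃ h : Polynomial L, h ≠ 0 ∧ h.natDegree ≤ q ∧ Polynomial.aeval (P 0 / P 1) h = 0 := by
  have := infinite_bar K
  obtain ⟨Z, -, hZ⟩ := pre K (AlgebraicClosure K) q F hq hF V hV0 1
  have hev : ∀ T : AlgebraicClosure K, Polynomial.aeval T (Polynomial.C (Q 1) * pol1 L (F 0) -
      Polynomial.C (Q 0) * pol1 L (F 1)) =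
      algebraMap L (AlgebraicClosure K) (Q 1) * gAct F (AlgebraicClosure K) ![T, 1] 0 -
      algebraMap L (AlgebraicClosure K) (Q 0) * gAct F (AlgebraicClosure K) ![T, 1] 1 := by
    intro T
    rw [map_sub, map_mul, map_mul, Polynomial.aeval_C, Polynomial.aeval_C, aeval_pol1, aeval_pol1]
    rfl
  refine ⟨Polynomial.C (Q 1) * pol1 L (F 0) - Polynomial.C (Q 0) * pol1 L (F 1), ?_, ?_, ?_⟩
  · intro h0
    obtain ⟨T, hT⟩ := exists_not_mem Z
    have hne : (![T, 1] : Fin 2 → AlgebraicClosure K) ≠ 0 := by
      intro h2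
      have := congrFun h2 1
      simp at this
    refine hT (hZ _ hne ?_)
    rw [Function.iterate_one]
    have h2 := hev T
    rw [h0, map_zero] at h2
    have hW := hF.ne (AlgebraicClosure K) ![T, 1] hne
    generalize gAct F (AlgebraicClosure K) ![T, 1] = W at h2 hW
    have hinj : ∀ x : L, algebraMap L (AlgebraicClosure K) x = 0 → x = 0 := fun x hx =>
      (map_eq_zero _).1 hx
    have h5 : algebraMap L (AlgebraicClosure K) (Q 1) * W 0 =
        algebraMap L (AlgebraicClosure K) (Q 0) * W 1 := (sub_eq_zero.1 h2.symm)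
    have h6 : ∃ e : AlgebraicClosure K,
        W = e • fun i => algebraMap L (AlgebraicClosure K) (Q i) := by
      by_cases hq0 : Q 0 = 0
      · have hq1 : Q 1 ≠ 0 := by
          intro h
          apply hQ
          funext i
          fin_cases i
          · exact hq0
          · exact h
        have hq1' : algebraMap L (AlgebraicClosure K) (Q 1) ≠ 0 := fun h => hq1 (hinj _ h)
        refine ⟨W 1 / algebraMap L (AlgebraicClosure K) (Q 1), ?_⟩
        funext i
        fin_cases i
        · simp only [Fin.zero_eta, Pi.smul_apply, smul_eq_mul]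
          rw [hq0, map_zero, mul_zero]
          rw [hq0, map_zero, zero_mul] at h5
          exact (mul_eq_zero.1 h5).resolve_left hq1'
        · simp only [Fin.mk_one, Pi.smul_apply, smul_eq_mul]
          rw [div_mul_cancel₀ _ hq1']
      · have hq0' : algebraMap L (AlgebraicClosure K) (Q 0) ≠ 0 := fun h => hq0 (hinj _ h)
        refine ⟨W 0 / algebraMap L (AlgebraicClosure K) (Q 0), ?_⟩
        funext i
        fin_cases i
        · simp only [Fin.zero_eta, Pi.smul_apply, smul_eq_mul]
          rw [div_mul_cancel₀ _ hq0']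
        · simp only [Fin.mk_one, Pi.smul_apply, smul_eq_mul]
          rw [div_mul_eq_mul_div, eq_div_iff hq0', mul_comm (W 0), h5]
          ring
    obtain ⟨e, he⟩ := h6
    have he0 : e ≠ 0 := by
      rintro rfl
      exact hW (by rw [he, zero_smul])
    refine ⟨e / c, div_ne_zero he0 hc, ?_⟩
    rw [he, hVQ, smul_smul, div_mul_cancel₀ _ hc]
  · refine (Polynomial.natDegree_sub_le _ _).trans (max_le ?_ ?_)
    · exact (Polynomial.natDegree_C_mul_le _ _).trans (natDegree_pol1 L (hF.hom 0))
    · exact (Polynomial.natDegree_C_mul_le _ _).trans (natDegree_pol1 L (hF.hom 1))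
  · rw [hev]
    have h2 : P = P 1 • ![P 0 / P 1, 1] := by
      funext i
      fin_cases i
      · simp only [Fin.zero_eta, Pi.smul_apply, smul_eq_mul, Matrix.cons_val_zero]
        rw [mul_div_cancel₀ _ h1]
      · simp
    have h3 : V = P 1 ^ q • gAct F (AlgebraicClosure K) ![P 0 / P 1, 1] := by
      rw [hV]
      conv_lhs => rw [h2]
      exact gAct_smul F hF.hom _ _
    have h4 : P 1 ^ q ≠ 0 := pow_ne_zero _ h1
    have h5 : ∀ i, gAct F (AlgebraicClosure K) ![P 0 / P 1, 1] i =
        (c / P 1 ^ q) * algebraMap L (AlgebraicClosure K) (Q i) := by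
      intro i
      have h6 : V i = P 1 ^ q * gAct F (AlgebraicClosure K) ![P 0 / P 1, 1] i := congrFun h3 i
      have h7 : V i = c * algebraMap L (AlgebraicClosure K) (Q i) := congrFun hVQ i
      rw [h7] at h6
      rw [div_mul_eq_mul_div, eq_div_iff h4, mul_comm, ← h6]
    rw [h5, h5]
    ring

theorem step (pre : PreStatement) (K : Type) [Field K] [NumberField K] (q : ℕ)
    (F : Fin 2 → MvPolynomial (Fin 2) K) (hq : 1 ≤ q) (hF : Mor q F)
    (P : Fin 2 → AlgebraicClosure K) (hP : P ≠ 0) :
    dg K P ≤ q * dg K (gAct F (AlgebraicClosure K) P) := by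
  have hpos := dg_pos (K := K) (gAct F (AlgebraicClosure K) P)
  by_cases h1 : P 1 = 0
  · rw [dg_one P h1]
    exact Nat.mul_pos hq hpos
  have hV0 := hF.ne _ P hP
  obtain ⟨c, Q, hc, hQ, hVQ⟩ := norm_vec (K := K) _ hV0
  obtain ⟨h, h2, h3, h4⟩ := step_aux pre K q F hq hF P _ rfl hV0 h1 _ c Q hc hQ hVQ
  exact finrank_root (K := K) _ _ q h h2 h3 h4

theorem dg_prl {K : Type} [Field K] {N : Type} [Field N] [Algebra K N] {P U : Fin 2 → N}
    (h : Prl P U) : dg K P = dg K U := by
  obtain ⟨c, hc, rfl⟩ := h
  unfold dg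
  have : (c • U) 0 / (c • U) 1 = U 0 / U 1 := by
    rw [Pi.smul_apply, Pi.smul_apply, smul_eq_mul, smul_eq_mul, mul_div_mul_left _ _ hc]
  rw [this]

end DEG

/-- Row DEG. -/
theorem deg (fib : FibStatement) (pre : PreStatement) : DegStatement := by
  intro K _ _
  refine ⟨fun d₁ d₂ G hG irr hd₁ hd₂ P P' hP _ h =>
    DEG.part_one fib K d₁ d₂ G hG irr hd₁ hd₂ P P' hP h, ?_⟩
  intro q F hq hF P U m hP hU h
  induction m generalizing P with
  | zero =>
    rw [pow_zero, one_mul]
    exact (DEG.dg_prl h).le
  | succ m ih =>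
    rw [Function.iterate_succ_apply] at h
    have h1 := ih (gAct F (AlgebraicClosure K) P) (hF.ne _ P hP) h
    have h2 := DEG.step pre K q F hq hF P hP
    calc dg K P ≤ q * dg K (gAct F (AlgebraicClosure K) P) := h2
      _ ≤ q * (q ^ m * dg K U) := Nat.mul_le_mul_left _ h1
      _ = q ^ (m + 1) * dg K U := by ring

end Pool.DynLehmer.GS
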