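import Pool.Agent.Lib.MP_2194ec_nt.GAL.R.ECnt

set_option autoImplicit false
set_option linter.unusedSectionVars false

/-!
# The end of the proof for rational maps
-/

namespace Pool.DynLehmer.GS.E
open MvPolynomial NumberField Filter Topology Pool.DynLehmer Pool.DynLehmer.SB Pool.DynLehmer.SP
  Pool.DynLehmer.GAL Pool.DynLehmer.GAL.H98 Pool.DynLehmer.GAL.H28 Pool.DynLehmer.SP.CasebAux
open scoped Classical

/-- a critical point which is not strictly preperiodic -/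
def CritN {K : Type} [Field K] (F : Fin 2 → MvPolynomial (Fin 2) K) : Prop :=
  ∃ U : Fin 2 → AlgebraicClosure K, U ≠ 0 ∧ aeval U (Jac F) = 0 ∧ ∀ m k : ℕ, 0 < k →
    Prl ((gAct F (AlgebraicClosure K))^[m + k] U) ((gAct F (AlgebraicClosure K))^[m] U) →
    ∃ k' : ℕ, 0 < k' ∧ Prl ((gAct F (AlgebraicClosure K))^[k'] U) U

/-- Row BIF, conclusion. -/
def BifS : Prop :=
  ∀ (K : Type) [Field K] (q : ℕ) (F : Fin 2 → MvPolynomial (Fin 2) K), 1 ≤ q → Mor q F →
    ∀ Fz : Fin 2 × Fin 2 → MvPolynomial (Fin 2 × Fin 2) K, (∀ i, (Fz i).IsHomogeneous q) →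
    ExtS F Fz →
    ∀ (N : Type) [Field N] [Algebra K N] (P P' : Fin 2 → N) (c : ℕ), P ≠ 0 → P' ≠ 0 →
      WandP F P → WandP F P' → OnPer Fz (seg P P') c →
      ∃ G : MvPolynomial (Fin 2 ⊕ Fin 2) K, PerForm F c G ∧ ev P P' G = 0

/-- The end of the proof for sets of conjugates in a Galois extension. -/
theorem e_set (hA : AStatement) (hMor : MorStatement) (hSeg : SegStatement)
    (hSegH : SegHStatement) (hPre : PreStatement) (hFib : FibStatement) (hBif : BifS)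
    (K : Type) [Field K] [NumberField K] (p s : ℕ) (v : FinitePlace K)
    (F : Fin 2 → MvPolynomial (Fin 2) K) (hyp : HypR p s v F) (hcount : CountR F)
    (ε : ℝ) (hε : 0 < ε) :
    ∃ c : ℝ, 0 < c ∧ ∀ (N : Type) [Field N] [NumberField N] [Algebra K N] [IsGalois K N] (a : N),
      WandP F ![a, 1] → ∀ (t : ℕ) (S : Finset N), S.Nonempty →
      (∀ b ∈ S, (∃ σ : N ≃ₐ[K] N, σ a = b) ∧
        Module.finrank K (IntermediateField.adjoin K {a, b}) ≤
          t * Module.finrank K (IntermediateField.adjoin K {a})) →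
      ∃ h : ℝ, Tendsto (fun n : ℕ => Height.logHeight ((gAct F N)^[n] ![a, 1]) /
        (Module.finrank ℚ N : ℝ) / ((p ^ s : ℕ) : ℝ) ^ n) atTop (𝓝 h) ∧
        c / ((t : ℝ) * (Module.finrank K (IntermediateField.adjoin K {a}) : ℝ) *
          ((t : ℝ) * (Module.finrank K (IntermediateField.adjoin K {a}) : ℝ) /
            (S.card : ℝ)) ^ ε) ≤ h := by
  have hp2 : 2 ≤ p := hyp.prime.two_le
  have hq2 : 2 ≤ p ^ s := by
    calc 2 ≤ p := hp2
      _ = p ^ 1 := (pow_one p).symm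
      _ ≤ p ^ s := Nat.pow_le_pow_right (by omega) hyp.pos
  have hq1 : 1 ≤ p ^ s := by omega
  have hmor : Mor (p ^ s) F := hMor K p s v F hyp
  obtain ⟨CB, nB, hB'⟩ := hcount
  obtain ⟨Fz, hF1, hF2, hF3, hF4, hF5⟩ := hSeg K p s v F hyp
  set η : ℝ := min (ε / 4) (1 / (4 * ((nB : ℝ) + 1))) with hη
  have hn0 : (0 : ℝ) < 4 * ((nB : ℝ) + 1) := by positivity
  have hη0 : 0 < η := lt_min (by linarith) (by positivity)
  have hηε : 4 * η ≤ ε := by
    have := min_le_left (ε / 4) (1 / (4 * ((nB : ℝ) + 1)))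
    linarith
  have hηn : η * (4 * ((nB : ℝ) + 1)) ≤ 1 := by
    have h1 := min_le_right (ε / 4) (1 / (4 * ((nB : ℝ) + 1)))
    rw [← hη, le_div_iff₀ hn0] at h1
    exact h1
  have hη4 : η ≤ 1 / 4 := by
    have h1 : (0 : ℝ) ≤ nB := Nat.cast_nonneg nB
    nlinarith
  obtain ⟨c, hc, hA'⟩ := hA K p s (Fin 2 × Fin 2) v (by simp) hyp.prime hyp.pos hyp.above Fz
    hF1 hF2 hF3 hF4 η hη0 (by linarith)
  obtain ⟨c₂, _, hA₂⟩ := hA K p s (Fin 2) v (by simp) hyp.prime hyp.pos hyp.above F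
    hyp.hom hyp.int hyp.red hyp.det η hη0 (by linarith)
  set C₄ : ℝ := CB * 2 ^ (nB + 2) with hC₄
  have hC₄0 : 0 ≤ C₄ := by positivity
  set A₀ : ℝ := (4 * C₄ + 1) ^ 4 with hA₀
  have hA₀1 : 1 ≤ A₀ := one_le_pow₀ (by linarith)
  have hA₀0 : 0 < A₀ := by linarith
  refine ⟨c / 2 * A₀ ^ (-η), by positivity, ?_⟩
  intro N _ _ _ _ a ha t S hSne hS
  have hfd : FiniteDimensional K N := inferInstance
  -- the numbers
  set g : ℝ := (Fintype.card (N ≃ₐ[K] N) : ℝ) with hg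
  have hg0 : 0 < g := by
    rw [hg]
    exact_mod_cast Fintype.card_pos
  set D : ℝ := (Module.finrank K (IntermediateField.adjoin K {a}) : ℝ) with hD
  have hDc : ((conj K a).card : ℝ) = D := by rw [card_conj_eq]
  have hD1 : 1 ≤ D := by
    rw [← hDc]
    exact_mod_cast card_conj_pos a
  have hD0 : 0 < D := by linarith
  set R : ℝ := (S.card : ℝ) with hR
  have hR1 : 1 ≤ R := by
    rw [hR]
    exact_mod_cast Finset.card_pos.2 hSne
  have hR0 : 0 < R := by linarith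
  have hRD : R ≤ D := by
    rw [← hDc, hR]
    have h1 : S ⊆ conj K a := by
      intro b hb
      obtain ⟨σ, hσ⟩ := (hS b hb).1
      exact Finset.mem_image.2 ⟨σ, Finset.mem_univ _, hσ⟩
    exact_mod_cast Finset.card_le_card h1
  have ht1 : (1 : ℝ) ≤ t := by
    obtain ⟨b, hb⟩ := hSne
    have h1 := (hS b hb).2
    have h2 : 0 < Module.finrank K (IntermediateField.adjoin K {a, b}) := Module.finrank_pos
    have h3 : 1 ≤ t := by
      rcases Nat.eq_zero_or_pos t with h0 | h0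
      · rw [h0, zero_mul] at h1
        omega
      · exact h0
    exact_mod_cast h3
  have ht0 : (0 : ℝ) < t := by linarith
  set ρ : ℝ := D / R with hρ
  have hρ1 : 1 ≤ ρ := by
    rw [hρ, le_div_iff₀ hR0]
    linarith
  have hρ0 : 0 < ρ := by linarith
  set Y : ℝ := A₀ * ((t : ℝ) ^ 2 * ρ ^ 4) with hY
  have hY0' : 1 ≤ (t : ℝ) ^ 2 * ρ ^ 4 :=
    one_le_mul_of_one_le_of_one_le (one_le_pow₀ ht1) (one_le_pow₀ hρ1)
  have hY1 : 1 ≤ Y := one_le_mul_of_one_le_of_one_le hA₀1 hY0'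
  -- the points
  set P : Fin 2 → N := ![a, 1] with hP
  have hP0 : P ≠ 0 := by
    intro h0
    have h1 : (1 : N) = 0 := congrFun h0 1
    exact one_ne_zero h1
  have hPσ : ∀ σ : N ≃ₐ[K] N, gal σ P = ![σ a, 1] := by
    intro σ
    funext i
    fin_cases i
    · rfl
    · exact map_one σ
  have hpt0 : ∀ σ : N ≃ₐ[K] N, seg P (gal σ P) ≠ 0 := fun σ => seg_ne hP0 (gal_ne σ hP0)
  have hwand : ∀ σ : N ≃ₐ[K] N, ¬ ∃ m n : ℕ, m ≠ n ∧ ∃ c : N, c ≠ 0 ∧
      (gAct Fz N)^[n] (seg P (gal σ P)) = c • (gAct Fz N)^[m] (seg P (gal σ P)) := by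
    rintro σ ⟨m, n, hmn, c, hc0, h⟩
    rw [gAct_seg hF5, gAct_seg hF5] at h
    obtain ⟨d, hd, h1⟩ := (prl_of_seg (gAct_iter_ne' hmor n hP0)
      (gAct_iter_ne' hmor n (gal_ne σ hP0)) (gAct_iter_ne' hmor m hP0)
      (gAct_iter_ne' hmor m (gal_ne σ hP0)) ⟨c, hc0, h⟩).1
    exact ha ⟨m, n, hmn, d, hd, h1⟩
  -- the canonical height
  obtain ⟨hf, hlim', _⟩ := hA₂ Y hY1 N P hP0 ha
  refine ⟨hf, hlim', ?_⟩
  have hheight : ∀ (σ : N ≃ₐ[K] N) (h : ℝ), Tendsto (fun n : ℕ =>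
      Height.logHeight ((gAct Fz N)^[n] (seg P (gal σ P))) /
      (Module.finrank ℚ N : ℝ) / ((p ^ s : ℕ) : ℝ) ^ n) atTop (𝓝 h) → h ≤ 2 * hf := by
    intro σ h hh
    refine le_of_tendsto_of_tendsto' hh (hlim'.const_mul 2) fun n => ?_
    rw [gAct_seg hF5]
    have h1 := hSegH N ((gAct F N)^[n] P) ((gAct F N)^[n] (gal σ P))
    have h4 : Height.logHeight ((gAct F N)^[n] (gal σ P)) =
        Height.logHeight ((gAct F N)^[n] P) := by
      rw [gAct_iter_gal]
      exact logHeight_ringEquiv (σ : N ≃+* N) _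
    rw [h4] at h1
    have h2 : (0 : ℝ) ≤ (Module.finrank ℚ N : ℝ) := Nat.cast_nonneg _
    have h3 : (0 : ℝ) ≤ ((p ^ s : ℕ) : ℝ) ^ n := by positivity
    rw [mul_div_assoc', mul_div_assoc']
    refine div_le_div_of_nonneg_right (div_le_div_of_nonneg_right ?_ h2) h3
    linarith
  have hidx : ∀ σ : N ≃ₐ[K] N, σ a ∈ S →
      (idx (⊤ : Subgroup (N ≃ₐ[K] N)) (seg P (gal σ P)) : ℝ) ≤ t * D := by
    intro σ hσ
    rw [hPσ, hP, idx_seg_eq, hD]
    exact_mod_cast (hS _ hσ).2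
  -- one of the points satisfies the bound
  by_contra hlt
  push Not at hlt
  have hno : ∀ (σ : {σ : N ≃ₐ[K] N // σ a ∈ S}), ∃ (n e : ℕ) (X : ℝ), 1 ≤ X ∧ Y ≤ X ∧
      (e : ℝ) ≤ X ^ η ∧
      ((p ^ s : ℕ) : ℝ) ^ n * X ^ (1 - η) ≤ idx (⊤ : Subgroup (N ≃ₐ[K] N)) (seg P (gal σ.1 P)) ∧
      X ^ (1 - η) ≤ idx (⊤ : Subgroup (N ≃ₐ[K] N)) ((gAct Fz N)^[n] (seg P (gal σ.1 P))) ∧
      OnPer Fz ((gAct Fz N)^[n] (seg P (gal σ.1 P))) e := by
    rintro ⟨σ, hσS⟩
    obtain ⟨h, hh, h1⟩ := hA' Y hY1 N (seg P (gal σ P)) (hpt0 σ) (hwand σ)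
    rcases h1 with h1 | h1
    · exfalso
      have h2 := hheight σ h hh
      have hYη : 0 < Y ^ (-η) := Real.rpow_pos_of_pos (by linarith) _
      have hhpos : 0 < h := by
        by_contra hneg
        push Not at hneg
        have h4 : (idx (⊤ : Subgroup (N ≃ₐ[K] N)) (seg P (gal σ P)) : ℝ) * h ≤ 0 :=
          mul_nonpos_of_nonneg_of_nonpos (Nat.cast_nonneg _) hneg
        have h5 : 0 < c * Y ^ (-η) := mul_pos hc hYη
        linarith
      have h3 : c * Y ^ (-η) ≤ (t * D) * (2 * hf) := by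
        calc c * Y ^ (-η) ≤ (idx (⊤ : Subgroup (N ≃ₐ[K] N)) (seg P (gal σ P)) : ℝ) * h := h1
          _ ≤ (t * D) * h := mul_le_mul_of_nonneg_right (hidx σ hσS) hhpos.le
          _ ≤ (t * D) * (2 * hf) := mul_le_mul_of_nonneg_left h2 (by positivity)
      have hm0 : 0 < (t : ℝ) * D / R := by positivity
      have h4 : A₀ ^ (-η) * ((t : ℝ) * D / R) ^ (-ε) ≤ Y ^ (-η) := by
        rw [hY, Real.mul_rpow hA₀0.le (by positivity)]
        refine mul_le_mul_of_nonneg_left ?_ (Real.rpow_nonneg hA₀0.le _)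
        have e1 : (t : ℝ) * D / R = t * ρ := by rw [hρ, mul_div_assoc]
        have e2 : (t : ℝ) ^ 2 * ρ ^ 4 ≤ (t * ρ) ^ 4 := by
          have h5 : (t : ℝ) ^ 2 ≤ (t : ℝ) ^ 4 := pow_le_pow_right₀ ht1 (by norm_num)
          calc (t : ℝ) ^ 2 * ρ ^ 4 ≤ (t : ℝ) ^ 4 * ρ ^ 4 :=
                mul_le_mul_of_nonneg_right h5 (by positivity)
            _ = (t * ρ) ^ 4 := by ring
        have e3 : 1 ≤ t * ρ := one_le_mul_of_one_le_of_one_le ht1 hρ1
        rw [e1]
        calc ((t : ℝ) * ρ) ^ (-ε) ≤ (t * ρ) ^ (4 * -η) :=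
              Real.rpow_le_rpow_of_exponent_le e3 (by linarith)
          _ = ((t * ρ) ^ 4) ^ (-η) := by
              rw [Real.rpow_mul (by positivity)]
              congr 1
              exact_mod_cast Real.rpow_natCast ((t : ℝ) * ρ) 4
          _ ≤ ((t : ℝ) ^ 2 * ρ ^ 4) ^ (-η) :=
              Real.rpow_le_rpow_of_nonpos (by positivity) e2 (by linarith)
      have h5 : c / 2 * A₀ ^ (-η) ≤ hf * ((t * D) * ((t : ℝ) * D / R) ^ ε) := by
        have h6 : ((t : ℝ) * D / R) ^ (-ε) * ((t : ℝ) * D / R) ^ ε = 1 := by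
          rw [← Real.rpow_add hm0, neg_add_cancel, Real.rpow_zero]
        have hme : 0 < ((t : ℝ) * D / R) ^ ε := Real.rpow_pos_of_pos hm0 _
        have h7 : c * (A₀ ^ (-η) * ((t : ℝ) * D / R) ^ (-ε)) ≤ (t * D) * (2 * hf) :=
          (mul_le_mul_of_nonneg_left h4 hc.le).trans h3
        have h8 : c * (A₀ ^ (-η) * ((t : ℝ) * D / R) ^ (-ε)) * ((t : ℝ) * D / R) ^ ε ≤
            (t * D) * (2 * hf) * ((t : ℝ) * D / R) ^ ε :=
          mul_le_mul_of_nonneg_right h7 hme.le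
        have h9 : c * (A₀ ^ (-η) * ((t : ℝ) * D / R) ^ (-ε)) * ((t : ℝ) * D / R) ^ ε =
            c * A₀ ^ (-η) := by
          calc c * (A₀ ^ (-η) * ((t : ℝ) * D / R) ^ (-ε)) * ((t : ℝ) * D / R) ^ ε
              = c * A₀ ^ (-η) * (((t : ℝ) * D / R) ^ (-ε) * ((t : ℝ) * D / R) ^ ε) := by ring
            _ = c * A₀ ^ (-η) := by rw [h6, mul_one]
        rw [h9] at h8
        linarith
      have h6 : c / 2 * A₀ ^ (-η) / ((t * D) * ((t : ℝ) * D / R) ^ ε) ≤ hf := by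
        rw [div_le_iff₀ (mul_pos (by positivity) (Real.rpow_pos_of_pos hm0 _))]
        exact h5
      linarith
    · exact h1
  choose n e X hX1 hXY he hi1 hi2 hper using hno
  have hDj1 : ∀ j, (1 : ℝ) ≤ ((cj K ((gAct F N)^[j] P)).card : ℝ) := by
    intro j
    exact_mod_cast cj_pos _
  -- the periodic forms
  have hG : ∀ σ : {σ : N ≃ₐ[K] N // σ a ∈ S}, ∃ G, PerForm F (e σ) G ∧
      ev ((gAct F N)^[n σ] P) (gal σ.1 ((gAct F N)^[n σ] P)) G = 0 := by
    intro σ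
    have h1 := hper σ
    rw [gAct_seg hF5] at h1
    obtain ⟨G, hG, hG'⟩ := hBif K (p ^ s) F hq1 hmor Fz hF1 hF5 N _ _ (e σ)
      (gAct_iter_ne' hmor _ hP0) (gAct_iter_ne' hmor _ (gal_ne _ hP0))
      (wand_iter ha (n σ)) (wand_iter (wand_gal ha σ.1) (n σ)) h1
    rw [gAct_iter_gal] at hG'
    exact ⟨G, hG, hG'⟩
  have heD : ∀ σ : {σ : N ≃ₐ[K] N // σ a ∈ S}, (e σ : ℝ) ≤
      (2 * ((cj K ((gAct F N)^[n σ] P)).card : ℝ)) ^ (2 * η) := by
    intro σ
    obtain ⟨G, hG, hG'⟩ := hG σ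
    obtain ⟨d₁, d₂, h1, _, h3, h4, h5⟩ := hG.hom
    refine e_le hη0 hη4 (hX1 σ) (hDj1 _) (he σ) ((hi2 σ).trans ?_)
    rw [gAct_seg hF5, gAct_iter_gal]
    have h6 := idx_seg_le hFib h5 hG.irr h1 h3 (gAct_iter_ne' hmor (n σ) hP0)
      (gal_ne σ.1 (gAct_iter_ne' hmor (n σ) hP0)) hG'
    have h7 : (cj K ((gAct F N)^[n σ] P)).card * d₂ ≤
        (cj K ((gAct F N)^[n σ] P)).card * (2 * e σ) := Nat.mul_le_mul_left _ (by omega)
    exact_mod_cast h6.trans h7
  have hne : Nonempty {σ : N ≃ₐ[K] N // σ a ∈ S} := by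
    obtain ⟨b, hb⟩ := hSne
    obtain ⟨σ, hσ⟩ := (hS b hb).1
    exact ⟨⟨σ, by rw [hσ]; exact hb⟩⟩
  have key := end_num2 n (p ^ s) hq2 (fun j => ((cj K ((gAct F N)^[j] P)).card : ℝ)) hDj1 D t
    ((4 * C₄ + 1) * √t * ρ) C₄ g hD0 ht0.le hC₄0 hg0.le
    (by
      intro j
      have h1 := cj_le hPre hq1 hmor hP0 j
      rw [hP, cj_affine, ← hP] at h1
      rw [← hDc]
      exact_mod_cast h1)
    (by
      intro σ
      have h1 : ((4 * C₄ + 1) * √t * ρ) ^ 2 ≤ X σ ^ (1 - η) := by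
        have h2 : ((4 * C₄ + 1) * √t * ρ) ^ 2 = Y ^ (1 / 2 : ℝ) := by
          rw [← Real.sqrt_eq_rpow, hY, hA₀, mul_pow, mul_pow, Real.sq_sqrt ht0.le]
          refine ((Real.sqrt_eq_iff_mul_self_eq (by positivity) (by positivity)).2 ?_).symm
          ring
        rw [h2]
        calc Y ^ (1 / 2 : ℝ) ≤ X σ ^ (1 / 2 : ℝ) :=
              Real.rpow_le_rpow (by linarith) (hXY σ) (by norm_num)
          _ ≤ X σ ^ (1 - η) := Real.rpow_le_rpow_of_exponent_le (hX1 σ) (by linarith)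
      calc ((p ^ s : ℕ) : ℝ) ^ n σ * ((4 * C₄ + 1) * √t * ρ) ^ 2
          ≤ ((p ^ s : ℕ) : ℝ) ^ n σ * X σ ^ (1 - η) :=
            mul_le_mul_of_nonneg_left h1 (by positivity)
        _ ≤ t * D := (hi1 σ).trans (hidx σ.1 σ.2))
    (by
      intro j
      set Dj : ℝ := ((cj K ((gAct F N)^[j] P)).card : ℝ) with hDj
      have hDj1 : 1 ≤ Dj := hDj1 j
      set E : ℕ := ⌊(2 * Dj) ^ (2 * η)⌋₊ with hE
      have hE1 : (E : ℝ) ≤ (2 * Dj) ^ (2 * η) :=
        Nat.floor_le (Real.rpow_nonneg (by linarith) _)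
      obtain ⟨T, hT, hT'⟩ := hB' (2 * E)
      have h1 := count_le' hFib F (2 * E) (CB * (2 * E) ^ nB) T hT hT'
        (gAct_iter_ne' hmor j hP0 : (gAct F N)^[j] P ≠ 0)
      have h2 : (Finset.univ.filter fun σ => n σ = j).card ≤
          (Finset.univ.filter fun h : N ≃ₐ[K] N => ∃ G, PerForm F (2 * E) G ∧
            ev ((gAct F N)^[j] P) (gal h ((gAct F N)^[j] P)) G = 0).card := by
        refine Finset.card_le_card_of_injOn (fun σ => σ.1) ?_
          (fun σ _ τ _ h => Subtype.ext h)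
        intro σ hσ
        have hσ' : n σ = j := (Finset.mem_filter.1 (Finset.mem_coe.1 hσ)).2
        refine Finset.mem_coe.2 (Finset.mem_filter.2 ⟨Finset.mem_univ _, ?_⟩)
        obtain ⟨G, hG, hG'⟩ := hG σ
        have h3 := heD σ
        rw [hσ'] at hG' h3
        have h4 : e σ ≤ E := Nat.le_floor h3
        exact ⟨G, PerForm.mono (by omega) hG, hG'⟩
      have h3 : ((Finset.univ.filter fun σ => n σ = j).card : ℝ) * Dj ≤
          ((CB * (2 * E) ^ nB * (2 * E) * Fintype.card (N ≃ₐ[K] N) : ℕ) : ℝ) := by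
        have h4 := (Nat.mul_le_mul_right (cj K ((gAct F N)^[j] P)).card h2).trans h1
        rw [hDj]
        exact_mod_cast h4
      have h5 := lev_num hDj1 hηn hE1
      have h6 : ((CB * (2 * E) ^ nB * (2 * E) * Fintype.card (N ≃ₐ[K] N) : ℕ) : ℝ) =
          CB * g * (((2 * E : ℕ) : ℝ)) ^ (nB + 1) := by
        rw [hg]
        push_cast
        ring
      rw [h6] at h3
      refine h3.trans ?_
      calc CB * g * (((2 * E : ℕ) : ℝ)) ^ (nB + 1) ≤ CB * g * (2 ^ (nB + 2) * √Dj) :=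
            mul_le_mul_of_nonneg_left h5 (by positivity)
        _ = C₄ * g * √Dj := by
            rw [hC₄]
            ring)
  have hcs : (Fintype.card {σ : N ≃ₐ[K] N // σ a ∈ S} : ℝ) * D = R * g := by
    have h1 := card_set a S fun b hb => (hS b hb).1
    rw [← hDc, hR, hg]
    exact_mod_cast h1
  have hst : 0 < √(t : ℝ) := Real.sqrt_pos.2 ht0
  have h7 : (Fintype.card {σ : N ≃ₐ[K] N // σ a ∈ S} : ℝ) * ((4 * C₄ + 1) * √t * ρ) =
      (4 * C₄ + 1) * √t * g := by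
    calc (Fintype.card {σ : N ≃ₐ[K] N // σ a ∈ S} : ℝ) * ((4 * C₄ + 1) * √t * ρ)
        = (Fintype.card {σ : N ≃ₐ[K] N // σ a ∈ S} : ℝ) * D / R * ((4 * C₄ + 1) * √t) := by
          rw [hρ]
          ring
      _ = (4 * C₄ + 1) * √t * g := by
          rw [hcs, mul_div_assoc, mul_comm R, div_mul_cancel₀ g hR0.ne']
          ring
  rw [h7] at key
  have h8 : 0 < √(t : ℝ) * g := mul_pos hst hg0
  nlinarith

/-- The bound of the theorem. -/
def Bnd {K : Type} [Field K] [NumberField K] (q : ℕ) (F : Fin 2 → MvPolynomial (Fin 2) K) : Prop :=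
  ∀ ε : ℝ, 0 < ε →
    ∃ c : ℝ, 0 < c ∧ ∀ (N : Type) [Field N] [NumberField N] [Algebra K N] (a : N),
      WandP F ![a, 1] → ∀ (t : ℕ) (S : Finset N), S.Nonempty →
      (∀ b ∈ S, Polynomial.aeval b (minpoly K a) = 0 ∧
        Module.finrank K (IntermediateField.adjoin K {a, b}) ≤
          t * Module.finrank K (IntermediateField.adjoin K {a})) →
      ∃ h : ℝ, Tendsto (fun n : ℕ => Height.logHeight ((gAct F N)^[n] ![a, 1]) /
        (Module.finrank ℚ N : ℝ) / (q : ℝ) ^ n) atTop (𝓝 h) ∧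
        c / ((t : ℝ) * (Module.finrank K (IntermediateField.adjoin K {a}) : ℝ) *
          ((t : ℝ) * (Module.finrank K (IntermediateField.adjoin K {a}) : ℝ) /
            (S.card : ℝ)) ^ ε) ≤ h

/-- **The bound follows from the count.** -/
theorem bnd (hA : AStatement) (hMor : MorStatement) (hSeg : SegStatement)
    (hSegH : SegHStatement) (hPre : PreStatement) (hFib : FibStatement) (hBif : BifS)
    (K : Type) [Field K] [NumberField K] (p s : ℕ) (v : FinitePlace K)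
    (F : Fin 2 → MvPolynomial (Fin 2) K) (hyp : HypR p s v F) (hcount : CountR F) :
    Bnd (p ^ s) F := by
  intro ε hε
  obtain ⟨c, hc, hmain⟩ := e_set hA hMor hSeg hSegH hPre hFib hBif K p s v F hyp hcount ε hε
  refine ⟨c, hc, ?_⟩
  intro L _ _ _ a ha t S hSne hS
  -- the Galois closure
  let N := IntermediateField.normalClosure K L (AlgebraicClosure L)
  have hfdKL : FiniteDimensional K L := Module.Finite.of_restrictScalars_finite ℚ K L
  have hfd : FiniteDimensional K N := normalClosure.is_finiteDimensional K L (AlgebraicClosure L)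
  have hNnf : NumberField N := NumberField.of_module_finite K N
  have hnormal : Normal K N := normalClosure.normal K L (AlgebraicClosure L)
  have hgal : IsGalois K N := ⟨⟩
  let φ : L →ₐ[K] N := IsScalarTower.toAlgHom K L N
  have hφ : Function.Injective φ := φ.toRingHom.injective
  have hpt : (![φ a, 1] : Fin 2 → N) = fun i => φ ((![a, 1] : Fin 2 → L) i) := by
    funext i
    fin_cases i
    · rfl
    · exact (map_one φ).symm
  have hw : WandP F ![φ a, 1] := by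
    rintro ⟨m, n, hmn, c, hc0, h⟩
    rw [hpt, gAct_iter_map, gAct_iter_map] at h
    refine ha ⟨m, n, hmn, ?_⟩
    have hne : ∀ k, (gAct F L)^[k] ![a, 1] ≠ 0 := fun k =>
      gAct_iter_ne' (hMor K p s v F hyp) k (by
        intro h0
        exact one_ne_zero (congrFun h0 1 : (1 : L) = 0))
    refine prop_of_minors (hne n) (hne m) fun i j => hφ ?_
    rw [map_sub, map_mul, map_mul, map_zero]
    have h1 : ∀ i, φ ((gAct F L)^[n] ![a, 1] i) = c * φ ((gAct F L)^[m] ![a, 1] i) :=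
      fun i => congrFun h i
    rw [h1, h1]
    ring
  have h1 : Module.finrank K (IntermediateField.adjoin K {φ a}) =
      Module.finrank K (IntermediateField.adjoin K {a}) := by
    rw [← finrank_adjoin_hom φ {a}, Set.image_singleton]
  obtain ⟨h, hlim, hle⟩ := hmain N (φ a) hw t (S.image φ) (hSne.image φ) (by
    intro b hb
    obtain ⟨b', hb', rfl⟩ := Finset.mem_image.1 hb
    obtain ⟨h2, h3⟩ := hS b' hb'
    constructor
    · have h4 : minpoly K (φ a) = minpoly K a := minpoly.algHom_eq φ hφ a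
      refine minpoly.exists_algEquiv_of_root' (Algebra.IsAlgebraic.isAlgebraic (φ a)) ?_
      rw [h4, Polynomial.aeval_algHom_apply, h2, map_zero]
    · rw [h1, ← Set.image_pair, finrank_adjoin_hom]
      exact h3)
  refine ⟨h, hlim.congr fun n => ?_, ?_⟩
  · rw [hpt, gAct_iter_map]
    have h2 := logHeight_hom (φ : L →+* N) ((gAct F L)^[n] ![a, 1])
    exact congrArg (fun x => x / ((p ^ s : ℕ) : ℝ) ^ n) h2
  · rw [h1, Finset.card_image_of_injective S hφ] at hle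
    exact hle

/-- The theorem for maps with a critical point which is not strictly preperiodic. -/
theorem gst (hA : AStatement) (hMor : MorStatement) (hSeg : SegStatement)
    (hSegH : SegHStatement) (hPre : PreStatement) (hFib : FibStatement) (hBif : BifS)
    (hcount : ∀ (K : Type) [Field K] [NumberField K] (p s : ℕ) (v : FinitePlace K)
      (F : Fin 2 → MvPolynomial (Fin 2) K), HypR p s v F → CritN F → CountR F) :
    GstStatement := fun K _ _ p s v F hyp hcrit =>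
  bnd hA hMor hSeg hSegH hPre hFib hBif K p s v F hyp (hcount K p s v F hyp hcrit)

end Pool.DynLehmer.GS.E
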