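import Pool.Agent.Lib.MP_2194ec_nt.GAL.H28.E3
import Pool.Agent.Lib.MP_2194ec_nt.GAL.R.Defs
import Pool.Agent.Lib.MP_2194ec_nt.SP.CaseB

set_option autoImplicit false
set_option linter.unusedSectionVars false

/-!
# Counting conjugates of points of the projective line
-/

namespace Pool.DynLehmer.GS.E
open MvPolynomial NumberField Filter Topology Pool.DynLehmer Pool.DynLehmer.SB Pool.DynLehmer.SP
  Pool.DynLehmer.GAL Pool.DynLehmer.GAL.H98 Pool.DynLehmer.SP.CasebAux
open scoped Classical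

/-! ### Points -/

section points

variable {N : Type} [Field N]

theorem prl_iff {ι : Type} (P Q : ι → N) : Prl P Q ↔ ∃ c : N, c ≠ 0 ∧ P = c • Q := Iff.rfl

theorem prl_refl {ι : Type} (P : ι → N) : Prl P P := ⟨1, one_ne_zero, (one_smul _ _).symm⟩

theorem prl_symm {ι : Type} {P Q : ι → N} (h : Prl P Q) : Prl Q P := by
  obtain ⟨c, hc, h⟩ := h
  exact ⟨c⁻¹, inv_ne_zero hc, by rw [h, smul_smul, inv_mul_cancel₀ hc, one_smul]⟩

theorem prl_trans {ι : Type} {P Q R : ι → N} (h : Prl P Q) (h' : Prl Q R) : Prl P R := by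
  obtain ⟨c, hc, h⟩ := h
  obtain ⟨d, hd, h'⟩ := h'
  exact ⟨c * d, mul_ne_zero hc hd, by rw [h, h', smul_smul]⟩

theorem ne_of_one {P : Fin 2 → N} (h : P ≠ 0) (h1 : P 1 = 0) : P 0 ≠ 0 := by
  intro h0
  apply h
  funext i
  fin_cases i
  · exact h0
  · exact h1

theorem pr_eq_of_prl {P Q : Fin 2 → N} (h : Prl P Q) : pr P = pr Q := by
  obtain ⟨c, hc, rfl⟩ := h
  unfold pr
  by_cases h1 : Q 1 = 0
  · simp [h1]
  · have h2 : (c • Q) 1 ≠ 0 := mul_ne_zero hc h1
    rw [if_neg h2, if_neg h1]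
    congr 1
    rw [Pi.smul_apply, Pi.smul_apply, smul_eq_mul, smul_eq_mul, mul_div_mul_left _ _ hc]

theorem prl_of_pr_eq {P Q : Fin 2 → N} (hP : P ≠ 0) (hQ : Q ≠ 0) (h : pr P = pr Q) :
    Prl P Q := by
  unfold pr at h
  by_cases h1 : P 1 = 0
  · rw [if_pos h1] at h
    by_cases h2 : Q 1 = 0
    · refine ⟨P 0 / Q 0, div_ne_zero (ne_of_one hP h1) (ne_of_one hQ h2), ?_⟩
      funext i
      fin_cases i
      · exact (div_mul_cancel₀ _ (ne_of_one hQ h2)).symm
      · change P 1 = P 0 / Q 0 * Q 1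
        rw [h1, h2, mul_zero]
    · rw [if_neg h2] at h
      exact absurd h (by simp)
  · rw [if_neg h1] at h
    by_cases h2 : Q 1 = 0
    · rw [if_pos h2] at h
      exact absurd h (by simp)
    · rw [if_neg h2, Option.some.injEq, div_eq_div_iff h1 h2] at h
      refine ⟨P 1 / Q 1, div_ne_zero h1 h2, ?_⟩
      funext i
      fin_cases i
      · change P 0 = P 1 / Q 1 * Q 0
        field_simp
        linear_combination h
      · change P 1 = P 1 / Q 1 * Q 1
        field_simp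

/-- a representative -/
def rep (z : Option N) : Fin 2 → N := z.elim ![1, 0] fun x => ![x, 1]

theorem rep_ne (z : Option N) : rep z ≠ 0 := by
  intro h
  cases z with
  | none => exact one_ne_zero (congrFun h 0 : (1 : N) = 0)
  | some x => exact one_ne_zero (congrFun h 1 : (1 : N) = 0)

theorem pr_rep (z : Option N) : pr (rep z) = z := by
  cases z with
  | none =>
    unfold pr
    rw [if_pos]
    rfl
  | some x =>
    unfold pr
    rw [if_neg (show (rep (some x)) 1 ≠ 0 from one_ne_zero)]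
    show some (x / 1) = some x
    rw [div_one]

theorem seg_ne {P P' : Fin 2 → N} (h : P ≠ 0) (h' : P' ≠ 0) : seg P P' ≠ 0 := by
  obtain ⟨i, hi⟩ := Function.ne_iff.1 h
  obtain ⟨j, hj⟩ := Function.ne_iff.1 h'
  intro h0
  exact mul_ne_zero hi hj (congrFun h0 (i, j))

theorem seg_prl {P P' Q Q' : Fin 2 → N} (h : Prl P Q) (h' : Prl P' Q') :
    Prl (seg P P') (seg Q Q') := by
  obtain ⟨c, hc, rfl⟩ := h
  obtain ⟨d, hd, rfl⟩ := h'
  refine ⟨c * d, mul_ne_zero hc hd, ?_⟩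
  funext i
  show c * Q i.1 * (d * Q' i.2) = c * d * (Q i.1 * Q' i.2)
  ring

theorem prl_of_seg {P P' Q Q' : Fin 2 → N} (hP : P ≠ 0) (hP' : P' ≠ 0) (hQ : Q ≠ 0)
    (hQ' : Q' ≠ 0) (h : Prl (seg P P') (seg Q Q')) : Prl P Q ∧ Prl P' Q' := by
  obtain ⟨c, hc, h⟩ := h
  have h1 : ∀ i j, P i * P' j = c * (Q i * Q' j) := fun i j => congrFun h (i, j)
  constructor
  · obtain ⟨j, hj⟩ := Function.ne_iff.1 hP'
    have hj' : P' j ≠ 0 := hj
    have hc' : c * Q' j / P' j ≠ 0 := by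
      intro h0
      apply hP
      funext i
      have h2 := h1 i j
      have h3 : P i = (c * Q' j / P' j) * Q i := by
        field_simp
        linear_combination h2
      rw [h3, h0, zero_mul]
      rfl
    refine ⟨c * Q' j / P' j, hc', ?_⟩
    funext i
    have h2 := h1 i j
    show P i = (c * Q' j / P' j) * Q i
    field_simp
    linear_combination h2
  · obtain ⟨i, hi⟩ := Function.ne_iff.1 hP
    have hi' : P i ≠ 0 := hi
    have hc' : c * Q i / P i ≠ 0 := by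
      intro h0
      apply hP'
      funext j
      have h2 := h1 i j
      have h3 : P' j = (c * Q i / P i) * Q' j := by
        field_simp
        linear_combination h2
      rw [h3, h0, zero_mul]
      rfl
    refine ⟨c * Q i / P i, hc', ?_⟩
    funext j
    have h2 := h1 i j
    show P' j = (c * Q i / P i) * Q' j
    field_simp
    linear_combination h2

end points

/-! ### The action -/

section act

variable {K : Type} [Field K] {N : Type} [Field N] [Algebra K N]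

theorem gAct_prl {q : ℕ} {F : Fin 2 → MvPolynomial (Fin 2) K} (hF : ∀ i, (F i).IsHomogeneous q)
    (n : ℕ) {P Q : Fin 2 → N} (h : Prl P Q) : Prl ((gAct F N)^[n] P) ((gAct F N)^[n] Q) := by
  obtain ⟨c, hc, rfl⟩ := h
  exact ⟨c ^ (q ^ n), pow_ne_zero _ hc, gAct_iter_smul F hF n c Q⟩

theorem gAct_iter_ne' {q : ℕ} {F : Fin 2 → MvPolynomial (Fin 2) K} (hF : Mor q F) (n : ℕ)
    {P : Fin 2 → N} (h : P ≠ 0) : (gAct F N)^[n] P ≠ 0 := by
  induction n with
  | zero => exact h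
  | succ n ih =>
    rw [Function.iterate_succ_apply']
    exact hF.ne N _ ih

theorem gAct_seg {F : Fin 2 → MvPolynomial (Fin 2) K}
    {Fz : Fin 2 × Fin 2 → MvPolynomial (Fin 2 × Fin 2) K} (hF : ExtS F Fz) (n : ℕ)
    (P P' : Fin 2 → N) : (gAct Fz N)^[n] (seg P P') =
      seg ((gAct F N)^[n] P) ((gAct F N)^[n] P') := by
  induction n with
  | zero => rfl
  | succ n ih => rw [Function.iterate_succ_apply', ih, hF, Function.iterate_succ_apply',
      Function.iterate_succ_apply']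

theorem wand_iter {F : Fin 2 → MvPolynomial (Fin 2) K} {P : Fin 2 → N} (h : WandP F P) (n : ℕ) :
    WandP F ((gAct F N)^[n] P) := by
  rintro ⟨i, j, hij, c, hc, h1⟩
  rw [← Function.iterate_add_apply, ← Function.iterate_add_apply] at h1
  exact h ⟨i + n, j + n, by omega, c, hc, h1⟩

theorem wand_gal {F : Fin 2 → MvPolynomial (Fin 2) K} {P : Fin 2 → N} (h : WandP F P)
    (σ : N ≃ₐ[K] N) : WandP F (gal σ P) := by
  rintro ⟨i, j, hij, c, hc, h1⟩
  rw [gAct_iter_gal, gAct_iter_gal] at h1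
  refine h ⟨i, j, hij, σ.symm c, ?_, ?_⟩
  · rwa [Ne, EmbeddingLike.map_eq_zero_iff]
  · funext k
    have h2 : σ ((gAct F N)^[j] P k) = c * σ ((gAct F N)^[i] P k) := congrFun h1 k
    show (gAct F N)^[j] P k = σ.symm c * (gAct F N)^[i] P k
    apply σ.injective
    rw [h2, map_mul, AlgEquiv.apply_symm_apply]

theorem pr_gal (σ : N ≃ₐ[K] N) (P : Fin 2 → N) : pr (gal σ P) = (pr P).map σ := by
  unfold pr gal
  by_cases h : P 1 = 0
  · simp [h]
  · rw [if_neg h, if_neg (by rwa [EmbeddingLike.map_eq_zero_iff])]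
    show some (σ (P 0) / σ (P 1)) = some (σ (P 0 / P 1))
    rw [map_div₀]

theorem ev_gal (σ : N ≃ₐ[K] N) (P P' : Fin 2 → N) (G : MvPolynomial (Fin 2 ⊕ Fin 2) K) :
    ev (gal σ P) (gal σ P') G = σ (ev P P' G) := by
  unfold ev
  have h : (Sum.elim (gal σ P) (gal σ P') : Fin 2 ⊕ Fin 2 → N) =
      fun i => σ (Sum.elim P P' i) := by
    funext i
    cases i <;> rfl
  rw [h]
  exact (comp_aeval_apply (σ : N →ₐ[K] N) (f := (Sum.elim P P' : Fin 2 ⊕ Fin 2 → N)) G).symm

end act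

/-! ### Conjugates -/

section gal

variable {K N : Type} [Field K] [Field N] [Algebra K N] [FiniteDimensional K N]

/-- the conjugates of a point -/
noncomputable def cj (K : Type) [Field K] {N : Type} [Field N] [Algebra K N]
    [FiniteDimensional K N] (P : Fin 2 → N) : Finset (Option N) :=
  Finset.univ.image fun σ : N ≃ₐ[K] N => pr (gal σ P)

theorem eq_iff' {P : Fin 2 → N} (hP : P ≠ 0) (σ τ : N ≃ₐ[K] N) :
    pr (gal σ P) = pr (gal τ P) ↔ τ⁻¹ * σ ∈ stab P := by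
  rw [mem_stab_gal]
  exact ⟨fun h => prl_of_pr_eq (gal_ne σ hP) (gal_ne τ hP) h, fun h => pr_eq_of_prl h⟩

theorem cj_pos (P : Fin 2 → N) : 0 < (cj K P).card :=
  Finset.card_pos.2 ⟨pr (gal 1 P), Finset.mem_image.2 ⟨1, Finset.mem_univ _, rfl⟩⟩

theorem cj_fib {P : Fin 2 → N} (hP : P ≠ 0) :
    (∀ y, y ∈ cj K P → (Finset.univ.filter fun σ : N ≃ₐ[K] N => pr (gal σ P) = y).card =
      Nat.card (stab (K := K) P)) ∧
    (cj K P).card * Nat.card (stab (K := K) P) = Fintype.card (N ≃ₐ[K] N) :=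
  fib (fun σ : N ≃ₐ[K] N => pr (gal σ P)) (stab P) (fun σ τ => eq_iff' hP σ τ)

theorem cj_fibre {P : Fin 2 → N} (hP : P ≠ 0) (y : Option N) :
    (Finset.univ.filter fun σ : N ≃ₐ[K] N => pr (gal σ P) = y).card * (cj K P).card ≤
      Fintype.card (N ≃ₐ[K] N) := by
  obtain ⟨h1, h2⟩ := cj_fib (K := K) hP
  by_cases hy : y ∈ cj K P
  · rw [h1 y hy, mul_comm]
    exact h2.le
  · have h3 : (Finset.univ.filter fun σ : N ≃ₐ[K] N => pr (gal σ P) = y) = ∅ := by
      refine Finset.filter_eq_empty_iff.2 fun σ _ hσ => hy ?_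
      exact Finset.mem_image.2 ⟨σ, Finset.mem_univ _, hσ⟩
    rw [h3, Finset.card_empty, zero_mul]
    exact Nat.zero_le _

/-- for an affine point -/
theorem cj_affine (a : N) : (cj K ![a, 1]).card = (conj K a).card := by
  have h : cj K ![a, 1] = (conj K a).image some := by
    ext z
    rw [cj, conj, Finset.mem_image, Finset.mem_image]
    constructor
    · rintro ⟨σ, _, rfl⟩
      refine ⟨σ a, Finset.mem_image.2 ⟨σ, Finset.mem_univ _, rfl⟩, ?_⟩
      rw [pr_gal]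
      unfold pr
      rw [if_neg (show (![a, 1] : Fin 2 → N) 1 ≠ 0 from one_ne_zero)]
      show some (σ a) = some (σ (a / 1))
      rw [div_one]
    · rintro ⟨x, hx, rfl⟩
      obtain ⟨σ, _, rfl⟩ := Finset.mem_image.1 hx
      refine ⟨σ, Finset.mem_univ _, ?_⟩
      rw [pr_gal]
      unfold pr
      rw [if_neg (show (![a, 1] : Fin 2 → N) 1 ≠ 0 from one_ne_zero)]
      show some (σ (a / 1)) = some (σ a)
      rw [div_one]
  rw [h, Finset.card_image_of_injective _ (Option.some_injective N)]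

/-- The number of conjugates of a point of the Segre surface. -/
theorem idx_seg {P P' : Fin 2 → N} (hP : P ≠ 0) (hP' : P' ≠ 0) :
    idx (⊤ : Subgroup (N ≃ₐ[K] N)) (seg P P') =
      (Finset.univ.image fun σ : N ≃ₐ[K] N => (pr (gal σ P), pr (gal σ P'))).card := by
  have hgs : ∀ σ : N ≃ₐ[K] N, gal σ (seg P P') = seg (gal σ P) (gal σ P') := by
    intro σ
    funext i
    exact map_mul σ _ _
  obtain ⟨h1, h2⟩ := fib (fun σ : N ≃ₐ[K] N => (pr (gal σ P), pr (gal σ P')))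
    (stab (K := K) (seg P P')) (by
    intro σ τ
    rw [mem_stab_gal, Prod.mk.injEq, hgs, hgs]
    constructor
    · rintro ⟨h, h'⟩
      exact seg_prl (prl_of_pr_eq (gal_ne σ hP) (gal_ne τ hP) h)
        (prl_of_pr_eq (gal_ne σ hP') (gal_ne τ hP') h')
    · intro h
      obtain ⟨h3, h4⟩ := prl_of_seg (gal_ne σ hP) (gal_ne σ hP') (gal_ne τ hP) (gal_ne τ hP') h
      exact ⟨pr_eq_of_prl h3, pr_eq_of_prl h4⟩)
  have h4 := card_mul_idx (⊤ : Subgroup (N ≃ₐ[K] N)) (seg P P')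
  rw [card_fin, card_fin, top_inf_eq, Nat.card_congr (Subgroup.topEquiv (G := N ≃ₐ[K] N)).toEquiv,
    Nat.card_eq_fintype_card (α := N ≃ₐ[K] N), ← h2, mul_comm] at h4
  exact Nat.eq_of_mul_eq_mul_right Nat.card_pos h4

theorem idx_seg_le (hFib : FibStatement) {d₁ d₂ : ℕ} {G : MvPolynomial (Fin 2 ⊕ Fin 2) K}
    (hG : BiHom d₁ d₂ G) (hirr : Irreducible G) (h₁ : 1 ≤ d₁) (h₂ : 1 ≤ d₂)
    {P P' : Fin 2 → N} (hP : P ≠ 0) (hP' : P' ≠ 0) (h0 : ev P P' G = 0) :
    idx (⊤ : Subgroup (N ≃ₐ[K] N)) (seg P P') ≤ (cj K P).card * d₂ := by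
  rw [idx_seg hP hP', mul_comm]
  refine Finset.card_le_mul_card_image_of_maps_to (f := Prod.fst) ?_ d₂ ?_
  · rintro ⟨a, b⟩ hab
    obtain ⟨σ, _, hσ⟩ := Finset.mem_image.1 hab
    exact Finset.mem_image.2 ⟨σ, Finset.mem_univ _, congrArg Prod.fst hσ⟩
  · intro b hb
    obtain ⟨τ, _, rfl⟩ := Finset.mem_image.1 hb
    obtain ⟨⟨Z, hZ, hZ'⟩, _⟩ := hFib K d₁ d₂ G hG hirr h₁ h₂ N (gal τ P) (gal_ne τ hP)
    refine (Finset.card_le_card_of_injOn Prod.snd ?_ ?_).trans hZ
    · rintro ⟨x, y⟩ hxy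
      have h3 := Finset.mem_filter.1 (Finset.mem_coe.1 hxy)
      obtain ⟨σ, _, hσ⟩ := Finset.mem_image.1 h3.1
      have h4 : pr (gal σ P) = x := congrArg Prod.fst hσ
      have h5 : pr (gal σ P') = y := congrArg Prod.snd hσ
      have h6 : x = pr (gal τ P) := h3.2
      have h7 : Prl (gal τ P) (gal σ P) :=
        prl_of_pr_eq (gal_ne τ hP) (gal_ne σ hP) (by rw [h4, h6])
      refine Finset.mem_coe.2 ?_
      show y ∈ Z
      rw [← h5]
      refine hZ' _ (gal_ne σ hP') ?_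
      have h8 : ev (gal σ P) (gal σ P') G = 0 := by rw [ev_gal, h0, map_zero]
      obtain ⟨c, hc, h9⟩ := h7
      rw [h9]
      -- scaling
      have h10 : ev (c • gal σ P) (gal σ P') G = c ^ d₁ * ev (gal σ P) (gal σ P') G := by
        unfold ev
        rw [aeval_def, aeval_def, eval₂_eq', eval₂_eq', Finset.mul_sum]
        refine Finset.sum_congr rfl fun t ht => ?_
        simp only [Fintype.prod_sum_type, Fin.prod_univ_two, Sum.elim_inl, Sum.elim_inr, Pi.smul_apply, smul_eq_mul, mul_pow]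
        rw [← (hG t ht).1, pow_add]
        ring
      rw [h10, h8, mul_zero]
    · rintro ⟨x, y⟩ hxy ⟨x', y'⟩ hxy' hyy
      have e1 : x = _ := (Finset.mem_filter.1 (Finset.mem_coe.1 hxy)).2
      have e2 : x' = _ := (Finset.mem_filter.1 (Finset.mem_coe.1 hxy')).2
      have e3 : y = y' := hyy
      rw [e1, e2, e3]

/-- the pair `(a, σ a)` -/
theorem idx_seg_eq [IsGalois K N] (x y : N) :
    idx (⊤ : Subgroup (N ≃ₐ[K] N)) (seg ![x, 1] ![y, 1]) =
      Module.finrank K (IntermediateField.adjoin K {x, y}) := by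
  rw [← H28.idx_pt_eq]
  have hst : stab (K := K) (seg ![x, 1] ![y, 1]) = stab (pt x y) := by
    ext σ
    rw [mem_stab, mem_stab]
    constructor
    · rintro ⟨c, hc, h⟩
      have h2 : σ (1 * 1) = c * (1 * 1) := congrFun h (1, 1)
      rw [mul_one, mul_one, map_one] at h2
      have h3 : σ (x * 1) = c * (x * 1) := congrFun h (0, 1)
      have h4 : σ (1 * y) = c * (1 * y) := congrFun h (1, 0)
      rw [← h2, one_mul, mul_one] at h3
      rw [← h2, one_mul, one_mul] at h4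
      refine ⟨1, one_ne_zero, ?_⟩
      rw [one_smul]
      funext i
      fin_cases i
      · exact h3
      · exact h4
      · exact map_one σ
    · rintro ⟨c, _, h⟩
      have h2 : σ 1 = c * 1 := congrFun h 2
      rw [mul_one, map_one] at h2
      have h3 : σ x = c * x := congrFun h 0
      have h4 : σ y = c * y := congrFun h 1
      rw [← h2, one_mul] at h3 h4
      refine ⟨1, one_ne_zero, ?_⟩
      rw [one_smul]
      funext i
      obtain ⟨i, j⟩ := i
      show σ ((![x, 1] : Fin 2 → N) i * (![y, 1] : Fin 2 → N) j) = _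
      rw [map_mul]
      show _ = (![x, 1] : Fin 2 → N) i * (![y, 1] : Fin 2 → N) j
      fin_cases i <;> fin_cases j <;> simp [h3, h4]
  rw [idx, idx, hst]

/-- The degrees along the orbit. -/
theorem cj_le (hPre : PreStatement) {q : ℕ} (hq : 1 ≤ q) {F : Fin 2 → MvPolynomial (Fin 2) K}
    (hF : Mor q F) {P : Fin 2 → N} (hP : P ≠ 0) (j : ℕ) :
    (cj K P).card ≤ q ^ j * (cj K ((gAct F N)^[j] P)).card := by
  have hpf : ∀ Q : Fin 2 → N, Q ≠ 0 →
      pr ((gAct F N)^[j] (rep (pr Q))) = pr ((gAct F N)^[j] Q) := by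
    intro Q hQ
    exact pr_eq_of_prl (gAct_prl hF.hom j (prl_of_pr_eq (rep_ne _) hQ (pr_rep _)))
  refine Finset.card_le_mul_card_image_of_maps_to
    (f := fun z => pr ((gAct F N)^[j] (rep z))) ?_ _ ?_
  · intro z hz
    obtain ⟨σ, _, rfl⟩ := Finset.mem_image.1 hz
    refine Finset.mem_image.2 ⟨σ, Finset.mem_univ _, ?_⟩
    show pr (gal σ ((gAct F N)^[j] P)) = pr ((gAct F N)^[j] (rep (pr (gal σ P))))
    rw [hpf _ (gal_ne σ hP), gAct_iter_gal]
  · intro y _
    obtain ⟨Z, hZ, hZ'⟩ := hPre K N q F hq hF (rep y) (rep_ne y) j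
    refine (Finset.card_le_card fun z hz => ?_).trans hZ
    obtain ⟨h1, h2⟩ := Finset.mem_filter.1 hz
    have h3 : pr ((gAct F N)^[j] (rep z)) = y := h2
    rw [← pr_rep z]
    refine hZ' _ (rep_ne z) (prl_of_pr_eq (gAct_iter_ne' hF j (rep_ne z)) (rep_ne y) ?_)
    rw [h3, pr_rep]

theorem PerForm.mono {F : Fin 2 → MvPolynomial (Fin 2) K} {e e' : ℕ} (h : e ≤ e')
    {G : MvPolynomial (Fin 2 ⊕ Fin 2) K} (hG : PerForm F e G) : PerForm F e' G := by
  obtain ⟨d₁, d₂, h1, h2, h3, h4, h5⟩ := hG.hom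
  exact ⟨hG.irr, ⟨d₁, d₂, h1, h2.trans h, h3, h4.trans h, h5⟩, hG.per⟩

/-- The number of `h` with `(Q, h Q)` on a periodic curve of small degree. -/
theorem count_le' (hFib : FibStatement) (F : Fin 2 → MvPolynomial (Fin 2) K) (e M : ℕ)
    (S : Finset (MvPolynomial (Fin 2 ⊕ Fin 2) K)) (hM : S.card ≤ M)
    (hS : ∀ G, PerForm F e G → ∃ G' ∈ S, Associated G G') {Q : Fin 2 → N} (hQ : Q ≠ 0) :
    (Finset.univ.filter fun h : N ≃ₐ[K] N => ∃ G, PerForm F e G ∧ ev Q (gal h Q) G = 0).card *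
      (cj K Q).card ≤ M * e * Fintype.card (N ≃ₐ[K] N) := by
  let S' := S.filter fun G' => ∃ G, PerForm F e G ∧ Associated G G'
  have hz : ∀ G' : MvPolynomial (Fin 2 ⊕ Fin 2) K, ∃ Z : Finset (Option N), G' ∈ S' →
      Z.card ≤ e ∧ ∀ P' : Fin 2 → N, P' ≠ 0 → ev Q P' G' = 0 → pr P' ∈ Z := by
    intro G'
    by_cases hG' : G' ∈ S'
    · obtain ⟨G, hG, hGG'⟩ := (Finset.mem_filter.1 hG').2
      obtain ⟨d₁, d₂, h1, h2, h3, h4, h5⟩ := hG.hom
      obtain ⟨⟨Z, hZ, hZ'⟩, _⟩ := hFib K d₁ d₂ G h5 hG.irr h1 h3 N Q hQ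
      refine ⟨Z, fun _ => ⟨hZ.trans h4, fun P' hP' h0 => hZ' P' hP' ?_⟩⟩
      obtain ⟨u, hu⟩ := hGG'.symm
      rw [← hu]
      unfold ev at h0 ⊢
      rw [map_mul, h0, zero_mul]
    · exact ⟨∅, fun h => absurd h hG'⟩
  choose rt hrt using hz
  let V : Finset (Option N) := S'.biUnion rt
  have hV : V.card ≤ M * e := by
    refine Finset.card_biUnion_le.trans ?_
    refine (Finset.sum_le_card_nsmul S' _ e fun G' hG' => (hrt G' hG').1).trans ?_
    rw [smul_eq_mul]
    exact Nat.mul_le_mul_right e ((Finset.card_filter_le _ _).trans hM)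
  have hsub : (Finset.univ.filter fun h : N ≃ₐ[K] N => ∃ G, PerForm F e G ∧
      ev Q (gal h Q) G = 0) ⊆
      V.biUnion fun y => Finset.univ.filter fun h : N ≃ₐ[K] N => pr (gal h Q) = y := by
    intro h hh
    obtain ⟨G, hG, h0⟩ := (Finset.mem_filter.1 hh).2
    obtain ⟨G', hG', hGG'⟩ := hS G hG
    have hG'S : G' ∈ S' := Finset.mem_filter.2 ⟨hG', G, hG, hGG'⟩
    refine Finset.mem_biUnion.2 ⟨pr (gal h Q), Finset.mem_biUnion.2 ⟨G', hG'S, ?_⟩,
      Finset.mem_filter.2 ⟨Finset.mem_univ _, rfl⟩⟩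
    refine (hrt G' hG'S).2 _ (gal_ne h hQ) ?_
    obtain ⟨u, rfl⟩ := hGG'
    unfold ev at h0 ⊢
    rw [map_mul, h0, zero_mul]
  calc _ ≤ (V.biUnion fun y => Finset.univ.filter fun h : N ≃ₐ[K] N => pr (gal h Q) = y).card *
        (cj K Q).card := Nat.mul_le_mul_right _ (Finset.card_le_card hsub)
    _ ≤ (∑ y ∈ V, (Finset.univ.filter fun h : N ≃ₐ[K] N => pr (gal h Q) = y).card) *
        (cj K Q).card := Nat.mul_le_mul_right _ Finset.card_biUnion_le
    _ = ∑ y ∈ V, (Finset.univ.filter fun h : N ≃ₐ[K] N => pr (gal h Q) = y).card *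
        (cj K Q).card := Finset.sum_mul _ _ _
    _ ≤ V.card • Fintype.card (N ≃ₐ[K] N) :=
        Finset.sum_le_card_nsmul V _ _ fun y _ => cj_fibre hQ y
    _ ≤ M * e * Fintype.card (N ≃ₐ[K] N) := by
        rw [smul_eq_mul]
        exact Nat.mul_le_mul_right _ hV

end gal

end Pool.DynLehmer.GS.E
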