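import Pool.Agent.Lib.MP_2194ec_nt.GAL.R.SDefs
import Pool.Agent.Lib.MP_2194ec_nt.GAL.R.ECnt

set_option autoImplicit false

/-!
# The theorem with everything written out
-/

namespace Pool.DynLehmer.GS
open MvPolynomial NumberField Filter Topology Pool.DynLehmer Pool.DynLehmer.SB Pool.DynLehmer.SP
  Pool.DynLehmer.GAL
open scoped Classical

theorem lat_expl {K : Type} [Field K] (F : Fin 2 → MvPolynomial (Fin 2) K) (h : Lat F) :
    ∃ ν : Projectivization (AlgebraicClosure K) (Fin 2 → AlgebraicClosure K) → ℕ,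
      (∀ z, 1 ≤ ν z) ∧ {z | ν z ≠ 1}.Finite ∧
      ∀ (x : Fin 2 → AlgebraicClosure K) (hx : x ≠ 0)
        (hFx : gAct F (AlgebraicClosure K) x ≠ 0),
        ν (Projectivization.mk (AlgebraicClosure K) (gAct F (AlgebraicClosure K) x) hFx) =
          ld F x * ν (Projectivization.mk (AlgebraicClosure K) x hx) := by
  obtain ⟨ν, h1, h2, h3⟩ := h
  have hmk : ∀ (x : Fin 2 → AlgebraicClosure K) (hx : x ≠ 0),
      pr (Projectivization.mk (AlgebraicClosure K) x hx).rep = pr x := by
    intro x hx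
    obtain ⟨u, hu⟩ := Projectivization.exists_smul_eq_mk_rep (AlgebraicClosure K) x hx
    refine E.pr_eq_of_prl ⟨(u : AlgebraicClosure K), u.ne_zero, ?_⟩
    rw [← hu]
    rfl
  refine ⟨fun z => ν (pr z.rep), fun z => h1 _, ?_, ?_⟩
  · refine Set.Finite.subset (Set.Finite.preimage (f := fun z : Projectivization
      (AlgebraicClosure K) (Fin 2 → AlgebraicClosure K) => pr z.rep) ?_ h2) (fun z hz => hz)
    intro z _ z' _ hzz
    have h4 : Prl z.rep z'.rep := E.prl_of_pr_eq z.rep_nonzero z'.rep_nonzero hzz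
    obtain ⟨c, hc, h4⟩ := h4
    rw [← z.mk_rep, ← z'.mk_rep, Projectivization.mk_eq_mk_iff']
    exact ⟨c, h4.symm⟩
  · intro x hx hFx
    show ν (pr _) = ld F x * ν (pr _)
    rw [hmk, hmk]
    exact h3 x hx

theorem gla_explicit (hMor : MorStatement) (gla : GlaStatement) :
    ∀ (K : Type) [Field K] [NumberField K] (p s : ℕ) (v : NumberField.FinitePlace K)
      (F : Fin 2 → MvPolynomial (Fin 2) K),
      p.Prime → 1 ≤ s → v (p : K) < 1 → (∀ i, (F i).IsHomogeneous (p ^ s)) →
      (∀ i t, v (coeff t (F i)) ≤ 1) →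
      (∀ i t, (∀ j, t ≠ Finsupp.single j (p ^ s)) → v (coeff t (F i)) < 1) →
      v (Matrix.det (Matrix.of fun i j => coeff (Finsupp.single j (p ^ s)) (F i))) = 1 →
      (¬ ∃ ν : Projectivization (AlgebraicClosure K) (Fin 2 → AlgebraicClosure K) → ℕ,
        (∀ z, 1 ≤ ν z) ∧ {z | ν z ≠ 1}.Finite ∧
        ∀ (x : Fin 2 → AlgebraicClosure K) (hx : x ≠ 0)
          (hFx : (fun i => aeval x (F i)) ≠ (0 : Fin 2 → AlgebraicClosure K)),
          ν (Projectivization.mk (AlgebraicClosure K) (fun i => aeval x (F i)) hFx) =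
            multiplicity (C (x 1) * X 0 - C (x 0) * X 1 :
                MvPolynomial (Fin 2) (AlgebraicClosure K))
              (C (aeval x (F 1)) * map (algebraMap K (AlgebraicClosure K)) (F 0) -
                C (aeval x (F 0)) * map (algebraMap K (AlgebraicClosure K)) (F 1)) *
            ν (Projectivization.mk (AlgebraicClosure K) x hx)) →
      ∀ ε : ℝ, 0 < ε → ∃ c : ℝ, 0 < c ∧
        ∀ (L : Type) [Field L] [NumberField L] [Algebra K L] (a : L),
          (∀ m n : ℕ, (∃ u : L, u ≠ 0 ∧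
            (fun x : Fin 2 → L => fun i => aeval x (F i))^[n] ![a, 1] =
              u • (fun x : Fin 2 → L => fun i => aeval x (F i))^[m] ![a, 1]) → m = n) →
          ∀ (t : ℕ) (S : Finset L), S.Nonempty →
          (∀ b ∈ S, Polynomial.aeval b (minpoly K a) = 0 ∧
            Module.finrank K (IntermediateField.adjoin K {a, b}) ≤
              t * Module.finrank K (IntermediateField.adjoin K {a})) →
          ∃ h : ℝ,
            Filter.Tendsto (fun n : ℕ =>
              ((1 : ℝ) / (Module.finrank ℚ L : ℝ)) *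
                ((∑ w : NumberField.InfinitePlace L, (NumberField.InfinitePlace.mult w : ℝ) *
                    Real.log (⨆ j, w ((fun x : Fin 2 → L => fun i => aeval x (F i))^[n]
                      ![a, 1] j))) +
                 ∑ᶠ u : NumberField.FinitePlace L,
                    Real.log (⨆ j, u ((fun x : Fin 2 → L => fun i => aeval x (F i))^[n]
                      ![a, 1] j)))
                / ((p ^ s : ℕ) : ℝ) ^ n) Filter.atTop (nhds h) ∧
            c / ((t : ℝ) * (Module.finrank K (IntermediateField.adjoin K {a}) : ℝ) *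
              ((t : ℝ) * (Module.finrank K (IntermediateField.adjoin K {a}) : ℝ) /
                (S.card : ℝ)) ^ ε) ≤ h := by
  intro K _ _ p s v F hp hs hv hF1 hF2 hF3 hF4 hL ε hε
  have hyp : HypR p s v F := ⟨hp, hs, hv, hF1, hF2, hF3, hF4⟩
  obtain ⟨c, hc, H⟩ := gla K p s v F hyp (fun h => hL (lat_expl F h)) ε hε
  refine ⟨c, hc, ?_⟩
  intro L _ _ _ a ha t S hS1 hS2
  obtain ⟨h, hlim, hle⟩ := H L a (by
    rintro ⟨m, n, hmn, u, hu, h⟩
    exact hmn (ha m n ⟨u, hu, h⟩)) t S hS1 hS2
  refine ⟨h, hlim.congr fun n => ?_, hle⟩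
  have hne : (gAct F L)^[n] ![a, 1] ≠ 0 := E.gAct_iter_ne' (hMor K p s v F hyp) n (by
    intro h0
    exact one_ne_zero (congrFun h0 1 : (1 : L) = 0))
  rw [logHeight_eq_sum hne, one_div, inv_mul_eq_div]
  rfl

end Pool.DynLehmer.GS
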