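import Pool.Agent.Lib.MP_2194ec_nt.GAL.R.Root

set_option autoImplicit false

/-!
# Row FIB: the fibres of the first projection
-/

namespace Pool.DynLehmer.GS
open MvPolynomial

namespace FibA

variable {K : Type} [Field K]

/-- The exponents of a form of bidegree `(d₁, d₂)`. -/
noncomputable def tt (d₁ d₂ : ℕ) (a : ℕ × ℕ) : (Fin 2 ⊕ Fin 2) →₀ ℕ :=
  Finsupp.single (Sum.inl 0) a.1 + Finsupp.single (Sum.inl 1) (d₁ - a.1) +
    Finsupp.single (Sum.inr 0) a.2 + Finsupp.single (Sum.inr 1) (d₂ - a.2)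

theorem tt_l0 (d₁ d₂ : ℕ) (a : ℕ × ℕ) : tt d₁ d₂ a (Sum.inl 0) = a.1 := by
  simp [tt]

theorem tt_l1 (d₁ d₂ : ℕ) (a : ℕ × ℕ) : tt d₁ d₂ a (Sum.inl 1) = d₁ - a.1 := by
  simp [tt]

theorem tt_r0 (d₁ d₂ : ℕ) (a : ℕ × ℕ) : tt d₁ d₂ a (Sum.inr 0) = a.2 := by
  simp [tt]

theorem tt_r1 (d₁ d₂ : ℕ) (a : ℕ × ℕ) : tt d₁ d₂ a (Sum.inr 1) = d₂ - a.2 := by
  simp [tt]

/-- The coefficient of `Y₀ ^ j Y₁ ^ (d₂ - j)`, as a polynomial in one variable. -/
noncomputable def gj (d₁ d₂ : ℕ) (G : MvPolynomial (Fin 2 ⊕ Fin 2) K) (j : ℕ) : Polynomial K :=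
  ∑ i ∈ Finset.range (d₁ + 1), Polynomial.monomial i (coeff (tt d₁ d₂ (i, j)) G)

theorem natDegree_gj (d₁ d₂ : ℕ) (G : MvPolynomial (Fin 2 ⊕ Fin 2) K) (j : ℕ) :
    (gj d₁ d₂ G j).natDegree ≤ d₁ := by
  refine Polynomial.natDegree_sum_le_of_forall_le _ _ fun i hi => ?_
  exact (Polynomial.natDegree_monomial_le _).trans (Nat.lt_succ_iff.1 (Finset.mem_range.1 hi))

/-- A form of bidegree `(d₁, d₂)` as a sum over the exponents. -/
theorem as_sum2 {d₁ d₂ : ℕ} {G : MvPolynomial (Fin 2 ⊕ Fin 2) K} (h : BiHom d₁ d₂ G) :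
    G = ∑ a ∈ Finset.range (d₁ + 1) ×ˢ Finset.range (d₂ + 1),
      C (coeff (tt d₁ d₂ a) G) * (X (Sum.inl 0) ^ a.1 * X (Sum.inl 1) ^ (d₁ - a.1) *
        (X (Sum.inr 0) ^ a.2 * X (Sum.inr 1) ^ (d₂ - a.2))) := by
  classical
  have h1 : G = ∑ t ∈ G.support, monomial t (coeff t G) := G.as_sum
  have h2 : ∑ t ∈ G.support, monomial t (coeff t G) =
      ∑ t ∈ (Finset.range (d₁ + 1) ×ˢ Finset.range (d₂ + 1)).image (tt d₁ d₂),
        monomial t (coeff t G) := by
    refine Finset.sum_subset (fun t ht => ?_) fun t _ ht => ?_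
    · obtain ⟨h3, h4⟩ := h t ht
      refine Finset.mem_image.2 ⟨(t (Sum.inl 0), t (Sum.inr 0)), ?_, ?_⟩
      · rw [Finset.mem_product, Finset.mem_range, Finset.mem_range]
        exact ⟨by simp only; omega, by simp only; omega⟩
      · refine Finsupp.ext fun s => ?_
        rcases s with s | s
        · fin_cases s
          · exact tt_l0 _ _ _
          · refine (tt_l1 _ _ _).trans ?_
            simp only
            exact Nat.sub_eq_of_eq_add (by rw [add_comm]; exact h3.symm)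
        · fin_cases s
          · exact tt_r0 _ _ _
          · refine (tt_r1 _ _ _).trans ?_
            simp only
            exact Nat.sub_eq_of_eq_add (by rw [add_comm]; exact h4.symm)
    · rw [notMem_support_iff.1 ht, monomial_zero]
  conv_lhs => rw [h1, h2]
  rw [Finset.sum_image]
  · refine Finset.sum_congr rfl fun a _ => ?_
    rw [monomial_eq, Finsupp.prod_fintype _ _ (fun _ => pow_zero _), Fintype.prod_sum_type,
      Fin.prod_univ_two, Fin.prod_univ_two, tt_l0, tt_l1, tt_r0, tt_r1]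
  · intro a _ b _ hab
    refine Prod.ext ?_ ?_
    · rw [← tt_l0 d₁ d₂ a, ← tt_l0 d₁ d₂ b, hab]
    · rw [← tt_r0 d₁ d₂ a, ← tt_r0 d₁ d₂ b, hab]

theorem rename_gj (d₁ d₂ : ℕ) (G : MvPolynomial (Fin 2 ⊕ Fin 2) K) (j : ℕ) :
    (rename Sum.inl ((gj d₁ d₂ G j).homogenize d₁) : MvPolynomial (Fin 2 ⊕ Fin 2) K) =
      ∑ i ∈ Finset.range (d₁ + 1), C (coeff (tt d₁ d₂ (i, j)) G) *
        (X (Sum.inl 0) ^ i * X (Sum.inl 1) ^ (d₁ - i)) := by
  rw [gj, Polynomial.homogenize_finsetSum, map_sum]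
  refine Finset.sum_congr rfl fun i hi => ?_
  rw [← Polynomial.C_mul_X_pow_eq_monomial, Polynomial.homogenize_C_mul,
    Polynomial.homogenize_X_pow (Nat.lt_succ_iff.1 (Finset.mem_range.1 hi)), map_mul, map_mul,
    map_pow, map_pow, rename_C, rename_X, rename_X]

/-- A form of bidegree `(d₁, d₂)` as a form in the second variables. -/
theorem decomp {d₁ d₂ : ℕ} {G : MvPolynomial (Fin 2 ⊕ Fin 2) K} (h : BiHom d₁ d₂ G) :
    G = ∑ j ∈ Finset.range (d₂ + 1), rename Sum.inl ((gj d₁ d₂ G j).homogenize d₁) *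
      (X (Sum.inr 0) ^ j * X (Sum.inr 1) ^ (d₂ - j)) := by
  conv_lhs => rw [as_sum2 h]
  rw [Finset.sum_product_right]
  refine Finset.sum_congr rfl fun j _ => ?_
  rw [rename_gj, Finset.sum_mul]
  exact Finset.sum_congr rfl fun i _ => by ring

/-- The values of a form. -/
theorem ev_decomp {d₁ d₂ : ℕ} {G : MvPolynomial (Fin 2 ⊕ Fin 2) K} (h : BiHom d₁ d₂ G)
    {N : Type} [Field N] [Algebra K N] (P P' : Fin 2 → N) :
    ev P P' G = ∑ j ∈ Finset.range (d₂ + 1), aeval P ((gj d₁ d₂ G j).homogenize d₁) *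
      (P' 0 ^ j * P' 1 ^ (d₂ - j)) := by
  have h1 := congrArg (ev P P') (decomp h)
  refine h1.trans ?_
  rw [ev, map_sum]
  refine Finset.sum_congr rfl fun j _ => ?_
  rw [map_mul, map_mul, map_pow, map_pow, aeval_rename, aeval_X, aeval_X, Sum.elim_comp_inl,
    Sum.elim_inr, Sum.elim_inr]

/-- The fibre over `P` as a polynomial. -/
noncomputable def hP (d₁ d₂ : ℕ) (G : MvPolynomial (Fin 2 ⊕ Fin 2) K) {N : Type} [Field N]
    [Algebra K N] (P : Fin 2 → N) : Polynomial N :=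
  ∑ j ∈ Finset.range (d₂ + 1), Polynomial.monomial j (aeval P ((gj d₁ d₂ G j).homogenize d₁))

theorem natDegree_hP (d₁ d₂ : ℕ) (G : MvPolynomial (Fin 2 ⊕ Fin 2) K) {N : Type} [Field N]
    [Algebra K N] (P : Fin 2 → N) : (hP d₁ d₂ G P).natDegree ≤ d₂ := by
  refine Polynomial.natDegree_sum_le_of_forall_le _ _ fun i hi => ?_
  exact (Polynomial.natDegree_monomial_le _).trans (Nat.lt_succ_iff.1 (Finset.mem_range.1 hi))

theorem coeff_hP (d₁ d₂ : ℕ) (G : MvPolynomial (Fin 2 ⊕ Fin 2) K) {N : Type} [Field N]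
    [Algebra K N] (P : Fin 2 → N) {j : ℕ} (hj : j ∈ Finset.range (d₂ + 1)) :
    (hP d₁ d₂ G P).coeff j = aeval P ((gj d₁ d₂ G j).homogenize d₁) := by
  rw [hP, Polynomial.finsetSum_coeff, Finset.sum_eq_single j]
  · rw [Polynomial.coeff_monomial, if_pos rfl]
  · intro i _ hi
    rw [Polynomial.coeff_monomial, if_neg hi]
  · intro h
    exact absurd hj h

theorem eval_hP {d₁ d₂ : ℕ} {G : MvPolynomial (Fin 2 ⊕ Fin 2) K} (h : BiHom d₁ d₂ G)
    {N : Type} [Field N] [Algebra K N] (P P' : Fin 2 → N) :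
    eval P' ((hP d₁ d₂ G P).homogenize d₂) = ev P P' G := by
  rw [ev_decomp h, hP, Polynomial.homogenize_finsetSum, map_sum]
  refine Finset.sum_congr rfl fun j hj => ?_
  rw [← Polynomial.C_mul_X_pow_eq_monomial, Polynomial.homogenize_C_mul,
    Polynomial.homogenize_X_pow (Nat.lt_succ_iff.1 (Finset.mem_range.1 hj)), map_mul, map_mul,
    map_pow, map_pow, eval_C, eval_X, eval_X]

/-- If the coefficients vanish at a point, they have a common factor. -/
theorem common {d₁ d₂ : ℕ} (g : ℕ → Polynomial K) (hg : ∀ j, (g j).natDegree ≤ d₁)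
    (hd : 1 ≤ d₁) (hne : ∃ j ∈ Finset.range (d₂ + 1), g j ≠ 0) {N : Type} [Field N] [Algebra K N]
    (P : Fin 2 → N) (hP : P ≠ 0)
    (h0 : ∀ j ∈ Finset.range (d₂ + 1), aeval P ((g j).homogenize d₁) = 0) :
    ∃ (m : Polynomial K) (e : ℕ) (k : ℕ → Polynomial K), 1 ≤ e ∧ e ≤ d₁ ∧ m.natDegree ≤ e ∧
      ∀ j ∈ Finset.range (d₂ + 1), g j = m * k j ∧ (k j).natDegree ≤ d₁ - e := by
  have h1 : ∀ j ∈ Finset.range (d₂ + 1),
      eval P (((g j).map (algebraMap K N)).homogenize d₁) = 0 := by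
    intro j hj
    rw [Polynomial.homogenize_map, eval_map, ← aeval_def]
    exact h0 j hj
  by_cases hP1 : P 1 = 0
  · have hP0 : P 0 ≠ 0 := by
      intro h2
      refine hP (funext fun i => ?_)
      fin_cases i
      · exact h2
      · exact hP1
    refine ⟨1, 1, g, le_rfl, hd, by simp, fun j hj => ⟨(one_mul _).symm, ?_⟩⟩
    have h2 := h1 j hj
    rw [RootA.eval_inf _ _ hP1, Polynomial.coeff_map] at h2
    have h3 : (g j).coeff d₁ = 0 := by
      refine (map_eq_zero (algebraMap K N)).1 ?_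
      exact (mul_eq_zero.1 h2).resolve_right (pow_ne_zero _ hP0)
    by_contra h4
    have h5 : (g j).natDegree = d₁ := le_antisymm (hg j) (by omega)
    rw [← h5] at h3
    have h6 := Polynomial.leadingCoeff_eq_zero.1 h3
    rw [h6, Polynomial.natDegree_zero] at h4
    omega
  · have h2 : ∀ j ∈ Finset.range (d₂ + 1), Polynomial.aeval (P 0 / P 1) (g j) = 0 := by
      intro j hj
      have h3 := h1 j hj
      rw [Polynomial.eval_homogenize ((Polynomial.natDegree_map_le).trans (hg j)) P hP1] at h3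
      have h4 := (mul_eq_zero.1 h3).resolve_right (pow_ne_zero _ hP1)
      rwa [Polynomial.eval_map, ← Polynomial.aeval_def] at h4
    obtain ⟨j₀, hj₀, hj₁⟩ := hne
    have hint : IsIntegral K (P 0 / P 1) :=
      (show IsAlgebraic K (P 0 / P 1) from ⟨g j₀, hj₁, h2 j₀ hj₀⟩).isIntegral
    have hm : minpoly K (P 0 / P 1) ≠ 0 := minpoly.ne_zero hint
    have h3 : ∀ j, ∃ k : Polynomial K, j ∈ Finset.range (d₂ + 1) →
        g j = minpoly K (P 0 / P 1) * k := by
      intro j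
      by_cases hj : j ∈ Finset.range (d₂ + 1)
      · obtain ⟨k, hk⟩ := minpoly.dvd K _ (h2 j hj)
        exact ⟨k, fun _ => hk⟩
      · exact ⟨0, fun h => absurd h hj⟩
    choose k hk using h3
    have h4 : ∀ j ∈ Finset.range (d₂ + 1), k j ≠ 0 →
        (minpoly K (P 0 / P 1)).natDegree + (k j).natDegree ≤ d₁ := by
      intro j hj hkj
      have h5 := hg j
      rwa [hk j hj, Polynomial.natDegree_mul hm hkj] at h5
    have h5 : (minpoly K (P 0 / P 1)).natDegree ≤ d₁ := by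
      refine (Nat.le_add_right _ _).trans (h4 j₀ hj₀ fun h6 => hj₁ ?_)
      rw [hk j₀ hj₀, h6, mul_zero]
    refine ⟨minpoly K (P 0 / P 1), _, k, minpoly.natDegree_pos hint, h5, le_rfl,
      fun j hj => ⟨hk j hj, ?_⟩⟩
    by_cases hkj : k j = 0
    · rw [hkj, Polynomial.natDegree_zero]
      exact Nat.zero_le _
    · exact Nat.le_sub_of_add_le (by rw [add_comm]; exact h4 j hj hkj)

/-- The fibre is not everything. -/
theorem hP_ne {d₁ d₂ : ℕ} {G : MvPolynomial (Fin 2 ⊕ Fin 2) K} (h : BiHom d₁ d₂ G)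
    (hG : Irreducible G) (hd₁ : 1 ≤ d₁) (hd₂ : 1 ≤ d₂) {N : Type} [Field N] [Algebra K N]
    (P : Fin 2 → N) (hP0 : P ≠ 0) : hP d₁ d₂ G P ≠ 0 := by
  intro hzero
  have h0 : ∀ j ∈ Finset.range (d₂ + 1), aeval P ((gj d₁ d₂ G j).homogenize d₁) = 0 := by
    intro j hj
    rw [← coeff_hP d₁ d₂ G P hj, hzero, Polynomial.coeff_zero]
  have hne : ∃ j ∈ Finset.range (d₂ + 1), gj d₁ d₂ G j ≠ 0 := by
    by_contra hc
    push Not at hc
    refine hG.ne_zero ?_
    rw [decomp h]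
    refine Finset.sum_eq_zero fun j hj => ?_
    rw [hc j hj, Polynomial.homogenize_zero, map_zero, zero_mul]
  obtain ⟨m, e, k, he1, he2, hm, hk⟩ := common (gj d₁ d₂ G) (natDegree_gj d₁ d₂ G) hd₁ hne P hP0 h0
  have hfac : G = rename Sum.inl (m.homogenize e) * ∑ j ∈ Finset.range (d₂ + 1),
      rename Sum.inl ((k j).homogenize (d₁ - e)) *
        (X (Sum.inr 0) ^ j * X (Sum.inr 1) ^ (d₂ - j)) := by
    conv_lhs => rw [decomp h]
    rw [Finset.mul_sum]
    refine Finset.sum_congr rfl fun j hj => ?_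
    have h1 : (gj d₁ d₂ G j).homogenize d₁ = m.homogenize e * (k j).homogenize (d₁ - e) := by
      rw [← Polynomial.homogenize_mul _ _ hm (hk j hj).2, ← (hk j hj).1, Nat.add_sub_cancel' he2]
    rw [h1, map_mul, mul_assoc]
  rcases hG.isUnit_or_isUnit hfac with hu | hu
  · have h1 := hu.map (constantCoeff (R := K) (σ := Fin 2 ⊕ Fin 2))
    rw [constantCoeff_rename, constantCoeff_eq, Polynomial.coeff_homogenize, if_neg] at h1
    · exact not_isUnit_zero h1
    · simp only [Finsupp.coe_zero, Pi.zero_apply, add_zero]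
      omega
  · have h1 : aeval (Sum.elim X (fun _ => (0 : MvPolynomial (Fin 2) K))) G = 0 := by
      have h2 := congrArg (aeval (Sum.elim X (fun _ => (0 : MvPolynomial (Fin 2) K)))) (decomp h)
      rw [h2, map_sum]
      refine Finset.sum_eq_zero fun j hj => ?_
      rw [map_mul, map_mul, map_pow, map_pow, aeval_X, aeval_X, Sum.elim_inr, Sum.elim_inr,
        ← pow_add, Nat.add_sub_cancel' (Nat.lt_succ_iff.1 (Finset.mem_range.1 hj)),
        zero_pow (by omega), mul_zero]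
    have h2 := congrArg (aeval (Sum.elim X (fun _ => (0 : MvPolynomial (Fin 2) K)))) hfac
    rw [h1, map_mul] at h2
    have h3 := (mul_eq_zero.1 h2.symm).resolve_right
      (hu.map (aeval (Sum.elim X (fun _ => (0 : MvPolynomial (Fin 2) K))))).ne_zero
    rw [aeval_rename, Sum.elim_comp_inl, aeval_X_left_apply] at h3
    refine hG.ne_zero ?_
    rw [hfac, h3, map_zero, zero_mul]

end FibA

open FibA in
/-- Row FIB. -/
theorem fib : FibStatement := by
  intro K _ d₁ d₂ G hG hirr hd₁ hd₂ N _ _ P hP0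
  have hne := hP_ne hG hirr hd₁ hd₂ P hP0
  have hdeg := natDegree_hP d₁ d₂ G P
  refine ⟨?_, fun hN => ?_⟩
  · obtain ⟨Z, hZ, hZ'⟩ := root_same N d₂ ((hP d₁ d₂ G P).homogenize d₂)
      (fun h => hne (Polynomial.eq_zero_of_homogenize_eq_zero hdeg h))
      (Polynomial.isHomogeneous_homogenize _)
    exact ⟨Z, hZ, fun P' hP' h => hZ' P' hP' ((eval_hP hG P P').trans h)⟩
  · by_cases hc : (hP d₁ d₂ G P).coeff d₂ = 0
    · refine ⟨![1, 0], fun h => one_ne_zero (congrFun h 0), ?_⟩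
      rw [← eval_hP hG, RootA.eval_inf _ _ rfl, hc, zero_mul]
    · have h1 : (hP d₁ d₂ G P).natDegree = d₂ :=
        le_antisymm hdeg (Polynomial.le_natDegree_of_ne_zero hc)
      obtain ⟨x, hx⟩ := IsAlgClosed.exists_root (hP d₁ d₂ G P) (by
        intro h2
        have h3 := Polynomial.natDegree_eq_of_degree_eq_some (n := 0) h2
        omega)
      refine ⟨![x, 1], fun h => one_ne_zero (congrFun h 1), ?_⟩
      rw [← eval_hP hG, Polynomial.eval_homogenize hdeg _ (by simp)]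
      have h4 : (![x, 1] : Fin 2 → N) 0 / (![x, 1] : Fin 2 → N) 1 = x := by simp
      rw [h4, hx, zero_mul]

end Pool.DynLehmer.GS
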