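import Pool.Agent.Lib.MP_2194ec_nt.GAL.R.PDefs

set_option autoImplicit false

/-!
# Row FINP: the cycles of the periodic critical points
-/

namespace Pool.DynLehmer.GS
open MvPolynomial NumberField Filter Topology Pool.DynLehmer Pool.DynLehmer.SB Pool.DynLehmer.SP
  Pool.DynLehmer.GAL
open scoped Classical

namespace Finp

section prl

variable {N : Type} [Field N] {ι : Type}

theorem prl_symm {P Q : ι → N} (h : Prl P Q) : Prl Q P := by
  obtain ⟨c, hc, rfl⟩ := h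
  exact ⟨c⁻¹, inv_ne_zero hc, by rw [smul_smul, inv_mul_cancel₀ hc, one_smul]⟩

theorem prl_trans {P Q R : ι → N} (h : Prl P Q) (h' : Prl Q R) : Prl P R := by
  obtain ⟨c, hc, rfl⟩ := h
  obtain ⟨c', hc', rfl⟩ := h'
  exact ⟨c * c', mul_ne_zero hc hc', by rw [smul_smul]⟩

theorem pr_eq {P Q : Fin 2 → N} (h : Prl P Q) : pr P = pr Q := by
  obtain ⟨c, hc, rfl⟩ := h
  unfold pr
  by_cases h : Q 1 = 0
  · rw [if_pos h, if_pos (by simp [h])]
  · rw [if_neg h, if_neg (by simp [h, hc])]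
    congr 1
    exact mul_div_mul_left _ _ hc

theorem prl_of_pr {P Q : Fin 2 → N} (hP : P ≠ 0) (hQ : Q ≠ 0) (h : pr P = pr Q) : Prl P Q := by
  unfold pr at h
  by_cases h1 : P 1 = 0
  · have h2 : Q 1 = 0 := by
      by_contra h2
      rw [if_pos h1, if_neg h2] at h
      exact absurd h.symm (Option.some_ne_none _)
    have hP0 : P 0 ≠ 0 := fun h0 => hP (by funext i; fin_cases i <;> simp [h0, h1])
    have hQ0 : Q 0 ≠ 0 := fun h0 => hQ (by funext i; fin_cases i <;> simp [h0, h2])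
    refine ⟨P 0 / Q 0, div_ne_zero hP0 hQ0, ?_⟩
    funext i
    fin_cases i
    · exact (div_mul_cancel₀ _ hQ0).symm
    · change P 1 = P 0 / Q 0 * Q 1
      rw [h1, h2, mul_zero]
  · have h2 : Q 1 ≠ 0 := by
      intro h2
      rw [if_neg h1, if_pos h2] at h
      exact absurd h (Option.some_ne_none _)
    rw [if_neg h1, if_neg h2] at h
    have h3 : P 0 / P 1 = Q 0 / Q 1 := Option.some.inj h
    refine ⟨P 1 / Q 1, div_ne_zero h1 h2, ?_⟩
    funext i
    fin_cases i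
    · change P 0 = P 1 / Q 1 * Q 0
      rw [div_eq_div_iff h1 h2] at h3
      field_simp
      linear_combination h3
    · exact (div_mul_cancel₀ _ h2).symm

end prl

section iter

variable {K Ω : Type} [Field K] [Field Ω] [Algebra K Ω] {q : ℕ}
  {F : Fin 2 → MvPolynomial (Fin 2) K} (hF : Mor q F)

include hF

theorem iter_prl {P Q : Fin 2 → Ω} (h : Prl P Q) (n : ℕ) :
    Prl ((gAct F Ω)^[n] P) ((gAct F Ω)^[n] Q) := by
  obtain ⟨c, hc, rfl⟩ := h
  exact ⟨c ^ (q ^ n), pow_ne_zero _ hc, gAct_iter_smul F hF.hom n c Q⟩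

theorem iter_ne {P : Fin 2 → Ω} (h : P ≠ 0) (n : ℕ) : (gAct F Ω)^[n] P ≠ 0 := by
  induction n with
  | zero => exact h
  | succ n ih =>
    rw [Function.iterate_succ_apply']
    exact hF.ne Ω _ ih

theorem iter_per {P : Fin 2 → Ω} {k : ℕ} (h : Prl ((gAct F Ω)^[k] P) P) (m : ℕ) :
    Prl ((gAct F Ω)^[k * m] P) P := by
  induction m with
  | zero =>
    rw [Nat.mul_zero]
    exact ⟨1, one_ne_zero, (one_smul Ω P).symm⟩
  | succ m ih =>
    rw [Nat.mul_succ, Function.iterate_add_apply]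
    exact prl_trans (iter_prl hF h (k * m)) ih

theorem iter_mod {P : Fin 2 → Ω} {k : ℕ} (h : Prl ((gAct F Ω)^[k] P) P) (n : ℕ) :
    Prl ((gAct F Ω)^[n] P) ((gAct F Ω)^[n % k] P) := by
  conv_lhs => rw [← Nat.mod_add_div n k, Function.iterate_add_apply]
  exact iter_prl hF (iter_per hF h _) _

end iter

end Finp

open Finp in
/-- Row FINP. -/
theorem finp : FinpStatement := by
  intro root jac K Ω _ _ _ _ q F hq hF
  obtain ⟨hJ, hJh, -⟩ := jac K q F hq hF
  obtain ⟨Z₀, -, hZ₀⟩ := root K Ω _ (Jac F) hJ hJh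
  let Pz : Option Ω → ℕ → (Fin 2 → Ω) → Prop := fun z k P =>
    P ≠ 0 ∧ pr P = z ∧ 0 < k ∧ Prl ((gAct F Ω)^[k] P) P
  let f : Option Ω → Finset (Option Ω) := fun z =>
    if h : ∃ (k : ℕ) (P : Fin 2 → Ω), Pz z k P then
      (Finset.range h.choose).image fun j => pr ((gAct F Ω)^[j] h.choose_spec.choose) else ∅
  refine ⟨Z₀.biUnion f, ?_⟩
  rintro U hU ⟨l, -, hUl, i, hi, hc⟩
  have hP := iter_ne hF hU i
  have hPU : Prl ((gAct F Ω)^[l - i] ((gAct F Ω)^[i] U)) U := by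
    rw [← Function.iterate_add_apply, Nat.sub_add_cancel hi.le]
    exact hUl
  have hPl : Prl ((gAct F Ω)^[l] ((gAct F Ω)^[i] U)) ((gAct F Ω)^[i] U) := by
    rw [← Function.iterate_add_apply, Nat.add_comm, Function.iterate_add_apply]
    exact iter_prl hF hUl i
  refine Finset.mem_biUnion.mpr ⟨pr ((gAct F Ω)^[i] U), hZ₀ _ hP hc, ?_⟩
  have h : ∃ (k : ℕ) (P : Fin 2 → Ω), Pz (pr ((gAct F Ω)^[i] U)) k P :=
    ⟨l, _, hP, rfl, by omega, hPl⟩
  obtain ⟨h1, h2, h3, h4⟩ := h.choose_spec.choose_spec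
  change pr U ∈ dite _ _ _
  rw [dif_pos h]
  refine Finset.mem_image.mpr ⟨(l - i) % h.choose, Finset.mem_range.mpr (Nat.mod_lt _ h3), ?_⟩
  refine (pr_eq ?_).symm
  refine prl_trans (prl_symm hPU) (prl_trans ?_ (Finp.iter_mod hF h4 (l - i)))
  exact iter_prl hF (prl_of_pr hP h1 h2.symm) _

end Pool.DynLehmer.GS
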