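import Mathlib
import Pool.Agent.Lib.MP_2194ec_nt.GAL.R.PDefs
import Pool.Agent.Lib.MP_2194ec_nt.GAL.B85.Rig

set_option autoImplicit false

/-! # Leading terms and rigidity at a periodic critical point -/

namespace Pool.DynLehmer.GS
open Polynomial Pool.DynLehmer.GAL

namespace H90

variable {Ω : Type} [Field Ω]

theorem const_top {a : Ω} (ha : a ≠ 0) : (algebraMap Ω (HahnSeries ℚ Ω) a).orderTop = 0 := by
  rw [algMap_eq]
  exact HahnSeries.orderTop_single (a := (0 : ℚ)) ha

/-- the values of polynomials at a series of positive order -/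
theorem small_eval {y : HahnSeries ℚ Ω} (hy : y ≠ 0) (hpos : 0 < y.order) {p : Polynomial Ω}
    (hp : p ≠ 0) : aeval y p ≠ 0 ∧ (aeval y p).order = (p.natTrailingDegree : ℚ) * y.order ∧
      (aeval y p).leadingCoeff = p.trailingCoeff * y.leadingCoeff ^ p.natTrailingDegree := by
  classical
  set m := p.natTrailingDegree with hm
  set T : HahnSeries ℚ Ω := algebraMap Ω (HahnSeries ℚ Ω) p.trailingCoeff * y ^ m with hT
  set R : HahnSeries ℚ Ω := ∑ i ∈ (Finset.range (p.natDegree + 1)).erase m,
    algebraMap Ω (HahnSeries ℚ Ω) (p.coeff i) * y ^ i with hR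
  have hmem : m ∈ Finset.range (p.natDegree + 1) := by
    rw [Finset.mem_range, hm]
    exact Nat.lt_succ_of_le (natTrailingDegree_le_natDegree _)
  have h1 : aeval y p = T + R := by
    rw [aeval_def, eval₂_eq_sum_range, ← Finset.add_sum_erase _ _ hmem, hT, hR]
    rfl
  have hlc : p.trailingCoeff ≠ 0 := by
    rw [Ne, trailingCoeff_eq_zero]
    exact hp
  have hT1 : T.orderTop = (((m : ℚ) * y.order : ℚ) : WithTop ℚ) := by
    rw [hT, v_mul, v_pow hy, const_top hlc, zero_add]
  have hT0 : T ≠ 0 := by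
    rw [← HahnSeries.orderTop_ne_top, hT1]
    exact WithTop.coe_ne_top
  have hT2 : T.leadingCoeff = p.trailingCoeff * y.leadingCoeff ^ m := by
    rw [hT, HahnSeries.leadingCoeff_mul, algMap_eq]
    change (HahnSeries.single 0 _).leadingCoeff * _ = _
    rw [HahnSeries.leadingCoeff_of_single]
    rw [lc_pow]
    rfl
  have hTR : T.orderTop < R.orderTop := by
    have h2 := AddValuation.map_lt_sum (HahnSeries.addVal ℚ Ω)
      (s := (Finset.range (p.natDegree + 1)).erase m)
      (f := fun i => algebraMap Ω (HahnSeries ℚ Ω) (p.coeff i) * y ^ i)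
      (g := (((m : ℚ) * y.order : ℚ) : WithTop ℚ)) WithTop.coe_ne_top (by
        intro i hi
        rw [Finset.mem_erase] at hi
        rcases lt_or_gt_of_ne hi.1 with h | h
        · rw [coeff_eq_zero_of_lt_natTrailingDegree h, map_zero, zero_mul, AddValuation.map_zero]
          exact WithTop.coe_lt_top _
        · rw [HahnSeries.addVal_apply, v_mul, v_pow hy]
          have h3 : (((m : ℚ) * y.order : ℚ) : WithTop ℚ) <
              (((i : ℚ) * y.order : ℚ) : WithTop ℚ) := by
            rw [WithTop.coe_lt_coe]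
            have : (m : ℚ) < i := by exact_mod_cast h
            nlinarith
          refine lt_of_lt_of_le h3 ?_
          exact le_add_of_nonneg_left (v_const _))
    rw [HahnSeries.addVal_apply] at h2
    rw [hT1]
    exact h2
  have h3 : (T + R).orderTop = T.orderTop := HahnSeries.orderTop_add_eq_left hTR
  have h4 : (T + R).leadingCoeff = T.leadingCoeff := HahnSeries.leadingCoeff_add_eq_left hTR
  have h5 : T + R ≠ 0 := by
    rw [← HahnSeries.orderTop_ne_top, h3]
    exact HahnSeries.orderTop_ne_top.2 hT0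
  rw [h1]
  refine ⟨h5, ?_, by rw [h4, hT2]⟩
  have h6 := HahnSeries.order_eq_orderTop_of_ne_zero h5
  rw [h3, hT1] at h6
  exact_mod_cast h6

theorem ntd_zero {p : Polynomial Ω} (h : p.coeff 0 ≠ 0) : p.natTrailingDegree = 0 :=
  natTrailingDegree_eq_zero.2 (Or.inr h)

/-- Leading terms. -/
theorem lead {P Q : Polynomial Ω} {μ : ℕ} (hP : P ≠ 0) (hQ : Q.coeff 0 ≠ 0)
    {y : HahnSeries ℚ Ω} (hy : y ≠ 0) (hpos : 0 < y.order)
    (h : aeval y P = aeval y Q * phi Ω μ y) :
    P.natTrailingDegree = μ + 1 ∧ P.trailingCoeff * y.leadingCoeff ^ μ = Q.coeff 0 := by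
  have hQ0 : Q ≠ 0 := fun h0 => hQ (by rw [h0, coeff_zero])
  obtain ⟨hP1, hP2, hP3⟩ := small_eval hy hpos hP
  obtain ⟨hQ1, hQ2, hQ3⟩ := small_eval hy hpos hQ0
  have hQt : Q.natTrailingDegree = 0 := ntd_zero hQ
  have hphi : phi Ω μ y ≠ 0 := fun h0 => hy (phi_injective μ (by rw [h0, map_zero]))
  have e1 : (aeval y P).order = (aeval y Q).order + (phi Ω μ y).order := by
    rw [h, HahnSeries.order_mul hQ1 hphi]
  rw [hP2, hQ2, hQt, phi_order] at e1
  have e2 : (P.natTrailingDegree : ℚ) * y.order = (((μ + 1 : ℕ) : ℚ)) * y.order := by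
    rw [e1]
    push_cast
    ring
  have e3 : P.natTrailingDegree = μ + 1 := by
    have := mul_right_cancel₀ hpos.ne' e2
    exact_mod_cast this
  refine ⟨e3, ?_⟩
  have e4 : (aeval y P).leadingCoeff = (aeval y Q).leadingCoeff * (phi Ω μ y).leadingCoeff := by
    rw [h, HahnSeries.leadingCoeff_mul]
  rw [hP3, hQ3, hQt, phi_leadingCoeff, e3, pow_zero, mul_one, pow_succ, ← mul_assoc] at e4
  have e5 := mul_right_cancel₀ (HahnSeries.leadingCoeff_ne_zero.2 hy) e4
  rw [e5, trailingCoeff, hQt]

/-- Rigidity. -/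
theorem rig [CharZero Ω] {P Q : Polynomial Ω} {μ : ℕ} (hP : P ≠ 0)
    (hQ : Q.coeff 0 ≠ 0) (hμ : 1 ≤ μ) {y z : HahnSeries ℚ Ω} (hy : y ≠ 0) (hz : z ≠ 0)
    (hpos : 0 < y.order) (ho : z.order = y.order) (hl : z.leadingCoeff = y.leadingCoeff)
    (h : aeval y P = aeval y Q * phi Ω μ y) (h' : aeval z P = aeval z Q * phi Ω μ z) :
    y = z := by
  classical
  by_contra hcon
  have hw : y - z ≠ 0 := sub_ne_zero.2 hcon
  have hm := (lead hP hQ hy hpos h).1
  -- the order of the difference
  have hρ : y.order < (y - z).order := by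
    have h0 : (y - z).coeff y.order = 0 := by
      rw [HahnSeries.coeff_sub, ← HahnSeries.leadingCoeff_eq, ← ho, ← HahnSeries.leadingCoeff_eq,
        hl, sub_self]
    have h1 : y.order ≤ (y - z).order := by
      by_contra hlt
      push Not at hlt
      have h2 : (y - z).coeff (y - z).order ≠ 0 := fun h3 =>
        hw (HahnSeries.coeff_order_eq_zero.1 h3)
      apply h2
      rw [HahnSeries.coeff_sub, HahnSeries.coeff_eq_zero_of_lt_order hlt,
        HahnSeries.coeff_eq_zero_of_lt_order (by rw [ho]; exact hlt), sub_self]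
    refine lt_of_le_of_ne h1 fun h2 => ?_
    rw [h2] at h0
    exact hw (HahnSeries.coeff_order_eq_zero.1 h0)
  have hmem : μ + 1 ∈ Finset.range (P.natDegree + 1) := by
    rw [Finset.mem_range, ← hm]
    exact Nat.lt_succ_of_le (natTrailingDegree_le_natDegree _)
  have hlc : P.coeff (μ + 1) ≠ 0 := by
    have : P.trailingCoeff ≠ 0 := by
      rw [Ne, trailingCoeff_eq_zero]
      exact hP
    rwa [trailingCoeff, hm] at this
  -- the left side
  have e1 : aeval y P - aeval z P =
      algebraMap Ω (HahnSeries ℚ Ω) (P.coeff (μ + 1)) * (y ^ (μ + 1) - z ^ (μ + 1)) +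
      ∑ i ∈ (Finset.range (P.natDegree + 1)).erase (μ + 1),
        algebraMap Ω (HahnSeries ℚ Ω) (P.coeff i) * (y ^ i - z ^ i) := by
    rw [Finset.add_sum_erase _ (fun i => algebraMap Ω (HahnSeries ℚ Ω) (P.coeff i) *
      (y ^ i - z ^ i)) hmem, aeval_def, aeval_def, eval₂_eq_sum_range, eval₂_eq_sum_range,
      ← Finset.sum_sub_distrib]
    refine Finset.sum_congr rfl fun i _ => ?_
    rw [mul_sub]
  have hA : (algebraMap Ω (HahnSeries ℚ Ω) (P.coeff (μ + 1)) *
      (y ^ (μ + 1) - z ^ (μ + 1))).orderTop =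
      (((μ : ℚ) * y.order + (y - z).order : ℚ) : WithTop ℚ) := by
    rw [v_mul, pow_sub_order hy hz ho hl hw, const_top hlc, zero_add]
  have hL : (aeval y P - aeval z P).orderTop =
      (((μ : ℚ) * y.order + (y - z).order : ℚ) : WithTop ℚ) := by
    rw [e1, HahnSeries.orderTop_add_eq_left, hA]
    rw [hA]
    have h2 := AddValuation.map_lt_sum (HahnSeries.addVal ℚ Ω)
      (s := (Finset.range (P.natDegree + 1)).erase (μ + 1))
      (f := fun i => algebraMap Ω (HahnSeries ℚ Ω) (P.coeff i) * (y ^ i - z ^ i))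
      (g := (((μ : ℚ) * y.order + (y - z).order : ℚ) : WithTop ℚ)) WithTop.coe_ne_top (by
        intro i hi
        rw [Finset.mem_erase] at hi
        rcases lt_or_gt_of_ne hi.1 with hlt | hgt
        · rw [coeff_eq_zero_of_lt_natTrailingDegree (by rw [hm]; exact hlt), map_zero, zero_mul,
            AddValuation.map_zero]
          exact WithTop.coe_lt_top _
        · obtain ⟨j, rfl⟩ : ∃ j, i = j + 1 := ⟨i - 1, by omega⟩
          rw [HahnSeries.addVal_apply, v_mul]
          refine lt_of_lt_of_le ?_ (le_add_of_nonneg_left (v_const _))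
          rw [pow_sub_order hy hz ho hl hw, WithTop.coe_lt_coe]
          have : (μ : ℚ) < j := by exact_mod_cast (by omega : μ < j)
          nlinarith)
    rw [HahnSeries.addVal_apply] at h2
    exact h2
  -- the right side
  have e2 : aeval y P - aeval z P =
      aeval y Q * phi Ω μ (y - z) + (aeval y Q - aeval z Q) * phi Ω μ z := by
    rw [h, h', map_sub]
    ring
  have hR1 : (((μ : ℚ) * y.order + (y - z).order : ℚ) : WithTop ℚ) <
      (aeval y Q * phi Ω μ (y - z)).orderTop := by
    have hpw : phi Ω μ (y - z) ≠ 0 := fun h0 => hw (phi_injective μ (by rw [h0, map_zero]))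
    have hyt : 0 ≤ y.orderTop := HahnSeries.zero_le_orderTop_iff.2 hpos.le
    rw [v_mul]
    refine lt_of_lt_of_le ?_ (le_add_of_nonneg_left (int_eval hyt Q))
    rw [← HahnSeries.order_eq_orderTop_of_ne_zero hpw, phi_order, WithTop.coe_lt_coe]
    have : (0 : ℚ) < μ := by exact_mod_cast hμ
    nlinarith
  have hR2 : (((μ : ℚ) * y.order + (y - z).order : ℚ) : WithTop ℚ) <
      ((aeval y Q - aeval z Q) * phi Ω μ z).orderTop := by
    have hpz : phi Ω μ z ≠ 0 := fun h0 => hz (phi_injective μ (by rw [h0, map_zero]))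
    have h3 : (((y - z).order : ℚ) : WithTop ℚ) ≤ (aeval y Q - aeval z Q).orderTop := by
      rw [aeval_def, aeval_def, eval₂_eq_sum_range, eval₂_eq_sum_range, ← Finset.sum_sub_distrib,
        ← HahnSeries.addVal_apply]
      refine AddValuation.map_le_sum _ ?_
      intro i _
      rw [← mul_sub, HahnSeries.addVal_apply, v_mul]
      refine le_trans ?_ (le_add_of_nonneg_left (v_const _))
      rcases i with _ | j
      · rw [pow_zero, pow_zero, sub_self, HahnSeries.orderTop_zero]
        exact le_top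
      · rw [pow_sub_order hy hz ho hl hw, WithTop.coe_le_coe]
        have : (0 : ℚ) ≤ j := by positivity
        nlinarith
    rw [v_mul]
    refine lt_of_lt_of_le ?_ (add_le_add_left h3 _)
    rw [← HahnSeries.order_eq_orderTop_of_ne_zero hpz, phi_order, ho, ← WithTop.coe_add,
      WithTop.coe_lt_coe]
    nlinarith
  have h9 := HahnSeries.min_orderTop_le_orderTop_add
    (x := aeval y Q * phi Ω μ (y - z)) (y := (aeval y Q - aeval z Q) * phi Ω μ z)
  rw [← e2, hL] at h9
  exact absurd h9 (not_le.2 (lt_min hR1 hR2))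

end H90

/-- Row HSA. -/
theorem hsa : HsaStatement := by
  intro Ω _ _ P Q μ hP0 hP hQ hμ
  exact ⟨fun y hy hpos h => H90.lead hP hQ hy hpos h,
    fun y z hy hz hpos ho hl h h' => H90.rig hP hQ hμ hy hz hpos ho hl h h'⟩

end Pool.DynLehmer.GS
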