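import Mathlib
import Pool.Agent.Lib.MP_2194ec_nt.GAL.R.Defs
import Pool.Agent.Lib.MP_2194ec_nt.RamL

set_option autoImplicit false

/-!
# Row HTS: points of the backward orbit of a wandering point have large degree
-/

namespace Pool.DynLehmer.GS.Hts
open MvPolynomial NumberField Filter Topology Pool.DynLehmer Pool.DynLehmer.GS
open scoped Classical

/-! ## The bound over `K` -/

theorem bound {K : Type} [Field K] [NumberField K] {p s : ℕ} {v : FinitePlace K}
    {F : Fin 2 → MvPolynomial (Fin 2) K} (hF : HypR p s v F) :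
    ∃ A B : ℝ, 0 < A ∧ 0 < B ∧ ∀ (L : Type) [Field L] [NumberField L] [Algebra K L],
      ∀ x : Fin 2 → L, x ≠ 0 → WandP F x →
      ∃ h : ℝ, Tendsto (fun n : ℕ => Height.logHeight ((gAct F L)^[n] x) /
        (Module.finrank ℚ L : ℝ) / ((p ^ s : ℕ) : ℝ) ^ n) atTop (𝓝 h) ∧
        A / (Module.finrank K L : ℝ) *
          Real.exp (-(B * (1 + Real.sqrt (Real.log (Module.finrank K L))))) ≤ h := by
  obtain ⟨Φ, hΦP, hϖ0, hϖ, hunif⟩ := exists_GF v hF.prime F hF.hom hF.above hF.int hF.red hF.det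
  have hz := gno_common_zero hF.prime Φ hϖ F hΦP
  have hq2 : 2 ≤ p ^ s := hF.prime.two_le.trans (Nat.le_self_pow (by have := hF.pos; omega) p)
  obtain ⟨A, B, hA, hB, H⟩ := rel_galois2 (show 2 ≤ Fintype.card (Fin 2) by simp) hq2 F hF.hom hz
    hF.prime hF.pos v F hF.hom hF.above hF.int hF.red hF.det (fun i j => mul_comm _ _) 1 le_rfl
  refine ⟨A, B, hA, hB, fun L _ _ _ x hx hw => ?_⟩
  have hsub : Subsingleton (K ≃ₐ[K] K) := ⟨fun g g' => AlgEquiv.ext fun a => by
    have h1 := g.commutes a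
    have h2 := g'.commutes a
    exact h1.trans h2.symm⟩
  obtain ⟨h, hlim, hle⟩ := H 1 le_rfl K (fun g => Set.ncard_le_one_of_subsingleton _) 1 le_rfl
    (by
      intro Q hQ hQv hle
      have h1 : v.maximalIdeal.asIdeal = Q := by
        have := hQv.over
        rw [this]
        rfl
      rw [h1] at hle
      have h2 : Q ≤ Q ^ (1 + 1) := fun a ha => hle (Ideal.mem_map_of_mem _ ha)
      have hQ0 : Q ≠ ⊥ := by
        rw [← h1]
        exact v.maximalIdeal.ne_bot
      have h3 := Ideal.pow_right_strictAnti Q hQ0 hQ.ne_top (show 1 < 1 + 1 by norm_num)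
      simp only [pow_one] at h3
      exact absurd (lt_of_le_of_lt h2 h3) (lt_irrefl _)) L x hx hw
  refine ⟨h, hlim, ?_⟩
  have h4 : (((Fintype.card (Fin 2) - 1 : ℕ) : ℝ) / (((Fintype.card (Fin 2) - 1 : ℕ) : ℝ) + 1)) =
      1 / 2 := by
    rw [Fintype.card_fin]
    norm_num
  rw [h4, ← Real.sqrt_eq_rpow] at hle
  simpa using hle

/-! ## Proportional vectors -/

section

variable {K : Type} [Field K] {N : Type} [Field N] [Algebra K N] {ι : Type}

theorem prl_symm {P Q : ι → N} (h : Prl P Q) : Prl Q P := by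
  obtain ⟨c, hc, rfl⟩ := h
  exact ⟨c⁻¹, inv_ne_zero hc, by rw [smul_smul, inv_mul_cancel₀ hc, one_smul]⟩

theorem prl_trans {P Q R : ι → N} (h : Prl P Q) (h' : Prl Q R) : Prl P R := by
  obtain ⟨c, hc, rfl⟩ := h
  obtain ⟨c', hc', rfl⟩ := h'
  exact ⟨c * c', mul_ne_zero hc hc', by rw [smul_smul]⟩

theorem prl_iter {q : ℕ} {F : Fin 2 → MvPolynomial (Fin 2) K} (hF : ∀ i, (F i).IsHomogeneous q)
    {P Q : Fin 2 → N} (h : Prl P Q) (n : ℕ) : Prl ((gAct F N)^[n] P) ((gAct F N)^[n] Q) := by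
  obtain ⟨c, hc, rfl⟩ := h
  exact ⟨c ^ q ^ n, pow_ne_zero _ hc, gAct_iter_smul F hF n c Q⟩

theorem wand_of {q : ℕ} {F : Fin 2 → MvPolynomial (Fin 2) K} (hF : ∀ i, (F i).IsHomogeneous q)
    {P U : Fin 2 → N} {i : ℕ} (h : Prl ((gAct F N)^[i] P) U) (hU : WandP F U) : WandP F P := by
  rintro ⟨m, n, hmn, hc⟩
  refine hU ⟨m, n, hmn, ?_⟩
  have h0 : Prl ((gAct F N)^[n] P) ((gAct F N)^[m] P) := hc
  have h1 := prl_iter hF h0 i
  rw [← Function.iterate_add_apply, ← Function.iterate_add_apply, add_comm i n, add_comm i m,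
    Function.iterate_add_apply, Function.iterate_add_apply] at h1
  exact prl_trans (prl_trans (prl_symm (prl_iter hF h n)) h1) (prl_iter hF h m)

theorem wand_map {q : ℕ} {F : Fin 2 → MvPolynomial (Fin 2) K} (hF : ∀ i, (F i).IsHomogeneous q)
    {L : Type} [Field L] [Algebra K L] (φ : L →ₐ[K] N) {P : Fin 2 → N} {x : Fin 2 → L}
    (h : Prl P (fun i => φ (x i))) (hP : WandP F P) : WandP F x := by
  rintro ⟨m, n, hmn, c, hc, e⟩
  refine hP ⟨m, n, hmn, ?_⟩
  have h1 := prl_iter hF h n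
  have h2 := prl_iter hF h m
  rw [gAct_iter_map] at h1 h2
  refine prl_trans (prl_trans h1 ?_) (prl_symm h2)
  refine ⟨φ c, by simpa using hc, ?_⟩
  funext i
  rw [e]
  simp

/-- the normalised vector -/
theorem exists_norm (P : Fin 2 → N) (hP : P ≠ 0) :
    ∃ x : Fin 2 → IntermediateField.adjoin K {P 0 / P 1}, (∃ i, x i = 1) ∧
      Prl P (fun i => (IntermediateField.adjoin K {P 0 / P 1}).val (x i)) := by
  by_cases h : P 1 = 0
  · have h0 : P 0 ≠ 0 := by
      intro h0
      refine hP (funext fun i => ?_)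
      fin_cases i
      · exact h0
      · exact h
    refine ⟨![1, 0], ⟨0, rfl⟩, P 0, h0, ?_⟩
    funext i
    fin_cases i
    · simp
    · simp [h]
  · refine ⟨![⟨P 0 / P 1, IntermediateField.mem_adjoin_simple_self K _⟩, 1], ⟨1, rfl⟩, P 1, h, ?_⟩
    funext i
    fin_cases i
    · simp [mul_div_cancel₀ _ h]
    · simp

end

/-! ## Heights -/

theorem height_eq {K : Type} [Field K] {q : ℕ} {F : Fin 2 → MvPolynomial (Fin 2) K}
    (hF : ∀ i, (F i).IsHomogeneous q) {L M : Type} [Field L] [NumberField L] [Field M]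
    [NumberField M] [Algebra K L] [Algebra K M] (φ : L →ₐ[K] M) (u : Fin 2 → L) (c : M)
    (hc : c ≠ 0) (n : ℕ) :
    Height.logHeight ((gAct F M)^[n] (c • fun k => φ (u k))) / (Module.finrank ℚ M : ℝ) =
      Height.logHeight ((gAct F L)^[n] u) / (Module.finrank ℚ L : ℝ) := by
  let _ : Algebra L M := φ.toRingHom.toAlgebra
  have h1 := logHeight_algebraMap (L := L) (N := M) ((gAct F L)^[n] u)
  have h2 : (fun i => algebraMap L M ((gAct F L)^[n] u i)) =
      fun i => φ ((gAct F L)^[n] u i) := rfl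
  have h3 : Module.finrank ℚ L * Module.finrank L M = Module.finrank ℚ M :=
    Module.finrank_mul_finrank ℚ L M
  have h4 : (0 : ℝ) < Module.finrank ℚ L := by exact_mod_cast Module.finrank_pos
  have h5 : (0 : ℝ) < Module.finrank ℚ M := by exact_mod_cast Module.finrank_pos
  have h6 : (Module.finrank ℚ L : ℝ) * Module.finrank L M = Module.finrank ℚ M := by
    exact_mod_cast h3
  rw [gAct_iter_smul F hF, gAct_iter_map, Height.logHeight_smul_eq_logHeight _ (pow_ne_zero _ hc),
    ← h2, h1, ← h6]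
  have h7 : (Module.finrank L M : ℝ) ≠ 0 := by
    intro h0
    rw [h0, mul_zero] at h6
    exact h5.ne h6
  field_simp

/-- the inequality between real numbers -/
theorem real_ineq {A B D hU Q : ℝ} (hA : 0 < A) (hD : 1 ≤ D) (hQ : 0 < Q)
    (h : A / D * Real.exp (-(B * (1 + Real.sqrt (Real.log D)))) ≤ hU / Q) :
    Q ≤ hU * Real.exp (B + B ^ 2 / 4) / A * D ^ 2 := by
  have hD0 : 0 < D := by linarith
  have hl : 0 ≤ Real.log D := Real.log_nonneg hD
  have h1 : B * (1 + Real.sqrt (Real.log D)) ≤ B + B ^ 2 / 4 + Real.log D := by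
    nlinarith [sq_nonneg (Real.sqrt (Real.log D) - B / 2), Real.sq_sqrt hl]
  have h2 : Real.exp (-(B + B ^ 2 / 4 + Real.log D)) ≤
      Real.exp (-(B * (1 + Real.sqrt (Real.log D)))) := Real.exp_le_exp.2 (by linarith)
  have h3 : A / D * Real.exp (-(B + B ^ 2 / 4 + Real.log D)) ≤ hU / Q :=
    (mul_le_mul_of_nonneg_left h2 (by positivity)).trans h
  rw [Real.exp_neg, Real.exp_add, Real.exp_log hD0, le_div_iff₀ hQ] at h3
  have he : 0 < Real.exp (B + B ^ 2 / 4) := Real.exp_pos _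
  have h4 : A / D * (Real.exp (B + B ^ 2 / 4) * D)⁻¹ * Q =
      A * Q / (D ^ 2 * Real.exp (B + B ^ 2 / 4)) := by
    field_simp
  rw [h4, div_le_iff₀ (by positivity)] at h3
  rw [div_mul_eq_mul_div, le_div_iff₀ hA]
  nlinarith [h3]

theorem hts : HtsStatement := by
  intro K _ _ p s v F hF U hU hw
  obtain ⟨A, B, hA, hB, H⟩ := bound hF
  have hq : 1 < p ^ s := Nat.one_lt_pow (by have := hF.pos; omega) hF.prime.one_lt
  obtain ⟨u, ⟨i0, hi0⟩, hu⟩ := exists_norm (K := K) U hU
  have hfdU : FiniteDimensional K (IntermediateField.adjoin K {U 0 / U 1}) :=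
    IntermediateField.adjoin.finiteDimensional (Algebra.IsIntegral.isIntegral _)
  have hnfU : NumberField (IntermediateField.adjoin K {U 0 / U 1}) :=
    NumberField.of_module_finite K _
  have hu0 : u ≠ 0 := by
    intro h
    rw [h] at hi0
    exact zero_ne_one hi0
  have huw : WandP F u := wand_map hF.hom _ hu hw
  obtain ⟨hU', hlimU, -⟩ := H _ u hu0 huw
  refine ⟨⌈hU' * Real.exp (B + B ^ 2 / 4) / A⌉₊, fun i P hP hPU => ?_⟩
  obtain ⟨x, ⟨j0, hj0⟩, hx⟩ := exists_norm (K := K) P hP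
  have hfdP : FiniteDimensional K (IntermediateField.adjoin K {P 0 / P 1}) :=
    IntermediateField.adjoin.finiteDimensional (Algebra.IsIntegral.isIntegral _)
  have hnfP : NumberField (IntermediateField.adjoin K {P 0 / P 1}) :=
    NumberField.of_module_finite K _
  have hx0 : x ≠ 0 := by
    intro h
    rw [h] at hj0
    exact zero_ne_one hj0
  have hxw : WandP F x := wand_map hF.hom _ hx (wand_of hF.hom hPU hw)
  obtain ⟨h, hlim, hle⟩ := H _ x hx0 hxw
  -- the point `y = F ^ i (x)`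
  set y := (gAct F (IntermediateField.adjoin K {P 0 / P 1}))^[i] x with hy
  have hyU : Prl U (fun k => (IntermediateField.adjoin K {P 0 / P 1}).val (y k)) := by
    have h1 := prl_iter hF.hom hx i
    rw [gAct_iter_map] at h1
    exact prl_trans (prl_symm hPU) h1
  have hEE : IntermediateField.adjoin K {U 0 / U 1} ≤ IntermediateField.adjoin K {P 0 / P 1} := by
    rw [IntermediateField.adjoin_simple_le_iff]
    obtain ⟨c, hc, e⟩ := hyU
    have h1 : U 0 / U 1 = ((y 0 / y 1 : IntermediateField.adjoin K {P 0 / P 1}) :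
        AlgebraicClosure K) := by
      rw [e]
      simp [mul_div_mul_left _ _ hc]
    rw [h1]
    exact (y 0 / y 1).2
  have hyu : y = y i0 • fun k => IntermediateField.inclusion hEE (u k) := by
    obtain ⟨c, hc, e⟩ := prl_trans (prl_symm hyU) hu
    have h1 : ((y i0 : IntermediateField.adjoin K {P 0 / P 1}) : AlgebraicClosure K) = c := by
      have := congrFun e i0
      simpa [hi0] using this
    funext k
    refine Subtype.ext ?_
    have := congrFun e k
    simp only [Pi.smul_apply, smul_eq_mul] at this ⊢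
    rw [← h1] at this
    exact this
  have hyi0 : y i0 ≠ 0 := by
    intro h0
    rw [h0, zero_smul] at hyu
    obtain ⟨c, hc, e⟩ := hyU
    refine hU (e.trans ?_)
    rw [hyu]
    funext k
    simp
  have hpow : ((p ^ s : ℕ) : ℝ) ^ i ≠ 0 := by positivity
  -- the limits
  have hlim2 : Tendsto (fun n : ℕ => Height.logHeight
      ((gAct F (IntermediateField.adjoin K {P 0 / P 1}))^[n + i] x) /
      (Module.finrank ℚ (IntermediateField.adjoin K {P 0 / P 1}) : ℝ) /
        ((p ^ s : ℕ) : ℝ) ^ (n + i)) atTop (𝓝 h) := hlim.comp (tendsto_add_atTop_nat i)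
  have hlim3 : Tendsto (fun n : ℕ => Height.logHeight
      ((gAct F (IntermediateField.adjoin K {P 0 / P 1}))^[n + i] x) /
      (Module.finrank ℚ (IntermediateField.adjoin K {P 0 / P 1}) : ℝ) /
        ((p ^ s : ℕ) : ℝ) ^ (n + i)) atTop (𝓝 (hU' / ((p ^ s : ℕ) : ℝ) ^ i)) := by
    refine (hlimU.div_const (((p ^ s : ℕ) : ℝ) ^ i)).congr fun n => ?_
    rw [Function.iterate_add_apply, ← hy, hyu,
      height_eq hF.hom (IntermediateField.inclusion hEE) u (y i0) hyi0 n, pow_add]
    simp only [div_div, mul_assoc]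
  have hh : h = hU' / ((p ^ s : ℕ) : ℝ) ^ i := tendsto_nhds_unique hlim2 hlim3
  rw [hh] at hle
  have hD : (1 : ℝ) ≤ Module.finrank K (IntermediateField.adjoin K {P 0 / P 1}) := by
    exact_mod_cast Nat.one_le_iff_ne_zero.2 Module.finrank_pos.ne'
  have h9 := real_ineq hA hD (by positivity) hle
  have h10 : ((p ^ s : ℕ) : ℝ) ^ i ≤ (⌈hU' * Real.exp (B + B ^ 2 / 4) / A⌉₊ : ℝ) *
      (dg K P : ℝ) ^ 2 :=
    h9.trans (mul_le_mul_of_nonneg_right (Nat.le_ceil _) (by positivity))
  exact_mod_cast h10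

end Pool.DynLehmer.GS.Hts

namespace Pool.DynLehmer.GS

/-- Row HTS. -/
theorem hts : HtsStatement := Hts.hts

end Pool.DynLehmer.GS
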