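import Pool.Agent.Lib.MP_2194ec_nt.GAL.R.Defs

set_option autoImplicit false

/-!
# Row JAC: the Jacobian determinant of a morphism of the projective line and of its iterates
-/

namespace Pool.DynLehmer.GS
open MvPolynomial NumberField Filter Topology Pool.DynLehmer
open scoped Classical

namespace J19

/-! ## The chain rule and the iterates -/

/-- chain rule for partial derivatives -/
theorem pderiv_bind {K σ : Type} [CommRing K] [Fintype σ] (F : σ → MvPolynomial σ K)
    (i : σ) (g : MvPolynomial σ K) :
    pderiv i (bind₁ F g) = ∑ j, bind₁ F (pderiv j g) * pderiv i (F j) := by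
  induction g using MvPolynomial.induction_on with
  | C a => simp
  | add p q hp hq => simp only [map_add, hp, hq, add_mul, Finset.sum_add_distrib]
  | mul_X p n hp =>
    have h1 : ∀ x, pderiv x (X n : MvPolynomial σ K) = if x = n then 1 else 0 := by
      intro x
      by_cases h : x = n
      · subst h; simp
      · rw [if_neg h, pderiv_X_of_ne (Ne.symm h)]
    have h2 : ∑ j, bind₁ F (pderiv j (p * X n)) * pderiv i (F j) =
        ∑ j, ((bind₁ F p * (if j = n then 1 else 0)) * pderiv i (F j) +
          F n * (bind₁ F (pderiv j p) * pderiv i (F j))) := by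
      refine Finset.sum_congr rfl fun j _ => ?_
      rw [pderiv_mul, h1, map_add, map_mul, map_mul, bind₁_X_right]
      by_cases h : j = n
      · simp only [h, if_true, map_one]; ring
      · simp only [h, if_false, map_zero]; ring
    rw [h2, Finset.sum_add_distrib, ← Finset.mul_sum, ← hp, map_mul, bind₁_X_right, pderiv_mul]
    have h3 : ∑ j, (bind₁ F p * (if j = n then 1 else 0)) * pderiv i (F j) =
        bind₁ F p * pderiv i (F n) := by
      rw [Finset.sum_eq_single n]
      · simp
      · intro b _ hb
        rw [if_neg hb]; simp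
      · intro h; exact absurd (Finset.mem_univ _) h
    rw [h3]
    ring

theorem jac_bind {K : Type} [Field K] (F G : Fin 2 → MvPolynomial (Fin 2) K) :
    Jac (fun i => bind₁ F (G i)) = bind₁ F (Jac G) * Jac F := by
  simp only [Jac, pderiv_bind, Fin.sum_univ_two, map_sub, map_mul]
  ring

theorem itF_succ {K : Type} [Field K] (F : Fin 2 → MvPolynomial (Fin 2) K) (n : ℕ) :
    itF F (n + 1) = fun i => bind₁ F (itF F n i) := by
  funext i
  simp only [itF, Function.iterate_succ_apply']

theorem jac_it {K : Type} [Field K] (F : Fin 2 → MvPolynomial (Fin 2) K)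
    {N : Type} [Field N] [Algebra K N] (n : ℕ) : ∀ P : Fin 2 → N,
    (aeval P (Jac (itF F n)) = 0 ↔ ∃ i < n, aeval ((gAct F N)^[i] P) (Jac F) = 0) := by
  induction n with
  | zero =>
    intro P
    have h : Jac (itF F 0) = 1 := by
      simp [Jac, itF, pderiv_X]
    rw [h]
    simp
  | succ n ih =>
    intro P
    rw [itF_succ, jac_bind, map_mul, mul_eq_zero, aeval_bind₁]
    have h2 : (aeval fun i => aeval P (F i)) (Jac (itF F n)) =
        aeval (gAct F N P) (Jac (itF F n)) := rfl
    rw [h2, ih]
    constructor
    · rintro (⟨i, hi, h⟩ | h)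
      · exact ⟨i + 1, by omega, by rw [Function.iterate_succ_apply]; exact h⟩
      · exact ⟨0, by omega, h⟩
    · rintro ⟨i, hi, h⟩
      rcases i with _ | i
      · exact Or.inr h
      · exact Or.inl ⟨i, by omega, by rw [Function.iterate_succ_apply] at h; exact h⟩

/-! ## Substitution of polynomials -/

theorem eval_aeval {K N σ : Type} [Field K] [Field N] [Algebra K N] (L : σ → Polynomial N)
    (f : MvPolynomial σ K) (t : N) :
    (aeval L f).eval t = aeval (fun i => (L i).eval t) f := by
  have h := MvPolynomial.comp_aeval_apply (R := K) (f := L)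
    (φ := ((Polynomial.aeval t : Polynomial N →ₐ[N] N).restrictScalars K)) f
  simpa [Polynomial.aeval_def, Polynomial.eval₂_eq_eval_map] using h

theorem deriv_aeval {K N σ : Type} [Field K] [Field N] [Algebra K N] [Fintype σ]
    (L : σ → Polynomial N) (f : MvPolynomial σ K) :
    Polynomial.derivative (aeval L f) =
      ∑ j, aeval L (pderiv j f) * Polynomial.derivative (L j) := by
  induction f using MvPolynomial.induction_on with
  | C a =>
    simp only [algHom_C, pderiv_C, map_zero, zero_mul, Finset.sum_const_zero]
    rw [Polynomial.algebraMap_apply, Polynomial.derivative_C]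
  | add p q hp hq => simp only [map_add, hp, hq, add_mul, Finset.sum_add_distrib]
  | mul_X p n hp =>
    have h1 : ∀ x, pderiv x (X n : MvPolynomial σ K) = if x = n then 1 else 0 := by
      intro x
      by_cases h : x = n
      · subst h; simp
      · rw [if_neg h, pderiv_X_of_ne (Ne.symm h)]
    have h2 : ∑ j, aeval L (pderiv j (p * X n)) * Polynomial.derivative (L j) =
        ∑ j, ((aeval L p * (if j = n then 1 else 0)) * Polynomial.derivative (L j) +
          L n * (aeval L (pderiv j p) * Polynomial.derivative (L j))) := by
      refine Finset.sum_congr rfl fun j _ => ?_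
      rw [pderiv_mul, h1, map_add, map_mul, map_mul, aeval_X]
      by_cases h : j = n
      · simp only [h, if_true, map_one]; ring
      · simp only [h, if_false, map_zero]; ring
    rw [h2, Finset.sum_add_distrib, ← Finset.mul_sum, ← hp, map_mul, aeval_X,
      Polynomial.derivative_mul]
    have h3 : ∑ j, (aeval L p * (if j = n then 1 else 0)) * Polynomial.derivative (L j) =
        aeval L p * Polynomial.derivative (L n) := by
      rw [Finset.sum_eq_single n]
      · simp
      · intro b _ hb
        rw [if_neg hb]; simp
      · intro h; exact absurd (Finset.mem_univ _) h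
    rw [h3]
    ring

/-! ## Zeros of forms in two variables -/

/-- a form of positive degree in two variables has a nontrivial zero -/
theorem form_zero {K N : Type} [Field K] [Field N] [Algebra K N] [IsAlgClosed N] (q : ℕ)
    (hq : 1 ≤ q) (F : MvPolynomial (Fin 2) K) (hF : F.IsHomogeneous q) :
    ∃ P : Fin 2 → N, P ≠ 0 ∧ aeval P F = 0 := by
  set f : Polynomial N := aeval ![(1 : Polynomial N), Polynomial.X] F with hf
  have hev : ∀ t : N, f.eval t = aeval ![(1 : N), t] F := by
    intro t
    rw [hf, eval_aeval]
    congr 2
    funext i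
    fin_cases i <;> simp
  by_cases hr : ∃ t, f.IsRoot t
  · obtain ⟨t, ht⟩ := hr
    refine ⟨![1, t], ?_, ?_⟩
    · intro h
      have := congrFun h 0
      simp at this
    · rw [← hev]; exact ht
  · have hdeg : f.degree = 0 := by
      by_contra hne
      exact hr (IsAlgClosed.exists_root f hne)
    obtain ⟨c, hc⟩ : ∃ c, f = Polynomial.C c := ⟨f.coeff 0, Polynomial.eq_C_of_degree_eq_zero hdeg⟩
    refine ⟨![0, 1], ?_, ?_⟩
    · intro h
      have := congrFun h 1
      simp at this
    · set g : Polynomial N := aeval ![Polynomial.X, (1 : Polynomial N)] F with hg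
      have hevg : ∀ t : N, g.eval t = aeval ![t, (1 : N)] F := by
        intro t
        rw [hg, eval_aeval]
        congr 2
        funext i
        fin_cases i <;> simp
      have hhom : ∀ (x : N) (v : Fin 2 → N), aeval (x • v) F = x ^ q * aeval v F := by
        intro x v
        have h := congrFun (gAct_smul (fun _ : Fin 2 => F) (fun _ => hF) x v) 0
        simpa [gAct] using h
      have hz : g - Polynomial.C c * Polynomial.X ^ q = 0 := by
        refine Polynomial.eq_zero_of_infinite_isRoot _ ?_
        refine Set.Infinite.mono (s := ({0}ᶜ : Set N)) ?_ ?_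
        · intro x hx
          have hx' : x ≠ 0 := hx
          have h1 : aeval ![x, (1 : N)] F = x ^ q * c := by
            have h2 : ![x, (1 : N)] = x • ![(1 : N), x⁻¹] := by
              funext i
              fin_cases i
              · simp
              · simp [hx']
            rw [h2, hhom, ← hev, hc, Polynomial.eval_C]
          have h3 : (g - Polynomial.C c * Polynomial.X ^ q).eval x = 0 := by
            simp only [Polynomial.eval_sub, Polynomial.eval_mul, Polynomial.eval_C,
              Polynomial.eval_pow, Polynomial.eval_X, hevg, h1]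
            ring
          exact h3
        · have : Infinite N := IsAlgClosed.instInfinite
          exact (Set.finite_singleton (0 : N)).infinite_compl
      have h4 : g.eval 0 = 0 := by
        rw [sub_eq_zero] at hz
        rw [hz]
        simp
        right
        omega
      rw [← hevg, h4]

/-- if `(g / h)' = 0`, `g(0) = 0` and `h(0) ≠ 0`, then `g = 0` -/
theorem quot_const {N : Type} [Field N] [CharZero N] (g h : Polynomial N)
    (e : h * Polynomial.derivative g = g * Polynomial.derivative h) (h0 : h.eval 0 ≠ 0)
    (g0 : g.eval 0 = 0) : g = 0 := by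
  have hX : ∀ u : Polynomial N, Polynomial.X ∣ h * u → Polynomial.X ∣ u := by
    intro u hu
    rcases Polynomial.prime_X.dvd_or_dvd hu with h1 | h1
    · exfalso
      apply h0
      rw [Polynomial.X_dvd_iff, Polynomial.coeff_zero_eq_eval_zero] at h1
      exact h1
    · exact h1
  have key : ∀ n : ℕ, Polynomial.X ^ (n + 1) ∣ g := by
    intro n
    induction n with
    | zero =>
      rw [zero_add, pow_one, Polynomial.X_dvd_iff, Polynomial.coeff_zero_eq_eval_zero]
      exact g0
    | succ n ih =>
      obtain ⟨u, hu⟩ := ih
      have h1 : Polynomial.X ^ n * (h * ((n + 1 : ℕ) : Polynomial N) * u) =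
          Polynomial.X ^ n * (Polynomial.X * (u * Polynomial.derivative h -
            h * Polynomial.derivative u)) := by
        rw [hu] at e
        simp only [Polynomial.derivative_mul, Polynomial.derivative_X_pow, Nat.add_sub_cancel] at e
        simp only [pow_succ] at e ⊢
        push_cast at e ⊢
        simp only [map_add, map_natCast, map_one] at e
        linear_combination e
      have h2 := mul_left_cancel₀ (pow_ne_zero n Polynomial.X_ne_zero) h1
      have h3 : Polynomial.X ∣ h * ((((n + 1 : ℕ) : Polynomial N)) * u) := by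
        rw [← mul_assoc, h2]
        exact Dvd.intro _ rfl
      have h4 := hX _ h3
      rcases Polynomial.prime_X.dvd_or_dvd h4 with h5 | h5
      · exfalso
        rw [Polynomial.X_dvd_iff] at h5
        have : ((n + 1 : ℕ) : Polynomial N).coeff 0 = ((n + 1 : ℕ) : N) := by
          rw [← Polynomial.C_eq_natCast, Polynomial.coeff_C_zero]
        rw [this] at h5
        exact absurd h5 (Nat.cast_ne_zero.2 (by omega))
      · obtain ⟨w, hw⟩ := h5
        exact ⟨w, by rw [hu, hw]; ring⟩
  by_contra hg
  have h6 := Polynomial.natDegree_le_of_dvd (key g.natDegree) hg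
  rw [Polynomial.natDegree_X_pow] at h6
  omega

/-! ## The Jacobian determinant -/

theorem jac_ne {K : Type} [Field K] [CharZero K] (q : ℕ) (F : Fin 2 → MvPolynomial (Fin 2) K)
    (hq : 1 ≤ q) (hM : Mor q F) : Jac F ≠ 0 := by
  intro hJ
  have e0 := (hM.hom 0).sum_X_mul_pderiv
  have e1 := (hM.hom 1).sum_X_mul_pderiv
  rw [Fin.sum_univ_two, nsmul_eq_mul] at e0 e1
  have hJ' : pderiv 0 (F 0) * pderiv 1 (F 1) - pderiv 1 (F 0) * pderiv 0 (F 1) = 0 := hJ
  have hq0 : ((q : ℕ) : MvPolynomial (Fin 2) K) ≠ 0 := Nat.cast_ne_zero.2 (by omega)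
  have i1 : F 1 * pderiv 1 (F 0) = F 0 * pderiv 1 (F 1) := by
    apply mul_left_cancel₀ hq0
    linear_combination (-(X 0 : MvPolynomial (Fin 2) K)) * hJ' + pderiv 1 (F 1) * e0 -
      pderiv 1 (F 0) * e1
  have i0 : F 1 * pderiv 0 (F 0) = F 0 * pderiv 0 (F 1) := by
    apply mul_left_cancel₀ hq0
    linear_combination ((X 1 : MvPolynomial (Fin 2) K)) * hJ' + pderiv 0 (F 1) * e0 -
      pderiv 0 (F 0) * e1
  obtain ⟨P, hP, hP0⟩ := form_zero (N := AlgebraicClosure K) q hq (F 0) (hM.hom 0)
  obtain ⟨P', hP', hP1⟩ := form_zero (N := AlgebraicClosure K) q hq (F 1) (hM.hom 1)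
  have hP1' : aeval P (F 1) ≠ 0 := by
    intro h
    apply hM.ne _ P hP
    funext i
    fin_cases i
    · exact hP0
    · exact h
  have hP0' : aeval P' (F 0) ≠ 0 := by
    intro h
    apply hM.ne _ P' hP'
    funext i
    fin_cases i
    · exact h
    · exact hP1
  set L : Fin 2 → Polynomial (AlgebraicClosure K) :=
    fun i => Polynomial.C (P i) + Polynomial.C (P' i - P i) * Polynomial.X with hL
  have hL0 : (fun i => (L i).eval 0) = P := by
    funext i
    simp [hL]
  have hL1 : (fun i => (L i).eval 1) = P' := by
    funext i
    simp [hL]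
  have e : aeval L (F 1) * Polynomial.derivative (aeval L (F 0)) =
      aeval L (F 0) * Polynomial.derivative (aeval L (F 1)) := by
    rw [deriv_aeval, deriv_aeval, Fin.sum_univ_two, Fin.sum_univ_two]
    have j0 := congrArg (fun f => aeval L f) i0
    have j1 := congrArg (fun f => aeval L f) i1
    simp only [map_mul] at j0 j1
    linear_combination Polynomial.derivative (L 0) * j0 + Polynomial.derivative (L 1) * j1
  have hg := quot_const (aeval L (F 0)) (aeval L (F 1)) e
    (by rw [eval_aeval, hL0]; exact hP1') (by rw [eval_aeval, hL0]; exact hP0)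
  apply hP0'
  have h5 := eval_aeval L (F 0) 1
  rw [hL1, hg, Polynomial.eval_zero] at h5
  exact h5.symm

end J19

open J19 in
/-- Row JAC: the Jacobian determinant of a morphism and of its iterates. -/
theorem jac : JacStatement := by
  intro K _ _ q F hq hM
  refine ⟨jac_ne q F hq hM, ?_, ?_⟩
  · have h : 2 * (q - 1) = (q - 1) + (q - 1) := by omega
    rw [h]
    exact (((hM.hom 0).pderiv (i := 0)).mul ((hM.hom 1).pderiv (i := 1))).sub
      (((hM.hom 0).pderiv (i := 1)).mul ((hM.hom 1).pderiv (i := 0)))
  · intro N _ _ P n _
    exact jac_it F n P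

end Pool.DynLehmer.GS
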