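import Mathlib
import Pool.Agent.Lib.MP_2194ec_nt.GAL.R.SDefs

set_option autoImplicit false

/-!
# Row LDG: the map near a point
-/

namespace Pool.DynLehmer.GS.LDG
open MvPolynomial Pool.DynLehmer
open scoped Classical

section

variable {K Ω : Type} [Field K] [Field Ω] [Algebra K Ω]

/-- The point `U + X V` over the polynomials. -/
noncomputable def pt (U V : Fin 2 → Ω) (j : Fin 2) : Polynomial Ω :=
  Polynomial.C (U j) + Polynomial.X * Polynomial.C (V j)

theorem pt_aeval (U V : Fin 2 → Ω) {N : Type} [Field N] [Algebra Ω N] (y : N) (j : Fin 2) :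
    Polynomial.aeval y (pt U V j) = algebraMap Ω N (U j) + y * algebraMap Ω N (V j) := by
  rw [pt, map_add, map_mul, Polynomial.aeval_C, Polynomial.aeval_C, Polynomial.aeval_X]

/-- The value of a form at `U + X V`. -/
noncomputable def W (U V : Fin 2 → Ω) (G : MvPolynomial (Fin 2) K) : Polynomial Ω :=
  aeval (pt U V) G

theorem W_aeval (U V : Fin 2 → Ω) (G : MvPolynomial (Fin 2) K) {N : Type} [Field N]
    [Algebra Ω N] [Algebra K N] [IsScalarTower K Ω N] (y : N) :
    Polynomial.aeval y (W U V G) = aeval (lpt U V y) G := by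
  have h1 := comp_aeval_apply (R := K) ((Polynomial.aeval (R := Ω) y).restrictScalars K)
    (f := pt U V) G
  have h2 : (fun i => ((Polynomial.aeval (R := Ω) y).restrictScalars K) (pt U V i)) =
      lpt U V y := by
    funext i
    exact pt_aeval U V y i
  rw [h2] at h1
  exact h1

/-- The chain rule. -/
theorem derivative_W (U V : Fin 2 → Ω) (G : MvPolynomial (Fin 2) K) :
    Polynomial.derivative (W U V G) =
      ∑ j, W U V (pderiv j G) * Polynomial.C (V j) := by
  unfold W
  induction G using MvPolynomial.induction_on with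
  | C a =>
    have h1 : (aeval (pt U V)) (C a : MvPolynomial (Fin 2) K) =
        Polynomial.C (algebraMap K Ω a) := by
      rw [aeval_C]
      rfl
    rw [h1, Polynomial.derivative_C]
    refine (Finset.sum_eq_zero fun j _ => ?_).symm
    rw [pderiv_C, map_zero, zero_mul]
  | add p q hp hq =>
    rw [map_add, map_add, hp, hq, ← Finset.sum_add_distrib]
    refine Finset.sum_congr rfl fun j _ => ?_
    rw [map_add, map_add, add_mul]
  | mul_X p n hp =>
    have h1 : Polynomial.derivative (pt U V n) = Polynomial.C (V n) := by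
      rw [pt, Polynomial.derivative_add, Polynomial.derivative_C, zero_add,
        Polynomial.derivative_mul, Polynomial.derivative_X, Polynomial.derivative_C, mul_zero,
        add_zero, one_mul]
    rw [map_mul, Polynomial.derivative_mul, hp, aeval_X, h1, Finset.sum_mul]
    have h2 : ∀ j, (aeval (pt U V)) (pderiv j (p * X n)) * Polynomial.C (V j) =
        (aeval (pt U V)) (pderiv j p) * Polynomial.C (V j) * pt U V n +
          (if j = n then (aeval (pt U V)) p * Polynomial.C (V j) else 0) := by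
      intro j
      rw [pderiv_mul, map_add, map_mul, map_mul, aeval_X, pderiv_X, add_mul]
      congr 1
      · ring
      · by_cases h : j = n
        · subst h
          rw [Pi.single_eq_same, map_one, mul_one, if_pos rfl]
        · rw [Pi.single_eq_of_ne (fun h' => h h'.symm), map_zero, mul_zero, zero_mul, if_neg h]
    rw [Finset.sum_congr rfl fun j _ => h2 j, Finset.sum_add_distrib, Finset.sum_ite_eq']
    rw [if_pos (Finset.mem_univ n)]

theorem W_coeff_zero (U V : Fin 2 → Ω) (G : MvPolynomial (Fin 2) K) :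
    (W U V G).coeff 0 = aeval U G := by
  have h1 := W_aeval U V G (N := Ω) (0 : Ω)
  have h2 : lpt U V (0 : Ω) = U := by
    funext i
    rw [lpt, zero_mul, add_zero]
    rfl
  rw [h2] at h1
  rw [← h1, Polynomial.coe_aeval_eq_eval, Polynomial.coeff_zero_eq_eval_zero]

theorem W_coeff_one (U V : Fin 2 → Ω) (G : MvPolynomial (Fin 2) K) :
    (W U V G).coeff 1 = ∑ j, aeval U (pderiv j G) * V j := by
  have h1 := congrArg (fun p => Polynomial.coeff p 0) (derivative_W U V G)
  simp only [Polynomial.coeff_derivative, Nat.cast_zero, zero_add, mul_one,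
    Polynomial.finsetSum_coeff, Polynomial.coeff_mul_C, W_coeff_zero] at h1
  exact h1

theorem W_natDegree (U V : Fin 2 → Ω) {d : ℕ} {G : MvPolynomial (Fin 2) K}
    (hG : G.IsHomogeneous d) : (W U V G).natDegree ≤ d := by
  unfold W
  rw [aeval_def, eval₂_eq']
  refine Polynomial.natDegree_sum_le_of_forall_le _ _ fun t ht => ?_
  have h1 : t 0 + t 1 = d := by
    have h := hG (mem_support_iff.1 ht)
    have h2 : t.degree = d := by
      rw [Finsupp.degree_eq_weight_one]
      exact h
    rw [Finsupp.degree_eq_sum, Fin.sum_univ_two] at h2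
    exact h2
  have hp : ∀ j, (pt U V j).natDegree ≤ 1 := by
    intro j
    unfold pt
    refine (Polynomial.natDegree_add_le _ _).trans (max_le ?_ ?_)
    · rw [Polynomial.natDegree_C]
      exact Nat.zero_le _
    · refine Polynomial.natDegree_mul_le.trans ?_
      rw [Polynomial.natDegree_C, Polynomial.natDegree_X]
  rw [IsScalarTower.algebraMap_apply K Ω (Polynomial Ω), Polynomial.algebraMap_eq,
    Fin.prod_univ_two]
  refine (Polynomial.natDegree_C_mul_le _ _).trans ?_
  refine Polynomial.natDegree_mul_le.trans ?_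
  refine (add_le_add Polynomial.natDegree_pow_le Polynomial.natDegree_pow_le).trans ?_
  have h2 := Nat.mul_le_mul_left (t 0) (hp 0)
  have h3 := Nat.mul_le_mul_left (t 1) (hp 1)
  omega

/-- The linear form vanishing at `U`. -/
noncomputable def lf (U : Fin 2 → Ω) : MvPolynomial (Fin 2) Ω := C (U 1) * X 0 - C (U 0) * X 1

theorem W_lf (U V : Fin 2 → Ω) :
    W U V (lf U) = Polynomial.C (-(U 0 * V 1 - U 1 * V 0)) * Polynomial.X := by
  unfold W lf
  rw [map_sub, map_mul, map_mul, aeval_C, aeval_C, aeval_X, aeval_X, Polynomial.algebraMap_eq, pt,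
    pt, Polynomial.C_neg, Polynomial.C_sub, Polynomial.C_mul, Polynomial.C_mul]
  ring

/-- A form in the coordinates of the basis `U, V`. -/
theorem hom_id [Infinite Ω] (U V : Fin 2 → Ω) (hUV : Ind U V) {d : ℕ}
    {H : MvPolynomial (Fin 2) Ω} (hH : H.IsHomogeneous d) :
    C ((U 0 * V 1 - U 1 * V 0) ^ d) * H = ∑ i ∈ Finset.range (d + 1),
      C ((W U V H).coeff i) * (C (V 1) * X 0 - C (V 0) * X 1) ^ (d - i) * (-lf U) ^ i := by
  have hA : (C (V 1) * X 0 - C (V 0) * X 1 : MvPolynomial (Fin 2) Ω) ≠ 0 := by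
    intro h
    have h1 := congrArg (eval U) h
    rw [map_sub, map_mul, map_mul, eval_C, eval_C, eval_X, eval_X, map_zero] at h1
    exact hUV (by linear_combination h1)
  refine mul_left_cancel₀ hA ?_
  refine MvPolynomial.funext fun x => ?_
  rw [map_mul, map_mul, map_mul, eval_C, map_sum]
  have hAx : eval x (C (V 1) * X 0 - C (V 0) * X 1 : MvPolynomial (Fin 2) Ω) =
      V 1 * x 0 - V 0 * x 1 := by
    rw [map_sub, map_mul, map_mul, eval_C, eval_C, eval_X, eval_X]
  rw [hAx]
  by_cases hx : V 1 * x 0 - V 0 * x 1 = 0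
  · rw [hx, zero_mul, zero_mul]
  congr 1
  set δ := U 0 * V 1 - U 1 * V 0 with hδ
  set a := V 1 * x 0 - V 0 * x 1 with ha
  set b := U 0 * x 1 - U 1 * x 0 with hb
  have h1 : (δ • x : Fin 2 → Ω) = a • lpt U V (b / a) := by
    funext i
    change δ * x i = a * (U i + b / a * V i)
    rw [mul_add, ← mul_assoc, mul_div_cancel₀ b hx]
    fin_cases i
    · change δ * x 0 = a * U 0 + b * V 0
      rw [hδ, ha, hb]
      ring
    · change δ * x 1 = a * U 1 + b * V 1
      rw [hδ, ha, hb]
      ring
  have h2 : δ ^ d * eval x H = a ^ d * Polynomial.eval (b / a) (W U V H) := by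
    rw [← eval_smul_hom hH δ x, h1, eval_smul_hom hH a (lpt U V (b / a))]
    congr 1
    have := W_aeval U V H (N := Ω) (b / a)
    rw [Polynomial.coe_aeval_eq_eval] at this
    rw [this]
    rfl
  rw [h2, Polynomial.eval_eq_sum_range' (Nat.lt_succ_of_le (W_natDegree U V hH)), Finset.mul_sum]
  refine Finset.sum_congr rfl fun i hi => ?_
  have hi' : i ≤ d := Nat.lt_succ_iff.1 (Finset.mem_range.1 hi)
  rw [map_mul, map_mul, map_pow, map_pow, eval_C, hAx, map_neg, lf, map_sub, map_mul, map_mul,
    eval_C, eval_C, eval_X, eval_X]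
  have h3 : -(U 1 * x 0 - U 0 * x 1) = b := by rw [hb]; ring
  have h4 : a ^ d = a ^ (d - i) * a ^ i := by rw [← pow_add, Nat.sub_add_cancel hi']
  rw [h3, h4, div_pow]
  field_simp

theorem pow_dvd_iff [Infinite Ω] (U V : Fin 2 → Ω) (hUV : Ind U V) {d : ℕ}
    {H : MvPolynomial (Fin 2) Ω} (hH : H.IsHomogeneous d) (k : ℕ) :
    lf U ^ k ∣ H ↔ Polynomial.X ^ k ∣ W U V H := by
  constructor
  · rintro ⟨S, rfl⟩
    refine ⟨Polynomial.C (-(U 0 * V 1 - U 1 * V 0)) ^ k * W U V S, ?_⟩
    have h1 : W U V (lf U ^ k * S) = W U V (lf U) ^ k * W U V S := by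
      unfold W
      rw [map_mul, map_pow]
    rw [h1, W_lf, mul_pow]
    ring
  · intro h
    have h1 : lf U ^ k ∣ C ((U 0 * V 1 - U 1 * V 0) ^ d) * H := by
      rw [hom_id U V hUV hH]
      refine Finset.dvd_sum fun i _ => ?_
      by_cases hi : i < k
      · rw [Polynomial.X_pow_dvd_iff.1 h i hi, C_0, zero_mul, zero_mul]
        exact dvd_zero _
      · refine Dvd.dvd.mul_left ?_ _
        rw [neg_pow]
        exact Dvd.dvd.mul_left (pow_dvd_pow _ (not_lt.1 hi)) _
    have h2 : H = C (((U 0 * V 1 - U 1 * V 0) ^ d)⁻¹) *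
        (C ((U 0 * V 1 - U 1 * V 0) ^ d) * H) := by
      rw [← mul_assoc, ← C_mul, inv_mul_cancel₀ (pow_ne_zero _ hUV), C_1, one_mul]
    rw [h2]
    exact Dvd.dvd.mul_left h1 _

theorem mult_eq [Infinite Ω] (U V : Fin 2 → Ω) (hUV : Ind U V) {d : ℕ}
    {H : MvPolynomial (Fin 2) Ω} (hH : H.IsHomogeneous d) (h0 : W U V H ≠ 0) :
    multiplicity (lf U) H = (W U V H).natTrailingDegree := by
  refine multiplicity_eq_of_dvd_of_not_dvd ?_ ?_
  · rw [pow_dvd_iff U V hUV hH, Polynomial.X_pow_dvd_iff]
    intro i hi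
    exact Polynomial.coeff_eq_zero_of_lt_natTrailingDegree hi
  · rw [pow_dvd_iff U V hUV hH, Polynomial.X_pow_dvd_iff]
    intro h
    exact Polynomial.trailingCoeff_nonzero_iff_nonzero.2 h0 (h _ (Nat.lt_succ_self _))

end

theorem ldg : LdgStatement := by
  intro K Ω _ _ _ _ q F hq hF U V Z hUV hAZ
  set A : Fin 2 → Ω := gAct F Ω U with hA
  have hA' : ∀ i, aeval U (F i) = A i := fun i => rfl
  set D : Ω := A 0 * Z 1 - A 1 * Z 0 with hD
  have hD0 : D ≠ 0 := hAZ
  set δ : Ω := U 0 * V 1 - U 1 * V 0 with hδ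
  have hδ0 : δ ≠ 0 := hUV
  obtain ⟨Q, hQ⟩ : ∃ Q : Polynomial Ω, Q = Polynomial.C D⁻¹ *
    (W U V (F 0) * Polynomial.C (Z 1) - W U V (F 1) * Polynomial.C (Z 0)) := ⟨_, rfl⟩
  obtain ⟨P, hP⟩ : ∃ P : Polynomial Ω, P = Polynomial.C D⁻¹ *
    (Polynomial.C (A 0) * W U V (F 1) - Polynomial.C (A 1) * W U V (F 0)) := ⟨_, rfl⟩
  have hCD : Polynomial.C D⁻¹ * (Polynomial.C (A 0) * Polynomial.C (Z 1) -
      Polynomial.C (A 1) * Polynomial.C (Z 0)) = 1 := by
    rw [← Polynomial.C_mul, ← Polynomial.C_mul, ← Polynomial.C_sub, ← Polynomial.C_mul, ← hD,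
      inv_mul_cancel₀ hD0, Polynomial.C_1]
  have hW : ∀ i, W U V (F i) = Q * Polynomial.C (A i) + P * Polynomial.C (Z i) := by
    intro i
    fin_cases i
    · change W U V (F 0) = Q * Polynomial.C (A 0) + P * Polynomial.C (Z 0)
      rw [hQ, hP]
      linear_combination -(W U V (F 0)) * hCD
    · change W U V (F 1) = Q * Polynomial.C (A 1) + P * Polynomial.C (Z 1)
      rw [hQ, hP]
      linear_combination -(W U V (F 1)) * hCD
  have hval : ∀ (N : Type) [Field N] [Algebra Ω N] [Algebra K N] [IsScalarTower K Ω N] (y : N),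
      gAct F N (lpt U V y) = fun i => Polynomial.aeval y Q * algebraMap Ω N (A i) +
        Polynomial.aeval y P * algebraMap Ω N (Z i) := by
    intro N _ _ _ _ y
    funext i
    have h1 := congrArg (Polynomial.aeval y) (hW i)
    rw [W_aeval, map_add, map_mul, map_mul, Polynomial.aeval_C, Polynomial.aeval_C] at h1
    exact h1
  have hP0 : P ≠ 0 := by
    intro hP0
    have hval' : ∀ (N : Type) [Field N] [Algebra Ω N] [Algebra K N] [IsScalarTower K Ω N] (y : N),
        gAct F N (lpt U V y) = fun i => Polynomial.aeval y Q * algebraMap Ω N (A i) := by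
      intro N _ _ _ _ y
      rw [hval N y]
      funext i
      rw [hP0, map_zero, zero_mul, add_zero]
    have hQc : Q.degree = 0 := by
      by_contra hd
      obtain ⟨y, hy⟩ := IsAlgClosed.exists_aeval_eq_zero (AlgebraicClosure Ω) Q hd
      have h1 := hval' (AlgebraicClosure Ω) y
      refine hF.ne (AlgebraicClosure Ω) (lpt U V y) ?_ ?_
      · intro h2
        have h3 := congrFun h2 0
        have h4 := congrFun h2 1
        simp only [lpt, Pi.zero_apply] at h3 h4
        have h5 : algebraMap Ω (AlgebraicClosure Ω) δ = 0 := by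
          rw [hδ, map_sub, map_mul, map_mul]
          linear_combination algebraMap Ω (AlgebraicClosure Ω) (V 1) * h3 -
            algebraMap Ω (AlgebraicClosure Ω) (V 0) * h4
        exact hδ0 ((map_eq_zero _).1 h5)
      · rw [h1]
        funext i
        rw [hy, zero_mul]
        rfl
    have hQ' : Q = Polynomial.C (Q.coeff 0) := Polynomial.eq_C_of_degree_eq_zero hQc
    have hW' : ∀ i, W V U (F i) = Polynomial.X ^ q * Polynomial.C (Q.coeff 0 * A i) := by
      intro i
      refine Polynomial.eq_of_infinite_eval_eq _ _ ?_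
      refine Set.Infinite.mono ?_ (Set.finite_singleton (0 : Ω)).infinite_compl
      intro x hx
      have hx0 : x ≠ 0 := hx
      have h1 : Polynomial.eval x (W V U (F i)) = aeval (lpt V U x) (F i) := by
        rw [← W_aeval V U (F i) (N := Ω) x, Polynomial.coe_aeval_eq_eval]
      have h2 : lpt V U x = x • lpt U V x⁻¹ := by
        funext j
        change algebraMap Ω Ω (V j) + x * algebraMap Ω Ω (U j) =
          x * (algebraMap Ω Ω (U j) + x⁻¹ * algebraMap Ω Ω (V j))
        rw [mul_add, mul_inv_cancel_left₀ hx0, add_comm]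
      have h3 : gAct F Ω (lpt V U x) i = x ^ q * gAct F Ω (lpt U V x⁻¹) i := by
        rw [h2, gAct_smul F hF.hom]
        rfl
      have h4 : gAct F Ω (lpt U V x⁻¹) i = Q.coeff 0 * A i := by
        rw [hval' Ω x⁻¹, Polynomial.coe_aeval_eq_eval]
        change Polynomial.eval x⁻¹ Q * A i = _
        conv_lhs => rw [hQ', Polynomial.eval_C]
      change Polynomial.eval x (W V U (F i)) = _
      rw [h1]
      change gAct F Ω (lpt V U x) i = _
      rw [h3, h4, Polynomial.eval_mul, Polynomial.eval_pow, Polynomial.eval_X, Polynomial.eval_C]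
    refine hF.ne Ω V ?_ ?_
    · intro h2
      refine hδ0 ?_
      rw [hδ, h2]
      simp only [Pi.zero_apply, mul_zero, sub_zero]
    · funext i
      have h1 := W_coeff_zero V U (F i)
      rw [hW', Polynomial.coeff_mul_C, Polynomial.coeff_X_pow, if_neg (by omega), zero_mul] at h1
      exact h1.symm
  have hQ0 : Q.coeff 0 = 1 := by
    rw [hQ, Polynomial.coeff_C_mul, Polynomial.coeff_sub, Polynomial.coeff_mul_C,
      Polynomial.coeff_mul_C, W_coeff_zero, W_coeff_zero, hA', hA']
    have : A 0 * Z 1 - A 1 * Z 0 = D := by rw [hD]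
    rw [this, inv_mul_cancel₀ hD0]
  have hPc0 : P.coeff 0 = 0 := by
    rw [hP, Polynomial.coeff_C_mul, Polynomial.coeff_sub, Polynomial.coeff_C_mul,
      Polynomial.coeff_C_mul, W_coeff_zero, W_coeff_zero, hA', hA']
    ring
  -- the form `R`
  obtain ⟨R, hR⟩ : ∃ R : MvPolynomial (Fin 2) Ω, R = C (A 1) * map (algebraMap K Ω) (F 0) -
      C (A 0) * map (algebraMap K Ω) (F 1) := ⟨_, rfl⟩
  have hRh : R.IsHomogeneous q := by
    have h1 := (isHomogeneous_C (Fin 2) (A 1)).mul ((hF.hom 0).map (algebraMap K Ω))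
    have h2 := (isHomogeneous_C (Fin 2) (A 0)).mul ((hF.hom 1).map (algebraMap K Ω))
    rw [zero_add] at h1 h2
    rw [hR]
    exact h1.sub h2
  have hWm : ∀ i, W U V (map (algebraMap K Ω) (F i)) = W U V (F i) := by
    intro i
    unfold W
    rw [aeval_map_algebraMap]
  have hWR : W U V R = Polynomial.C (-D) * P := by
    have h1 : W U V R = Polynomial.C (A 1) * W U V (F 0) - Polynomial.C (A 0) * W U V (F 1) := by
      rw [← hWm 0, ← hWm 1, hR]
      unfold W
      rw [map_sub, map_mul, map_mul, aeval_C, aeval_C, Polynomial.algebraMap_eq]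
    have h2 : Polynomial.C D * Polynomial.C D⁻¹ = 1 := by
      rw [← Polynomial.C_mul, mul_inv_cancel₀ hD0, Polynomial.C_1]
    rw [h1, hP, Polynomial.C_neg]
    linear_combination (Polynomial.C (A 1) * W U V (F 0) -
      Polynomial.C (A 0) * W U V (F 1)) * (-h2)
  have hWR0 : W U V R ≠ 0 := by
    rw [hWR]
    exact mul_ne_zero (Polynomial.C_ne_zero.2 (neg_ne_zero.2 hD0)) hP0
  have hld : ld F U = (W U V R).natTrailingDegree := by
    have h1 : ld F U = multiplicity (lf U) R := by
      rw [hR]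
      rfl
    rw [h1]
    exact mult_eq U V hUV hRh hWR0
  have hPt : P.natTrailingDegree = ld F U := by
    rw [hld, hWR, Polynomial.natTrailingDegree_mul
      (Polynomial.C_ne_zero.2 (neg_ne_zero.2 hD0)) hP0, Polynomial.natTrailingDegree_C, zero_add]
  have hpos : 1 ≤ ld F U := by
    rw [← hPt]
    by_contra h
    have h1 : P.natTrailingDegree = 0 := by omega
    have h2 := Polynomial.trailingCoeff_nonzero_iff_nonzero.2 hP0
    rw [Polynomial.trailingCoeff, h1] at h2
    exact h2 hPc0
  have hle : ld F U ≤ q := by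
    rw [hld]
    exact (Polynomial.natTrailingDegree_le_natDegree _).trans (W_natDegree U V hRh)
  have hJac : ld F U = 1 ↔ P.coeff 1 ≠ 0 := by
    constructor
    · intro h
      have h2 := Polynomial.trailingCoeff_nonzero_iff_nonzero.2 hP0
      rw [Polynomial.trailingCoeff, hPt, h] at h2
      exact h2
    · intro h
      have h2 := Polynomial.natTrailingDegree_le_of_ne_zero h
      rw [hPt] at h2
      omega
  refine ⟨hpos, hle, ?_, P, Q, hP0, hPt, hQ0, hval⟩
  rw [hJac]
  have hq0 : (q : Ω) ≠ 0 := Nat.cast_ne_zero.2 (by omega)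
  have hE : ∀ i, U 0 * aeval U (pderiv 0 (F i)) + U 1 * aeval U (pderiv 1 (F i)) =
      q * A i := by
    intro i
    have h1 := congrArg (aeval U) ((hF.hom i).sum_X_mul_pderiv)
    rw [Fin.sum_univ_two, map_add, map_mul, map_mul, aeval_X, aeval_X, map_nsmul, hA',
      nsmul_eq_mul] at h1
    exact h1
  have hJ : aeval U (Jac F) = aeval U (pderiv 0 (F 0)) * aeval U (pderiv 1 (F 1)) -
      aeval U (pderiv 1 (F 0)) * aeval U (pderiv 0 (F 1)) := by
    rw [Jac, map_sub, map_mul, map_mul]
  have h1 : P.coeff 1 = D⁻¹ * (A 0 * (aeval U (pderiv 0 (F 1)) * V 0 +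
      aeval U (pderiv 1 (F 1)) * V 1) - A 1 * (aeval U (pderiv 0 (F 0)) * V 0 +
      aeval U (pderiv 1 (F 0)) * V 1)) := by
    rw [hP, Polynomial.coeff_C_mul, Polynomial.coeff_sub, Polynomial.coeff_C_mul,
      Polynomial.coeff_C_mul, W_coeff_one, W_coeff_one, Fin.sum_univ_two, Fin.sum_univ_two]
  have h2 : (q : Ω) * (D * P.coeff 1) = δ * aeval U (Jac F) := by
    rw [h1, mul_inv_cancel_left₀ hD0, hJ, hδ]
    have e0 := hE 0
    have e1 := hE 1
    linear_combination (-(aeval U (pderiv 0 (F 1)) * V 0 +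
      aeval U (pderiv 1 (F 1)) * V 1)) * e0 + (aeval U (pderiv 0 (F 0)) * V 0 +
      aeval U (pderiv 1 (F 0)) * V 1) * e1
  constructor
  · intro h h3
    rw [h3, mul_zero] at h2
    exact h ((mul_eq_zero.1 ((mul_eq_zero.1 h2).resolve_left hq0)).resolve_left hD0)
  · intro h h3
    rw [h3, mul_zero, mul_zero] at h2
    exact h ((mul_eq_zero.1 h2.symm).resolve_left hδ0)

end Pool.DynLehmer.GS.LDG
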