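import Mathlib
import Pool.Agent.Lib.MP_2194ec_nt.GAL.R.SDefs
import Pool.Agent.Lib.MP_2194ec_nt.GAL.R.Hsa

set_option autoImplicit false

/-! # Orders of germs -/

namespace Pool.DynLehmer.GS
open Polynomial Pool.DynLehmer.GAL

namespace H90

theorem ι_aeval {Ω N : Type} [Field Ω] [Field N] [Algebra Ω N] (g : Grm Ω N) (y : N)
    (p : Polynomial Ω) : g.ι (aeval y p) = aeval (g.ι y) p := by
  rw [aeval_def, aeval_def, hom_eval₂]
  congr 1
  refine RingHom.ext fun a => ?_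
  rw [RingHom.comp_apply, g.hC, algMap_eq]
  rfl

theorem ι_ne {Ω N : Type} [Field Ω] [Field N] [Algebra Ω N] (g : Grm Ω N) {y : N}
    (hy : y ≠ 0) : g.ι y ≠ 0 := by
  rw [Ne, map_eq_zero]
  exact hy

theorem ι_order_mul {Ω N : Type} [Field Ω] [Field N] [Algebra Ω N] (g : Grm Ω N) {x y : N}
    (hx : x ≠ 0) (hy : y ≠ 0) : (g.ι (x * y)).order = (g.ι x).order + (g.ι y).order := by
  rw [map_mul, HahnSeries.order_mul (ι_ne g hx) (ι_ne g hy)]

/-- the value of a polynomial at a germ of positive order -/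
theorem ι_small {Ω N : Type} [Field Ω] [Field N] [Algebra Ω N] (g : Grm Ω N) {y : N}
    (hy : y ≠ 0) (hpos : 0 < (g.ι y).order) {p : Polynomial Ω} (hp : p ≠ 0) :
    aeval y p ≠ 0 ∧ (g.ι (aeval y p)).order = (p.natTrailingDegree : ℚ) * (g.ι y).order := by
  obtain ⟨h1, h2, -⟩ := small_eval (ι_ne g hy) hpos hp
  rw [← ι_aeval] at h1 h2
  refine ⟨fun h => h1 ?_, h2⟩
  rw [h, map_zero]

end H90

/-- Row LDH. -/
theorem ldh : LdhStatement := by
  intro hldg K Ω N _ _ _ _ _ _ _ _ g q F hq hF U V W hUV hW y hy hpos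
  obtain ⟨-, -, -, P, Q, hP, hPd, hQ, h⟩ := hldg K Ω q F hq hF U V W hUV hW
  have hQ0 : Q.coeff 0 ≠ 0 := by
    rw [hQ]
    exact one_ne_zero
  have hQn : Q ≠ 0 := fun h0 => hQ0 (by rw [h0, coeff_zero])
  obtain ⟨hP1, hP2⟩ := H90.ι_small g hy hpos hP
  obtain ⟨hQ1, hQ2⟩ := H90.ι_small g hy hpos hQn
  rw [H90.ntd_zero hQ0, Nat.cast_zero, zero_mul] at hQ2
  have hz : aeval y P / aeval y Q ≠ 0 := div_ne_zero hP1 hQ1
  refine ⟨aeval y P / aeval y Q, hz, ?_, ?_⟩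
  · have h1 := H90.ι_order_mul g hz hQ1
    rw [div_mul_cancel₀ _ hQ1, hP2, hQ2, add_zero, hPd] at h1
    exact h1.symm
  · refine ⟨aeval y Q, hQ1, ?_⟩
    rw [h N y]
    funext i
    rw [Pi.smul_apply, smul_eq_mul, lpt, mul_add, ← mul_assoc, mul_div_cancel₀ _ hQ1]

end Pool.DynLehmer.GS
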