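import Mathlib
import Pool.Agent.Lib.MP_2194ec_nt.GAL.R.SDefs
import Pool.Agent.Lib.MP_2194ec_nt.GAL.R.Bas
import Pool.Agent.Lib.MP_2194ec_nt.GAL.R.Ldh

set_option autoImplicit false

/-! # Row LDM: the local degree of the iterates -/

namespace Pool.DynLehmer.GS
open MvPolynomial Pool.DynLehmer Pool.DynLehmer.SB Pool.DynLehmer.SP Pool.DynLehmer.GAL
  Pool.DynLehmer.GS.Bas
open scoped Classical

namespace Ldm

theorem exists_ind {Ω : Type} [Field Ω] {U : Fin 2 → Ω} (hU : U ≠ 0) : ∃ V, Ind U V := by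
  rcases ne_zero_iff.1 hU with h | h
  · exact ⟨![0, 1], by simpa [Ind] using h⟩
  · exact ⟨![1, 0], by simpa [Ind] using h⟩

theorem lpt_inj {Ω N : Type} [Field Ω] [Field N] [Algebra Ω N] {U V : Fin 2 → Ω} (h : Ind U V)
    {y z : N} (hyz : Prl (lpt U V y) (lpt U V z)) : y = z := by
  obtain ⟨c, hc, he⟩ := hyz
  have h0 := congrFun he 0
  have h1 := congrFun he 1
  simp only [lpt, Pi.smul_apply, smul_eq_mul] at h0 h1
  have hd : algebraMap Ω N (U 0) * algebraMap Ω N (V 1) -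
      algebraMap Ω N (U 1) * algebraMap Ω N (V 0) ≠ 0 := by
    rw [← map_mul, ← map_mul, ← map_sub]
    exact (map_ne_zero _).2 h
  have hc1 : c = 1 := by
    apply mul_right_cancel₀ hd
    linear_combination algebraMap Ω N (V 0) * h1 - algebraMap Ω N (V 1) * h0
  subst hc1
  apply mul_right_cancel₀ hd
  linear_combination algebraMap Ω N (U 0) * h1 - algebraMap Ω N (U 1) * h0

/-- the field of Hahn series as a field of germs -/
noncomputable def grm (Ω : Type) [Field Ω] : Grm Ω (HahnSeries ℚ Ω) where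
  ι := RingHom.id _
  hC c := by
    rw [RingHom.id_apply]
    exact algMap_eq c
  τ := HahnSeries.single 1 1
  hτ := rfl

theorem mult_unit {R : Type} [CommRing R] [IsDomain R] {u v a b : R} (hu : IsUnit u)
    (hv : IsUnit v) : multiplicity (u * a) (v * b) = multiplicity a b := by
  have h1 : multiplicity (u * a) (v * b) = multiplicity a (v * b) :=
    multiplicity_eq_of_associated_left (associated_unit_mul_left a u hu).symm
  have h2 : multiplicity a (v * b) = multiplicity a b :=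
    multiplicity_eq_of_associated_right (associated_unit_mul_left b v hv)
  rw [h1, h2]

theorem ld_prl {K Ω : Type} [Field K] [Field Ω] [Algebra K Ω] {q : ℕ}
    {F : Fin 2 → MvPolynomial (Fin 2) K} (hF : ∀ i, (F i).IsHomogeneous q) {U U' : Fin 2 → Ω}
    (h : Prl U U') : ld F U = ld F U' := by
  obtain ⟨c, hc, rfl⟩ := h
  have hcu : IsUnit (C c : MvPolynomial (Fin 2) Ω) := (isUnit_iff_ne_zero.2 hc).map C
  have hcq : IsUnit (C (c ^ q) : MvPolynomial (Fin 2) Ω) :=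
    (isUnit_iff_ne_zero.2 (pow_ne_zero q hc)).map C
  unfold ld
  rw [gAct_smul F hF c U']
  simp only [Pi.smul_apply, smul_eq_mul, map_mul]
  rw [show (C c * C (U' 1) * X 0 - C c * C (U' 0) * X 1 : MvPolynomial (Fin 2) Ω) =
    C c * (C (U' 1) * X 0 - C (U' 0) * X 1) by ring,
    show (C (c ^ q) * C (gAct F Ω U' 1) * map (algebraMap K Ω) (F 0) -
      C (c ^ q) * C (gAct F Ω U' 0) * map (algebraMap K Ω) (F 1) : MvPolynomial (Fin 2) Ω) =
      C (c ^ q) * (C (gAct F Ω U' 1) * map (algebraMap K Ω) (F 0) -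
      C (gAct F Ω U' 0) * map (algebraMap K Ω) (F 1)) by ring]
  exact mult_unit hcu hcq

end Ldm

/-- Row LDM. -/
theorem ldm : LdmStatement := by
  intro hldg K Ω _ _ _ _ q F hq hF
  refine ⟨fun U U' _ h => Ldm.ld_prl hF.hom h, ?_, ?_⟩
  · intro U m n hU
    have hm := mor_itF hF m
    have hn := mor_itF hF n
    have hmn := mor_itF hF (m + n)
    have hq' : ∀ j, 1 ≤ q ^ j := fun j => Nat.one_le_pow _ _ hq
    have hgU : gAct (itF F m) Ω U = (gAct F Ω)^[m] U := gAct_itF m U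
    have hcomp : ∀ {N : Type} [Field N] [Algebra K N] (P : Fin 2 → N),
        gAct (itF F (m + n)) N P = gAct (itF F n) N (gAct (itF F m) N P) := by
      intro N _ _ P
      rw [gAct_itF, gAct_itF, gAct_itF, ← Function.iterate_add_apply, add_comm]
    rw [← hgU]
    set U₁ := gAct (itF F m) Ω U with hU₁
    have hU₁0 : U₁ ≠ 0 := hm.ne Ω U hU
    obtain ⟨V, hV⟩ := Ldm.exists_ind hU
    obtain ⟨V₁, hV₁⟩ := Ldm.exists_ind hU₁0
    obtain ⟨W, hW⟩ := Ldm.exists_ind (hn.ne Ω U₁ hU₁0)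
    have hy : (HahnSeries.single (1 : ℚ) (1 : Ω)) ≠ 0 := by
      rw [Ne, HahnSeries.single_eq_zero_iff]
      exact one_ne_zero
    have hy1 : (HahnSeries.single (1 : ℚ) (1 : Ω)).order = 1 := HahnSeries.order_single one_ne_zero
    have hι : ∀ z : HahnSeries ℚ Ω, (Ldm.grm Ω).ι z = z := fun _ => rfl
    have htow := IsScalarTower.of_algebraMap_eq (R := K) (S := Ω) (A := HahnSeries ℚ Ω)
      fun x => by
        rw [algMap_eq, algMap_eq]
        rfl
    obtain ⟨z₁, hz₁, ho₁, hp₁⟩ := ldh hldg K Ω (HahnSeries ℚ Ω) (Ldm.grm Ω) (q ^ m) (itF F m)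
      (hq' m) hm U V V₁ hV hV₁ _ hy (by rw [hι, hy1]; exact one_pos)
    rw [hι, hι, hy1, mul_one] at ho₁
    have h1 : 1 ≤ ld (itF F m) U :=
      (hldg K Ω (q ^ m) (itF F m) (hq' m) hm U V V₁ hV hV₁).1
    obtain ⟨z₂, hz₂, ho₂, hp₂⟩ := ldh hldg K Ω (HahnSeries ℚ Ω) (Ldm.grm Ω) (q ^ n) (itF F n)
      (hq' n) hn U₁ V₁ W hV₁ hW z₁ hz₁ (by
        rw [hι, ho₁]
        exact_mod_cast h1)
    rw [hι, hι, ho₁] at ho₂
    obtain ⟨z₃, hz₃, ho₃, hp₃⟩ := ldh hldg K Ω (HahnSeries ℚ Ω) (Ldm.grm Ω) (q ^ (m + n))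
      (itF F (m + n)) (hq' _) hmn U V W hV (by rw [hcomp]; exact hW) _ hy
      (by rw [hι, hy1]; exact one_pos)
    rw [hι, hι, hy1, mul_one] at ho₃
    rw [hcomp, hcomp] at hp₃
    have h4 := prl_gAct hn.hom hp₁
    have h5 := prl_trans (prl_symm hp₃) (prl_trans h4 hp₂)
    have h6 := Ldm.lpt_inj hW h5
    rw [h6, ho₂] at ho₃
    have h7 : ((ld (itF F m) U * ld (itF F n) U₁ : ℕ) : ℚ) = (ld (itF F (m + n)) U : ℚ) := by
      rw [← ho₃]
      push_cast
      ring
    exact_mod_cast h7.symm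
  · intro U hU
    constructor
    · obtain ⟨V, hV⟩ := Ldm.exists_ind hU
      have h0 := mor_itF hF 0
      obtain ⟨W, hW⟩ := Ldm.exists_ind (h0.ne Ω U hU)
      obtain ⟨h1, h2, -⟩ := hldg K Ω (q ^ 0) (itF F 0) (Nat.one_le_pow _ _ hq) h0 U V W hV hW
      rw [pow_zero] at h2
      exact le_antisymm h2 h1
    · have h : itF F 1 = F := funext itF_one
      rw [h]

end Pool.DynLehmer.GS
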