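import Mathlib
import Pool.Agent.Lib.MP_2194ec_nt.GAL.R.Defs

set_option autoImplicit false

/-!
# Row LEV: the backward orbit of a wandering point is large
-/

namespace Pool.DynLehmer.GS
open MvPolynomial NumberField Filter Topology Pool.DynLehmer Pool.DynLehmer.SB Pool.DynLehmer.SP
  Pool.DynLehmer.GAL

namespace LevA

/-! ### Binary forms -/

section binary

variable {L : Type} [Field L]

theorem deriv_aeval (u : Fin 2 → Polynomial L) (H : MvPolynomial (Fin 2) L) :
    Polynomial.derivative (aeval u H) =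
      ∑ i, aeval u (pderiv i H) * Polynomial.derivative (u i) := by
  induction H using MvPolynomial.induction_on with
  | C a => simp
  | add p q hp hq =>
    simp only [map_add, hp, hq, add_mul, Finset.sum_add_distrib]
  | mul_X p i hp =>
    rw [map_mul, aeval_X, Polynomial.derivative_mul, hp]
    simp only [Derivation.leibniz, smul_eq_mul, map_add, map_mul, aeval_X, pderiv_X, add_mul,
      Finset.sum_add_distrib]
    rw [add_comm]
    congr 1
    · rw [Finset.sum_eq_single i]
      · simp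
      · intro j _ hj
        simp [Ne.symm hj]
      · intro h; exact absurd (Finset.mem_univ _) h
    · rw [Finset.sum_mul]
      refine Finset.sum_congr rfl fun j _ => ?_
      ring

/-- the two dehomogenizations -/
noncomputable def dh (H : MvPolynomial (Fin 2) L) : Polynomial L := aeval ![Polynomial.X, 1] H

noncomputable def dg' (H : MvPolynomial (Fin 2) L) : Polynomial L := aeval ![1, Polynomial.X] H

theorem dh_eval (H : MvPolynomial (Fin 2) L) (x : L) : (dh H).eval x = aeval ![x, 1] H := by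
  unfold dh
  have h := comp_aeval_apply (R := L) (Polynomial.aeval x : Polynomial L →ₐ[L] L)
    (f := ![Polynomial.X, 1]) H
  rw [← Polynomial.coe_aeval_eq_eval, h]
  congr 1
  refine congrArg _ ?_
  funext i
  fin_cases i <;> simp

theorem dg'_eval (H : MvPolynomial (Fin 2) L) (x : L) : (dg' H).eval x = aeval ![1, x] H := by
  unfold dg'
  have h := comp_aeval_apply (R := L) (Polynomial.aeval x : Polynomial L →ₐ[L] L)
    (f := ![1, Polynomial.X]) H
  rw [← Polynomial.coe_aeval_eq_eval, h]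
  congr 1
  refine congrArg _ ?_
  funext i
  fin_cases i <;> simp

theorem dh_deriv (H : MvPolynomial (Fin 2) L) :
    Polynomial.derivative (dh H) = dh (pderiv 0 H) := by
  unfold dh
  rw [deriv_aeval, Fin.sum_univ_two]
  simp

theorem dg'_deriv (H : MvPolynomial (Fin 2) L) :
    Polynomial.derivative (dg' H) = dg' (pderiv 1 H) := by
  unfold dg'
  rw [deriv_aeval, Fin.sum_univ_two]
  simp

theorem dh_sum (H : MvPolynomial (Fin 2) L) :
    dh H = ∑ d ∈ H.support, Polynomial.C (coeff d H) * Polynomial.X ^ d 0 := by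
  unfold dh
  rw [aeval_def, eval₂_eq']
  refine Finset.sum_congr rfl fun d _ => ?_
  rw [Fin.prod_univ_two]
  simp

theorem dg'_sum (H : MvPolynomial (Fin 2) L) :
    dg' H = ∑ d ∈ H.support, Polynomial.C (coeff d H) * Polynomial.X ^ d 1 := by
  unfold dg'
  rw [aeval_def, eval₂_eq']
  refine Finset.sum_congr rfl fun d _ => ?_
  rw [Fin.prod_univ_two]
  simp

theorem supp_deg {q : ℕ} {H : MvPolynomial (Fin 2) L} (hH : H.IsHomogeneous q) {d : Fin 2 →₀ ℕ}
    (hd : d ∈ H.support) : d 0 + d 1 = q := by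
  have h := hH (mem_support_iff.1 hd)
  rw [Finsupp.weight_apply, Finsupp.sum_fintype _ _ (by simp), Fin.sum_univ_two] at h
  simpa using h

theorem natDegree_le {q : ℕ} {H : MvPolynomial (Fin 2) L} (hH : H.IsHomogeneous q) :
    (dh H).natDegree ≤ q := by
  rw [dh_sum]
  refine Polynomial.natDegree_sum_le_of_forall_le _ _ fun d hd => ?_
  refine (Polynomial.natDegree_C_mul_X_pow_le _ _).trans ?_
  have := supp_deg hH hd
  omega

theorem coeff_eq {q : ℕ} {H : MvPolynomial (Fin 2) L} (hH : H.IsHomogeneous q) (n m : ℕ)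
    (hnm : n + m = q) : (dh H).coeff n = (dg' H).coeff m := by
  rw [dh_sum, dg'_sum, Polynomial.finsetSum_coeff, Polynomial.finsetSum_coeff]
  refine Finset.sum_congr rfl fun d hd => ?_
  have := supp_deg hH hd
  rw [Polynomial.coeff_C_mul, Polynomial.coeff_C_mul, Polynomial.coeff_X_pow,
    Polynomial.coeff_X_pow]
  by_cases h : n = d 0
  · rw [if_pos h, if_pos (by omega)]
  · rw [if_neg h, if_neg (by omega)]

theorem euler {q : ℕ} {H : MvPolynomial (Fin 2) L} (hH : H.IsHomogeneous q) (P : Fin 2 → L) :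
    P 0 * aeval P (pderiv 0 H) + P 1 * aeval P (pderiv 1 H) = q * aeval P H := by
  have h := congrArg (aeval P) hH.sum_X_mul_pderiv
  rw [Fin.sum_univ_two] at h
  simpa using h

/-- a form of degree `q` without multiple zeros has exactly `q` zeros -/
theorem exists_zeros [IsAlgClosed L] {q : ℕ} (hq : 1 ≤ q) {H : MvPolynomial (Fin 2) L}
    (hH : H.IsHomogeneous q)
    (hne : ∀ P : Fin 2 → L, P ≠ 0 → aeval P H = 0 → ∃ i, aeval P (pderiv i H) ≠ 0) :
    ∃ Z : Finset (Option L), Z.card = q ∧
      ∀ z ∈ Z, ∃ P : Fin 2 → L, P ≠ 0 ∧ pr P = z ∧ aeval P H = 0 := by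
  classical
  -- simple roots
  have h1 : ∀ x : L, (dh H).eval x = 0 → (Polynomial.derivative (dh H)).eval x ≠ 0 := by
    intro x hx hx'
    rw [dh_eval] at hx
    rw [dh_deriv, dh_eval] at hx'
    have h2 := euler hH ![x, 1]
    rw [hx, hx'] at h2
    simp only [Matrix.cons_val_zero, Matrix.cons_val_one, mul_zero, zero_add, one_mul] at h2
    obtain ⟨i, hi⟩ := hne ![x, 1] (fun h => by
      have := congrFun h 1
      simp at this) hx
    fin_cases i
    · exact hi hx'
    · exact hi h2
  have h0 : dh H ≠ 0 := by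
    intro h0
    have := h1 0
    rw [h0] at this
    simp at this
  have hnd : (dh H).roots.Nodup := by
    rw [Multiset.nodup_iff_count_le_one]
    intro x
    rw [Polynomial.count_roots]
    by_contra hlt
    push Not at hlt
    rw [Polynomial.one_lt_rootMultiplicity_iff_isRoot h0] at hlt
    exact h1 x hlt.1 hlt.2
  have hcard : (dh H).roots.toFinset.card = (dh H).natDegree := by
    rw [Multiset.toFinset_card_of_nodup hnd, IsAlgClosed.card_roots_eq_natDegree]
  have hsome : ∀ x ∈ (dh H).roots.toFinset, ∃ P : Fin 2 → L, P ≠ 0 ∧ pr P = some x ∧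
      aeval P H = 0 := by
    intro x hx
    rw [Multiset.mem_toFinset, Polynomial.mem_roots h0] at hx
    refine ⟨![x, 1], fun h => ?_, ?_, ?_⟩
    · have := congrFun h 1
      simp at this
    · unfold pr
      simp
    · rw [← dh_eval]
      exact hx
  have htop : (dh H).coeff q = aeval ![1, 0] H := by
    rw [coeff_eq hH q 0 (by omega), Polynomial.coeff_zero_eq_eval_zero, dg'_eval]
  by_cases hc : aeval ![(1 : L), 0] H = 0
  · -- the point at infinity is a zero
    have hd1 : aeval ![(1 : L), 0] (pderiv 1 H) ≠ 0 := by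
      intro hd1
      have h2 := euler hH ![1, 0]
      rw [hc] at h2
      simp only [Matrix.cons_val_zero, Matrix.cons_val_one, mul_zero, zero_mul, add_zero,
        one_mul] at h2
      obtain ⟨i, hi⟩ := hne ![1, 0] (fun h => by
        have := congrFun h 0
        simp at this) hc
      fin_cases i
      · exact hi h2
      · exact hi hd1
    have h3 : (dh H).coeff (q - 1) = aeval ![(1 : L), 0] (pderiv 1 H) := by
      rw [coeff_eq hH (q - 1) 1 (by omega), ← dg'_eval, ← dg'_deriv,
        ← Polynomial.coeff_zero_eq_eval_zero, Polynomial.coeff_derivative]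
      simp
    have hdeg : (dh H).natDegree = q - 1 := by
      refine Polynomial.natDegree_eq_of_le_of_coeff_ne_zero ?_ (by rw [h3]; exact hd1)
      refine Polynomial.natDegree_le_iff_coeff_eq_zero.2 fun n hn => ?_
      by_cases hnq : n = q
      · rw [hnq, htop, hc]
      · exact Polynomial.coeff_eq_zero_of_natDegree_lt
          ((natDegree_le hH).trans_lt (by omega))
    refine ⟨insert none ((dh H).roots.toFinset.image some), ?_, ?_⟩
    · rw [Finset.card_insert_of_notMem (by simp),
        Finset.card_image_of_injective _ (Option.some_injective _), hcard, hdeg]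
      omega
    · intro z hz
      rw [Finset.mem_insert, Finset.mem_image] at hz
      rcases hz with rfl | ⟨x, hx, rfl⟩
      · refine ⟨![1, 0], fun h => ?_, ?_, hc⟩
        · have := congrFun h 0
          simp at this
        · unfold pr
          simp
      · exact hsome x hx
  · have hdeg : (dh H).natDegree = q :=
      Polynomial.natDegree_eq_of_le_of_coeff_ne_zero (natDegree_le hH) (by rw [htop]; exact hc)
    refine ⟨(dh H).roots.toFinset.image some, ?_, ?_⟩
    · rw [Finset.card_image_of_injective _ (Option.some_injective _), hcard, hdeg]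
    · intro z hz
      rw [Finset.mem_image] at hz
      obtain ⟨x, hx, rfl⟩ := hz
      exact hsome x hx

/-- a form of positive degree has a zero -/
theorem exists_zero [IsAlgClosed L] {q : ℕ} (hq : 1 ≤ q) {H : MvPolynomial (Fin 2) L}
    (hH : H.IsHomogeneous q) : ∃ P : Fin 2 → L, P ≠ 0 ∧ aeval P H = 0 := by
  by_cases hc : aeval ![(1 : L), 0] H = 0
  · refine ⟨![1, 0], fun h => ?_, hc⟩
    have := congrFun h 0
    simp at this
  · have htop : (dh H).coeff q = aeval ![1, 0] H := by
      rw [coeff_eq hH q 0 (by omega), Polynomial.coeff_zero_eq_eval_zero, dg'_eval]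
    have hdeg : (dh H).natDegree = q :=
      Polynomial.natDegree_eq_of_le_of_coeff_ne_zero (natDegree_le hH) (by rw [htop]; exact hc)
    have hdeg' : (dh H).degree ≠ 0 := by
      intro h
      have := Polynomial.natDegree_eq_zero_iff_degree_le_zero.2 h.le
      omega
    obtain ⟨x, hx⟩ := IsAlgClosed.exists_root (dh H) hdeg'
    refine ⟨![x, 1], fun h => ?_, ?_⟩
    · have := congrFun h 1
      simp at this
    · rw [← dh_eval]
      exact hx

end binary

/-! ### Points and proportionality -/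

section points

variable {N : Type} [Field N]

theorem prl_refl {ι : Type} (P : ι → N) : Prl P P := ⟨1, one_ne_zero, (one_smul _ _).symm⟩

theorem prl_symm {ι : Type} {P Q : ι → N} (h : Prl P Q) : Prl Q P := by
  obtain ⟨c, hc, rfl⟩ := h
  exact ⟨c⁻¹, inv_ne_zero hc, by rw [smul_smul, inv_mul_cancel₀ hc, one_smul]⟩

theorem prl_trans {ι : Type} {P Q R : ι → N} (h : Prl P Q) (h' : Prl Q R) : Prl P R := by
  obtain ⟨c, hc, rfl⟩ := h
  obtain ⟨d, hd, rfl⟩ := h'
  exact ⟨c * d, mul_ne_zero hc hd, by rw [smul_smul]⟩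

theorem prl_of_pr {P Q : Fin 2 → N} (hP : P ≠ 0) (hQ : Q ≠ 0) (h : pr P = pr Q) : Prl P Q := by
  classical
  unfold pr at h
  by_cases h1 : P 1 = 0 <;> by_cases h2 : Q 1 = 0
  · have h3 : P 0 ≠ 0 := fun h3 => hP (by funext i; fin_cases i <;> simp [h1, h3])
    have h4 : Q 0 ≠ 0 := fun h4 => hQ (by funext i; fin_cases i <;> simp [h2, h4])
    refine ⟨P 0 / Q 0, div_ne_zero h3 h4, ?_⟩
    funext i
    fin_cases i
    · show P 0 = P 0 / Q 0 * Q 0
      rw [div_mul_cancel₀ _ h4]
    · show P 1 = P 0 / Q 0 * Q 1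
      rw [h1, h2, mul_zero]
  · rw [if_pos h1, if_neg h2] at h
    exact absurd h (by simp)
  · rw [if_neg h1, if_pos h2] at h
    exact absurd h (by simp)
  · rw [if_neg h1, if_neg h2, Option.some_inj] at h
    refine ⟨P 1 / Q 1, div_ne_zero h1 h2, ?_⟩
    funext i
    fin_cases i
    · show P 0 = P 1 / Q 1 * Q 0
      field_simp at h ⊢
      linear_combination h
    · show P 1 = P 1 / Q 1 * Q 1
      rw [div_mul_cancel₀ _ h2]

theorem pr_of_prl {P Q : Fin 2 → N} (h : Prl P Q) : pr P = pr Q := by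
  classical
  obtain ⟨c, hc, rfl⟩ := h
  unfold pr
  simp only [Pi.smul_apply, smul_eq_mul, mul_eq_zero, hc, false_or]
  split_ifs
  · rfl
  · rw [mul_div_mul_left _ _ hc]

variable {K : Type} [Field K] [Algebra K N] {q : ℕ} {F : Fin 2 → MvPolynomial (Fin 2) K}

theorem prl_gAct (hF : Mor q F) {P Q : Fin 2 → N} (h : Prl P Q) :
    Prl (gAct F N P) (gAct F N Q) := by
  obtain ⟨c, hc, rfl⟩ := h
  exact ⟨c ^ q, pow_ne_zero _ hc, gAct_smul F hF.hom c Q⟩

theorem prl_iter (hF : Mor q F) {P Q : Fin 2 → N} (h : Prl P Q) (n : ℕ) :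
    Prl ((gAct F N)^[n] P) ((gAct F N)^[n] Q) := by
  induction n with
  | zero => exact h
  | succ n ih =>
    rw [Function.iterate_succ_apply', Function.iterate_succ_apply']
    exact prl_gAct hF ih

theorem iter_ne (hF : Mor q F) {P : Fin 2 → N} (h : P ≠ 0) (n : ℕ) : (gAct F N)^[n] P ≠ 0 := by
  induction n with
  | zero => exact h
  | succ n ih =>
    rw [Function.iterate_succ_apply']
    exact hF.ne N _ ih

/-! ### Preimages -/

/-- the form whose zeros are the preimages of `V` -/
noncomputable def pf (F : Fin 2 → MvPolynomial (Fin 2) K) (V : Fin 2 → N) :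
    MvPolynomial (Fin 2) N :=
  C (V 1) * map (algebraMap K N) (F 0) - C (V 0) * map (algebraMap K N) (F 1)

theorem pf_hom (hF : Mor q F) (V : Fin 2 → N) : (pf F V).IsHomogeneous q := by
  unfold pf
  have h0 := (isHomogeneous_C (Fin 2) (V 1)).mul ((hF.hom 0).map (algebraMap K N))
  have h1 := (isHomogeneous_C (Fin 2) (V 0)).mul ((hF.hom 1).map (algebraMap K N))
  rw [zero_add] at h0 h1
  exact h0.sub h1

theorem pf_aeval (V P : Fin 2 → N) :
    aeval P (pf F V) = V 1 * gAct F N P 0 - V 0 * gAct F N P 1 := by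
  unfold pf gAct
  simp only [map_sub, map_mul, aeval_C, aeval_map_algebraMap, Algebra.algebraMap_self,
    RingHom.id_apply]

theorem pf_pderiv (V P : Fin 2 → N) (i : Fin 2) :
    aeval P (pderiv i (pf F V)) = V 1 * aeval P (pderiv i (F 0)) - V 0 * aeval P (pderiv i (F 1)) := by
  unfold pf
  simp only [map_sub, Derivation.leibniz, pderiv_C, mul_zero, add_zero, smul_eq_mul, map_mul,
    aeval_C, pderiv_map, aeval_map_algebraMap, Algebra.algebraMap_self, RingHom.id_apply]

theorem prl_of_zero (hF : Mor q F) {V P : Fin 2 → N} (hV : V ≠ 0) (hP : P ≠ 0)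
    (h : aeval P (pf F V) = 0) : Prl (gAct F N P) V := by
  rw [pf_aeval] at h
  have hne := hF.ne N P hP
  set W := gAct F N P with hW
  refine prl_of_pr hne hV ?_
  unfold pr
  by_cases h1 : V 1 = 0
  · have h2 : V 0 ≠ 0 := fun h2 => hV (by funext i; fin_cases i <;> simp [h1, h2])
    have h3 : W 1 = 0 := by
      rw [h1, zero_mul, zero_sub, neg_eq_zero, mul_eq_zero] at h
      exact h.resolve_left h2
    rw [if_pos h1, if_pos h3]
  · have h3 : W 1 ≠ 0 := by
      intro h3
      rw [h3, mul_zero, sub_zero, mul_eq_zero] at h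
      have h4 := h.resolve_left h1
      exact hne (by funext i; fin_cases i <;> simp [h3, h4])
    rw [if_neg h1, if_neg h3, Option.some_inj]
    field_simp
    linear_combination h

theorem aeval_jac (P : Fin 2 → N) :
    aeval P (Jac F) = aeval P (pderiv 0 (F 0)) * aeval P (pderiv 1 (F 1)) -
      aeval P (pderiv 1 (F 0)) * aeval P (pderiv 0 (F 1)) := by
  unfold Jac
  simp only [map_sub, map_mul]

theorem exists_pre [IsAlgClosed N] (hq : 1 ≤ q) (hF : Mor q F) {V : Fin 2 → N} (hV : V ≠ 0) :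
    ∃ P : Fin 2 → N, P ≠ 0 ∧ Prl (gAct F N P) V := by
  obtain ⟨P, hP, h⟩ := exists_zero hq (pf_hom hF V)
  exact ⟨P, hP, prl_of_zero hF hV hP h⟩

/-- a point without critical preimages has exactly `q` preimages -/
theorem exists_pres [IsAlgClosed N] (hq : 1 ≤ q) (hF : Mor q F) {V : Fin 2 → N} (hV : V ≠ 0)
    (hc : ∀ P : Fin 2 → N, P ≠ 0 → Prl (gAct F N P) V → aeval P (Jac F) ≠ 0) :
    ∃ Z : Finset (Option N), Z.card = q ∧
      ∀ z ∈ Z, ∃ P : Fin 2 → N, P ≠ 0 ∧ pr P = z ∧ Prl (gAct F N P) V := by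
  obtain ⟨Z, hZ, h⟩ := exists_zeros hq (pf_hom hF V) (by
    intro P hP h0
    by_contra hcon
    push Not at hcon
    have h1 := hcon 0
    have h2 := hcon 1
    rw [pf_pderiv] at h1 h2
    refine hc P hP (prl_of_zero hF hV hP h0) ?_
    rw [aeval_jac]
    by_cases h3 : V 1 = 0
    · have h4 : V 0 ≠ 0 := fun h4 => hV (by funext i; fin_cases i <;> simp [h3, h4])
      refine mul_left_cancel₀ h4 ?_
      rw [mul_zero]
      linear_combination (-aeval P (pderiv 1 (F 0))) * (-h1) - aeval P (pderiv 0 (F 0)) * h2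
    · refine mul_left_cancel₀ h3 ?_
      rw [mul_zero]
      linear_combination aeval P (pderiv 1 (F 1)) * h1 - aeval P (pderiv 0 (F 1)) * h2)
  refine ⟨Z, hZ, fun z hz => ?_⟩
  obtain ⟨P, hP, h1, h2⟩ := h z hz
  exact ⟨P, hP, h1, prl_of_zero hF hV hP h2⟩

/-- levels beyond `M` contain no critical point -/
theorem exists_level (hF : Mor q F) (Zc : Finset (Option N))
    (hZ : ∀ P : Fin 2 → N, P ≠ 0 → aeval P (Jac F) = 0 → pr P ∈ Zc) {U : Fin 2 → N}
    (hU : WandP F U) :
    ∃ M : ℕ, ∀ m, M < m → ∀ P : Fin 2 → N, P ≠ 0 → Prl ((gAct F N)^[m] P) U →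
      aeval P (Jac F) ≠ 0 := by
  classical
  set S : Set ℕ := {m | ∃ P : Fin 2 → N, P ≠ 0 ∧ aeval P (Jac F) = 0 ∧
    Prl ((gAct F N)^[m] P) U} with hS
  have hlt : ∀ m n : ℕ, m < n → ∀ P : Fin 2 → N, Prl ((gAct F N)^[m] P) U →
      Prl ((gAct F N)^[n] P) U → False := by
    intro m n hmn P h1 h2
    apply hU
    have h3 : (gAct F N)^[n] P = (gAct F N)^[n - m] ((gAct F N)^[m] P) := by
      rw [← Function.iterate_add_apply]
      congr 2
      omega
    have h4 := prl_symm (prl_iter hF h1 (n - m))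
    rw [← h3] at h4
    obtain ⟨c, hc, h5⟩ := prl_trans h4 h2
    exact ⟨0, n - m, by omega, c, hc, h5⟩
  have hfin : S.Finite := by
    choose! Pf hPf using fun m (hm : m ∈ S) => hm
    refine Set.Finite.of_finite_image (f := fun m => pr (Pf m)) ?_ ?_
    · refine Zc.finite_toSet.subset ?_
      rintro _ ⟨m, hm, rfl⟩
      exact hZ _ (hPf m hm).1 (hPf m hm).2.1
    · intro m hm n hn h
      have h1 : Prl (Pf m) (Pf n) := prl_of_pr (hPf m hm).1 (hPf n hn).1 h
      have h2 : Prl ((gAct F N)^[m] (Pf n)) U :=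
        prl_trans (prl_symm (prl_iter hF h1 m)) (hPf m hm).2.2
      have h3 : Prl ((gAct F N)^[n] (Pf n)) U := (hPf n hn).2.2
      rcases lt_trichotomy m n with h4 | h4 | h4
      · exact (hlt m n h4 _ h2 h3).elim
      · exact h4
      · exact (hlt n m h4 _ h3 h2).elim
  obtain ⟨M, hM⟩ := hfin.bddAbove
  refine ⟨M, fun m hm P hP hPU hJ => ?_⟩
  exact absurd (hM (show m ∈ S from ⟨P, hP, hJ, hPU⟩)) (by omega)

theorem exists_iter_pre [IsAlgClosed N] (hq : 1 ≤ q) (hF : Mor q F) {U : Fin 2 → N} (hU : U ≠ 0)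
    (m : ℕ) : ∃ P : Fin 2 → N, P ≠ 0 ∧ Prl ((gAct F N)^[m] P) U := by
  induction m with
  | zero => exact ⟨U, hU, prl_refl _⟩
  | succ m ih =>
    obtain ⟨P, hP, h⟩ := ih
    obtain ⟨Q, hQ, h'⟩ := exists_pre hq hF hP
    refine ⟨Q, hQ, ?_⟩
    rw [Function.iterate_succ_apply]
    exact prl_trans (prl_iter hF h' m) h

/-- the number of points at the level `M + n` -/
theorem exists_many [IsAlgClosed N] (hq : 1 ≤ q) (hF : Mor q F) {U : Fin 2 → N} (hU : U ≠ 0)
    (M : ℕ) (hM : ∀ m, M < m → ∀ P : Fin 2 → N, P ≠ 0 → Prl ((gAct F N)^[m] P) U →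
      aeval P (Jac F) ≠ 0) (n : ℕ) :
    ∃ Z : Finset (Option N), Z.card = q ^ n ∧ ∀ z ∈ Z, ∃ P : Fin 2 → N, P ≠ 0 ∧ pr P = z ∧
      Prl ((gAct F N)^[M + n] P) U := by
  classical
  induction n with
  | zero =>
    obtain ⟨P, hP, h⟩ := exists_iter_pre hq hF hU M
    exact ⟨{pr P}, by simp, fun z hz => ⟨P, hP, (Finset.mem_singleton.1 hz).symm, h⟩⟩
  | succ n ih =>
    obtain ⟨Z, hZ, h⟩ := ih
    choose! V hV using h
    have hpre : ∀ z ∈ Z, ∃ Y : Finset (Option N), Y.card = q ∧
        ∀ y ∈ Y, ∃ P : Fin 2 → N, P ≠ 0 ∧ pr P = y ∧ Prl (gAct F N P) (V z) := by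
      intro z hz
      refine exists_pres hq hF (hV z hz).1 fun P hP hPV => ?_
      refine hM (M + n + 1) (by omega) P hP ?_
      rw [Function.iterate_succ_apply]
      exact prl_trans (prl_iter hF hPV _) (hV z hz).2.2
    choose! Y hY using hpre
    refine ⟨Z.biUnion Y, ?_, ?_⟩
    · rw [Finset.card_biUnion, Finset.sum_congr rfl fun z hz => (hY z hz).1, Finset.sum_const, hZ,
        smul_eq_mul, pow_succ]
      intro z hz z' hz' hne
      rw [Function.onFun, Finset.disjoint_left]
      intro y hy hy'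
      obtain ⟨P, hP, h1, h2⟩ := (hY z hz).2 y hy
      obtain ⟨P', hP', h1', h2'⟩ := (hY z' hz').2 y hy'
      have h3 : Prl P P' := prl_of_pr hP hP' (h1.trans h1'.symm)
      have h4 : Prl (V z) (V z') :=
        prl_trans (prl_symm h2) (prl_trans (prl_gAct hF h3) h2')
      have h5 := pr_of_prl h4
      rw [(hV z hz).2.1, (hV z' hz').2.1] at h5
      exact hne h5
    · intro y hy
      rw [Finset.mem_biUnion] at hy
      obtain ⟨z, hz, hy⟩ := hy
      obtain ⟨P, hP, h1, h2⟩ := (hY z hz).2 y hy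
      refine ⟨P, hP, h1, ?_⟩
      rw [show M + (n + 1) = M + n + 1 by omega, Function.iterate_succ_apply]
      exact prl_trans (prl_iter hF h2 _) (hV z hz).2.2

end points

end LevA

open LevA in
/-- Row LEV. -/
theorem lev (hroot : RootStatement) (hjac : JacStatement) : LevStatement := by
  intro K _ _ q F hq hF U hU hW
  have hL : CharZero (AlgebraicClosure K) :=
    charZero_of_injective_algebraMap (algebraMap K (AlgebraicClosure K)).injective
  obtain ⟨hJ0, hJh, -⟩ := hjac K q F (by omega) hF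
  obtain ⟨Zc, -, hZc⟩ := hroot K (AlgebraicClosure K) (2 * (q - 1)) (Jac F) hJ0 hJh
  obtain ⟨M, hM⟩ := exists_level hF Zc hZc hW
  refine ⟨q ^ (M + 1), fun B => ?_⟩
  obtain ⟨Z, hZ, h⟩ := exists_many (by omega) hF hU M hM (Nat.log q B + 1)
  refine ⟨M + (Nat.log q B + 1), Z, ?_, ?_, h⟩
  · rw [hZ]
    exact Nat.lt_pow_succ_log_self (by omega) B
  · have h1 : q ^ Nat.log q B ≤ B + 1 := by
      rcases Nat.eq_zero_or_pos B with h0 | h0
      · rw [h0]; simp
      · exact (Nat.pow_log_le_self q (by omega)).trans (Nat.le_succ B)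
    calc q ^ (M + (Nat.log q B + 1)) = q ^ (M + 1) * q ^ Nat.log q B := by
          rw [← pow_add]; congr 1; omega
      _ ≤ q ^ (M + 1) * (B + 1) := Nat.mul_le_mul_left _ h1

end Pool.DynLehmer.GS
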