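import Mathlib
import Pool.Agent.Lib.MP_2194ec_nt.GAL.R.Defs

set_option autoImplicit false

/-! # Row MOR: forms with purely inseparable good reduction have no common zero -/

namespace Pool.DynLehmer.GS
open MvPolynomial NumberField Pool.DynLehmer
open scoped Classical

namespace M92

variable {K : Type} [Field K] [NumberField K] (v : FinitePlace K)

/-- the ring of the integers at `v` -/
def Ov : Subring K where
  carrier := {x | v x ≤ 1}
  mul_mem' := fun {a b} ha hb => by
    have h1 : v a ≤ 1 := ha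
    have h2 : v b ≤ 1 := hb
    change v (a * b) ≤ 1
    rw [map_mul]
    exact mul_le_one₀ h1 (apply_nonneg v b) h2
  one_mem' := by
    change v 1 ≤ 1
    rw [map_one]
  add_mem' := fun {a b} ha hb => by
    have h1 : v a ≤ 1 := ha
    have h2 : v b ≤ 1 := hb
    exact (FinitePlace.add_le v a b).trans (max_le h1 h2)
  zero_mem' := by
    change v 0 ≤ 1
    rw [map_zero]
    exact zero_le_one
  neg_mem' := fun {a} ha => by
    have h1 : v a ≤ 1 := ha
    have h2 : v (-1) = 1 := by
      have h3 : v (-1) * v (-1) = 1 := by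
        rw [← map_mul, neg_mul_neg, one_mul, map_one]
      have h4 : 0 ≤ v (-1) := apply_nonneg v _
      nlinarith
    change v (-a) ≤ 1
    rw [← neg_one_mul, map_mul, h2, one_mul]
    exact h1

theorem isUnit_iff (x : Ov v) : IsUnit x ↔ v x.1 = 1 := by
  constructor
  · rintro ⟨u, rfl⟩
    have h1 : v u.1.1 ≤ 1 := u.1.2
    have h2 : v u⁻¹.1.1 ≤ 1 := u⁻¹.1.2
    have h3 : u.1.1 * u⁻¹.1.1 = 1 := by
      have := congrArg Subtype.val u.mul_inv
      exact this
    have h4 : v u.1.1 * v u⁻¹.1.1 = 1 := by rw [← map_mul, h3, map_one]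
    have h5 : 0 ≤ v u.1.1 := apply_nonneg v _
    nlinarith
  · intro h
    have hx : x.1 ≠ 0 := by
      intro h0
      rw [h0, map_zero] at h
      exact zero_ne_one h
    refine IsUnit.of_mul_eq_one (⟨x.1⁻¹, ?_⟩ : Ov v) ?_
    · change v x.1⁻¹ ≤ 1
      rw [map_inv₀, h, inv_one]
    · exact Subtype.ext (mul_inv_cancel₀ hx)

instance : IsLocalRing (Ov v) := by
  refine IsLocalRing.of_isUnit_or_isUnit_one_sub_self fun a => ?_
  rw [isUnit_iff, isUnit_iff]
  by_contra hc
  push Not at hc
  have h1 : v a.1 ≤ 1 := a.2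
  have h2 : v (1 - a : Ov v).1 ≤ 1 := (1 - a : Ov v).2
  have h3 := FinitePlace.add_le v a.1 (1 - a : Ov v).1
  have h4 : a.1 + (1 - a : Ov v).1 = 1 := by
    change a.1 + (1 - a.1) = 1
    ring
  rw [h4, map_one] at h3
  rcases le_max_iff.1 h3 with h | h
  · exact hc.1 (le_antisymm h1 h)
  · exact hc.2 (le_antisymm h2 h)

/-- extension of the place to a valuation of any extension -/
theorem exists_ext (N : Type) [Field N] [Algebra K N] :
    ∃ B : ValuationSubring N, (∀ x : K, v x ≤ 1 → B.valuation (algebraMap K N x) ≤ 1) ∧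
      (∀ x : K, v x < 1 → B.valuation (algebraMap K N x) < 1) ∧
      ∀ x : K, v x = 1 → B.valuation (algebraMap K N x) = 1 := by
  obtain ⟨B, h, hl⟩ := IsLocalRing.exists_factor_valuationRing
    ((algebraMap K N).comp (Ov v).subtype)
  have h1 : ∀ x : K, v x ≤ 1 → B.valuation (algebraMap K N x) ≤ 1 := fun x hx =>
    (B.valuation_le_one_iff _).2 (h ⟨x, hx⟩)
  refine ⟨B, h1, fun x hx => ?_, fun x hx => ?_⟩
  · refine lt_of_le_of_ne (h1 x hx.le) fun h2 => ?_
    have h3 : IsUnit ((((algebraMap K N).comp (Ov v).subtype).codRestrict B.toSubring h)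
        ⟨x, hx.le⟩) := (B.valuation_eq_one_iff _).2 h2
    have h4 := (isUnit_iff v _).1 (hl.map_nonunit _ h3)
    have h5 : v x = 1 := h4
    linarith
  · have hx0 : x ≠ 0 := by
      rintro rfl
      rw [map_zero] at hx
      exact zero_ne_one hx
    refine le_antisymm (h1 x hx.le) ?_
    have h2 := h1 x⁻¹ (by rw [map_inv₀, hx, inv_one])
    rw [map_inv₀, map_inv₀] at h2
    have h3 : B.valuation (algebraMap K N x) ≠ 0 :=
      (map_ne_zero _).2 ((map_ne_zero _).2 hx0)
    exact (inv_le_one₀ (zero_lt_iff.2 h3)).1 h2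

end M92

theorem mor : MorStatement := by
  intro K _ _ p s v F hF
  have hq : 0 < p ^ s := pow_pos hF.prime.pos _
  refine ⟨hF.hom, fun N _ _ P hP hz => ?_⟩
  obtain ⟨B, hle, hlt, heq⟩ := M92.exists_ext v N
  set w := B.valuation with hw
  set q := p ^ s with hqd
  -- the larger coordinate
  obtain ⟨j₀, hj₀⟩ : ∃ j₀ : Fin 2, ∀ j, w (P j) ≤ w (P j₀) := by
    rcases le_total (w (P 0)) (w (P 1)) with h | h
    · exact ⟨1, fun j => by fin_cases j; exacts [h, le_rfl]⟩
    · exact ⟨0, fun j => by fin_cases j; exacts [le_rfl, h]⟩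
  have hc : P j₀ ≠ 0 := by
    intro h0
    refine hP (funext fun j => ?_)
    have h1 := hj₀ j
    rw [h0, map_zero] at h1
    exact (map_eq_zero w).1 (le_antisymm h1 zero_le)
  set Q : Fin 2 → N := (P j₀)⁻¹ • P with hQ
  have hQ1 : ∀ j, w (Q j) ≤ 1 := by
    intro j
    rw [hQ, Pi.smul_apply, smul_eq_mul, map_mul, map_inv₀, mul_comm, ← div_eq_mul_inv]
    exact (div_le_one₀ (zero_lt_iff.2 ((map_ne_zero w).2 hc))).2 (hj₀ j)
  have hQ0 : Q j₀ = 1 := by
    rw [hQ, Pi.smul_apply, smul_eq_mul, inv_mul_cancel₀ hc]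
  have hzQ : ∀ i, aeval Q (F i) = 0 := by
    intro i
    have h1 := gAct_smul F hF.hom (P j₀)⁻¹ P
    rw [hz, smul_zero] at h1
    exact congrFun h1 i
  -- the reduction
  set S : Fin 2 → N := fun i => ∑ j, algebraMap K N (coeff (Finsupp.single j q) (F i)) * Q j ^ q
    with hS
  have hsing : ∀ i j : Fin 2, Finsupp.single i q = Finsupp.single j q → i = j := by
    intro i j h
    exact Finsupp.single_left_injective hq.ne' h
  have hSlt : ∀ i, w (S i) < 1 := by
    intro i
    set T : Finset (Fin 2 →₀ ℕ) := Finset.univ.image fun j : Fin 2 => Finsupp.single j q with hT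
    have h1 : aeval Q (F i) = ∑ t ∈ (F i).support ∪ T,
        algebraMap K N (coeff t (F i)) * ∏ j, Q j ^ t j := by
      rw [aeval_def, eval₂_eq']
      refine Finset.sum_subset Finset.subset_union_left fun t _ ht => ?_
      rw [notMem_support_iff.1 ht, map_zero, zero_mul]
    have h2 : S i = ∑ t ∈ T, algebraMap K N (coeff t (F i)) * ∏ j, Q j ^ t j := by
      rw [hT, Finset.sum_image fun a _ b _ h => hsing a b h]
      refine Finset.sum_congr rfl fun j _ => ?_
      congr 1
      rw [Finset.prod_eq_single j]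
      · rw [Finsupp.single_eq_same]
      · intro l _ hl
        rw [Finsupp.single_eq_of_ne hl, pow_zero]
      · intro h
        exact absurd (Finset.mem_univ j) h
    have h3 : S i = -∑ t ∈ (F i).support \ T, algebraMap K N (coeff t (F i)) *
        ∏ j, Q j ^ t j := by
      have h4 := Finset.sum_sdiff (s₁ := T) (s₂ := (F i).support ∪ T)
        (f := fun t => algebraMap K N (coeff t (F i)) * ∏ j, Q j ^ t j) Finset.subset_union_right
      rw [← h1, hzQ, ← h2, Finset.union_sdiff_right] at h4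
      rw [eq_neg_iff_add_eq_zero, add_comm]
      exact h4
    rw [h3, Valuation.map_neg]
    refine Valuation.map_sum_lt w one_ne_zero fun t ht => ?_
    have ht2 := (Finset.mem_sdiff.1 ht).2
    rw [map_mul]
    refine mul_lt_one_of_lt_of_le (hlt _ (hF.red i t fun j hj => ht2 ?_)) ?_
    · rw [hj, hT]
      exact Finset.mem_image_of_mem _ (Finset.mem_univ j)
    · rw [map_prod]
      refine Finset.prod_le_one' fun j _ => ?_
      rw [map_pow]
      exact pow_le_one' (hQ1 j) _
  -- the determinant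
  have hdet := heq _ hF.det
  rw [Matrix.det_fin_two] at hdet
  simp only [Matrix.of_apply] at hdet
  have ha : ∀ i j, w (algebraMap K N (coeff (Finsupp.single j q) (F i))) ≤ 1 := fun i j =>
    hle _ (hF.int i _)
  have hSe : ∀ i, S i = algebraMap K N (coeff (Finsupp.single 0 q) (F i)) * Q 0 ^ q +
      algebraMap K N (coeff (Finsupp.single 1 q) (F i)) * Q 1 ^ q := fun i => by
    rw [hS]
    exact Fin.sum_univ_two _
  set d : N := algebraMap K N (coeff (Finsupp.single 0 q) (F 0) *
    coeff (Finsupp.single 1 q) (F 1) - coeff (Finsupp.single 1 q) (F 0) *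
    coeff (Finsupp.single 0 q) (F 1)) with hd
  have hcomb : ∀ (a b : N), w a ≤ 1 → w b ≤ 1 → w (a * S 0 - b * S 1) < 1 := by
    intro a b h1 h2
    refine lt_of_le_of_lt (Valuation.map_sub w _ _) (max_lt ?_ ?_)
    · rw [map_mul, mul_comm]
      exact mul_lt_one_of_lt_of_le (hSlt 0) h1
    · rw [map_mul, mul_comm]
      exact mul_lt_one_of_lt_of_le (hSlt 1) h2
  have key : ∀ j, w (d * Q j ^ q) < 1 := by
    intro j
    fin_cases j
    · have h1 : d * Q 0 ^ q = algebraMap K N (coeff (Finsupp.single 1 q) (F 1)) * S 0 -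
          algebraMap K N (coeff (Finsupp.single 1 q) (F 0)) * S 1 := by
        rw [hSe, hSe, hd, map_sub, map_mul, map_mul]
        ring
      change w (d * Q 0 ^ q) < 1
      rw [h1]
      exact hcomb _ _ (ha 1 1) (ha 0 1)
    · have h1 : d * Q 1 ^ q = -(algebraMap K N (coeff (Finsupp.single 0 q) (F 1)) * S 0 -
          algebraMap K N (coeff (Finsupp.single 0 q) (F 0)) * S 1) := by
        rw [hSe, hSe, hd, map_sub, map_mul, map_mul]
        ring
      change w (d * Q 1 ^ q) < 1
      rw [h1, Valuation.map_neg]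
      exact hcomb _ _ (ha 1 0) (ha 0 0)
  have h1 := key j₀
  rw [hQ0, one_pow, mul_one, hdet] at h1
  exact lt_irrefl _ h1

end Pool.DynLehmer.GS
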