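import Pool.Agent.Lib.MP_2194ec_nt.GAL.R.Bas
import Pool.Agent.Lib.MP_2194ec_nt.GAL.R.Jac

set_option autoImplicit false

/-!
# Row NLT, part 2: points of the backward orbit which are not periodic
-/

namespace Pool.DynLehmer.GS
open MvPolynomial NumberField Filter Topology Pool.DynLehmer
open scoped Classical

namespace N19

open Bas

variable {K : Type} [Field K] {Ω : Type} [Field Ω] [Algebra K Ω] {q : ℕ}
  {F : Fin 2 → MvPolynomial (Fin 2) K}

/-- the form `U₁ F₀ - U₀ F₁` -/
noncomputable def lf (F : Fin 2 → MvPolynomial (Fin 2) K) (U : Fin 2 → Ω) :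
    MvPolynomial (Fin 2) Ω :=
  C (U 1) * map (algebraMap K Ω) (F 0) - C (U 0) * map (algebraMap K Ω) (F 1)

theorem aeval_map_eq (P : Fin 2 → Ω) (f : MvPolynomial (Fin 2) K) :
    aeval P (map (algebraMap K Ω) f) = aeval P f := by
  rw [aeval_def, aeval_def, eval₂_map]
  rfl

theorem lf_eval (U P : Fin 2 → Ω) :
    aeval P (lf F U) = U 1 * gAct F Ω P 0 - U 0 * gAct F Ω P 1 := by
  simp only [lf, map_sub, map_mul, algHom_C, aeval_map_eq, gAct]
  rfl

theorem lf_hom (hF : ∀ i, (F i).IsHomogeneous q) (U : Fin 2 → Ω) : (lf F U).IsHomogeneous q := by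
  refine IsHomogeneous.sub ?_ ?_
  · simpa using (isHomogeneous_C (Fin 2) (U 1)).mul ((hF 0).map (algebraMap K Ω))
  · simpa using (isHomogeneous_C (Fin 2) (U 0)).mul ((hF 1).map (algebraMap K Ω))

theorem lf_zero_iff (hF : Mor q F) {U P : Fin 2 → Ω} (hU : U ≠ 0) (hP : P ≠ 0) :
    aeval P (lf F U) = 0 ↔ Prl (gAct F Ω P) U := by
  rw [lf_eval, prl_iff_det (hF.ne Ω P hP) hU]
  constructor
  · intro h; linear_combination h
  · intro h; linear_combination h

/-- every point has a preimage -/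
theorem pre_exists [IsAlgClosed Ω] (hq : 1 ≤ q) (hF : Mor q F) {U : Fin 2 → Ω} (hU : U ≠ 0) :
    ∃ P : Fin 2 → Ω, P ≠ 0 ∧ Prl (gAct F Ω P) U := by
  obtain ⟨P, hP, h⟩ := J19.form_zero (K := Ω) (N := Ω) q hq (lf F U) (lf_hom hF.hom U)
  exact ⟨P, hP, (lf_zero_iff hF hU hP).1 h⟩

theorem pre_exists_iter [IsAlgClosed Ω] (hq : 1 ≤ q) (hF : Mor q F) {U : Fin 2 → Ω}
    (hU : U ≠ 0) (n : ℕ) : ∃ P : Fin 2 → Ω, P ≠ 0 ∧ Prl ((gAct F Ω)^[n] P) U := by
  induction n with
  | zero => exact ⟨U, hU, prl_refl U⟩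
  | succ n ih =>
    obtain ⟨P, hP, h⟩ := ih
    obtain ⟨Q, hQ, h'⟩ := pre_exists hq hF hP
    refine ⟨Q, hQ, ?_⟩
    rw [Function.iterate_succ_apply]
    exact prl_trans (prl_iter hF.hom h' n) h

/-- a second vector -/
theorem exists_ind {U : Fin 2 → Ω} (hU : U ≠ 0) : ∃ V : Fin 2 → Ω, U 0 * V 1 - U 1 * V 0 ≠ 0 := by
  rcases ne_zero_iff.1 hU with h | h
  · exact ⟨![0, 1], by simpa using h⟩
  · exact ⟨![1, 0], by simpa using h⟩

/-- a point which is not critical is not the only point with its image -/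
theorem pre_other [IsAlgClosed Ω] [CharZero Ω] (hq : 2 ≤ q) (hF : Mor q F) {P : Fin 2 → Ω}
    (hP : P ≠ 0) (hJ : aeval P (Jac F) ≠ 0) :
    ∃ Q : Fin 2 → Ω, Q ≠ 0 ∧ Prl (gAct F Ω Q) (gAct F Ω P) ∧ ¬ Prl Q P := by
  by_contra hcon
  push Not at hcon
  obtain ⟨V, hV⟩ := exists_ind hP
  set y := gAct F Ω P with hy
  have hy0 : y ≠ 0 := hF.ne Ω P hP
  set H := lf F y with hH
  -- `H(V + T P)` has no zero
  set L : Fin 2 → Polynomial Ω := fun i => Polynomial.C (V i) + Polynomial.C (P i) * Polynomial.X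
    with hL
  have hLev : ∀ t : Ω, (fun i => (L i).eval t) = V + t • P := by
    intro t
    funext i
    simp only [hL, Polynomial.eval_add, Polynomial.eval_C, Polynomial.eval_mul, Polynomial.eval_X,
      Pi.add_apply, Pi.smul_apply, smul_eq_mul]
    ring
  have hnz : ∀ s t : Ω, s ≠ 0 → s • V + t • P ≠ 0 ∧ ¬ Prl (s • V + t • P) P := by
    intro s t hs
    have h1 : ¬ Prl (s • V + t • P) P := by
      rintro ⟨c, hc, h⟩
      have h0 := congrFun h 0
      have h1 := congrFun h 1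
      simp only [Pi.add_apply, Pi.smul_apply, smul_eq_mul] at h0 h1
      apply hV
      have : s * (P 0 * V 1 - P 1 * V 0) = 0 := by linear_combination P 0 * h1 - P 1 * h0
      exact (mul_eq_zero.1 this).resolve_left hs
    refine ⟨fun h0 => ?_, h1⟩
    have h2 := congrFun h0 0
    have h3 := congrFun h0 1
    simp only [Pi.add_apply, Pi.smul_apply, smul_eq_mul, Pi.zero_apply] at h2 h3
    apply hV
    have : s * (P 0 * V 1 - P 1 * V 0) = 0 := by linear_combination P 0 * h3 - P 1 * h2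
    exact (mul_eq_zero.1 this).resolve_left hs
  have hne : ∀ s t : Ω, s ≠ 0 → aeval (s • V + t • P) H ≠ 0 := by
    intro s t hs h
    obtain ⟨h1, h2⟩ := hnz s t hs
    exact h2 (hcon _ h1 ((lf_zero_iff hF hy0 h1).1 h))
  have hroot : ∀ t : Ω, ¬ (aeval L H).IsRoot t := by
    intro t ht
    have h1 : (aeval L H).eval t = 0 := ht
    rw [J19.eval_aeval, hLev] at h1
    exact hne 1 t one_ne_zero (by rw [one_smul]; exact h1)
  have hdeg : (aeval L H : Polynomial Ω).degree = 0 := by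
    by_contra h
    obtain ⟨t, ht⟩ := IsAlgClosed.exists_root _ h
    exact hroot t ht
  obtain ⟨c, hc⟩ : ∃ c, (aeval L H : Polynomial Ω) = Polynomial.C c :=
    ⟨_, Polynomial.eq_C_of_degree_eq_zero hdeg⟩
  have hval : ∀ t : Ω, aeval (V + t • P) H = c := by
    intro t
    rw [← hLev, ← J19.eval_aeval, hc, Polynomial.eval_C]
  -- `H(P + s V) = c s ^ q`
  set M : Fin 2 → Polynomial Ω := fun i => Polynomial.C (P i) + Polynomial.C (V i) * Polynomial.X
    with hM
  have hMev : ∀ s : Ω, (fun i => (M i).eval s) = s • V + P := by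
    intro s
    funext i
    simp only [hM, Polynomial.eval_add, Polynomial.eval_C, Polynomial.eval_mul, Polynomial.eval_X,
      Pi.add_apply, Pi.smul_apply, smul_eq_mul]
    ring
  have hhom : ∀ (x : Ω) (v : Fin 2 → Ω), aeval (x • v) H = x ^ q * aeval v H := by
    intro x v
    have h := congrFun (gAct_smul (K := Ω) (fun _ : Fin 2 => H) (fun _ => lf_hom hF.hom y) x v) 0
    simpa [gAct] using h
  have hz : aeval M H - Polynomial.C c * Polynomial.X ^ q = 0 := by
    refine Polynomial.eq_zero_of_infinite_isRoot _ ?_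
    refine Set.Infinite.mono (s := ({0}ᶜ : Set Ω)) ?_ ?_
    · intro s hs
      have hs' : s ≠ 0 := hs
      have h3 : (aeval M H - Polynomial.C c * Polynomial.X ^ q).eval s = 0 := by
        rw [Polynomial.eval_sub, J19.eval_aeval, hMev]
        have h2 : s • V + P = s • (V + s⁻¹ • P) := by
          rw [smul_add, smul_smul, mul_inv_cancel₀ hs', one_smul]
        rw [h2, hhom, hval]
        simp only [Polynomial.eval_mul, Polynomial.eval_C, Polynomial.eval_pow, Polynomial.eval_X]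
        ring
      exact h3
    · have : Infinite Ω := IsAlgClosed.instInfinite
      exact (Set.finite_singleton (0 : Ω)).infinite_compl
  have hder : (Polynomial.derivative (aeval M H : Polynomial Ω)).eval 0 = 0 := by
    rw [sub_eq_zero] at hz
    rw [hz, Polynomial.derivative_C_mul, Polynomial.derivative_X_pow]
    simp only [Polynomial.eval_mul, Polynomial.eval_C, Polynomial.eval_pow, Polynomial.eval_X]
    rw [zero_pow (by omega), mul_zero, mul_zero]
  -- the derivative in terms of the partial derivatives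
  rw [J19.deriv_aeval, Fin.sum_univ_two] at hder
  simp only [Polynomial.eval_add, Polynomial.eval_mul, J19.eval_aeval] at hder
  have hM0 : (fun i => (M i).eval 0) = P := by
    rw [hMev, zero_smul, zero_add]
  have hd : ∀ i, (Polynomial.derivative (M i)).eval 0 = V i := by
    intro i
    simp [hM]
  rw [hM0, hd, hd] at hder
  have hp : ∀ i, aeval P (pderiv i H) =
      y 1 * aeval P (pderiv i (F 0)) - y 0 * aeval P (pderiv i (F 1)) := by
    intro i
    rw [hH, lf, map_sub, pderiv_C_mul, pderiv_C_mul, pderiv_map, pderiv_map]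
    simp only [map_sub, map_mul, algHom_C, aeval_map_eq]
    rfl
  rw [hp, hp] at hder
  have e0 := congrArg (fun f => aeval P f) ((hF.hom 0).sum_X_mul_pderiv)
  have e1 := congrArg (fun f => aeval P f) ((hF.hom 1).sum_X_mul_pderiv)
  simp only [Fin.sum_univ_two, map_add, map_mul, aeval_X, nsmul_eq_mul, map_natCast] at e0 e1
  have hy0' : aeval P (F 0) = y 0 := rfl
  have hy1' : aeval P (F 1) = y 1 := rfl
  rw [hy0'] at e0
  rw [hy1'] at e1
  apply hJ
  have h7 : (P 0 * V 1 - P 1 * V 0) * aeval P (Jac F) = 0 := by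
    simp only [Jac, map_sub, map_mul]
    linear_combination (aeval P (pderiv 0 (F 1)) * V 0 + aeval P (pderiv 1 (F 1)) * V 1) * e0 -
      (aeval P (pderiv 0 (F 0)) * V 0 + aeval P (pderiv 1 (F 0)) * V 1) * e1 - (q : Ω) * hder
  exact (mul_eq_zero.1 h7).resolve_left hV

/-- preimages of a point which is not periodic are not periodic -/
theorem nper_pre (hF : ∀ i, (F i).IsHomogeneous q) {U P : Fin 2 → Ω} {e : ℕ}
    (h : Prl ((gAct F Ω)^[e] P) U)
    (hU : ∀ k : ℕ, 0 < k → ¬ Prl ((gAct F Ω)^[k] U) U) (k : ℕ) (hk : 0 < k) :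
    ¬ Prl ((gAct F Ω)^[k] P) P := by
  intro hP
  apply hU k hk
  have h1 : Prl ((gAct F Ω)^[k] U) ((gAct F Ω)^[k] ((gAct F Ω)^[e] P)) :=
    prl_iter hF (prl_symm h) k
  have h2 : Prl ((gAct F Ω)^[k] ((gAct F Ω)^[e] P)) ((gAct F Ω)^[e] P) := by
    rw [← Function.iterate_add_apply, add_comm, Function.iterate_add_apply]
    exact prl_iter hF hP e
  exact prl_trans h1 (prl_trans h2 h)

/-- iterates of a periodic point -/
theorem per_mul (hF : ∀ i, (F i).IsHomogeneous q) {U : Fin 2 → Ω} {k : ℕ}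
    (h : Prl ((gAct F Ω)^[k] U) U) (l : ℕ) : Prl ((gAct F Ω)^[k * l] U) U := by
  induction l with
  | zero => exact prl_refl U
  | succ l ih =>
    rw [Nat.mul_succ, Function.iterate_add_apply]
    exact prl_trans (prl_iter hF h (k * l)) ih

/-- every point has at every level `e ≥ 1` preimages which are not periodic, if no critical point
is periodic -/
theorem npre [IsAlgClosed Ω] [CharZero Ω] (hq : 2 ≤ q) (hF : Mor q F)
    (hc : ∀ U : Fin 2 → Ω, U ≠ 0 → aeval U (Jac F) = 0 →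
      ∀ k : ℕ, 0 < k → ¬ Prl ((gAct F Ω)^[k] U) U) {U : Fin 2 → Ω} (hU : U ≠ 0) (e : ℕ)
    (he : 1 ≤ e) : ∃ P : Fin 2 → Ω, P ≠ 0 ∧ (∀ k : ℕ, 0 < k → ¬ Prl ((gAct F Ω)^[k] P) P) ∧
      Prl ((gAct F Ω)^[e] P) U := by
  by_cases hU' : ∀ k : ℕ, 0 < k → ¬ Prl ((gAct F Ω)^[k] U) U
  · obtain ⟨P, hP, h⟩ := pre_exists_iter (by omega) hF hU e
    exact ⟨P, hP, nper_pre hF.hom h hU', h⟩
  · push Not at hU'
    obtain ⟨k, hk, hper⟩ := hU'
    obtain ⟨k, rfl⟩ : ∃ j, k = j + 1 := ⟨k - 1, by omega⟩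
    -- the periodic preimage
    set z := (gAct F Ω)^[k] U with hz
    have hz0 : z ≠ 0 := iter_ne hF hU k
    have hFz : Prl (gAct F Ω z) U := by
      have : gAct F Ω z = (gAct F Ω)^[k + 1] U := by rw [Function.iterate_succ_apply', hz]
      rw [this]; exact hper
    have hzper : Prl ((gAct F Ω)^[k + 1] z) z := by
      rw [hz, ← Function.iterate_add_apply, add_comm, Function.iterate_add_apply]
      exact prl_iter hF.hom hper k
    have hzJ : aeval z (Jac F) ≠ 0 := fun h => hc z hz0 h (k + 1) (by omega) hzper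
    obtain ⟨Q, hQ, hQ1, hQ2⟩ := pre_other hq hF hz0 hzJ
    have hQU : Prl ((gAct F Ω)^[1] Q) U := prl_trans hQ1 hFz
    have hQn : ∀ l : ℕ, 0 < l → ¬ Prl ((gAct F Ω)^[l] Q) Q := by
      intro l hl hQl
      apply hQ2
      obtain ⟨l, rfl⟩ : ∃ j, l = j + 1 := ⟨l - 1, by omega⟩
      have h1 : Prl ((gAct F Ω)^[(l + 1) * (k + 1)] Q) Q := per_mul hF.hom hQl (k + 1)
      have h2 : (l + 1) * (k + 1) = (k + (k + 1) * l) + 1 := by ring
      rw [h2, Function.iterate_add_apply] at h1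
      have h3 : Prl ((gAct F Ω)^[k + (k + 1) * l] ((gAct F Ω)^[1] Q))
          ((gAct F Ω)^[k + (k + 1) * l] U) := prl_iter hF.hom hQU _
      have h4 : Prl ((gAct F Ω)^[k + (k + 1) * l] U) z := by
        rw [Function.iterate_add_apply]
        exact prl_iter hF.hom (per_mul hF.hom hper l) k
      exact prl_trans (prl_symm h1) (prl_trans h3 h4)
    obtain ⟨P, hP, h⟩ := pre_exists_iter (by omega) hF hQ (e - 1)
    refine ⟨P, hP, nper_pre hF.hom h hQn, ?_⟩
    have h5 : e = 1 + (e - 1) := by omega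
    rw [h5, Function.iterate_add_apply]
    exact prl_trans (prl_iter hF.hom h 1) hQU

end N19

end Pool.DynLehmer.GS
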