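import Pool.Agent.Lib.MP_2194ec_nt.GAL.R.Bas
import Pool.Agent.Lib.MP_2194ec_nt.GAL.R.Deg

set_option autoImplicit false

/-!
# Row PRE: the number of preimages
-/

namespace Pool.DynLehmer.GS

open MvPolynomial NumberField Pool.DynLehmer
open scoped Classical

namespace PRE

/-- The value at infinity is the coefficient of the top degree. -/
theorem aeval_inf {K : Type} [Field K] {N : Type} [Field N] [Algebra K N] {d : ℕ}
    {H : MvPolynomial (Fin 2) K} (hH : H.IsHomogeneous d) :
    aeval ![(1 : N), 0] H = (DEG.pol1 N H).coeff d := by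
  unfold DEG.pol1
  rw [aeval_def, eval₂_eq', aeval_def, eval₂_eq', Polynomial.finsetSum_coeff]
  refine Finset.sum_congr rfl fun t ht => ?_
  have h1 : t 0 + t 1 = d := by
    have h := hH (mem_support_iff.1 ht)
    have h2 : t.degree = d := by
      rw [Finsupp.degree_eq_weight_one]
      exact h
    rw [Finsupp.degree_eq_sum, Fin.sum_univ_two] at h2
    exact h2
  rw [Fin.prod_univ_two, Fin.prod_univ_two]
  simp only [Matrix.cons_val_zero, Matrix.cons_val_one, one_pow, mul_one, one_mul]
  rw [IsScalarTower.algebraMap_apply K N (Polynomial N), Polynomial.algebraMap_eq,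
    Polynomial.coeff_C_mul, Polynomial.coeff_X_pow]
  by_cases h0 : t 1 = 0
  · have h3 : d = t 0 := by omega
    rw [h0, pow_zero, if_pos h3]
  · have h3 : ¬ d = t 0 := by omega
    rw [zero_pow h0, if_neg h3]

/-- A form of positive degree in two variables has a zero over an algebraically closed field. -/
theorem exists_zero {K : Type} [Field K] {N : Type} [Field N] [Algebra K N] [IsAlgClosed N]
    {d : ℕ} (hd : 1 ≤ d) {H : MvPolynomial (Fin 2) K} (hH : H.IsHomogeneous d) :
    ∃ P : Fin 2 → N, P ≠ 0 ∧ aeval P H = 0 := by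
  by_cases h0 : (DEG.pol1 N H).degree = 0
  · refine ⟨![1, 0], ?_, ?_⟩
    · intro h
      have := congrFun h 0
      simp at this
    · rw [aeval_inf hH]
      refine Polynomial.coeff_eq_zero_of_degree_lt ?_
      rw [h0]
      exact_mod_cast hd
  · obtain ⟨T, hT⟩ := IsAlgClosed.exists_root _ h0
    refine ⟨![T, 1], ?_, ?_⟩
    · intro h
      have := congrFun h 1
      simp at this
    · have h1 := DEG.aeval_pol1 (N := N) N T H
      rw [← h1, Polynomial.coe_aeval_eq_eval]
      exact hT

theorem one_step (root : RootStatement) (K N : Type) [Field K] [Field N] [Algebra K N] (q : ℕ)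
    (F : Fin 2 → MvPolynomial (Fin 2) K) (hq : 1 ≤ q) (hF : Mor q F) (U : Fin 2 → N)
    (hU : U ≠ 0) :
    ∃ Z : Finset (Option N), Z.card ≤ q ∧
      ∀ P : Fin 2 → N, P ≠ 0 → Prl (gAct F N P) U → pr P ∈ Z := by
  have hev : ∀ (M : Type) [Field M] [Algebra K M] [Algebra N M] [IsScalarTower K N M]
      (P : Fin 2 → M), aeval P (C (U 1) * map (algebraMap K N) (F 0) -
        C (U 0) * map (algebraMap K N) (F 1)) =
        algebraMap N M (U 1) * gAct F M P 0 - algebraMap N M (U 0) * gAct F M P 1 := by
    intro M _ _ _ _ P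
    rw [map_sub, map_mul, map_mul, aeval_C, aeval_C, aeval_map_algebraMap, aeval_map_algebraMap]
    rfl
  have hhom : (C (U 1) * map (algebraMap K N) (F 0) -
      C (U 0) * map (algebraMap K N) (F 1)).IsHomogeneous q := by
    have h1 := (isHomogeneous_C (Fin 2) (U 1)).mul ((hF.hom 0).map (algebraMap K N))
    have h2 := (isHomogeneous_C (Fin 2) (U 0)).mul ((hF.hom 1).map (algebraMap K N))
    rw [zero_add] at h1 h2
    exact h1.sub h2
  have hne : C (U 1) * map (algebraMap K N) (F 0) - C (U 0) * map (algebraMap K N) (F 1) ≠ 0 := by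
    intro h0
    have h1 : ∀ P : Fin 2 → AlgebraicClosure N,
        algebraMap N (AlgebraicClosure N) (U 1) * gAct F (AlgebraicClosure N) P 0 =
        algebraMap N (AlgebraicClosure N) (U 0) * gAct F (AlgebraicClosure N) P 1 := by
      intro P
      have h2 := hev (AlgebraicClosure N) P
      rw [h0, map_zero] at h2
      exact sub_eq_zero.1 h2.symm
    have hinj : ∀ x : N, x ≠ 0 → algebraMap N (AlgebraicClosure N) x ≠ 0 := fun x hx h =>
      hx ((map_eq_zero _).1 h)
    by_cases hu : U 0 = 0
    · have hu1 : U 1 ≠ 0 := by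
        intro h
        apply hU
        funext i
        fin_cases i
        · exact hu
        · exact h
      obtain ⟨P, hP, hP0⟩ := exists_zero (N := AlgebraicClosure N) hq (hF.hom 1)
      refine hF.ne (AlgebraicClosure N) P hP ?_
      have h3 := h1 P
      rw [hu, map_zero, zero_mul] at h3
      funext i
      fin_cases i
      · exact (mul_eq_zero.1 h3).resolve_left (hinj _ hu1)
      · exact hP0
    · obtain ⟨P, hP, hP0⟩ := exists_zero (N := AlgebraicClosure N) hq (hF.hom 0)
      refine hF.ne (AlgebraicClosure N) P hP ?_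
      have h3 := h1 P
      have h4 : gAct F (AlgebraicClosure N) P 0 = 0 := hP0
      rw [h4, mul_zero] at h3
      funext i
      fin_cases i
      · exact hP0
      · exact (mul_eq_zero.1 h3.symm).resolve_left (hinj _ hu)
  obtain ⟨Z, hZ, hZ'⟩ := root N N q _ hne hhom
  refine ⟨Z, hZ, fun P hP hPU => hZ' P hP ?_⟩
  rw [hev N P]
  obtain ⟨c, hc, h⟩ := hPU
  rw [h]
  simp only [Pi.smul_apply, smul_eq_mul, Algebra.algebraMap_self, RingHom.id_apply]
  ring

end PRE

/-- Row PRE. -/
theorem pre (root : RootStatement) : PreStatement := by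
  intro K N _ _ _ q F hq hF U hU m
  obtain ⟨Z, hZ, hZ'⟩ := PRE.one_step root K N (q ^ m) (itF F m) (Nat.one_le_pow _ _ hq)
    (Bas.mor_itF hF m) U hU
  refine ⟨Z, hZ, fun P hP hPU => hZ' P hP ?_⟩
  rw [Bas.gAct_itF]
  exact hPU

end Pool.DynLehmer.GS
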