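import Pool.Agent.Lib.MP_2194ec_nt.GAL.R.Defs

set_option autoImplicit false

/-!
# Row ROOT: a form of degree `d` in two variables has at most `d` zeros
-/

namespace Pool.DynLehmer.GS
open MvPolynomial

namespace RootA

variable {K : Type} [Field K]

/-- The polynomial `R(X, 1)` of a form. -/
noncomputable def dh (R : MvPolynomial (Fin 2) K) : Polynomial K :=
  aeval ![Polynomial.X, 1] R

theorem homogenize_dh {d : ℕ} {R : MvPolynomial (Fin 2) K} (h : R.IsHomogeneous d) :
    (dh R).homogenize d = R := Polynomial.homogenize_eq_of_isHomogeneous h rfl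

theorem natDegree_dh {d : ℕ} {R : MvPolynomial (Fin 2) K} (h : R.IsHomogeneous d) :
    (dh R).natDegree ≤ d := by
  rw [dh, aeval_def, eval₂_eq']
  refine Polynomial.natDegree_sum_le_of_forall_le _ _ fun t ht => ?_
  have h1 : t 0 + t 1 = d := by
    have h2 := h (mem_support_iff.1 ht)
    rwa [Finsupp.weight_apply, Finsupp.sum_fintype _ _ (fun _ => by simp), Fin.sum_univ_two,
      Pi.one_apply, Pi.one_apply, smul_eq_mul, smul_eq_mul, mul_one, mul_one] at h2
  rw [Fin.prod_univ_two]
  simp only [Matrix.cons_val_zero, Matrix.cons_val_one, one_pow, mul_one]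
  refine (Polynomial.natDegree_mul_le).trans ?_
  rw [Polynomial.algebraMap_apply, Algebra.algebraMap_self, RingHom.id_apply,
    Polynomial.natDegree_C, Polynomial.natDegree_X_pow, zero_add]
  omega

theorem dh_ne {d : ℕ} {R : MvPolynomial (Fin 2) K} (h : R.IsHomogeneous d) (h0 : R ≠ 0) :
    dh R ≠ 0 := by
  intro h1
  refine h0 ?_
  rw [← homogenize_dh h, h1, Polynomial.homogenize_zero]

/-- The value of a homogenization at a point at infinity. -/
theorem eval_inf {d : ℕ} (p : Polynomial K) (P : Fin 2 → K) (hP : P 1 = 0) :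
    eval P (p.homogenize d) = p.coeff d * P 0 ^ d := by
  rw [Polynomial.homogenize, map_sum, Finset.sum_eq_single (d, 0)]
  · rw [eval_monomial, Finsupp.prod_fintype _ _ (fun _ => pow_zero _), Fin.prod_univ_two]
    simp
  · rintro ⟨a, b⟩ h h1
    rw [Finset.HasAntidiagonal.mem_antidiagonal] at h
    have hb : b ≠ 0 := by
      rintro rfl
      exact h1 (by rw [← h]; rfl)
    rw [eval_monomial, Finsupp.prod_fintype _ _ (fun _ => pow_zero _), Fin.prod_univ_two, hP]
    simp [hb]
  · intro h
    exact absurd (Finset.HasAntidiagonal.mem_antidiagonal.2 (add_zero d)) h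

end RootA

open RootA in
theorem root_same (N : Type) [Field N] (d : ℕ) (R : MvPolynomial (Fin 2) N) (h0 : R ≠ 0)
    (h : R.IsHomogeneous d) : ∃ Z : Finset (Option N), Z.card ≤ d ∧
      ∀ P : Fin 2 → N, P ≠ 0 → eval P R = 0 → pr P ∈ Z := by
  classical
  have hd := natDegree_dh h
  have hne := dh_ne h h0
  have hfin : ∀ P : Fin 2 → N, P 1 ≠ 0 → eval P R = 0 → P 0 / P 1 ∈ (dh R).roots := by
    intro P hP hR
    rw [← homogenize_dh h, Polynomial.eval_homogenize hd P hP] at hR
    rw [Polynomial.mem_roots hne]
    exact (mul_eq_zero.1 hR).resolve_right (pow_ne_zero _ hP)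
  have hc1 : ((dh R).roots.toFinset.image some).card ≤ (dh R).natDegree :=
    Finset.card_image_le.trans ((Multiset.toFinset_card_le _).trans (Polynomial.card_roots' _))
  by_cases hcd : (dh R).coeff d = 0
  · refine ⟨insert none ((dh R).roots.toFinset.image some), ?_, fun P _ hR => ?_⟩
    · have h1 : (dh R).natDegree < d := by
        refine lt_of_le_of_ne hd fun h2 => hne ?_
        rw [← h2] at hcd
        exact Polynomial.leadingCoeff_eq_zero.1 hcd
      exact (Finset.card_insert_le _ _).trans (by omega)
    · rw [pr]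
      split_ifs with hP1
      · exact Finset.mem_insert_self _ _
      · exact Finset.mem_insert_of_mem (Finset.mem_image_of_mem _
          (Multiset.mem_toFinset.2 (hfin P hP1 hR)))
  · refine ⟨(dh R).roots.toFinset.image some, hc1.trans hd, fun P hP hR => ?_⟩
    rw [pr]
    split_ifs with hP1
    · exfalso
      rw [← homogenize_dh h, eval_inf _ _ hP1] at hR
      have h2 : P 0 = 0 := by
        by_contra h3
        exact mul_ne_zero hcd (pow_ne_zero _ h3) hR
      refine hP (funext fun i => ?_)
      fin_cases i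
      · exact h2
      · exact hP1
    · exact Finset.mem_image_of_mem _ (Multiset.mem_toFinset.2 (hfin P hP1 hR))

/-- Row ROOT. -/
theorem root : RootStatement := by
  intro K N _ _ _ d R h0 h
  obtain ⟨Z, hZ, hZ'⟩ := root_same N d (map (algebraMap K N) R)
    (fun h1 => h0 (map_injective _ (algebraMap K N).injective (by rw [h1, map_zero])))
    (h.map _)
  refine ⟨Z, hZ, fun P hP hR => hZ' P hP ?_⟩
  rwa [eval_map, ← aeval_def]

end Pool.DynLehmer.GS
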