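import Pool.Agent.Lib.MP_2194ec_nt.GAL.R.Defs

/-!
# The extension of `F × F` to the space of dimension 3
-/

set_option autoImplicit false

namespace Pool.DynLehmer.GS
open MvPolynomial NumberField Filter Topology Pool.DynLehmer Pool.DynLehmer.SB Pool.DynLehmer.SP
  Pool.DynLehmer.GAL
open scoped Classical

theorem segH : SegHStatement := by
  intro N _ _ P P'
  by_cases hP : P = 0
  · have e : seg P P' = 0 := by
      funext i
      simp [seg, hP]
    rw [e, Height.logHeight_zero]
    exact add_nonneg (Height.logHeight_nonneg _) (Height.logHeight_nonneg _)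
  by_cases hP' : P' = 0
  · have e : seg P P' = 0 := by
      funext i
      simp [seg, hP']
    rw [e, Height.logHeight_zero]
    exact add_nonneg (Height.logHeight_nonneg _) (Height.logHeight_nonneg _)
  exact (Height.logHeight_fun_mul_eq hP hP').le

/-- the exponent `(a, q - a)` -/
noncomputable def ex (q a : ℕ) : Fin 2 →₀ ℕ := Finsupp.equivFunOnFinite.symm ![a, q - a]

theorem ex_zero (q a : ℕ) : ex q a 0 = a := rfl

theorem ex_one (q a : ℕ) : ex q a 1 = q - a := rfl

/-- the values of the exponent of the product -/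
def nwf (q a b : ℕ) : Fin 2 × Fin 2 → ℕ := fun i =>
  if i = (0, 0) then min a b else if i = (0, 1) then a - b else if i = (1, 0) then b - a
    else q - max a b

/-- the exponent of the product -/
noncomputable def nw (q a b : ℕ) : Fin 2 × Fin 2 →₀ ℕ := Finsupp.equivFunOnFinite.symm (nwf q a b)

theorem nw_00 (q a b : ℕ) : nw q a b (0, 0) = min a b := by
  change nwf q a b (0, 0) = _
  simp [nwf]

theorem nw_01 (q a b : ℕ) : nw q a b (0, 1) = a - b := by
  change nwf q a b (0, 1) = _
  simp [nwf]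

theorem nw_10 (q a b : ℕ) : nw q a b (1, 0) = b - a := by
  change nwf q a b (1, 0) = _
  simp [nwf]

theorem nw_11 (q a b : ℕ) : nw q a b (1, 1) = q - max a b := by
  change nwf q a b (1, 1) = _
  simp [nwf]

theorem sum4 {M : Type} [AddCommMonoid M] (f : Fin 2 × Fin 2 → M) :
    ∑ i, f i = f (0, 0) + f (0, 1) + (f (1, 0) + f (1, 1)) := by
  rw [Fintype.sum_prod_type, Fin.sum_univ_two, Fin.sum_univ_two, Fin.sum_univ_two]

theorem prod4 {M : Type} [CommMonoid M] (f : Fin 2 × Fin 2 → M) :
    ∏ i, f i = f (0, 0) * f (0, 1) * (f (1, 0) * f (1, 1)) := by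
  rw [Fintype.prod_prod_type, Fin.prod_univ_two, Fin.prod_univ_two, Fin.prod_univ_two]

theorem nw_inj {q a b a' b' : ℕ} (h : nw q a b = nw q a' b') : a = a' ∧ b = b' := by
  have h0 := DFunLike.congr_fun h (0, 0)
  have h1 := DFunLike.congr_fun h (0, 1)
  have h2 := DFunLike.congr_fun h (1, 0)
  rw [nw_00, nw_00] at h0
  rw [nw_01, nw_01] at h1
  rw [nw_10, nw_10] at h2
  omega

section

variable {K : Type} [Field K]

/-- a form in two variables is the sum of its monomials -/
theorem form_eq {q : ℕ} {f : MvPolynomial (Fin 2) K} (hf : f.IsHomogeneous q) :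
    f = ∑ a ∈ Finset.range (q + 1), monomial (ex q a) (coeff (ex q a) f) := by
  ext t
  rw [coeff_sum]
  simp only [coeff_monomial]
  by_cases ht : coeff t f = 0
  · rw [ht]
    symm
    refine Finset.sum_eq_zero fun a _ => ?_
    split_ifs with h
    · rw [h, ht]
    · rfl
  · have h1 := hf ht
    have h2 : t 0 + t 1 = q := by
      rw [Finsupp.weight_apply, Finsupp.sum_fintype _ _ (by simp)] at h1
      simpa using h1
    have h3 : ex q (t 0) = t := by
      ext i
      fin_cases i
      · exact ex_zero q _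
      · change ex q (t 0) 1 = t 1
        rw [ex_one]
        omega
    rw [Finset.sum_eq_single (t 0)]
    · rw [if_pos h3, h3]
    · intro a _ ha
      refine if_neg fun h => ha ?_
      rw [← h, ex_zero]
    · intro h
      exact absurd (Finset.mem_range.mpr (by omega)) h

/-- the extension of `F × F` -/
noncomputable def Fz (q : ℕ) (F : Fin 2 → MvPolynomial (Fin 2) K) (i : Fin 2 × Fin 2) :
    MvPolynomial (Fin 2 × Fin 2) K :=
  ∑ a ∈ Finset.range (q + 1), ∑ b ∈ Finset.range (q + 1),
    monomial (nw q a b) (coeff (ex q a) (F i.1) * coeff (ex q b) (F i.2))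

theorem coeff_Fz_nw (q : ℕ) (F : Fin 2 → MvPolynomial (Fin 2) K) (i : Fin 2 × Fin 2) {a b : ℕ}
    (ha : a ≤ q) (hb : b ≤ q) :
    coeff (nw q a b) (Fz q F i) = coeff (ex q a) (F i.1) * coeff (ex q b) (F i.2) := by
  unfold Fz
  rw [coeff_sum, Finset.sum_eq_single a]
  · rw [coeff_sum, Finset.sum_eq_single b]
    · rw [coeff_monomial, if_pos rfl]
    · intro b' _ hb'
      rw [coeff_monomial, if_neg fun h => hb' (nw_inj h).2]
    · intro h
      exact absurd (Finset.mem_range.mpr (by omega)) h
  · intro a' _ ha'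
    rw [coeff_sum]
    refine Finset.sum_eq_zero fun b' _ => ?_
    rw [coeff_monomial, if_neg fun h => ha' (nw_inj h).1]
  · intro h
    exact absurd (Finset.mem_range.mpr (by omega)) h

theorem coeff_Fz_ne (q : ℕ) (F : Fin 2 → MvPolynomial (Fin 2) K) (i : Fin 2 × Fin 2)
    {t : Fin 2 × Fin 2 →₀ ℕ} (h : coeff t (Fz q F i) ≠ 0) :
    ∃ a b : ℕ, a ≤ q ∧ b ≤ q ∧ t = nw q a b := by
  by_contra hc
  push Not at hc
  apply h
  unfold Fz
  rw [coeff_sum]
  refine Finset.sum_eq_zero fun a ha => ?_
  rw [coeff_sum]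
  refine Finset.sum_eq_zero fun b hb => ?_
  rw [coeff_monomial, if_neg]
  intro h'
  rw [Finset.mem_range] at ha hb
  exact hc a b (by omega) (by omega) h'.symm

theorem Fz_hom (q : ℕ) (F : Fin 2 → MvPolynomial (Fin 2) K) (i : Fin 2 × Fin 2) :
    (Fz q F i).IsHomogeneous q := by
  intro t ht
  obtain ⟨a, b, ha, hb, rfl⟩ := coeff_Fz_ne q F i ht
  rw [Finsupp.weight_apply, Finsupp.sum_fintype _ _ (by simp), sum4]
  simp only [Pi.one_apply, smul_eq_mul, mul_one, nw_00, nw_01, nw_10, nw_11]
  omega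

theorem Fz_ext {q : ℕ} {F : Fin 2 → MvPolynomial (Fin 2) K} (hF : ∀ i, (F i).IsHomogeneous q) :
    ExtS F (Fz q F) := by
  intro N _ _ P P'
  have h1 : ∀ (P : Fin 2 → N) (i : Fin 2), aeval P (F i) = ∑ a ∈ Finset.range (q + 1),
      algebraMap K N (coeff (ex q a) (F i)) * (P 0 ^ a * P 1 ^ (q - a)) := by
    intro P i
    conv_lhs => rw [form_eq (hF i)]
    rw [map_sum]
    refine Finset.sum_congr rfl fun a _ => ?_
    rw [aeval_monomial, Finsupp.prod_fintype _ _ (by simp), Fin.prod_univ_two, ex_zero, ex_one]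
  funext i
  change aeval (seg P P') (Fz q F i) = aeval P (F i.1) * aeval P' (F i.2)
  rw [h1, h1, Finset.sum_mul_sum]
  unfold Fz
  rw [map_sum]
  refine Finset.sum_congr rfl fun a ha => ?_
  rw [map_sum]
  refine Finset.sum_congr rfl fun b hb => ?_
  rw [Finset.mem_range] at ha hb
  rw [aeval_monomial, Finsupp.prod_fintype _ _ (by simp), prod4, nw_00, nw_01, nw_10, nw_11,
    map_mul]
  change _ * ((P 0 * P' 0) ^ min a b * (P 0 * P' 1) ^ (a - b) *
    ((P 1 * P' 0) ^ (b - a) * (P 1 * P' 1) ^ (q - max a b))) = _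
  simp only [mul_pow]
  have e1 : P 0 ^ a = P 0 ^ min a b * P 0 ^ (a - b) := by
    rw [← pow_add]; congr 1; omega
  have e2 : P 1 ^ (q - a) = P 1 ^ (b - a) * P 1 ^ (q - max a b) := by
    rw [← pow_add]; congr 1; omega
  have e3 : P' 0 ^ b = P' 0 ^ min a b * P' 0 ^ (b - a) := by
    rw [← pow_add]; congr 1; omega
  have e4 : P' 1 ^ (q - b) = P' 1 ^ (a - b) * P' 1 ^ (q - max a b) := by
    rw [← pow_add]; congr 1; omega
  rw [e1, e2, e3, e4]
  ring

/-- the pure powers -/
theorem ex_pure (q : ℕ) (j : Fin 2) : ex q (if j = 0 then q else 0) = Finsupp.single j q := by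
  ext i
  fin_cases j <;> fin_cases i
  · change ex q q 0 = _
    rw [ex_zero]
    simp
  · change ex q q 1 = _
    rw [ex_one]
    simp
  · change ex q 0 0 = _
    rw [ex_zero]
    simp
  · change ex q 0 1 = _
    rw [ex_one]
    simp

theorem nw_pure (q : ℕ) (j : Fin 2 × Fin 2) :
    nw q (if j.1 = 0 then q else 0) (if j.2 = 0 then q else 0) = Finsupp.single j q := by
  obtain ⟨j1, j2⟩ := j
  ext ⟨i1, i2⟩
  fin_cases j1 <;> fin_cases j2 <;> fin_cases i1 <;> fin_cases i2 <;>
    simp [nw_00, nw_01, nw_10, nw_11]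

end

theorem segR : SegStatement := by
  intro K _ _ p s v F h
  set q := p ^ s with hq
  have hint : ∀ i t, v (coeff t (F i)) ≤ 1 := h.int
  refine ⟨Fz q F, Fz_hom q F, ?_, ?_, ?_, Fz_ext h.hom⟩
  · intro i t
    by_cases h0 : coeff t (Fz q F i) = 0
    · rw [h0, map_zero]
      exact zero_le_one
    · obtain ⟨a, b, ha, hb, rfl⟩ := coeff_Fz_ne q F i h0
      rw [coeff_Fz_nw q F i ha hb, map_mul]
      exact mul_le_one₀ (hint _ _) (apply_nonneg v _) (hint _ _)
  · intro i t ht
    by_cases h0 : coeff t (Fz q F i) = 0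
    · rw [h0, map_zero]
      exact zero_lt_one
    · obtain ⟨a, b, ha, hb, rfl⟩ := coeff_Fz_ne q F i h0
      rw [coeff_Fz_nw q F i ha hb, map_mul]
      have key : ∀ c : ℕ, (∀ j : Fin 2, c ≠ if j = 0 then q else 0) → ∀ i',
          v (coeff (ex q c) (F i')) < 1 := by
        intro c hc i'
        refine h.red i' _ fun j hj => hc j ?_
        rw [← hq, ← ex_pure] at hj
        have := DFunLike.congr_fun hj 0
        rwa [ex_zero, ex_zero] at this
      by_cases h1 : ∃ j1 : Fin 2, a = if j1 = 0 then q else 0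
      · by_cases h2 : ∃ j2 : Fin 2, b = if j2 = 0 then q else 0
        · exfalso
          obtain ⟨j1, e1⟩ := h1
          obtain ⟨j2, e2⟩ := h2
          refine ht (j1, j2) ?_
          rw [← nw_pure, e1, e2]
        · push Not at h2
          calc v (coeff (ex q a) (F i.1)) * v (coeff (ex q b) (F i.2))
              ≤ 1 * v (coeff (ex q b) (F i.2)) :=
                mul_le_mul_of_nonneg_right (hint _ _) (apply_nonneg v _)
            _ < 1 := by rw [one_mul]; exact key b h2 _
      · push Not at h1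
        calc v (coeff (ex q a) (F i.1)) * v (coeff (ex q b) (F i.2))
            ≤ v (coeff (ex q a) (F i.1)) * 1 :=
              mul_le_mul_of_nonneg_left (hint _ _) (apply_nonneg v _)
          _ < 1 := by rw [mul_one]; exact key a h1 _
  · have e1 : (Matrix.of fun i j : Fin 2 × Fin 2 => coeff (Finsupp.single j q) (Fz q F i)) =
        Matrix.kroneckerMap (fun x y => x * y)
          (Matrix.of fun i j : Fin 2 => coeff (Finsupp.single j q) (F i))
          (Matrix.of fun i j : Fin 2 => coeff (Finsupp.single j q) (F i)) := by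
      ext i j
      change coeff (Finsupp.single j q) (Fz q F i) =
        coeff (Finsupp.single j.1 q) (F i.1) * coeff (Finsupp.single j.2 q) (F i.2)
      rw [← nw_pure, coeff_Fz_nw q F i (by split_ifs <;> omega) (by split_ifs <;> omega),
        ex_pure, ex_pure]
    rw [e1, Matrix.det_kronecker, map_mul, map_pow, h.det]
    simp

end Pool.DynLehmer.GS
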